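import Pool.Agent.H18.AR.Defs

set_option autoImplicit false

/-!
# Contractible ANE are AE, and metrizable AE are AR (chapter C2 of MP_5c3080_gt)

`ae_of_contr`. Let `k : X × I → X` be a contraction to `b` and `X` ANE. Let `Z` be metrizable,
`A` closed, `f` continuous on `A`. Get `V ⊇ A` open, `F` continuous on `V`, `F = f` on `A`.
`Z` is normal: open `V'` with `A ⊆ V'`, `closure V' ⊆ V` (`normal_exists_closure_subset`).
Urysohn (`exists_continuous_zero_one_of_isClosed`): `lam : Z → unitInterval` continuous,
`lam = 0` on `A`, `lam = 1` off `V'`. Put `F' z = k (F z, lam z)` for `z ∈ V` and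
`F' z = b` for `z ∉ V`. `F'` is continuous on the open `V` (composition) and on the open
`(closure V')ᶜ`, where it is the constant `b` (if `z ∈ V \ closure V'` then `lam z = 1`,
`k (F z, 1) = b`). These two open sets cover `Z`. On `A`: `k (f z, 0) = f z`.

`isAR_of_ae`. Let `i : X → Z` be a closed embedding, `Z` metrizable. `AE X` with
`A = range i` (closed) and `f = Function.invFun i` (or `Function.extend i id (fun _ => x0)`),
which is continuous on `range i` because `i` is an embedding: gives `r : Z → X` continuous with
`r (i x) = f (i x) = x`.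
-/

namespace Pool.Agent.H18.AR

open Set TopologicalSpace Metric

variable {X : Type} [TopologicalSpace X]

theorem ae_of_contr (h : ANE X) (hk : Contr X) : AE X := by
  classical
  obtain ⟨b, k, hkc, hk0, hk1⟩ := hk
  refine ⟨⟨b⟩, ?_⟩
  intro Z _ _ A f hA hf
  let _ := metrizableSpaceMetric Z
  obtain ⟨V, F, hV, hAV, hF, hFf⟩ := h Z A f hA hf
  obtain ⟨V', hV', hAV', hcl⟩ := normal_exists_closure_subset hA hV hAV
  have hdis : Disjoint A V'ᶜ := by
    rw [Set.disjoint_left]
    intro z hz hz'
    exact hz' (hAV' hz)
  obtain ⟨lam, hl0, hl1, hl01⟩ :=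
    exists_continuous_zero_one_of_isClosed hA (isClosed_compl_iff.mpr hV') hdis
  let mu : Z → unitInterval := fun z => ⟨lam z, hl01 z⟩
  have hmu : Continuous mu := Continuous.subtype_mk lam.continuous _
  have hmu0 : ∀ z ∈ A, mu z = 0 := by
    intro z hz
    apply Subtype.ext
    show lam z = 0
    exact hl0 hz
  have hmu1 : ∀ z, z ∉ V' → mu z = 1 := by
    intro z hz
    apply Subtype.ext
    show lam z = 1
    exact hl1 hz
  let F' : Z → X := fun z => if z ∈ V then k (F z, mu z) else b
  have e1 : EqOn F' (fun z => k (F z, mu z)) V := by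
    intro z hz
    simp only [F', if_pos hz]
  have e2 : EqOn F' (fun _ => b) (closure V')ᶜ := by
    intro z hz
    by_cases hzV : z ∈ V
    · have hz' : z ∉ V' := fun h => hz (subset_closure h)
      simp only [F', if_pos hzV, hmu1 z hz', hk1]
    · simp only [F', if_neg hzV]
  refine ⟨F', ?_, ?_⟩
  · rw [continuous_iff_continuousAt]
    intro z
    by_cases hz : z ∈ V
    · have hc : ContinuousOn F' V := by
        refine ContinuousOn.congr ?_ e1
        exact hkc.comp_continuousOn (hF.prodMk hmu.continuousOn)
      exact hc.continuousAt (hV.mem_nhds hz)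
    · have hz' : z ∈ (closure V')ᶜ := fun h => hz (hcl h)
      have hc : ContinuousOn F' (closure V')ᶜ := ContinuousOn.congr continuousOn_const e2
      exact hc.continuousAt (isClosed_closure.isOpen_compl.mem_nhds hz')
  · intro z hz
    have : F' z = k (F z, mu z) := e1 (hAV hz)
    rw [this, hmu0 z hz, hk0]
    exact hFf hz

theorem isAR_of_ae [MetrizableSpace X] (h : AE X) : IsAR X := by
  obtain ⟨hne, hext⟩ := h
  refine ⟨inferInstance, ?_⟩
  intro Z _ _ i hi
  have : Nonempty X := hne
  have hinj := hi.injective
  have hcont : ContinuousOn (Function.invFun i) (range i) := by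
    rw [continuousOn_iff_continuous_domRestrict]
    have hh := hi.toIsEmbedding
    rw [hh.continuous_iff]
    have : i ∘ (range i).domRestrict (Function.invFun i) = Subtype.val := by
      funext z
      obtain ⟨x, hx⟩ := z.2
      show i (Function.invFun i z.1) = z.1
      rw [← hx, Function.leftInverse_invFun hinj x]
    rw [this]
    exact continuous_subtype_val
  obtain ⟨F, hF, hFe⟩ := hext Z (range i) (Function.invFun i) hi.isClosed_range hcont
  refine ⟨F, hF, fun x => ?_⟩
  rw [hFe (mem_range_self x)]
  exact Function.leftInverse_invFun hinj x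

end Pool.Agent.H18.AR
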