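import Pool.Agent.H18.AR.CelD

set_option autoImplicit false

/-!
# Weak extension pairs: cubes, discrete unions, homeomorphisms (MP_5c3080_gt)

`wext_cube`: `n = 0`: `Cb 0` has one point (`Subsingleton`), so `f` itself is continuous.
`n = q + 1`: this is `Fil q`.

`wext_discrete`: `D` discrete, `WExt A` ==> `WExt {x : D × B | x.2 ∈ A}`: for each `d` extend
`fun b => f (d, b)` to `F_d` (continuous on `A` as the restriction of `f` along `b ↦ (d, b)`); put
`F (d, b) = F_d b`; continuous because `D` is discrete (`continuous_prod_of_discrete_left` or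
`continuous_iff_continuousAt` with the open set `{d} × B`).

`wext_homeo`: `e : B ≃ₜ B'`, `A' ⊆ B'`, `e b ∈ A' ↔ b ∈ A`, `WExt A` ==> `WExt A'`: extend
`f ∘ e` to `F`, take `F ∘ e.symm`.

`wext_sum`: `A ⊆ B`, `A' ⊆ B'`: `WExt A`, `WExt A'` ==> `WExt (Sum.elim A A' : B ⊕ B')`, stated with
`{x | (∃ a ∈ A, x = inl a) ∨ ∃ a ∈ A', x = inr a}`: extend on both summands, `Sum.elim`.

`cubeProd m k : Cb m × Cb k ≃ₜ Cb (m + k)`: `Fin.appendEquiv`, or
`(Homeomorph.sumArrowHomeomorphProdArrow).symm` followed by the reindexing by `finSumFinEquiv`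
(`Homeomorph.piCongrLeft`); `cubeProd_bd`: a point is in `Bd (m + k)` iff its first component is in
`Bd m` or the second one is in `Bd k` (`Cube.boundary`: some coordinate is `0` or `1`).
Give explicit definitions and prove the statement with `∃`.

`cubeSucc k : I × Cb k ≃ₜ Cb (k + 1)`: `Fin.cons` (`Homeomorph.piFinSuccAbove` or by hand with
`Fin.cons`, `Fin.tail`), boundary: first component `0` or `1`, or second in `Bd k`.
-/

namespace Pool.Agent.H18.AR

open Set TopologicalSpace Pool.H93.HU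

theorem wext_cube (n : ℕ) : WExt (Bd n) := by
  intro Z _ hZ f hf
  cases n with
  | zero => exact ⟨f, continuous_of_discreteTopology, fun x _ => rfl⟩
  | succ q =>
    obtain ⟨g, hg⟩ := hZ.2 q f hf
    exact ⟨g, g.continuous, fun y hy => hg y hy⟩

theorem wext_discrete {D B : Type} [TopologicalSpace D] [DiscreteTopology D] [TopologicalSpace B]
    {A : Set B} (h : WExt A) : WExt {x : D × B | x.2 ∈ A} := by
  intro Z _ hZ f hf
  have h1 : ∀ d : D, ContinuousOn (fun b => f (d, b)) A := fun d =>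
    hf.comp (Continuous.prodMk_right d).continuousOn fun b hb => hb
  have h2 : ∀ d : D, ∃ F : B → Z, Continuous F ∧ EqOn F (fun b => f (d, b)) A := fun d =>
    h Z hZ _ (h1 d)
  choose F hF1 hF2 using h2
  refine ⟨fun x => F x.1 x.2, ?_, fun x hx => hF2 x.1 hx⟩
  rw [continuous_prod_of_discrete_left]
  exact hF1

theorem wext_homeo {B B' : Type} [TopologicalSpace B] [TopologicalSpace B'] (e : B ≃ₜ B')
    {A : Set B} {A' : Set B'} (hA : ∀ b, e b ∈ A' ↔ b ∈ A) (h : WExt A) : WExt A' := by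
  intro Z _ hZ f hf
  obtain ⟨F, hF1, hF2⟩ := h Z hZ (fun b => f (e b))
    (hf.comp e.continuous.continuousOn fun b hb => (hA b).2 hb)
  refine ⟨fun b => F (e.symm b), hF1.comp e.symm.continuous, fun b hb => ?_⟩
  have h1 : e.symm b ∈ A := (hA _).1 (by rw [e.apply_symm_apply]; exact hb)
  show F (e.symm b) = f b
  rw [hF2 h1]
  show f (e (e.symm b)) = f b
  rw [e.apply_symm_apply]

theorem wext_sum {B B' : Type} [TopologicalSpace B] [TopologicalSpace B'] {A : Set B}
    {A' : Set B'} (h : WExt A) (h' : WExt A') :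
    WExt {x : B ⊕ B' | (∃ a ∈ A, x = Sum.inl a) ∨ ∃ a ∈ A', x = Sum.inr a} := by
  intro Z _ hZ f hf
  obtain ⟨F, hF1, hF2⟩ := h Z hZ (fun b => f (Sum.inl b))
    (hf.comp continuous_inl.continuousOn fun b hb => Or.inl ⟨b, hb, rfl⟩)
  obtain ⟨F', hF1', hF2'⟩ := h' Z hZ (fun b => f (Sum.inr b))
    (hf.comp continuous_inr.continuousOn fun b hb => Or.inr ⟨b, hb, rfl⟩)
  refine ⟨Sum.elim F F', hF1.sumElim hF1', ?_⟩
  rintro x (⟨a, ha, rfl⟩ | ⟨a, ha, rfl⟩)
  · exact hF2 ha
  · exact hF2' ha

theorem exists_cubeProd (m k : ℕ) :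
    ∃ e : Cb m × Cb k ≃ₜ Cb (m + k), ∀ x, e x ∈ Bd (m + k) ↔ (x.1 ∈ Bd m ∨ x.2 ∈ Bd k) := by
  refine ⟨Fin.appendHomeomorph m k, fun x => ?_⟩
  have h0 : Fin.appendHomeomorph m k x = Fin.append x.1 x.2 := rfl
  rw [h0]
  constructor
  · rintro ⟨i, hi⟩
    induction i using Fin.addCases with
    | left i =>
      rw [Fin.append_left] at hi
      exact Or.inl ⟨i, hi⟩
    | right i =>
      rw [Fin.append_right] at hi
      exact Or.inr ⟨i, hi⟩
  · rintro (⟨i, hi⟩ | ⟨i, hi⟩)
    · refine ⟨Fin.castAdd k i, ?_⟩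
      rw [Fin.append_left]
      exact hi
    · refine ⟨Fin.natAdd m i, ?_⟩
      rw [Fin.append_right]
      exact hi

theorem exists_cubeSucc (k : ℕ) :
    ∃ e : unitInterval × Cb k ≃ₜ Cb (k + 1),
      ∀ x, e x ∈ Bd (k + 1) ↔ ((x.1 = 0 ∨ x.1 = 1) ∨ x.2 ∈ Bd k) := by
  let e : unitInterval × Cb k ≃ₜ Cb (k + 1) :=
    { toFun := fun x => Fin.cons x.1 x.2
      invFun := fun y => (y 0, fun i => y i.succ)
      left_inv := fun x => rfl
      right_inv := fun y => by
        funext i
        refine Fin.cases ?_ (fun i => ?_) i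
        · rfl
        · rfl
      continuous_toFun := by
        refine continuous_pi fun i => ?_
        refine Fin.cases ?_ (fun i => ?_) i
        · exact continuous_fst
        · exact (continuous_apply i).comp continuous_snd
      continuous_invFun := by
        refine Continuous.prodMk (continuous_apply 0) ?_
        exact continuous_pi fun i => continuous_apply i.succ }
  refine ⟨e, fun x => ?_⟩
  have h0 : e x 0 = x.1 := rfl
  have h1 : ∀ i : Fin k, e x i.succ = x.2 i := fun i => rfl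
  constructor
  · rintro ⟨i, hi⟩
    induction i using Fin.cases with
    | zero =>
      rw [h0] at hi
      exact Or.inl hi
    | succ i =>
      rw [h1] at hi
      exact Or.inr ⟨i, hi⟩
  · rintro (hi | ⟨i, hi⟩)
    · refine ⟨0, ?_⟩
      rw [h0]
      exact hi
    · refine ⟨i.succ, ?_⟩
      rw [h1]
      exact hi

end Pool.Agent.H18.AR
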