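import Pool.Agent.H18.AR.Defs

set_option autoImplicit false

/-!
# Gluing of extensions (second half of Lemma G; chapter C2 of MP_5c3080_gt)

THEOREM. `Z` metrizable, `A0 ⊆ A` closed in `Z`, `O` open in `Z`, disjoint from `A0`, containing
`A \ A0`; `f : Z → X` continuous on `O ∪ A0`, `f z ∈ B` for `z ∈ A0`. `B ⊆ N ⊆ X`, `N` open,
`ANE B`; `d : X × I → X` continuous on `N × I`, `d (x, 0) = x` and `d (x, 1) ∈ B` for `x ∈ N`,
`d (b, t) = b` for `b ∈ B`. Then there are an open `V ⊇ A` and `F : Z → X` continuous on `V`,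
equal to `f` on `A`.

PROOF. If `A0 = ∅`: `V = O`, `F = f`. Let `a0 ∈ A0`. `Z` is normal (`letI := metrizableSpaceMetric`).
(1) `Z' = {z // z ∉ A0}` is metrizable, so normal; in it `A' = {z | z.1 ∈ A}` is closed and
`O' = {z | z.1 ∈ O}` is open, `A' ⊆ O'`. `normal_exists_closure_subset` gives an open `W' ⊆ Z'`
with `A' ⊆ W'`, `closure W' ⊆ O'`. Urysohn (`exists_continuous_zero_one_of_isClosed`) gives
`lam' : Z' → ℝ` (values in `[0,1]`) with `lam' = 1` on `A'` and `lam' = 0` off `W'`.
In `Z`: `W = val '' W'` is open, `Q = val '' (closure W')`; `Q ∪ A0` is closed in `Z`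
(its complement is the image of the open set `(closure W')ᶜ` under the open map `val`),
`A \ A0 ⊆ W ⊆ Q ⊆ O`, `Q` is disjoint from `A0`. `lam : Z → I`, `lam z = lam' ⟨z, _⟩` (as an element
of `unitInterval`) for `z ∉ A0`, arbitrary on `A0`; `lam` is continuous on the open set `A0ᶜ`.
(2) For `b ∈ A0` the map `f` is continuous on `O ∪ A0` at `b` and `f b ∈ N` open: there is an
open `V_b ∋ b` with `f z ∈ N` for `z ∈ V_b ∩ (O ∪ A0)`. `V1 = ⋃ b ∈ A0, V_b` is open,
contains `A0`, and `f z ∈ N` for `z ∈ V1 ∩ (O ∪ A0)`. Normality: open `V2` with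
`A0 ⊆ V2`, `closure V2 ⊆ V1`.
(3) `C = (Q ∪ A0) ∩ closure V2` is closed in `Z`; `g0 : Z → B`,
`g0 z = if h : d (f z, 1) ∈ B then ⟨d (f z, 1), h⟩ else ⟨f a0, _⟩` is continuous on `C`: there
`f z ∈ N` (`C ⊆ V1 ∩ (O ∪ A0)`), `d (·, 1)` is continuous on `N`. `ANE B` gives
an open `V3 ⊇ C` and `g : Z → B` continuous on `V3`, equal to `g0` on `C`.
(4) `V4 = V2 ∩ V3` is open and contains `A0`. Normality twice: open `V5`, `V6` with
`A0 ⊆ V6`, `closure V6 ⊆ V5`, `closure V5 ⊆ V4`. Urysohn: `kap : Z → I` continuous, `kap = 1` on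
`closure V6`, `kap = 0` off `V5`.
(5) `V = V6 ∪ W` (open, contains `A = A0 ∪ (A \ A0)`), and
 `F z = f z` if `z ∈ A0`; `F z = d (f z, kap z * (1 - lam z))` if `z ∈ Q ∩ V4`;
 `F z = f z` if `z ∈ Q \ V4`; `F z = g z` otherwise.
 (On `Q ∩ V4` we have `z ∈ V1 ∩ O`, so `f z ∈ N`. The parameter is an element of `I = unitInterval`,
 e.g. `kap z * unitInterval.symm (lam z)`.)
(6) `F = f` on `A`: clear on `A0`; for `z ∈ A \ A0`: `z ∈ Q`, `lam z = 1`, the parameter is `0`,
 `d (f z, 0) = f z`.
(7) Continuity on `V`, at a point `z0`.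
 (a) `z0 ∈ W`, `z0 ∈ V4`: on the open neighbourhood `W ∩ V4` we have
 `F = d (f ·, kap * (1 - lam))`, continuous there (`f` is continuous on the open `O ⊇ W`).
 (b) `z0 ∈ W`, `z0 ∉ V4`: then `z0 ∉ closure V5`; on the open neighbourhood `W \ closure V5` we have
 `F = f` (on `V4` because `kap = 0` there, so `d (f z, 0) = f z`), continuous.
 (c) `z0 ∈ V6 \ A0`: on the open set `V6 \ A0` we have `kap = 1`, and it is the union of the two
 relatively closed sets `Q ∩ V6` and `V6 \ (W ∪ A0)` (`Q ∪ A0` closed, `W` open). On the first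
 `F = d (f ·, 1 - lam)`, on the second `F = g`: for `z ∈ Q \ W` in `V6`: `lam z = 0`,
 `F z = d (f z, 1) = g0 z = g z` (`z ∈ C`). Both functions are continuous on the respective sets
 (`ContinuousOn.union_of_isClosed`-type argument, or: `ContinuousWithinAt` on the two sets, use
 `continuousWithinAt_union`).
 (d) `z0 = b ∈ A0` (`⊆ V6`): `F b = f b`. For `z → b` in `V6`: let `M` be a neighbourhood of
 `f b`. `d` is continuous at every `(f b, t)` within `N × I` with value `f b`, and `I` is compact: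
 there is an open `N' ∋ f b`, `N' ⊆ N`, with `d (N' × I) ⊆ M` and `N' ⊆ M` (tube lemma:
 `generalized_tube_lemma` or `IsCompact.eventually_forall_of_forall_eventually`). Near `b` in
 `O ∪ A0`, `f z ∈ N'`: so `F z ∈ M` for `z ∈ A0` and for `z ∈ Q`. For the other `z` near `b` (in
 `V3`): `F z = g z → g b = g0 b = d (f b, 1) = f b`.
-/

namespace Pool.Agent.H18.AR

open Set TopologicalSpace Metric

theorem glue_ext {X Z : Type} [TopologicalSpace X] [TopologicalSpace Z] [MetrizableSpace Z]
    (B N : Set X) (hN : IsOpen N) (hBN : B ⊆ N) (hB : ANE B)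
    (d : X × unitInterval → X) (hd : ContinuousOn d (N ×ˢ univ))
    (hd0 : ∀ x ∈ N, d (x, 0) = x) (hd1 : ∀ x ∈ N, d (x, 1) ∈ B)
    (hdB : ∀ b ∈ B, ∀ t, d (b, t) = b)
    (A A0 O : Set Z) (hA : IsClosed A) (hA0 : IsClosed A0) (h0 : A0 ⊆ A) (hO : IsOpen O)
    (hOA : Disjoint O A0) (hAO : A \ A0 ⊆ O) (f : Z → X) (hf : ContinuousOn f (O ∪ A0))
    (hfB : ∀ z ∈ A0, f z ∈ B) :
    ∃ (V : Set Z) (F : Z → X), IsOpen V ∧ A ⊆ V ∧ ContinuousOn F V ∧ EqOn F f A := by
  classical
  letI := metrizableSpaceMetric Z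
  rcases A0.eq_empty_or_nonempty with h | ⟨a0, ha0⟩
  · subst h
    refine ⟨O, f, hO, ?_, ?_, fun _ _ => rfl⟩
    · intro z hz
      exact hAO ⟨hz, notMem_empty z⟩
    · simpa using hf
  have hAne : A.Nonempty := ⟨a0, h0 ha0⟩
  have hOne : (Oᶜ).Nonempty := ⟨a0, fun h => disjoint_left.1 hOA h ha0⟩
  set η : Z → ℝ := fun z => infDist z A with hη
  set θ : Z → ℝ := fun z => infDist z Oᶜ with hθ
  have hηc : Continuous η := continuous_infDist_pt A
  have hθc : Continuous θ := continuous_infDist_pt Oᶜ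
  have hη0 : ∀ z, 0 ≤ η z := fun z => infDist_nonneg
  have hθ0 : ∀ z, 0 ≤ θ z := fun z => infDist_nonneg
  have hηA : ∀ z, z ∈ A ↔ η z = 0 := fun z => hA.mem_iff_infDist_zero hAne
  have hθO : ∀ z, z ∉ O ↔ θ z = 0 := fun z => hO.isClosed_compl.mem_iff_infDist_zero hOne
  have hQO : ∀ z, z ∉ A0 → η z ≤ θ z → z ∈ O := by
    intro z hz h
    by_contra hzO
    have h1 : θ z = 0 := (hθO z).1 hzO
    have h2 : η z = 0 := le_antisymm (h1 ▸ h) (hη0 z)
    exact hzO (hAO ⟨(hηA z).2 h2, hz⟩)
  have hA0' : ∀ z ∈ A0, η z = 0 ∧ θ z = 0 := by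
    intro z hz
    exact ⟨(hηA z).1 (h0 hz), (hθO z).1 (fun h => disjoint_left.1 hOA h hz)⟩
  have hQOA : ∀ z, η z ≤ θ z → z ∈ O ∪ A0 := by
    intro z h
    by_cases hz : z ∈ A0
    · exact Or.inr hz
    · exact Or.inl (hQO z hz h)
  have hWA : ∀ z, η z < θ z → z ∉ A0 := by
    intro z h hz
    have := hA0' z hz
    rw [this.1, this.2] at h
    exact lt_irrefl _ h
  have hpos : ∀ z, z ∉ A0 → 0 < η z + θ z := by
    intro z hz
    rcases (hη0 z).lt_or_eq with h | h
    · linarith [hθ0 z]
    · rcases (hθ0 z).lt_or_eq with h' | h'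
      · linarith
      · exfalso
        have := hAO ⟨(hηA z).2 h.symm, hz⟩
        exact (hθO z).2 h'.symm this
  obtain ⟨V1, hV1o, hV1⟩ := (continuousOn_iff'.1 hf) N hN
  have hV1N : ∀ z ∈ V1, z ∈ O ∪ A0 → f z ∈ N := by
    intro z h1 h2
    have : z ∈ f ⁻¹' N ∩ (O ∪ A0) := by
      rw [hV1]
      exact ⟨h1, h2⟩
    exact this.1
  have hA0V1 : A0 ⊆ V1 := by
    intro z hz
    have : z ∈ V1 ∩ (O ∪ A0) := by
      rw [← hV1]
      exact ⟨hBN (hfB z hz), Or.inr hz⟩
    exact this.1
  obtain ⟨V2, hV2o, hAV2, hV2c⟩ := normal_exists_closure_subset hA0 hV1o hA0V1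
  set C : Set Z := {z | η z ≤ θ z} ∩ closure V2 with hCdef
  have hC : IsClosed C := (isClosed_le hηc hθc).inter isClosed_closure
  have hCO : ∀ z ∈ C, z ∈ O ∪ A0 := fun z hz => hQOA z hz.1
  have hCN : ∀ z ∈ C, f z ∈ N := fun z hz => hV1N z (hV2c hz.2) (hCO z hz)
  set g0 : Z → B := fun z => if h : d (f z, 1) ∈ B then ⟨d (f z, 1), h⟩ else ⟨f a0, hfB a0 ha0⟩
    with hg0def
  have hg0v : ∀ z ∈ C, (g0 z : X) = d (f z, 1) := by
    intro z hz
    rw [hg0def]
    simp only [hd1 _ (hCN z hz), dif_pos]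
  have hd1c : ContinuousOn (fun x => d (x, 1)) N := by
    apply hd.comp (Continuous.continuousOn (by fun_prop))
    intro x hx
    exact ⟨hx, mem_univ _⟩
  have hg0 : ContinuousOn g0 C := by
    rw [Topology.IsInducing.subtypeVal.continuousOn_iff]
    have h1 : ContinuousOn (fun z => d (f z, 1)) C :=
      hd1c.comp (hf.mono hCO) hCN
    exact h1.congr hg0v
  obtain ⟨V3, g, hV3, hCV3, hg, hgg⟩ := hB Z C g0 hC hg0
  have hA0C : A0 ⊆ C := by
    intro z hz
    refine ⟨?_, subset_closure (hAV2 hz)⟩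
    have := hA0' z hz
    simp only [mem_setOf_eq, this.1, this.2, le_refl]
  set V4 : Set Z := V2 ∩ V3 with hV4
  have hV4o : IsOpen V4 := hV2o.inter hV3
  have hV4N : ∀ z ∈ V4, z ∈ O ∪ A0 → f z ∈ N := fun z hz h =>
    hV1N z (hV2c (subset_closure hz.1)) h
  have hA0V4 : A0 ⊆ V4 := fun z hz => ⟨hAV2 hz, hCV3 (hA0C hz)⟩
  obtain ⟨φ, hφ0, hφ1, -⟩ := exists_continuous_zero_one_of_isClosed hV4o.isClosed_compl hA0
    (disjoint_left.2 fun z hz hz' => hz (hA0V4 hz'))
  have hφV4 : ∀ z, 0 < φ z → z ∈ V4 := by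
    intro z hz
    by_contra h
    have := hφ0 h
    simp only [Pi.zero_apply] at this
    linarith
  set kap : Z → unitInterval := fun z => projIcc (0 : ℝ) 1 zero_le_one (3 * φ z - 1) with hkap
  set nu : Z → unitInterval := fun z =>
    projIcc (0 : ℝ) 1 zero_le_one (2 * η z / (η z + θ z)) with hnu
  have hkc : Continuous kap := by
    apply continuous_projIcc.comp
    fun_prop
  have hnc : ∀ z, z ∉ A0 → ContinuousAt nu z := by
    intro z hz
    apply continuous_projIcc.continuousAt.comp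
    apply ContinuousAt.div
    · exact (continuous_const.mul hηc).continuousAt
    · exact (hηc.add hθc).continuousAt
    · exact (hpos z hz).ne'
  have hk0 : ∀ z, φ z < 1 / 3 → kap z = 0 := by
    intro z hz
    exact projIcc_of_le_left zero_le_one (by linarith)
  have hk1 : ∀ z, 2 / 3 < φ z → kap z = 1 := by
    intro z hz
    exact projIcc_of_right_le zero_le_one (by linarith)
  have hn0 : ∀ z, η z = 0 → nu z = 0 := by
    intro z hz
    have : (2 * η z / (η z + θ z)) = 0 := by rw [hz]; simp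
    rw [hnu]
    simp only [this]
    exact projIcc_left zero_le_one
  have hn1 : ∀ z, z ∉ A0 → θ z ≤ η z → nu z = 1 := by
    intro z hz h
    apply projIcc_of_right_le zero_le_one
    rw [le_div_iff₀ (hpos z hz)]
    linarith
  set F : Z → X := fun z => if z ∈ A0 then f z else
    if η z ≤ θ z then (if z ∈ V4 then d (f z, kap z * nu z) else f z) else (g z : X) with hF
  have hFA0 : ∀ z ∈ A0, F z = f z := fun z hz => by simp [hF, hz]
  have hFQ : ∀ z, z ∉ A0 → η z ≤ θ z → z ∈ V4 → F z = d (f z, kap z * nu z) := by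
    intro z h1 h2 h3
    simp only [hF, h1, h2, h3, if_true, if_false]
  have hFQ' : ∀ z, z ∉ A0 → η z ≤ θ z → z ∉ V4 → F z = f z := by
    intro z h1 h2 h3
    simp only [hF, h1, h2, h3, if_true, if_false]
  have hFg : ∀ z, z ∉ A0 → ¬ (η z ≤ θ z) → F z = g z := by
    intro z h1 h2
    simp only [hF, h1, h2, if_false]
  have hdc : ∀ x ∈ N, ∀ t, ContinuousAt d (x, t) := by
    intro x hx t
    exact hd.continuousAt ((hN.prod isOpen_univ).mem_nhds ⟨hx, mem_univ _⟩)
  have hfc : ∀ z ∈ O, ContinuousAt f z := fun z hz =>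
    hf.continuousAt (Filter.mem_of_superset (hO.mem_nhds hz) subset_union_left)
  have hgc : ∀ z ∈ V3, ContinuousAt (fun z => (g z : X)) z := fun z hz =>
    continuous_subtype_val.continuousAt.comp (hg.continuousAt (hV3.mem_nhds hz))
  refine ⟨{z | 2 / 3 < φ z} ∪ {z | η z < θ z}, F, ?_, ?_, ?_, ?_⟩
  · exact (isOpen_lt continuous_const φ.continuous).union (isOpen_lt hηc hθc)
  · intro z hz
    by_cases hzA : z ∈ A0
    · left
      have := hφ1 hzA
      simp only [Pi.one_apply] at this
      simp only [mem_setOf_eq, this]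
      norm_num
    · right
      have h1 := (hηA z).1 hz
      have h2 := hpos z hzA
      simp only [mem_setOf_eq]
      linarith
  · -- continuity
    have hW : ∀ z, η z < θ z → ContinuousAt F z := by
      intro z hz
      have hzA := hWA z hz
      have hzO := hQO z hzA hz.le
      have hnW : {z | η z < θ z} ∈ nhds z := (isOpen_lt hηc hθc).mem_nhds hz
      by_cases hφz : 0 < φ z
      · have hn2 : {z | 0 < φ z} ∈ nhds z := (isOpen_lt continuous_const φ.continuous).mem_nhds hφz
        have heq : (fun w => d (f w, kap w * nu w)) =ᶠ[nhds z] F := by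
          filter_upwards [hnW, hn2] with w hw1 hw2
          exact (hFQ w (hWA w hw1) (le_of_lt hw1) (hφV4 w hw2)).symm
        refine ContinuousAt.congr ?_ heq
        have hfz : f z ∈ N := hV4N z (hφV4 z hφz) (Or.inl hzO)
        have h3 : ContinuousAt (fun w => (f w, kap w * nu w)) z :=
          (hfc z hzO).prodMk (hkc.continuousAt.mul (hnc z hzA))
        exact ContinuousAt.comp (g := d) (hdc _ hfz _) h3
      · have hn2 : {z | φ z < 1 / 3} ∈ nhds z :=
          (isOpen_lt φ.continuous continuous_const).mem_nhds (by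
            simp only [mem_setOf_eq]
            linarith)
        have heq : f =ᶠ[nhds z] F := by
          filter_upwards [hnW, hn2] with w hw1 hw2
          have hwA := hWA w hw1
          by_cases hw4 : w ∈ V4
          · rw [hFQ w hwA (le_of_lt hw1) hw4, hk0 w hw2, zero_mul,
              hd0 _ (hV4N w hw4 (Or.inl (hQO w hwA (le_of_lt hw1))))]
          · exact (hFQ' w hwA (le_of_lt hw1) hw4).symm
        exact (hfc z hzO).congr heq
    have hG : ∀ z, 2 / 3 < φ z → θ z < η z → ContinuousAt F z := by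
      intro z hz1 hz2
      have heq : (fun w => (g w : X)) =ᶠ[nhds z] F := by
        filter_upwards [(isOpen_lt hθc hηc).mem_nhds hz2] with w hw
        have hwA : w ∉ A0 := by
          intro h
          have := hA0' w h
          simp only [mem_setOf_eq, this.1, this.2, lt_irrefl] at hw
        exact (hFg w hwA (not_le.2 hw)).symm
      exact (hgc z (hφV4 z (by linarith)).2).congr heq
    have hE : ∀ z, 2 / 3 < φ z → z ∉ A0 → θ z = η z → ContinuousAt F z := by
      intro z hz1 hzA hz2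
      have hzO := hQO z hzA hz2.ge
      have hS : {z | 2 / 3 < φ z} ∩ A0ᶜ ∈ nhds z :=
        ((isOpen_lt continuous_const φ.continuous).inter hA0.isOpen_compl).mem_nhds ⟨hz1, hzA⟩
      have hz4 : z ∈ V4 := hφV4 z (by linarith)
      have hfz : f z ∈ N := hV4N z hz4 (Or.inl hzO)
      have hu : (univ : Set Z) = {w | η w ≤ θ w} ∪ {w | θ w ≤ η w} := by
        ext w
        simp [le_total]
      have hFz : F z = d (f z, kap z * nu z) := hFQ z hzA hz2.ge hz4
      have hFz' : F z = g z := by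
        have hzC : z ∈ C := ⟨hz2.ge, subset_closure hz4.1⟩
        rw [hFz, hk1 z hz1, hn1 z hzA hz2.le, mul_one, hgg hzC, hg0v z hzC]
      rw [← continuousWithinAt_univ, hu]
      apply ContinuousWithinAt.union
      · have h3 : ContinuousAt (fun w => (f w, kap w * nu w)) z :=
          (hfc z hzO).prodMk (hkc.continuousAt.mul (hnc z hzA))
        have h4 : ContinuousAt (fun w => d (f w, kap w * nu w)) z :=
          ContinuousAt.comp (g := d) (hdc _ hfz _) h3
        refine h4.continuousWithinAt.congr_of_eventuallyEq ?_ hFz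
        filter_upwards [mem_nhdsWithin_of_mem_nhds hS, self_mem_nhdsWithin] with w hw1 hw2
        exact hFQ w hw1.2 hw2 (hφV4 w (by linarith [hw1.1.out]))
      · refine (hgc z hz4.2).continuousWithinAt.congr_of_eventuallyEq ?_ hFz'
        filter_upwards [mem_nhdsWithin_of_mem_nhds hS, self_mem_nhdsWithin] with w hw1 hw2
        have hw4 : w ∈ V4 := hφV4 w (by linarith [hw1.1.out])
        by_cases h : η w ≤ θ w
        · have hwC : w ∈ C := ⟨h, subset_closure hw4.1⟩
          rw [hFQ w hw1.2 h hw4, hk1 w hw1.1, hn1 w hw1.2 hw2, mul_one, hgg hwC, hg0v w hwC]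
        · exact hFg w hw1.2 h
    have hb : ∀ b ∈ A0, ContinuousAt F b := by
      intro b hb
      rw [ContinuousAt, hFA0 b hb]
      intro M hM
      rw [Filter.mem_map]
      have hfb : f b ∈ N := hBN (hfB b hb)
      have h1 : ∀ᶠ x in nhds (f b), ∀ t ∈ (univ : Set unitInterval), d (x, t) ∈ M := by
        apply isCompact_univ.eventually_forall_of_forall_eventually
        intro t _
        have := hdc (f b) hfb t
        rw [ContinuousAt, hdB _ (hfB b hb)] at this
        exact this hM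
      have h2 : ∀ᶠ z in nhds b, z ∈ O ∪ A0 → (∀ t ∈ (univ : Set unitInterval), d (f z, t) ∈ M) := by
        have := (hf b (Or.inr hb)).tendsto.eventually h1
        exact eventually_nhdsWithin_iff.1 this
      have h3 : ∀ᶠ z in nhds b, z ∈ O ∪ A0 → f z ∈ M := by
        have := (hf b (Or.inr hb)).tendsto.eventually hM
        exact eventually_nhdsWithin_iff.1 this
      have h4 : ∀ᶠ z in nhds b, (g z : X) ∈ M := by
        have h5 := hgc b (hCV3 (hA0C hb))
        have h6 : (g b : X) = f b := by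
          rw [hgg (hA0C hb), hg0v b (hA0C hb), hdB _ (hfB b hb)]
        rw [ContinuousAt, h6] at h5
        exact h5 hM
      filter_upwards [h2, h3, h4] with z hz2 hz3 hz4
      change F z ∈ M
      by_cases hzA : z ∈ A0
      · rw [hFA0 z hzA]
        exact hz3 (Or.inr hzA)
      · by_cases h : η z ≤ θ z
        · by_cases hz4' : z ∈ V4
          · rw [hFQ z hzA h hz4']
            exact hz2 (hQOA z h) _ (mem_univ _)
          · rw [hFQ' z hzA h hz4']
            exact hz3 (hQOA z h)
        · rw [hFg z hzA h]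
          exact hz4
    intro z hz
    apply ContinuousAt.continuousWithinAt
    by_cases hzA : z ∈ A0
    · exact hb z hzA
    · rcases hz with hz | hz
      · rcases lt_trichotomy (θ z) (η z) with h | h | h
        · exact hG z hz h
        · exact hE z hz hzA h
        · exact hW z h
      · exact hW z hz
  · intro z hz
    by_cases hzA : z ∈ A0
    · exact hFA0 z hzA
    · have h1 := (hηA z).1 hz
      have h2 : η z ≤ θ z := by rw [h1]; exact hθ0 z
      by_cases h4 : z ∈ V4
      · rw [hFQ z hzA h2 h4, hn0 z h1, mul_zero, hd0 _ (hV4N z h4 (hQOA z h2))]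
      · exact hFQ' z hzA h2 h4

end Pool.Agent.H18.AR
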