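import Pool.Agent.H18.AR.GLa
import Pool.Agent.H18.AR.GLb

set_option autoImplicit false

/-!
# Lemma G (chapter C2 of MP_5c3080_gt)

`X` metrizable, `B` closed, `B` and its complement ANE, and `B` has a neighbourhood `N` which
deforms in `X` onto `B` (strongly). Then `X` is ANE. Assembly of `GLa`, `GLb`.
-/

namespace Pool.Agent.H18.AR

open Set TopologicalSpace Metric

theorem lemmaG {X : Type} [TopologicalSpace X] [MetrizableSpace X]
    (B N : Set X) (hBc : IsClosed B) (hN : IsOpen N) (hBN : B ⊆ N) (hB : ANE B)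
    (hB' : ANE (Bᶜ : Set X))
    (d : X × unitInterval → X) (hd : ContinuousOn d (N ×ˢ univ))
    (hd0 : ∀ x ∈ N, d (x, 0) = x) (hd1 : ∀ x ∈ N, d (x, 1) ∈ B)
    (hdB : ∀ b ∈ B, ∀ t, d (b, t) = b) : ANE X := by
  intro Z _ _ A f hA hf
  have hA0 : IsClosed (A ∩ f ⁻¹' B) := hf.preimage_isClosed_of_isClosed hA hBc
  obtain ⟨O, F, hO, hAO, hOA, hF, hFf, _⟩ := controlled_ext (Bᶜ) hB' A (A ∩ f ⁻¹' B) hA hA0
    inter_subset_left f hf (fun z hz hzB => hz.2 ⟨hz.1, hzB⟩)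
  obtain ⟨V, F', hV, hAV, hF', hFF'⟩ := glue_ext B N hN hBN hB d hd hd0 hd1 hdB A (A ∩ f ⁻¹' B) O
    hA hA0 inter_subset_left hO hOA hAO F hF (fun z hz => by rw [hFf hz.1]; exact hz.2)
  exact ⟨V, F', hV, hAV, hF', fun z hz => by rw [hFF' hz, hFf hz]⟩

end Pool.Agent.H18.AR
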