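import Pool.Agent.H18.AR.Defs

set_option autoImplicit false

/-!
# Retracts, homeomorphisms, open subsets (chapter C2 of MP_5c3080_gt)

PROOFS.

`ane_retract`, `ae_retract`: given `f : Z → Y` continuous on the closed set `A`, extend
`i ∘ f` to `F : Z → X` (on an open `V`, resp. on `Z`) and take `r ∘ F`.
For `ae_retract` nonemptiness of `Y` follows from `r` and `Nonempty X`.

`ane_open`: let `f : Z → U` be continuous on the closed set `A` (values in the subtype `U`).
`fun z => (f z : X)` extends to `F0 : Z → X`, continuous on the open `V0`. Put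
`V = V0 ∩ F0 ⁻¹' U`, which is open (`ContinuousOn.isOpen_inter_preimage`), contains `A`, and
`F z = if h : F0 z ∈ U then ⟨F0 z, h⟩ else f z`. `F` is continuous on `V`: the map
`V → U`, `z ↦ ⟨F0 z, _⟩` is continuous (`continuousOn_iff_continuous_restrict`,
`Continuous.subtype_mk`).

`contr_retract`: given a contraction `k` of `X` to `b`, `fun x => r (k (i x.1, x.2))` is a
contraction of `Y` to `r b`.

`ane_univ_image`: an open embedding `j : Y → X` with `ANE X` gives `ANE Y`: `Y` is homeomorphic
to the open subset `range j` (`Topology.IsOpenEmbedding.isEmbedding.toHomeomorph`), use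
`ane_open` and `ane_homeo`.
-/

namespace Pool.Agent.H18.AR

open Set TopologicalSpace

variable {X Y : Type} [TopologicalSpace X] [TopologicalSpace Y]

theorem ane_retract (i : Y → X) (r : X → Y) (hi : Continuous i) (hr : Continuous r)
    (h : ∀ y, r (i y) = y) (hX : ANE X) : ANE Y := by
  intro Z _ _ A f hA hf
  obtain ⟨V, F, hV, hAV, hF, hFf⟩ := hX Z A (fun z => i (f z)) hA (hi.comp_continuousOn hf)
  refine ⟨V, fun z => r (F z), hV, hAV, hr.comp_continuousOn hF, fun z hz => ?_⟩
  change r (F z) = f z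
  rw [hFf hz, h]

theorem ae_retract (i : Y → X) (r : X → Y) (hi : Continuous i) (hr : Continuous r)
    (h : ∀ y, r (i y) = y) (hX : AE X) : AE Y := by
  obtain ⟨hne, hX⟩ := hX
  refine ⟨hne.map r, ?_⟩
  intro Z _ _ A f hA hf
  obtain ⟨F, hF, hFf⟩ := hX Z A (fun z => i (f z)) hA (hi.comp_continuousOn hf)
  refine ⟨fun z => r (F z), hr.comp hF, fun z hz => ?_⟩
  change r (F z) = f z
  rw [hFf hz, h]

theorem contr_retract (i : Y → X) (r : X → Y) (hi : Continuous i) (hr : Continuous r)
    (h : ∀ y, r (i y) = y) (hX : Contr X) : Contr Y := by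
  obtain ⟨b, k, hk, hk0, hk1⟩ := hX
  refine ⟨r b, fun x => r (k (i x.1, x.2)), by fun_prop, fun x => ?_, fun x => ?_⟩
  · change r (k (i x, 0)) = x
    rw [hk0, h]
  · change r (k (i x, 1)) = r b
    rw [hk1]

theorem ane_homeo (e : X ≃ₜ Y) (hX : ANE X) : ANE Y :=
  ane_retract e.symm e e.symm.continuous e.continuous e.apply_symm_apply hX

theorem ae_homeo (e : X ≃ₜ Y) (hX : AE X) : AE Y :=
  ae_retract e.symm e e.symm.continuous e.continuous e.apply_symm_apply hX

theorem contr_homeo (e : X ≃ₜ Y) (hX : Contr X) : Contr Y :=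
  contr_retract e.symm e e.symm.continuous e.continuous e.apply_symm_apply hX

theorem ane_of_ae (hX : AE X) : ANE X := by
  intro Z _ _ A f hA hf
  obtain ⟨F, hF, hFf⟩ := hX.2 Z A f hA hf
  exact ⟨univ, F, isOpen_univ, subset_univ A, hF.continuousOn, hFf⟩

theorem ane_open (U : Set X) (hU : IsOpen U) (hX : ANE X) : ANE U := by
  classical
  intro Z _ _ A f hA hf
  obtain ⟨V0, F0, hV0, hAV0, hF0, hFf⟩ := hX Z A (fun z => (f z : X)) hA
    (continuous_subtype_val.comp_continuousOn hf)
  refine ⟨V0 ∩ F0 ⁻¹' U, fun z => if h : F0 z ∈ U then ⟨F0 z, h⟩ else f z,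
    hF0.isOpen_inter_preimage hV0 hU, fun z hz => ⟨hAV0 hz, ?_⟩, ?_, fun z hz => ?_⟩
  · rw [mem_preimage, hFf hz]
    exact (f z).2
  · have hval : ∀ z ∈ V0 ∩ F0 ⁻¹' U,
        (((if h : F0 z ∈ U then ⟨F0 z, h⟩ else f z : U)) : X) = F0 z := by
      intro z hz
      have hz2 : F0 z ∈ U := hz.2
      rw [dif_pos hz2]
    rw [Topology.IsInducing.subtypeVal.continuousOn_iff]
    exact (hF0.mono inter_subset_left).congr hval
  · have hzU : F0 z ∈ U := by
      rw [hFf hz]
      exact (f z).2
    apply Subtype.ext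
    change (((if h : F0 z ∈ U then ⟨F0 z, h⟩ else f z : U)) : X) = f z
    rw [dif_pos hzU]
    exact hFf hz

theorem ane_openEmbedding (j : Y → X) (hj : Topology.IsOpenEmbedding j) (hX : ANE X) :
    ANE Y :=
  ane_homeo hj.isEmbedding.toHomeomorph.symm (ane_open (range j) hj.isOpen_range hX)

end Pool.Agent.H18.AR
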