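import Pool.Agent.H18.AR.PoT
import Pool.Agent.H18.AR.Ret
import Pool.Agent.H18.AR.GLm

set_option autoImplicit false

/-!
# Maps and homotopies on pushouts; pushouts of ANE (chapter C2 of MP_5c3080_gt)

`continuousOn_param`: let `T` be any topological space, `N ⊆ PO A φ` open and
`F : PO A φ × T → W`. If `fun z : Y × T => F (jY z.1, z.2)` is continuous on
`(jY ⁻¹' N) ×ˢ univ` and `fun z : B × T => F (jB z.1, z.2)` is continuous on
`(jB ⁻¹' N) ×ˢ univ`, then `F` is continuous on `N ×ˢ univ`.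
PROOF. `mk` is proper (`mk_proper`), so `Prod.map mk id : (Y ⊕ B) × T → PO A φ × T` is proper
(`IsProperMap.prodMap`, `isProperMap_id`), hence closed and surjective and continuous, so it is a
quotient map (`IsClosedMap.isQuotientMap`). `N ×ˢ univ` is open. For `V ⊆ W` open we must see that
`(N ×ˢ univ) ∩ F ⁻¹' V` is open (`continuousOn_open_iff`); by the quotient map it suffices that its
preimage in `(Y ⊕ B) × T` is open, i.e. (`Homeomorph.sumProdDistrib` or the two open embeddings
`inl × id`, `inr × id` cover) that the traces on `Y × T`, `B × T` are open; these are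
`((jY ⁻¹' N) ×ˢ univ) ∩ (F ∘ ..) ⁻¹' V`, open by hypothesis.

`continuous_param`: the case `N = univ`.

`ane_po`: `ANE Y`, `ANE {b // b ∉ A}`, an open `NB ⊇ A` in `B` and `dB : B × I → B` continuous on
`NB ×ˢ univ`, `dB (b, 0) = b`, `dB (b, 1) ∈ A` for `b ∈ NB`, `dB (a, t) = a` for `a ∈ A`. Then
`ANE (PO A φ)`.
PROOF. `lemmaG` for `X = PO A φ` (metrizable: `po_lcs`, `metrizable_of_lcs`), `range jY`
(closed; ANE because it is homeomorphic to `Y`), its complement (homeomorphic to `{b // b ∉ A}` by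
`compl_openEmbedding`, `range_compl`), `N = range jY ∪ jB '' NB`; open: `jY ⁻¹' N = univ`,
`jB ⁻¹' N = NB` (`b ∈ A ⊆ NB` fine; `b ∉ A`, `jB b = jB b'` with `b' ∈ NB`: if `b' ∈ A` then
`jB b' ∈ range jY`, impossible; else `b = b'`). The homotopy
`d (x, t) = desc (fun y => jY y) (fun b => jB (dB (b, t))) x`:
`d (jY y, t) = jY y`, `d (jB b, t) = jB (dB (b, t))` for all `b` (for `a ∈ A`,
`jB (dB (a, t)) = jB a = jY (φ a)`: `desc_jB`). Continuity on `N ×ˢ univ` by
`continuousOn_param`.
-/

namespace Pool.Agent.H18.AR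

open Set TopologicalSpace

namespace PO

variable {Y B : Type} [TopologicalSpace Y] [TopologicalSpace B] {A : Set B} {φ : B → Y}

theorem continuousOn_param (hD : POData A φ) (hY : LCS Y) (hB : LCS B) {T W : Type}
    [TopologicalSpace T] [TopologicalSpace W] (N : Set (PO A φ)) (hN : IsOpen N)
    (F : PO A φ × T → W)
    (h1 : ContinuousOn (fun z : Y × T => F (jY A φ z.1, z.2)) ((jY A φ ⁻¹' N) ×ˢ univ))
    (h2 : ContinuousOn (fun z : B × T => F (jB A φ z.1, z.2)) ((jB A φ ⁻¹' N) ×ˢ univ)) :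
    ContinuousOn F (N ×ˢ univ) := by
  have hq : Topology.IsQuotientMap (Prod.map (mk A φ) (id : T → T)) := by
    have hp := (mk_proper hD hY hB).prodMap (isProperMap_id (X := T))
    exact hp.isClosedMap.isQuotientMap hp.continuous
      (mk_surjective.prodMap Function.surjective_id)
  have hNT : IsOpen (N ×ˢ (univ : Set T)) := hN.prod isOpen_univ
  rw [continuousOn_open_iff hNT]
  intro V hV
  rw [← hq.isOpen_preimage]
  have hNY : IsOpen ((jY A φ ⁻¹' N) ×ˢ (univ : Set T)) :=
    (hN.preimage jY_continuous).prod isOpen_univ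
  have hNB : IsOpen ((jB A φ ⁻¹' N) ×ˢ (univ : Set T)) :=
    (hN.preimage jB_continuous).prod isOpen_univ
  have e1 := (continuousOn_open_iff hNY).1 h1 V hV
  have e2 := (continuousOn_open_iff hNB).1 h2 V hV
  rw [← (Homeomorph.sumProdDistrib (X := Y) (Y := B) (Z := T)).symm.isOpen_preimage,
    isOpen_sum_iff]
  exact ⟨e1, e2⟩

theorem continuous_param (hD : POData A φ) (hY : LCS Y) (hB : LCS B) {T W : Type}
    [TopologicalSpace T] [TopologicalSpace W] (F : PO A φ × T → W)
    (h1 : Continuous (fun z : Y × T => F (jY A φ z.1, z.2)))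
    (h2 : Continuous (fun z : B × T => F (jB A φ z.1, z.2))) : Continuous F := by
  have h := continuousOn_param hD hY hB (T := T) univ isOpen_univ F h1.continuousOn
    h2.continuousOn
  rw [univ_prod_univ] at h
  exact continuousOn_univ.1 h

theorem ane_po (hD : POData A φ) (hY : LCS Y) (hB : LCS B) (aY : ANE Y)
    (aB : ANE {b : B // b ∉ A}) (NB : Set B) (hN : IsOpen NB) (hAN : A ⊆ NB)
    (dB : B × unitInterval → B) (hd : ContinuousOn dB (NB ×ˢ univ))
    (hd0 : ∀ b ∈ NB, dB (b, 0) = b) (hd1 : ∀ b ∈ NB, dB (b, 1) ∈ A)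
    (hdA : ∀ a ∈ A, ∀ t, dB (a, t) = a) : ANE (PO A φ) := by
  have hmet : MetrizableSpace (PO A φ) := metrizable_of_lcs (po_lcs hD hY hB)
  have hcl := jY_closedEmbedding hD hY hB
  have aR : ANE (range (jY A φ)) := ane_homeo hcl.isEmbedding.toHomeomorph aY
  have aC : ANE ((range (jY A φ))ᶜ : Set (PO A φ)) := by
    have h1 : ANE (range (fun b : {b : B // b ∉ A} => jB A φ b.1)) :=
      ane_homeo (compl_openEmbedding hD hY hB).isEmbedding.toHomeomorph aB
    rw [range_compl] at h1
    exact h1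
  have hjY : jY A φ ⁻¹' (range (jY A φ) ∪ jB A φ '' NB) = univ := by
    ext y
    exact ⟨fun _ => mem_univ _, fun _ => Or.inl ⟨y, rfl⟩⟩
  have hjB : jB A φ ⁻¹' (range (jY A φ) ∪ jB A φ '' NB) = NB := by
    ext b
    constructor
    · intro hb
      by_cases hbA : b ∈ A
      · exact hAN hbA
      · rcases hb with ⟨y, hy⟩ | ⟨b', hb', e⟩
        · exact absurd hy.symm (jB_ne_jY hbA y)
        · by_cases hb'A : b' ∈ A
          · rw [jB_mem hb'A] at e
            exact absurd e.symm (jB_ne_jY hbA _)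
          · rw [← jB_inj hb'A hbA e]
            exact hb'
    · intro hb
      exact Or.inr ⟨b, hb, rfl⟩
  have hNo : IsOpen (range (jY A φ) ∪ jB A φ '' NB) := by
    rw [isOpen_iff, hjY, hjB]
    exact ⟨isOpen_univ, hN⟩
  have hdesc : ∀ t : unitInterval, ∀ a ∈ A, jB A φ (dB (a, t)) = jY A φ (φ a) := by
    intro t a ha
    rw [hdA a ha t, jB_mem ha]
  let d : PO A φ × unitInterval → PO A φ := fun z =>
    desc (A := A) (φ := φ) (fun y => jY A φ y) (fun b => jB A φ (dB (b, z.2))) z.1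
  have dY : ∀ y t, d (jY A φ y, t) = jY A φ y := fun y t => rfl
  have dBB : ∀ b t, d (jB A φ b, t) = jB A φ (dB (b, t)) := fun b t =>
    desc_jB _ _ (hdesc t) b
  have hdc : ContinuousOn d ((range (jY A φ) ∪ jB A φ '' NB) ×ˢ univ) := by
    refine continuousOn_param hD hY hB _ hNo d ?_ ?_
    · exact (jY_continuous.comp continuous_fst).continuousOn
    · rw [hjB]
      exact (jB_continuous.comp_continuousOn hd).congr fun z _ => dBB z.1 z.2
  refine lemmaG (range (jY A φ)) (range (jY A φ) ∪ jB A φ '' NB) hcl.isClosed_range hNo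
    subset_union_left aR aC d hdc ?_ ?_ ?_
  · rintro x (⟨y, rfl⟩ | ⟨b, hb, rfl⟩)
    · exact dY y 0
    · rw [dBB, hd0 b hb]
  · rintro x (⟨y, rfl⟩ | ⟨b, hb, rfl⟩)
    · rw [dY]
      exact ⟨y, rfl⟩
    · rw [dBB, jB_mem (hd1 b hb)]
      exact ⟨_, rfl⟩
  · rintro x ⟨y, rfl⟩ t
    exact dY y t

end PO

end Pool.Agent.H18.AR
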