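import Pool.Agent.H18.AR.Defs

set_option autoImplicit false

/-!
# Products, Tietze (chapter C2 of MP_5c3080_gt)

PROOFS.

`ane_prod`: given `f : Z → X × Y` continuous on the closed `A`, extend both coordinates,
`F1` on `V1`, `F2` on `V2`; take `V1 ∩ V2` and `fun z => (F1 z, F2 z)`. `ae_prod` the same.

`ae_of_tietze`: Mathlib `ContinuousMap.exists_restrict_eq` (Tietze extension theorem, class
`TietzeExtension`): for `A` closed in a normal space and `g : C(A, Y)` there is `G : C(Z, Y)`
with `G.restrict A = g`. Metrizable spaces are normal (`letI := metrizableSpaceMetric Z`).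
`f` continuous on `A` gives `g = A.restrict f`.

`ae_real` : `TietzeExtension ℝ` is an instance (`Real.instTietzeExtension` or so).
`ae_unitInterval` : `unitInterval` is a retract of `ℝ` (`Set.projIcc 0 1`, `Subtype.val`), or use
the Mathlib instances for `Set.Icc`. `ae_pi`: products over any index type `ι`: extend every
coordinate (`continuous_pi`, `continuousOn_pi`, choice).
`ae_cube`: `Fin n → unitInterval`, by `ae_pi`.

`ane_empty`: if `X` is empty then every `f : Z → X` forces `Z` empty; `V = univ`, `F = f`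
(continuous because `Z` is empty).

`ane_prod_discrete_aux`: not needed here.
-/

namespace Pool.Agent.H18.AR

open Set TopologicalSpace

variable {X Y : Type} [TopologicalSpace X] [TopologicalSpace Y]

theorem ane_prod (hX : ANE X) (hY : ANE Y) : ANE (X × Y) := by
  intro Z _ _ A f hA hf
  obtain ⟨V1, F1, hV1, hAV1, hF1, h1⟩ := hX Z A (fun z => (f z).1) hA
    (continuous_fst.comp_continuousOn hf)
  obtain ⟨V2, F2, hV2, hAV2, hF2, h2⟩ := hY Z A (fun z => (f z).2) hA
    (continuous_snd.comp_continuousOn hf)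
  refine ⟨V1 ∩ V2, fun z => (F1 z, F2 z), hV1.inter hV2, subset_inter hAV1 hAV2,
    (hF1.mono inter_subset_left).prodMk (hF2.mono inter_subset_right), fun z hz => ?_⟩
  exact Prod.ext (h1 hz) (h2 hz)

theorem ae_prod (hX : AE X) (hY : AE Y) : AE (X × Y) := by
  obtain ⟨⟨x⟩, hX⟩ := hX
  obtain ⟨⟨y⟩, hY⟩ := hY
  refine ⟨⟨(x, y)⟩, ?_⟩
  intro Z _ _ A f hA hf
  obtain ⟨F1, hF1, h1⟩ := hX Z A (fun z => (f z).1) hA (continuous_fst.comp_continuousOn hf)
  obtain ⟨F2, hF2, h2⟩ := hY Z A (fun z => (f z).2) hA (continuous_snd.comp_continuousOn hf)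
  exact ⟨fun z => (F1 z, F2 z), hF1.prodMk hF2, fun z hz => Prod.ext (h1 hz) (h2 hz)⟩

theorem ae_of_tietze [Nonempty X] [TietzeExtension.{0, 0} X] : AE X := by
  refine ⟨inferInstance, ?_⟩
  intro Z _ _ A f hA hf
  let _ := metrizableSpaceMetric Z
  obtain ⟨G, hG⟩ := ContinuousMap.exists_restrict_eq hA
    (⟨A.domRestrict f, continuousOn_iff_continuous_domRestrict.mp hf⟩ : C(A, X))
  refine ⟨G, G.continuous, fun z hz => ?_⟩
  have h1 := DFunLike.congr_fun hG ⟨z, hz⟩
  exact h1

theorem ae_real : AE ℝ := ae_of_tietze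

theorem ae_pi {ι : Type} {T : ι → Type} [∀ i, TopologicalSpace (T i)] (h : ∀ i, AE (T i)) :
    AE (∀ i, T i) := by
  refine ⟨⟨fun i => (h i).1.some⟩, ?_⟩
  intro Z _ _ A f hA hf
  choose F hF hFf using fun i => (h i).2 Z A (fun z => f z i) hA
    ((continuous_apply i).comp_continuousOn hf)
  exact ⟨fun z i => F i z, continuous_pi hF, fun z hz => funext fun i => hFf i hz⟩

theorem ae_unitInterval : AE unitInterval := by
  refine ⟨⟨0⟩, ?_⟩
  intro Z _ _ A f hA hf
  obtain ⟨F, hF, hFf⟩ := ae_real.2 Z A (fun z => (f z : ℝ)) hA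
    (continuous_subtype_val.comp_continuousOn hf)
  refine ⟨fun z => projIcc 0 1 zero_le_one (F z), continuous_projIcc.comp hF, fun z hz => ?_⟩
  change projIcc 0 1 zero_le_one (F z) = f z
  rw [hFf hz]
  exact projIcc_val zero_le_one (f z)

theorem ae_cube (n : ℕ) : AE (Fin n → unitInterval) := ae_pi fun _ => ae_unitInterval

theorem ane_empty [IsEmpty X] : ANE X := by
  intro Z _ _ A f hA hf
  have hZ : IsEmpty Z := ⟨fun z => isEmptyElim (f z)⟩
  exact ⟨univ, f, isOpen_univ, subset_univ A, fun z => isEmptyElim z, fun z _ => rfl⟩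

end Pool.Agent.H18.AR
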