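import Pool.Agent.H18.AR.HcD
import Pool.Agent.H18.AR.PoN
import Pool.Agent.H18.AR.Prd

set_option autoImplicit false

/-!
# Homotopy coequalizers, topology (chapter C2 of MP_5c3080_gt)

`V`, `E` in `LCS`, `d0`, `d1` proper maps (`IsProperMap`).

`hc_data : POData (hcA E) (hcφ d0 d1)`. Closed: preimage of the closed set `{0, 1}` under `snd`.
Continuous on `hcA`: on the closed set `{x | x.2 = 0}` it equals `d0 ∘ fst`, on the closed set
`{x | x.2 = 1}` it equals `d1 ∘ fst` (`0 ≠ 1` in `unitInterval`). Proper: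
`hcA ∩ hcφ ⁻¹' K = (d0 ⁻¹' K) ×ˢ {0} ∪ (d1 ⁻¹' K) ×ˢ {1}`, compact.

`hc_lcs`: `PO.po_lcs`, `lcs_prod`, `lcs_compact`.

`hc_ane`: `PO.ane_po`: the complement `{b // b ∉ hcA E}` is the subtype of an open subset of
`E × unitInterval`, which is ANE by `ane_prod` (`ane_of_ae ae_unitInterval`), so ANE by
`ane_open`. Collar: `NB = {x | (x.2 : ℝ) ≠ 1/2}`;
`dB ((e, t), s) = (e, t * (1 - s))` for `t < 1/2` and `(e, 1 - (1 - t) * (1 - s))` for `t > 1/2`
(as elements of `unitInterval`, e.g. `t * symm s` and `symm (symm t * symm s)`; total definition by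
`if (t : ℝ) < 1/2`). It is continuous on `NB ×ˢ univ` because both pieces are relatively open.
`dB (_, 0) = id`; `dB (_, 1)` has second coordinate `0` resp. `1`; on `hcA` it is constant.

`vt_closedEmbedding`: from `PO.jY_closedEmbedding`. `ed_continuous`: `PO.jB_continuous`.
`desc_continuous`: `PO.desc_continuous` (the compatibility is checked as in `HC.desc_ed`).
`ed_inj`: `PO.jB_inj`. `ed_ne_vt`: `PO.jB_ne_jY`.
-/

namespace Pool.Agent.H18.AR

open Set TopologicalSpace

namespace HC

variable {V E : Type} [TopologicalSpace V] [TopologicalSpace E] {d0 d1 : E → V}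

theorem hc_data (hV : LCS V) (hE : LCS E) (h0 : IsProperMap d0) (h1 : IsProperMap d1) :
    POData (hcA E) (hcφ d0 d1) := by
  have hc0 : IsClosed {x : E × unitInterval | x.2 = 0} :=
    isClosed_singleton.preimage continuous_snd
  have hc1 : IsClosed {x : E × unitInterval | x.2 = 1} :=
    isClosed_singleton.preimage continuous_snd
  have hA : hcA E = {x : E × unitInterval | x.2 = 0} ∪ {x : E × unitInterval | x.2 = 1} := rfl
  have hz : ∀ x : E × unitInterval, x.2 = 0 → hcφ d0 d1 x = d0 x.1 := by
    rintro ⟨e, t⟩ ht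
    have ht' : t = 0 := ht
    subst ht'
    exact hcφ_zero d0 d1 e
  have ho : ∀ x : E × unitInterval, x.2 = 1 → hcφ d0 d1 x = d1 x.1 := by
    rintro ⟨e, t⟩ ht
    have ht' : t = 1 := ht
    subst ht'
    exact hcφ_one d0 d1 e
  refine ⟨?_, ?_, ?_⟩
  · rw [hA]
    exact hc0.union hc1
  · rw [hA]
    apply ContinuousOn.union_of_isClosed _ _ hc0 hc1
    · exact ((h0.continuous.comp continuous_fst).continuousOn).congr (fun x hx => hz x hx)
    · exact ((h1.continuous.comp continuous_fst).continuousOn).congr (fun x hx => ho x hx)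
  · intro K hK
    have hK0 : IsCompact ((d0 ⁻¹' K) ×ˢ ({0} : Set unitInterval)) :=
      (h0.isCompact_preimage hK).prod isCompact_singleton
    have hK1 : IsCompact ((d1 ⁻¹' K) ×ˢ ({1} : Set unitInterval)) :=
      (h1.isCompact_preimage hK).prod isCompact_singleton
    have hEq : hcA E ∩ hcφ d0 d1 ⁻¹' K =
        ((d0 ⁻¹' K) ×ˢ ({0} : Set unitInterval)) ∪ ((d1 ⁻¹' K) ×ˢ ({1} : Set unitInterval)) := by
      ext x
      constructor
      · rintro ⟨hx | hx, hxK⟩
        · left
          refine ⟨?_, hx⟩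
          have h2 : hcφ d0 d1 x ∈ K := hxK
          rw [hz x hx] at h2
          exact h2
        · right
          refine ⟨?_, hx⟩
          have h2 : hcφ d0 d1 x ∈ K := hxK
          rw [ho x hx] at h2
          exact h2
      · rintro (⟨hxK, hx⟩ | ⟨hxK, hx⟩)
        · refine ⟨Or.inl hx, ?_⟩
          change hcφ d0 d1 x ∈ K
          rw [hz x hx]
          exact hxK
        · refine ⟨Or.inr hx, ?_⟩
          change hcφ d0 d1 x ∈ K
          rw [ho x hx]
          exact hxK
    rw [hEq]
    exact hK0.union hK1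

private theorem lcsI (hE : LCS E) : LCS (E × unitInterval) := lcs_prod hE lcs_compact

/-- the collar -/
private noncomputable def dd (E : Type) (z : (E × unitInterval) × unitInterval) :
    E × unitInterval :=
  (z.1.1, if (z.1.2 : ℝ) < 1 / 2 then z.1.2 * unitInterval.symm z.2
    else unitInterval.symm (unitInterval.symm z.1.2 * unitInterval.symm z.2))

private theorem dd_lt (x : E × unitInterval) (s : unitInterval) (h : (x.2 : ℝ) < 1 / 2) :
    dd E (x, s) = (x.1, x.2 * unitInterval.symm s) := by
  simp only [dd]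
  rw [if_pos h]

private theorem dd_ge (x : E × unitInterval) (s : unitInterval) (h : ¬ (x.2 : ℝ) < 1 / 2) :
    dd E (x, s) =
      (x.1, unitInterval.symm (unitInterval.symm x.2 * unitInterval.symm s)) := by
  simp only [dd]
  rw [if_neg h]

private theorem dd_cont : ContinuousOn (dd E)
    ({x : E × unitInterval | (x.2 : ℝ) ≠ 1 / 2} ×ˢ univ) := by
  have hc : Continuous fun z : (E × unitInterval) × unitInterval => ((z.1.2 : unitInterval) : ℝ) :=
    continuous_subtype_val.comp (continuous_snd.comp continuous_fst)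
  rintro ⟨x, s⟩ ⟨hx, -⟩
  apply ContinuousAt.continuousWithinAt
  have hx' : (x.2 : ℝ) ≠ 1 / 2 := hx
  rcases lt_or_gt_of_ne hx' with h | h
  · have hU : IsOpen {z : (E × unitInterval) × unitInterval | ((z.1.2 : unitInterval) : ℝ) < 1 / 2} :=
      isOpen_lt hc continuous_const
    have hg : Continuous fun z : (E × unitInterval) × unitInterval =>
        ((z.1.1, z.1.2 * unitInterval.symm z.2) : E × unitInterval) := by
      fun_prop
    refine hg.continuousAt.congr ?_
    filter_upwards [hU.mem_nhds (show (x, s) ∈ _ from h)] with z hz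
    exact (dd_lt z.1 z.2 hz).symm
  · have hU : IsOpen {z : (E × unitInterval) × unitInterval | 1 / 2 < ((z.1.2 : unitInterval) : ℝ)} :=
      isOpen_lt continuous_const hc
    have hg : Continuous fun z : (E × unitInterval) × unitInterval =>
        ((z.1.1, unitInterval.symm (unitInterval.symm z.1.2 * unitInterval.symm z.2)) :
          E × unitInterval) := by
      fun_prop
    refine hg.continuousAt.congr ?_
    filter_upwards [hU.mem_nhds (show (x, s) ∈ _ from h)] with z hz
    exact (dd_ge z.1 z.2 (not_lt.mpr (le_of_lt hz))).symm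

theorem hc_lcs (hV : LCS V) (hE : LCS E) (h0 : IsProperMap d0) (h1 : IsProperMap d1) :
    LCS (HC d0 d1) :=
  PO.po_lcs (hc_data hV hE h0 h1) hV (lcsI hE)

theorem hc_ane (hV : LCS V) (hE : LCS E) (h0 : IsProperMap d0) (h1 : IsProperMap d1)
    (aV : ANE V) (aE : ANE E) : ANE (HC d0 d1) := by
  have hD := hc_data hV hE h0 h1
  have aB : ANE {b : E × unitInterval // b ∉ hcA E} :=
    ane_open (hcA E)ᶜ hD.closed.isOpen_compl (ane_prod aE (ane_of_ae ae_unitInterval))
  refine PO.ane_po hD hV (lcsI hE) aV aB {x : E × unitInterval | (x.2 : ℝ) ≠ 1 / 2} ?_ ?_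
    (dd E) dd_cont ?_ ?_ ?_
  · exact isOpen_ne_fun (continuous_subtype_val.comp continuous_snd) continuous_const
  · rintro x (hx | hx)
    · change (x.2 : ℝ) ≠ 1 / 2
      rw [hx]
      norm_num
    · change (x.2 : ℝ) ≠ 1 / 2
      rw [hx]
      norm_num
  · intro b _
    by_cases h : (b.2 : ℝ) < 1 / 2
    · rw [dd_lt b 0 h, unitInterval.symm_zero, mul_one]
    · rw [dd_ge b 0 h, unitInterval.symm_zero, mul_one, unitInterval.symm_symm]
  · intro b _
    by_cases h : (b.2 : ℝ) < 1 / 2
    · left
      rw [dd_lt b 1 h, unitInterval.symm_one, mul_zero]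
    · right
      rw [dd_ge b 1 h, unitInterval.symm_one, mul_zero, unitInterval.symm_zero]
  · rintro ⟨e, t⟩ ha s
    rcases ha with ha | ha
    · have ht : t = 0 := ha
      subst ht
      rw [dd_lt _ s (by norm_num)]
      simp
    · have ht : t = 1 := ha
      subst ht
      rw [dd_ge _ s (by norm_num)]
      simp

theorem vt_closedEmbedding (hV : LCS V) (hE : LCS E) (h0 : IsProperMap d0)
    (h1 : IsProperMap d1) : Topology.IsClosedEmbedding (vt : V → HC d0 d1) :=
  PO.jY_closedEmbedding (hc_data hV hE h0 h1) hV (lcsI hE)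

theorem vt_continuous : Continuous (vt : V → HC d0 d1) := PO.jY_continuous

theorem ed_continuous : Continuous (fun x : E × unitInterval => (ed x.1 x.2 : HC d0 d1)) :=
  PO.jB_continuous

theorem desc_continuous {W : Type} [TopologicalSpace W] (f : V → W) (g : E → unitInterval → W)
    (hf : Continuous f) (hg : Continuous (fun x : E × unitInterval => g x.1 x.2))
    (h0 : ∀ e, g e 0 = f (d0 e)) (h1 : ∀ e, g e 1 = f (d1 e)) :
    Continuous (desc (d0 := d0) (d1 := d1) f g) := by
  refine PO.desc_continuous f (fun x : E × unitInterval => g x.1 x.2) hf hg ?_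
  rintro ⟨e, t⟩ ht
  rcases ht with ht | ht
  · have ht' : t = 0 := ht
    subst ht'
    change g e 0 = f (hcφ d0 d1 (e, 0))
    rw [hcφ_zero, h0]
  · have ht' : t = 1 := ht
    subst ht'
    change g e 1 = f (hcφ d0 d1 (e, 1))
    rw [hcφ_one, h1]

theorem continuous_param (hV : LCS V) (hE : LCS E) (h0 : IsProperMap d0) (h1 : IsProperMap d1)
    {T W : Type} [TopologicalSpace T] [TopologicalSpace W] (F : HC d0 d1 × T → W)
    (hF1 : Continuous (fun z : V × T => F (vt z.1, z.2)))
    (hF2 : Continuous (fun z : (E × unitInterval) × T => F (ed z.1.1 z.1.2, z.2))) :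
    Continuous F :=
  PO.continuous_param (hc_data hV hE h0 h1) hV (lcsI hE) F hF1 hF2

end HC

end Pool.Agent.H18.AR
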