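import Pool.Agent.H18.AR.CelA
import Pool.Agent.H18.AR.HcT

set_option autoImplicit false

/-!
# Cellular spaces: permanence, contractibility (MP_5c3080_gt)

`cel_homeo`: `X ≃ₜ Y`, use `wext_homeo` with `e.prodCongr (Homeomorph.refl _)`.
`cel_discrete_prod`: `(D × X) × Cb k ≃ₜ D × (X × Cb k)` (`Homeomorph.prodAssoc`), `wext_discrete`.
`cel_discrete`: `wext_discrete` with `wext_cube`.
`cel_unique`: one point space (`cel_discrete`).
`cel_sum`: `(X ⊕ Y) × Cb k ≃ₜ X × Cb k ⊕ Y × Cb k` (`Homeomorph.sumProdDistrib`), `wext_sum`.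

`cel_po`: `POData A φ`, `LCS Y`, `LCS B`, `Cel Y`, and for all `k` the set
`{x : B × Cb k | x.1 ∈ A ∨ x.2 ∈ Bd k}` is `WExt`. Then `Cel (PO A φ)`.
PROOF. Let `Z` be weakly contractible, `f : PO A φ × Cb k → Z` continuous on
`{x | x.2 ∈ Bd k}`. `f (jY y, s)` is continuous on `{x.2 ∈ Bd k} ⊆ Y × Cb k`; extend it
(`Cel Y`) to `FY : Y × Cb k → Z`. Let `gB (b, s) = FY (φ b, s)` if `b ∈ A` and
`f (jB b, s)` otherwise. On the closed set `{x | x.2 ∈ Bd k}` (the boundary of the cube is closed) we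
have `gB (b, s) = f (jB b, s)` for all `b` (if `b ∈ A`: `FY (φ b, s) = f (jY (φ b), s)` and
`jB b = jY (φ b)`), on the closed set `{x | x.1 ∈ A}` it is `FY (φ b, s)`; so `gB` is continuous
on the union of the two closed sets. Extend it to `FB : B × Cb k → Z`. Put
`F (x, s) = desc (fun y => FY (y, s)) (fun b => FB (b, s)) x`. By `desc_jB`
(`FB (a, s) = gB (a, s) = FY (φ a, s)` for `a ∈ A`) `F (jB b, s) = FB (b, s)`,
`F (jY y, s) = FY (y, s)`; `F` is continuous by `PO.continuous_param`, and `F = f` on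
`{x | x.2 ∈ Bd k}` (cases on `x` by `PO.cases_mk`).

`cel_cells`: `D` countable discrete, `A = {x : D × Cb m | x.2 ∈ Bd m}`. The pair of `cel_po` is
`{x : (D × Cb m) × Cb k | x.1.2 ∈ Bd m ∨ x.2 ∈ Bd k}`, homeomorphic to
`D × (Cb (m + k), Bd (m + k))` by `Homeomorph.prodAssoc` and `exists_cubeProd`.

`cel_hc`: `V`, `E` in `LCS`, `d0`, `d1` proper, `Cel V`, `Cel E` ==> `Cel (HC d0 d1)`:
`HC.hc_data`; the pair `{x : (E × I) × Cb k | x.1 ∈ hcA E ∨ x.2 ∈ Bd k}` is homeomorphic to
`{x : E × Cb (k + 1) | x.2 ∈ Bd (k + 1)}` by `Homeomorph.prodAssoc` and `exists_cubeSucc`.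

`contr_of_cel`: `Cel X`, `WC X` ==> `Contr X`. Let `b : X` (nonempty). `Cel X` with `k = 1`, `Z = X`,
`f (x, s) = if s 0 = 0 then x else b`: continuous on `{x | x.2 ∈ Bd 1}`, which is the union of the
closed sets `{s 0 = 0}` and `{s 0 = 1}`. Get `F : X × Cb 1 → X`; the contraction is
`k (x, t) = F (x, fun _ => t)`.
-/

namespace Pool.Agent.H18.AR

open Set TopologicalSpace Pool.H93.HU

private theorem isClosed_Bd (k : ℕ) : IsClosed (Bd k) := by
  have h : Bd k = ⋃ i : Fin k, ({y : Cb k | y i = 0} ∪ {y : Cb k | y i = 1}) := by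
    ext y
    simp only [Cube.boundary, mem_setOf_eq, mem_iUnion, mem_union]
  rw [h]
  apply isClosed_iUnion_of_finite
  intro i
  exact (isClosed_eq (continuous_apply i) continuous_const).union
    (isClosed_eq (continuous_apply i) continuous_const)

theorem cel_homeo {X Y : Type} [TopologicalSpace X] [TopologicalSpace Y] (e : X ≃ₜ Y)
    (h : Cel X) : Cel Y := by
  intro k
  exact wext_homeo (e.prodCongr (Homeomorph.refl (Cb k))) (fun _ => Iff.rfl) (h k)

theorem cel_discrete_prod {D X : Type} [TopologicalSpace D] [DiscreteTopology D]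
    [TopologicalSpace X] (h : Cel X) : Cel (D × X) := by
  intro k
  exact wext_homeo (Homeomorph.prodAssoc D X (Cb k)).symm (fun _ => Iff.rfl)
    (wext_discrete (D := D) (h k))

theorem cel_discrete {D : Type} [TopologicalSpace D] [DiscreteTopology D] : Cel D := by
  intro k
  exact wext_discrete (wext_cube k)

theorem cel_sum {X Y : Type} [TopologicalSpace X] [TopologicalSpace Y] (hX : Cel X)
    (hY : Cel Y) : Cel (X ⊕ Y) := by
  intro k
  refine wext_homeo (Homeomorph.sumProdDistrib (X := X) (Y := Y) (Z := Cb k)).symm ?_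
    (wext_sum (hX k) (hY k))
  rintro (⟨x, s⟩ | ⟨y, s⟩)
  · constructor
    · intro h
      exact Or.inl ⟨(x, s), h, rfl⟩
    · rintro (⟨a, ha, h⟩ | ⟨a, ha, h⟩)
      · have h' := Sum.inl_injective h
        rw [← h'] at ha
        exact ha
      · exact absurd h (by simp)
  · constructor
    · intro h
      exact Or.inr ⟨(y, s), h, rfl⟩
    · rintro (⟨a, ha, h⟩ | ⟨a, ha, h⟩)
      · exact absurd h (by simp)
      · have h' := Sum.inr_injective h
        rw [← h'] at ha
        exact ha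

theorem cel_po {Y B : Type} [TopologicalSpace Y] [TopologicalSpace B] {A : Set B} {φ : B → Y}
    (hD : POData A φ) (hY : LCS Y) (hB : LCS B) (cY : Cel Y)
    (cB : ∀ k : ℕ, WExt {x : B × Cb k | x.1 ∈ A ∨ x.2 ∈ Bd k}) : Cel (PO A φ) := by
  classical
  intro k Z _ hZ f hf
  have hfY : ContinuousOn (fun z : Y × Cb k => f (PO.jY A φ z.1, z.2))
      {x : Y × Cb k | x.2 ∈ Bd k} := by
    have hc : Continuous fun z : Y × Cb k => (PO.jY A φ z.1, z.2) :=
      (PO.jY_continuous.comp continuous_fst).prodMk continuous_snd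
    exact hf.comp hc.continuousOn fun z hz => hz
  have hfB : ContinuousOn (fun z : B × Cb k => f (PO.jB A φ z.1, z.2))
      {x : B × Cb k | x.2 ∈ Bd k} := by
    have hc : Continuous fun z : B × Cb k => (PO.jB A φ z.1, z.2) :=
      (PO.jB_continuous.comp continuous_fst).prodMk continuous_snd
    exact hf.comp hc.continuousOn fun z hz => hz
  obtain ⟨FY, hFY, hFYe⟩ := cY k Z hZ _ hfY
  set gB : B × Cb k → Z := fun z => if z.1 ∈ A then FY (φ z.1, z.2) else f (PO.jB A φ z.1, z.2)
    with hgB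
  have g1 : ∀ z : B × Cb k, z.1 ∈ A → gB z = FY (φ z.1, z.2) := by
    intro z hz
    simp only [hgB]
    rw [if_pos hz]
  have g2 : ∀ z : B × Cb k, z.2 ∈ Bd k → gB z = f (PO.jB A φ z.1, z.2) := by
    intro z hz
    by_cases h : z.1 ∈ A
    · rw [g1 z h, PO.jB_mem h]
      exact hFYe (x := (φ z.1, z.2)) hz
    · simp only [hgB]
      rw [if_neg h]
  have hset : {x : B × Cb k | x.1 ∈ A ∨ x.2 ∈ Bd k} =
      {x : B × Cb k | x.1 ∈ A} ∪ {x : B × Cb k | x.2 ∈ Bd k} := rfl
  have hg : ContinuousOn gB {x : B × Cb k | x.1 ∈ A ∨ x.2 ∈ Bd k} := by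
    rw [hset]
    apply ContinuousOn.union_of_isClosed _ _ (hD.closed.preimage continuous_fst)
      ((isClosed_Bd k).preimage continuous_snd)
    · have hc : ContinuousOn (fun z : B × Cb k => (φ z.1, z.2)) {x : B × Cb k | x.1 ∈ A} :=
        (hD.cont.comp continuous_fst.continuousOn fun z hz => hz).prodMk
          continuous_snd.continuousOn
      exact (hFY.comp_continuousOn hc).congr fun z hz => g1 z hz
    · exact hfB.congr fun z hz => g2 z hz
  obtain ⟨FB, hFB, hFBe⟩ := cB k Z hZ gB hg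
  have hcomp : ∀ s : Cb k, ∀ a ∈ A, FB (a, s) = FY (φ a, s) := by
    intro s a ha
    rw [hFBe (x := (a, s)) (Or.inl ha)]
    exact g1 (a, s) ha
  refine ⟨fun z => PO.desc (fun y => FY (y, z.2)) (fun b => FB (b, z.2)) z.1, ?_, ?_⟩
  · apply PO.continuous_param hD hY hB
    · exact hFY
    · have h : (fun z : B × Cb k => PO.desc (A := A) (φ := φ) (fun y => FY (y, z.2))
          (fun b => FB (b, z.2)) (PO.jB A φ z.1)) = FB := by
        funext z
        exact PO.desc_jB (A := A) (φ := φ) (fun y => FY (y, z.2)) (fun b => FB (b, z.2))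
          (hcomp z.2) z.1
      change Continuous (fun z : B × Cb k => PO.desc (A := A) (φ := φ) (fun y => FY (y, z.2))
          (fun b => FB (b, z.2)) (PO.jB A φ z.1))
      rw [h]
      exact hFB
  · rintro ⟨x, s⟩ hx
    have hs : s ∈ Bd k := hx
    rcases PO.cases_mk x with ⟨y, rfl⟩ | ⟨b, hb, rfl⟩
    · exact hFYe (x := (y, s)) hs
    · have h := PO.desc_jB (A := A) (φ := φ) (fun y => FY (y, s)) (fun b => FB (b, s)) (hcomp s) b
      change PO.desc (A := A) (φ := φ) (fun y => FY (y, s)) (fun b => FB (b, s)) (PO.jB A φ b) = _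
      rw [h, hFBe (x := (b, s)) (Or.inr hs)]
      exact g2 (b, s) hs

theorem cel_cells {Y D : Type} [TopologicalSpace Y] [TopologicalSpace D] [DiscreteTopology D]
    [Countable D] (m : ℕ) {φ : D × Cb m → Y} (hD : POData {x : D × Cb m | x.2 ∈ Bd m} φ)
    (hY : LCS Y) (cY : Cel Y) : Cel (PO {x : D × Cb m | x.2 ∈ Bd m} φ) := by
  have hB : LCS (D × Cb m) := ⟨inferInstance, inferInstance, inferInstance⟩
  refine cel_po hD hY hB cY fun k => ?_
  obtain ⟨e, he⟩ := exists_cubeProd m k
  refine wext_homeo (((Homeomorph.refl D).prodCongr e.symm).trans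
    (Homeomorph.prodAssoc D (Cb m) (Cb k)).symm) ?_ (wext_discrete (D := D) (wext_cube (m + k)))
  rintro ⟨d, y⟩
  have h := he (e.symm y)
  rw [e.apply_symm_apply] at h
  exact h.symm

theorem cel_hc {V E : Type} [TopologicalSpace V] [TopologicalSpace E] {d0 d1 : E → V}
    (hV : LCS V) (hE : LCS E) (h0 : IsProperMap d0) (h1 : IsProperMap d1) (cV : Cel V)
    (cE : Cel E) : Cel (HC d0 d1) := by
  refine cel_po (HC.hc_data hV hE h0 h1) hV (lcs_prod hE lcs_compact) cV fun k => ?_
  obtain ⟨e, he⟩ := exists_cubeSucc k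
  refine wext_homeo (((Homeomorph.refl E).prodCongr e.symm).trans
    (Homeomorph.prodAssoc E unitInterval (Cb k)).symm) ?_ (cE (k + 1))
  rintro ⟨x, y⟩
  have h := he (e.symm y)
  rw [e.apply_symm_apply] at h
  exact h.symm

theorem contr_of_cel {X : Type} [TopologicalSpace X] (h : Cel X) (hX : WC X) : Contr X := by
  classical
  obtain ⟨b⟩ := hX.1
  have hf : ContinuousOn (fun z : X × Cb 1 => if z.2 0 = 0 then z.1 else b)
      {x : X × Cb 1 | x.2 ∈ Bd 1} := by
    have hset : {x : X × Cb 1 | x.2 ∈ Bd 1} =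
        {x : X × Cb 1 | x.2 0 = 0} ∪ {x : X × Cb 1 | x.2 0 = 1} := by
      ext x
      constructor
      · rintro ⟨i, hi⟩
        have h0 : i = 0 := Subsingleton.elim _ _
        subst h0
        exact hi
      · intro hx
        exact ⟨0, hx⟩
    have hc : Continuous fun x : X × Cb 1 => x.2 0 := (continuous_apply 0).comp continuous_snd
    rw [hset]
    apply ContinuousOn.union_of_isClosed _ _ (isClosed_eq hc continuous_const)
      (isClosed_eq hc continuous_const)
    · exact continuous_fst.continuousOn.congr fun z hz => if_pos hz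
    · refine ContinuousOn.congr (f := fun _ => b) continuousOn_const fun z hz => ?_
      have hz1 : z.2 0 = 1 := hz
      have hz0 : ¬ z.2 0 = 0 := by
        rw [hz1]
        exact one_ne_zero
      exact if_neg hz0
  obtain ⟨F, hF, hFe⟩ := h 1 X hX _ hf
  refine ⟨b, fun z => F (z.1, fun _ => z.2), ?_, ?_, ?_⟩
  · exact hF.comp (continuous_fst.prodMk (continuous_pi fun _ => continuous_snd))
  · intro x
    have h0 := hFe (x := (x, fun _ => (0 : unitInterval))) ⟨0, Or.inl rfl⟩
    change F (x, fun _ => 0) = x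
    rw [h0]
    exact if_pos rfl
  · intro x
    have h1 := hFe (x := (x, fun _ => (1 : unitInterval))) ⟨0, Or.inr rfl⟩
    change F (x, fun _ => 1) = b
    rw [h1]
    exact if_neg one_ne_zero

end Pool.Agent.H18.AR
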