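import Mathlib

set_option autoImplicit false

/-!
# Absolute retracts and extensors

`ANE X`, `AE X`: absolute (neighbourhood) extensor for metrizable spaces; maps are total functions
which are continuous on the closed set. `IsAR X`: a metrizable space which is a retract of every
metrizable space containing it as a closed subset.
-/

namespace Pool.Agent.H18.AR

open Set TopologicalSpace

/-- absolute neighbourhood extensor for metrizable spaces -/
def ANE (X : Type) [TopologicalSpace X] : Prop :=
  ∀ (Z : Type) [TopologicalSpace Z] [MetrizableSpace Z] (A : Set Z) (f : Z → X),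
    IsClosed A → ContinuousOn f A →
      ∃ (V : Set Z) (F : Z → X), IsOpen V ∧ A ⊆ V ∧ ContinuousOn F V ∧ EqOn F f A

/-- absolute extensor for metrizable spaces -/
def AE (X : Type) [TopologicalSpace X] : Prop :=
  Nonempty X ∧ ∀ (Z : Type) [TopologicalSpace Z] [MetrizableSpace Z] (A : Set Z) (f : Z → X),
    IsClosed A → ContinuousOn f A → ∃ F : Z → X, Continuous F ∧ EqOn F f A

/-- absolute retract: a metrizable space which is a retract of every metrizable space containing
it as a closed subset -/
def IsAR (X : Type) [TopologicalSpace X] : Prop :=
  MetrizableSpace X ∧ ∀ (Z : Type) [TopologicalSpace Z] [MetrizableSpace Z] (i : X → Z),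
    Topology.IsClosedEmbedding i → ∃ r : Z → X, Continuous r ∧ ∀ x, r (i x) = x

/-- a contraction: a homotopy from the identity to a constant map -/
def Contr (X : Type) [TopologicalSpace X] : Prop :=
  ∃ (b : X) (k : X × unitInterval → X), Continuous k ∧ (∀ x, k (x, 0) = x) ∧ ∀ x, k (x, 1) = b

end Pool.Agent.H18.AR
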