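import Pool.Agent.H93.HU.Defs
import Pool.Agent.H18.AR.Defs

set_option autoImplicit false

/-!
# Weak extension pairs and cellular spaces, definitions

`WC Z`: weakly contractible. `WExt A` for `A ⊆ B`: every map from `A` to a weakly contractible space
extends to `B`. `Cel X`: `(X × I^k, X × boundary I^k)` has this property for all `k`.
-/

namespace Pool.Agent.H18.AR

open Set TopologicalSpace Pool.H93.HU

/-- weakly contractible: nonempty, and all maps of boundaries of cubes extend to cubes -/
def WC (Z : Type) [TopologicalSpace Z] : Prop := Nonempty Z ∧ ∀ q, Fil Z q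

/-- every map from `A ⊆ B` to a weakly contractible space extends to `B` -/
def WExt {B : Type} [TopologicalSpace B] (A : Set B) : Prop :=
  ∀ (Z : Type) [TopologicalSpace Z], WC Z → ∀ f : B → Z, ContinuousOn f A →
    ∃ F : B → Z, Continuous F ∧ EqOn F f A

/-- `(X × I^k, X × boundary)` has the extension property for weakly contractible targets -/
def Cel (X : Type) [TopologicalSpace X] : Prop :=
  ∀ k : ℕ, WExt {x : X × Cb k | x.2 ∈ Bd k}

end Pool.Agent.H18.AR
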