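import Pool.Agent.H18.AR.Defs

set_option autoImplicit false

/-!
# Disjoint unions (chapter C2 of MP_5c3080_gt)

THEOREM (`ane_fibers`). Let `c : X → D` be a locally constant map to a set `D` (any type) all of
whose fibres `c ⁻¹' {d}` (as subspaces of `X`) are ANE. Then `X` is ANE.

PROOF. Let `Z` be metrizable (`letI := metrizableSpaceMetric Z`), `A` closed, `f : Z → X`
continuous on `A`. If `Z` is empty or `A` is empty take `V = ∅`, `F = f`.
(1) `z ↦ c (f z)` is locally constant on `A`: for `a ∈ A` the set `c ⁻¹' {c (f a)}` is open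
(`IsLocallyConstant.isOpen_fiber`), so there is `e a > 0` such that
`a' ∈ A`, `dist a' a < 2 * e a` imply `c (f a') = c (f a)`. Choose `e : Z → ℝ` (positive on `A`).
(2) Put `V0 d = ⋃ a ∈ A, c (f a) = d, ball a (e a)`: open. These sets are pairwise disjoint: if
`z ∈ ball a (e a) ∩ ball a' (e a')` and, say, `e a' ≤ e a`, then
`dist a' a < e a' + e a ≤ 2 * e a`, so `c (f a') = c (f a)`.
(3) For `d` with a point `a0 ∈ A`, `c (f a0) = d`: `A_d = {a ∈ A | c (f a) = d}` is closed in `Z`
(`A_d = A ∩ f ⁻¹' (c ⁻¹' {d})`, the fibre is clopen, `ContinuousOn.preimage_isClosed_of_isClosed`).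
The function `f_d : Z → c ⁻¹' {d}`, `z ↦ if h : c (f z) = d then ⟨f z, h⟩ else ⟨f a0, _⟩` is
continuous on `A_d`. By hypothesis there are `V1 d` open containing `A_d` and
`F_d : Z → c ⁻¹' {d}` continuous on `V1 d` and equal to `f_d` on `A_d`.
(4) `V = ⋃ d (with A_d nonempty), V0 d ∩ V1 d`; `F z = F_d z` if `z ∈ V0 d` (the `d` is unique by
(2); use choice and `dif`), `F z = f z` if there is no such `d`. `F` is continuous on `V`
because it agrees with `F_d` on the open set `V0 d ∩ V1 d`; it extends `f`.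

`ane_discrete_prod`: `D` discrete: the fibres of `Prod.fst : D × X → D` are homeomorphic to `X`;
they are ANE because `{d} × X` is a retract of `X`: use directly the definition (compose with
`Prod.snd` and `fun x => (d, x)`).

`ane_discrete`: fibres are single points (any `f : Z → point` is continuous: `V = univ`).

`ane_sum`: `c = Sum.isLeft : X ⊕ Y → Bool`; the fibre over `true` is the set of all `Sum.inl x`:
given `f : Z → fibre`, compose with `fun w => Sum.getLeft w.1 w.2 : fibre → X` (continuous),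
extend, and go back with `Sum.inl`. The same for `false`.
-/

namespace Pool.Agent.H18.AR

open Set TopologicalSpace Metric

variable {X : Type} [TopologicalSpace X]

private theorem fib_ext {D : Type} (c : X → D) (hc : IsLocallyConstant c)
    (h : ∀ d : D, ANE (c ⁻¹' {d} : Set X)) {Z : Type} [TopologicalSpace Z] [MetrizableSpace Z]
    {A : Set Z} {f : Z → X} (hA : IsClosed A) (hf : ContinuousOn f A) (d : D) :
    ∃ (V1 : Set Z) (F : Z → X), IsOpen V1 ∧ (∀ a ∈ A, c (f a) = d → a ∈ V1) ∧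
      ContinuousOn F V1 ∧ ∀ a ∈ A, c (f a) = d → F a = f a := by
  classical
  by_cases h0 : ∃ a0 ∈ A, c (f a0) = d
  · obtain ⟨a0, ha0, hd0⟩ := h0
    have hfib : IsClosed (c ⁻¹' {d}) := hc.isClosed_fiber d
    have hAd : IsClosed (A ∩ f ⁻¹' (c ⁻¹' {d})) := hf.preimage_isClosed_of_isClosed hA hfib
    let g : Z → (c ⁻¹' {d} : Set X) := fun z =>
      if hz : c (f z) = d then ⟨f z, hz⟩ else ⟨f a0, hd0⟩
    have hgv : ∀ z, c (f z) = d → (g z : X) = f z := by
      intro z hz
      simp only [g, dif_pos hz]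
    have hg : ContinuousOn g (A ∩ f ⁻¹' (c ⁻¹' {d})) := by
      rw [Topology.IsInducing.subtypeVal.continuousOn_iff]
      refine (hf.mono inter_subset_left).congr ?_
      intro z hz
      exact hgv z hz.2
    obtain ⟨W, F, hW, hAW, hF, hFg⟩ := h d Z _ g hAd hg
    refine ⟨W, fun z => (F z : X), hW, fun a ha hd => hAW ⟨ha, hd⟩,
      continuous_subtype_val.comp_continuousOn hF, fun a ha hd => ?_⟩
    change (F a : X) = f a
    rw [hFg ⟨ha, hd⟩, hgv a hd]
  · refine ⟨∅, f, isOpen_empty, fun a ha hd => (h0 ⟨a, ha, hd⟩).elim, continuousOn_empty f,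
      fun a ha hd => (h0 ⟨a, ha, hd⟩).elim⟩

theorem ane_fibers {D : Type} (c : X → D) (hc : IsLocallyConstant c)
    (h : ∀ d : D, ANE (c ⁻¹' {d} : Set X)) : ANE X := by
  classical
  intro Z _ _ A f hA hf
  letI := metrizableSpaceMetric Z
  have h1 : ∀ a ∈ A, ∃ e : ℝ, 0 < e ∧ ∀ a' ∈ A, dist a' a < 2 * e → c (f a') = c (f a) := by
    intro a ha
    have hU : IsOpen (c ⁻¹' {c (f a)}) := hc.isOpen_fiber (c (f a))
    have h2 : f ⁻¹' (c ⁻¹' {c (f a)}) ∈ nhdsWithin a A :=
      (hf a ha) (hU.mem_nhds rfl)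
    obtain ⟨ε, hε, hb⟩ := Metric.mem_nhdsWithin_iff.1 h2
    refine ⟨ε / 2, by positivity, fun a' ha' hd => ?_⟩
    exact hb ⟨by rw [mem_ball]; linarith, ha'⟩
  choose! e he0 he using h1
  let V0 : D → Set Z := fun d => {z | ∃ a, a ∈ A ∧ c (f a) = d ∧ z ∈ ball a (e a)}
  have hV0 : ∀ d, IsOpen (V0 d) := by
    intro d
    have h2 : V0 d = ⋃ a ∈ {a | a ∈ A ∧ c (f a) = d}, ball a (e a) := by
      ext z
      simp only [V0, mem_iUnion]
      constructor
      · rintro ⟨a, ha, hd, hz⟩
        exact ⟨a, ⟨ha, hd⟩, hz⟩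
      · rintro ⟨a, ⟨ha, hd⟩, hz⟩
        exact ⟨a, ha, hd, hz⟩
    rw [h2]
    exact isOpen_biUnion fun a _ => isOpen_ball
  have hdisj : ∀ d d' z, z ∈ V0 d → z ∈ V0 d' → d = d' := by
    rintro d d' z ⟨a, ha, hd, hz⟩ ⟨a', ha', hd', hz'⟩
    rw [mem_ball] at hz hz'
    have h3 : dist a' a < e a' + e a := by
      have := dist_triangle_left a' a z
      linarith
    rcases le_total (e a') (e a) with h4 | h4
    · have h5 := he a ha a' ha' (by linarith)
      rw [← hd, ← hd', h5]
    · have h5 := he a' ha' a ha (by rw [dist_comm]; linarith)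
      rw [← hd, ← hd', h5]
  choose V1 F hV1o hV1 hF hFf using fun d => fib_ext c hc h hA hf d
  let G : Z → X := fun z => if hz : ∃ d, z ∈ V0 d then F (Classical.choose hz) z else f z
  have hG : ∀ d z, z ∈ V0 d → G z = F d z := by
    intro d z hz
    have h2 : ∃ d, z ∈ V0 d := ⟨d, hz⟩
    have h3 : Classical.choose h2 = d := hdisj _ _ z (Classical.choose_spec h2) hz
    simp only [G, dif_pos h2, h3]
  have hmem : ∀ a ∈ A, a ∈ V0 (c (f a)) := fun a ha => ⟨a, ha, rfl, mem_ball_self (he0 a ha)⟩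
  refine ⟨⋃ d, V0 d ∩ V1 d, G, isOpen_iUnion fun d => (hV0 d).inter (hV1o d), ?_, ?_, ?_⟩
  · intro a ha
    exact mem_iUnion.2 ⟨c (f a), hmem a ha, hV1 (c (f a)) a ha rfl⟩
  · intro z hz
    obtain ⟨d, hz0, hz1⟩ := mem_iUnion.1 hz
    have h2 : ContinuousAt (F d) z := (hF d).continuousAt ((hV1o d).mem_nhds hz1)
    have h3 : F d =ᶠ[nhds z] G := by
      filter_upwards [(hV0 d).mem_nhds hz0] with w hw
      exact (hG d w hw).symm
    exact (h2.congr h3).continuousWithinAt
  · intro a ha
    rw [hG _ a (hmem a ha)]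
    exact hFf (c (f a)) a ha rfl

theorem ane_discrete_prod {D : Type} [TopologicalSpace D] [DiscreteTopology D] (hX : ANE X) :
    ANE (D × X) := by
  refine ane_fibers (fun p : D × X => p.1) ((IsLocallyConstant.iff_continuous _).2 continuous_fst)
    fun d => ?_
  intro Z _ _ A f hA hf
  obtain ⟨V, F, hV, hAV, hF, hFf⟩ := hX Z A (fun z => (f z).1.2) hA
    ((continuous_snd.comp continuous_subtype_val).comp_continuousOn hf)
  refine ⟨V, fun z => ⟨(d, F z), rfl⟩, hV, hAV, ?_, ?_⟩
  · have h1 : Continuous (fun x : X => (⟨(d, x), rfl⟩ : ((fun p : D × X => p.1) ⁻¹' {d} : Set (D × X)))) :=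
      Continuous.subtype_mk (by fun_prop) _
    exact h1.comp_continuousOn hF
  · intro a ha
    refine Subtype.ext ?_
    have h2 : (f a).1.1 = d := (f a).2
    have h3 : F a = (f a).1.2 := hFf ha
    change (d, F a) = (f a).1
    rw [h3]
    exact Prod.ext h2.symm rfl

theorem ane_discrete {D : Type} [TopologicalSpace D] [DiscreteTopology D] : ANE D := by
  refine ane_fibers (fun x : D => x) ((IsLocallyConstant.iff_continuous _).2 continuous_id)
    fun d => ?_
  intro Z _ _ A f hA hf
  have hsub : ∀ x y : ((fun x : D => x) ⁻¹' {d} : Set D), x = y := fun x y =>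
    Subtype.ext (x.2.trans y.2.symm)
  exact ⟨univ, f, isOpen_univ, subset_univ _,
    (continuous_of_const fun x y => hsub (f x) (f y)).continuousOn, fun a _ => rfl⟩

theorem ane_sum {Y : Type} [TopologicalSpace Y] (hX : ANE X) (hY : ANE Y) : ANE (X ⊕ Y) := by
  have hc : IsLocallyConstant (Sum.isLeft : X ⊕ Y → Bool) := by
    rw [IsLocallyConstant.iff_continuous]
    rw [continuous_sum_dom]
    exact ⟨continuous_const (y := true), continuous_const (y := false)⟩
  refine ane_fibers Sum.isLeft hc fun d => ?_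
  cases d with
  | true =>
    intro Z _ _ A f hA hf
    let g : (Sum.isLeft ⁻¹' {true} : Set (X ⊕ Y)) → X := fun w => Sum.getLeft w.1 w.2
    have hgv : ∀ w : (Sum.isLeft ⁻¹' {true} : Set (X ⊕ Y)), (Sum.inl (g w) : X ⊕ Y) = w.1 :=
      fun w => Sum.inl_getLeft w.1 w.2
    have hg : Continuous g := by
      rw [Topology.IsEmbedding.inl (Y := Y) |>.continuous_iff]
      have : (Sum.inl ∘ g : _ → X ⊕ Y) = Subtype.val := funext hgv
      rw [this]
      exact continuous_subtype_val
    obtain ⟨V, F, hV, hAV, hF, hFf⟩ := hX Z A (fun z => g (f z)) hA (hg.comp_continuousOn hf)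
    refine ⟨V, fun z => ⟨Sum.inl (F z), rfl⟩, hV, hAV, ?_, ?_⟩
    · have h1 : Continuous (fun x : X =>
          (⟨Sum.inl x, rfl⟩ : (Sum.isLeft ⁻¹' {true} : Set (X ⊕ Y)))) :=
        Continuous.subtype_mk continuous_inl _
      exact h1.comp_continuousOn hF
    · intro a ha
      refine Subtype.ext ?_
      have h3 : F a = g (f a) := hFf ha
      change (Sum.inl (F a) : X ⊕ Y) = (f a).1
      rw [h3, hgv]
  | false =>
    intro Z _ _ A f hA hf
    have hr : ∀ w : (Sum.isLeft ⁻¹' {false} : Set (X ⊕ Y)), Sum.isRight w.1 = true := by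
      rintro ⟨w, hw⟩
      cases w with
      | inl x => exact absurd hw (by simp)
      | inr y => rfl
    let g : (Sum.isLeft ⁻¹' {false} : Set (X ⊕ Y)) → Y := fun w => Sum.getRight w.1 (hr w)
    have hgv : ∀ w : (Sum.isLeft ⁻¹' {false} : Set (X ⊕ Y)), (Sum.inr (g w) : X ⊕ Y) = w.1 :=
      fun w => Sum.inr_getRight w.1 (hr w)
    have hg : Continuous g := by
      rw [Topology.IsEmbedding.inr (X := X) |>.continuous_iff]
      have : (Sum.inr ∘ g : _ → X ⊕ Y) = Subtype.val := funext hgv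
      rw [this]
      exact continuous_subtype_val
    obtain ⟨V, F, hV, hAV, hF, hFf⟩ := hY Z A (fun z => g (f z)) hA (hg.comp_continuousOn hf)
    refine ⟨V, fun z => ⟨Sum.inr (F z), rfl⟩, hV, hAV, ?_, ?_⟩
    · have h1 : Continuous (fun y : Y =>
          (⟨Sum.inr y, rfl⟩ : (Sum.isLeft ⁻¹' {false} : Set (X ⊕ Y)))) :=
        Continuous.subtype_mk continuous_inr _
      exact h1.comp_continuousOn hF
    · intro a ha
      refine Subtype.ext ?_
      have h3 : F a = g (f a) := hFf ha
      change (Sum.inr (F a) : X ⊕ Y) = (f a).1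
      rw [h3, hgv]

end Pool.Agent.H18.AR
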