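import Pool.Agent.H18.AR.HcT
import Pool.Agent.H18.AR.Clp
import Pool.Agent.H93.HU.Defs

set_option autoImplicit false

/-!
# Attaching cubes to an ANE (MP_5c3080_gt)

THEOREM (`ane_cells`). `Y` in `LCS`, ANE; `D` countable discrete; `φ : D × I^m → Y` with
`POData {x | x.2 ∈ Bd m} φ`. Then `PO {x | x.2 ∈ Bd m} φ` is ANE.

PROOF. `PO.ane_po`. `D × Cb m` is `LCS` (`lcs_prod lcs_discrete lcs_compact`) and ANE
(`ane_discrete_prod (ane_of_ae (ae_cube m))`), so the complement of the closed set is ANE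
(`ane_open`). Collar. If `m = 0`: `Bd 0 = ∅`, so `NB = ∅` works (with any `dB`, e.g. `fun x => x.1`).
Let `m ≥ 1`. For `x : Cb m` put `r x = ‖x - c‖ = sup |x i - 1/2|` (`c = (1/2, ..., 1/2)`, sup norm of
`Fin m → ℝ`), so `0 ≤ r x ≤ 1/2` and `r x = 1/2` iff `x ∈ Bd m` (some coordinate `0` or `1`).
`NB = {(d, x) | r x > 0}`, open. For `r x > 0` and `s ∈ [0, 1]` let
`g x s = c + (1 - s + s / (2 r x)) (x - c)`: the factor is `≥ 1` and `≤ 1 / (2 r x)`, so
`|g x s i - 1/2| ≤ 1/2` and `g x s ∈ Cb m`; `g x 0 = x`; `r (g x 1) = 1/2`, so `g x 1 ∈ Bd m`;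
for `x ∈ Bd m` the factor is `1`. Continuous on `NB × I` (the factor is continuous where
`r x > 0`; to get elements of `unitInterval` use `Set.projIcc`).
`dB ((d, x), s) = (d, g x s)`.

`podata_cells`: for `φ` continuous on `{x | x.2 ∈ Bd m}` and such that for every compact
`K ⊆ Y` the set of `d` with `φ (d, x) ∈ K` for some `x ∈ Bd m` is finite, `POData` holds: closed
(`Bd m` is closed: finite union of closed sets); `A ∩ φ ⁻¹' K` is closed (if `Y` is Hausdorff, `K` is
closed; `ContinuousOn.preimage_isClosed_of_isClosed`) and contained in the compact set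
`(finite set) ×ˢ univ`.
-/

namespace Pool.Agent.H18.AR

open Set TopologicalSpace Pool.H93.HU

private theorem isClosed_Bd (m : ℕ) : IsClosed (Bd m) := by
  have h1 : Bd m = ⋃ i : Fin m, ({y : Cb m | y i = 0} ∪ {y : Cb m | y i = 1}) := by
    ext y
    rw [mem_iUnion]
    exact Iff.rfl
  rw [h1]
  refine isClosed_iUnion_of_finite fun i => ?_
  exact (isClosed_eq (continuous_apply i) continuous_const).union
    (isClosed_eq (continuous_apply i) continuous_const)

private theorem isClosed_cells (D : Type) [TopologicalSpace D] (m : ℕ) :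
    IsClosed {x : D × Cb m | x.2 ∈ Bd m} :=
  (isClosed_Bd m).preimage continuous_snd

theorem podata_cells {Y D : Type} [TopologicalSpace Y] [T2Space Y] [TopologicalSpace D]
    [DiscreteTopology D] (m : ℕ) (φ : D × Cb m → Y)
    (hφ : ContinuousOn φ {x : D × Cb m | x.2 ∈ Bd m})
    (hK : ∀ K : Set Y, IsCompact K → {d : D | ∃ x ∈ Bd m, φ (d, x) ∈ K}.Finite) :
    POData {x : D × Cb m | x.2 ∈ Bd m} φ := by
  refine ⟨isClosed_cells D m, hφ, fun K hKc => ?_⟩
  have h1 : IsCompact ({d : D | ∃ x ∈ Bd m, φ (d, x) ∈ K} ×ˢ (univ : Set (Cb m))) :=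
    (hK K hKc).isCompact.prod isCompact_univ
  refine h1.of_isClosed_subset
    (hφ.preimage_isClosed_of_isClosed (isClosed_cells D m) hKc.isClosed) ?_
  rintro ⟨d, x⟩ ⟨hx, hxK⟩
  exact ⟨⟨x, hx, hxK⟩, mem_univ _⟩

/-- the distance from the centre of the cube -/
private noncomputable def rr {m : ℕ} (x : Cb m) : ℝ := ‖fun i : Fin m => (x i : ℝ) - 1 / 2‖

private theorem rr_cont (m : ℕ) : Continuous (rr : Cb m → ℝ) := by
  unfold rr
  refine (continuous_pi fun i => ?_).norm
  exact (continuous_subtype_val.comp (continuous_apply i)).sub continuous_const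

private theorem rr_ge {m : ℕ} (x : Cb m) (i : Fin m) : |(x i : ℝ) - 1 / 2| ≤ rr x := by
  have h := norm_le_pi_norm (fun i : Fin m => (x i : ℝ) - 1 / 2) i
  rwa [Real.norm_eq_abs] at h

private theorem rr_le {m : ℕ} (x : Cb m) : rr x ≤ 1 / 2 := by
  unfold rr
  rw [pi_norm_le_iff_of_nonneg (by norm_num)]
  intro i
  rw [Real.norm_eq_abs, abs_le]
  have h1 := (x i).2.1
  have h2 := (x i).2.2
  constructor <;> linarith

private theorem rr_bd {m : ℕ} {x : Cb m} (hx : x ∈ Bd m) : rr x = 1 / 2 := by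
  refine le_antisymm (rr_le x) ?_
  obtain ⟨i, hi⟩ := hx
  refine le_trans ?_ (rr_ge x i)
  rcases hi with hi | hi
  · rw [hi]
    norm_num
  · rw [hi]
    norm_num

private theorem rr_att {m : ℕ} {x : Cb m} (hx : 0 < rr x) :
    ∃ i, |(x i : ℝ) - 1 / 2| = rr x := by
  by_contra hcon
  push Not at hcon
  have h1 : rr x < rr x := by
    conv_lhs => unfold rr
    rw [pi_norm_lt_iff hx]
    intro i
    rw [Real.norm_eq_abs]
    exact lt_of_le_of_ne (rr_ge x i) (hcon i)
  exact lt_irrefl _ h1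

/-- the value of the deformation -/
private noncomputable def gv {m : ℕ} (x : Cb m) (s : ℝ) (i : Fin m) : ℝ :=
  1 / 2 + (1 - s + s / (2 * rr x)) * ((x i : ℝ) - 1 / 2)

private theorem gv_mem {m : ℕ} {x : Cb m} (hx : 0 < rr x) (s : unitInterval) (i : Fin m) :
    gv x s i ∈ Icc (0 : ℝ) 1 := by
  have h1 : |(1 - (s : ℝ) + s / (2 * rr x)) * ((x i : ℝ) - 1 / 2)| ≤ 1 / 2 := by
    have hs0 := s.2.1
    have hs1 := s.2.2
    have h2 : 0 ≤ 1 - (s : ℝ) + s / (2 * rr x) := by
      have : 0 ≤ (s : ℝ) / (2 * rr x) := by positivity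
      linarith
    rw [abs_mul, abs_of_nonneg h2]
    calc (1 - (s : ℝ) + s / (2 * rr x)) * |(x i : ℝ) - 1 / 2|
        ≤ (1 - (s : ℝ) + s / (2 * rr x)) * rr x := mul_le_mul_of_nonneg_left (rr_ge x i) h2
      _ = (1 - (s : ℝ)) * rr x + s / 2 := by
          field_simp
      _ ≤ 1 / 2 := by
          have h3 := rr_le x
          nlinarith
  rw [abs_le] at h1
  unfold gv
  constructor <;> linarith [h1.1, h1.2]

theorem ane_cells {Y D : Type} [TopologicalSpace Y] [TopologicalSpace D] [DiscreteTopology D]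
    [Countable D] (m : ℕ) {φ : D × Cb m → Y} (hD : POData {x : D × Cb m | x.2 ∈ Bd m} φ)
    (hY : LCS Y) (aY : ANE Y) : ANE (PO {x : D × Cb m | x.2 ∈ Bd m} φ) := by
  have hB : LCS (D × Cb m) := lcs_prod lcs_discrete lcs_compact
  have aB : ANE {b : D × Cb m // b ∉ {x : D × Cb m | x.2 ∈ Bd m}} :=
    ane_open {x : D × Cb m | x.2 ∈ Bd m}ᶜ (isClosed_cells D m).isOpen_compl
      (ane_discrete_prod (ane_of_ae (ae_cube m)))
  obtain ⟨dB, hdB⟩ : ∃ dB : (D × Cb m) × unitInterval → D × Cb m,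
      dB = fun p => (p.1.1, fun i => projIcc 0 1 zero_le_one (gv p.1.2 p.2 i)) := ⟨_, rfl⟩
  have hval : ∀ (d : D) (x : Cb m) (s : unitInterval) (hx : 0 < rr x) (i : Fin m),
      (((dB ((d, x), s)).2 i : unitInterval) : ℝ) = gv x s i := by
    intro d x s hx i
    rw [hdB]
    simp only
    rw [projIcc_of_mem zero_le_one (gv_mem hx s i)]
  refine PO.ane_po hD hY hB aY aB {p | 0 < rr p.2} ?_ ?_ dB ?_ ?_ ?_ ?_
  · exact isOpen_lt continuous_const ((rr_cont m).comp continuous_snd)
  · intro p hp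
    show 0 < rr p.2
    rw [rr_bd hp]
    norm_num
  · rw [hdB]
    refine ContinuousOn.prodMk (continuous_fst.comp continuous_fst).continuousOn ?_
    refine continuousOn_pi.2 fun i => ?_
    refine continuous_projIcc.comp_continuousOn ?_
    unfold gv
    have c1 : Continuous fun p : (D × Cb m) × unitInterval => (p.2 : ℝ) :=
      continuous_subtype_val.comp continuous_snd
    have c2 : Continuous fun p : (D × Cb m) × unitInterval => 2 * rr p.1.2 :=
      continuous_const.mul ((rr_cont m).comp (continuous_snd.comp continuous_fst))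
    have c3 : Continuous fun p : (D × Cb m) × unitInterval => ((p.1.2 i : ℝ) - 1 / 2) :=
      (continuous_subtype_val.comp ((continuous_apply i).comp
        (continuous_snd.comp continuous_fst))).sub continuous_const
    refine ContinuousOn.add continuousOn_const (ContinuousOn.mul ?_ c3.continuousOn)
    refine ContinuousOn.add (continuous_const.sub c1).continuousOn ?_
    refine ContinuousOn.div c1.continuousOn c2.continuousOn ?_
    rintro ⟨p, s⟩ ⟨hp, -⟩
    have hp' : 0 < rr p.2 := hp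
    show 2 * rr p.2 ≠ 0
    positivity
  · rintro ⟨d, x⟩ hx
    have hx' : 0 < rr x := hx
    refine Prod.ext (by rw [hdB]) (funext fun i => Subtype.ext ?_)
    rw [hval d x 0 hx' i]
    unfold gv
    simp
  · rintro ⟨d, x⟩ hx
    have hx' : 0 < rr x := hx
    obtain ⟨i, hi⟩ := rr_att hx'
    refine ⟨i, ?_⟩
    have h1 := hval d x 1 hx' i
    have h2 : gv x ((1 : unitInterval) : ℝ) i = 1 / 2 + ((x i : ℝ) - 1 / 2) / (2 * rr x) := by
      unfold gv
      rw [Icc.coe_one]
      ring
    rw [h2] at h1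
    rcases abs_eq_abs.1 (hi.trans (abs_of_pos hx').symm) with h3 | h3
    · right
      apply Subtype.ext
      rw [h1, h3, Icc.coe_one]
      field_simp
      norm_num
    · left
      apply Subtype.ext
      rw [h1, h3, Icc.coe_zero]
      field_simp
      norm_num
  · rintro ⟨d, x⟩ hx s
    have hx' : 0 < rr x := by
      rw [rr_bd hx]
      norm_num
    refine Prod.ext (by rw [hdB]) (funext fun i => Subtype.ext ?_)
    rw [hval d x s hx' i]
    unfold gv
    rw [rr_bd hx]
    ring

theorem lcs_cells {Y D : Type} [TopologicalSpace Y] [TopologicalSpace D] [DiscreteTopology D]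
    [Countable D] (m : ℕ) {φ : D × Cb m → Y} (hD : POData {x : D × Cb m | x.2 ∈ Bd m} φ)
    (hY : LCS Y) : LCS (PO {x : D × Cb m | x.2 ∈ Bd m} φ) :=
  PO.po_lcs hD hY (lcs_prod lcs_discrete lcs_compact)

end Pool.Agent.H18.AR
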