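import Pool.Agent.H18.AR.Defs

set_option autoImplicit false

/-!
# Domination and contractibility (chapter C2 of MP_5c3080_gt)

`contr_dom`: `i : A → X`, `r : X → A` continuous, `K1 : X × I → X` continuous with `K1 (x, 0) = x`,
`K1 (x, 1) = i (r x)`, `A` contractible. Then `X` is contractible: run first `K1` and then
`i (k (r x, ·))`, `k` the contraction of `A` to `b`: at the parameter `t ≤ 1/2` use
`K1 (x, 2 t)`, for `t ≥ 1/2` use `i (k (r x, 2 t - 1))`, constant `i b` at the end. (Easiest with
Mathlib: `ContinuousMap.Homotopy.trans`, which is a homotopy `C(I × X, X)`; then reorder the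
factors.)
-/

namespace Pool.Agent.H18.AR

open Set TopologicalSpace

theorem contr_dom {A X : Type} [TopologicalSpace A] [TopologicalSpace X] (i : A → X) (r : X → A)
    (hi : Continuous i) (hr : Continuous r) (K1 : X × unitInterval → X) (hK : Continuous K1)
    (h0 : ∀ x, K1 (x, 0) = x) (h1 : ∀ x, K1 (x, 1) = i (r x)) (hA : Contr A) : Contr X := by
  obtain ⟨b, k, hk, hk0, hk1⟩ := hA
  let F : ContinuousMap.Homotopy (ContinuousMap.id X) (⟨fun x => i (r x), hi.comp hr⟩ : C(X, X)) :=
    { toFun := fun z => K1 (z.2, z.1)
      continuous_toFun := hK.comp (continuous_snd.prodMk continuous_fst)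
      map_zero_left := fun x => h0 x
      map_one_left := fun x => h1 x }
  let G : ContinuousMap.Homotopy (⟨fun x => i (r x), hi.comp hr⟩ : C(X, X))
      (ContinuousMap.const X (i b)) :=
    { toFun := fun z => i (k (r z.2, z.1))
      continuous_toFun :=
        hi.comp (hk.comp ((hr.comp continuous_snd).prodMk continuous_fst))
      map_zero_left := fun x => congrArg i (hk0 (r x))
      map_one_left := fun x => congrArg i (hk1 (r x)) }
  refine ⟨i b, fun z => (F.trans G) (z.2, z.1), ?_, fun x => ?_, fun x => ?_⟩
  · exact (F.trans G).continuous.comp (continuous_snd.prodMk continuous_fst)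
  · exact (F.trans G).apply_zero x
  · exact (F.trans G).apply_one x

end Pool.Agent.H18.AR
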