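import Pool.Agent.H18.AR.PO

set_option autoImplicit false

/-!
# Adding the end at `h = +∞`

`EndPt h` is `U` together with one more point `pt`; the neighbourhoods of `pt` are the sets
containing `pt` and some `{h > N}`.
-/

namespace Pool.Agent.H18.AR

open Set TopologicalSpace

/-- `U` together with the end point at `h = +∞` -/
def EndPt {U : Type} (_h : U → ℝ) : Type := Option U

namespace EndPt

variable {U : Type} (h : U → ℝ)

/-- the inclusion of `U` -/
def inc (u : U) : EndPt h := (some u : Option U)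

/-- the end point -/
def pt : EndPt h := (none : Option U)

instance instTop [TopologicalSpace U] : TopologicalSpace (EndPt h) where
  IsOpen V := IsOpen {u : U | inc h u ∈ V} ∧ (pt h ∈ V → ∃ N : ℝ, ∀ u, N < h u → inc h u ∈ V)
  isOpen_univ := ⟨by simp, fun _ => ⟨0, fun _ _ => mem_univ _⟩⟩
  isOpen_inter := by
    rintro s t ⟨hs, hs'⟩ ⟨ht, ht'⟩
    refine ⟨hs.inter ht, ?_⟩
    rintro ⟨h1, h2⟩
    obtain ⟨N, hN⟩ := hs' h1
    obtain ⟨M, hM⟩ := ht' h2
    exact ⟨max N M, fun u hu => ⟨hN u (lt_of_le_of_lt (le_max_left _ _) hu),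
      hM u (lt_of_le_of_lt (le_max_right _ _) hu)⟩⟩
  isOpen_sUnion := by
    intro s hs
    refine ⟨?_, ?_⟩
    · have : {u : U | inc h u ∈ ⋃₀ s} = ⋃ t ∈ s, {u : U | inc h u ∈ t} := by
        ext u; simp
      rw [this]
      exact isOpen_biUnion fun t ht => (hs t ht).1
    · rintro ⟨t, ht, hp⟩
      obtain ⟨N, hN⟩ := (hs t ht).2 hp
      exact ⟨N, fun u hu => ⟨t, ht, hN u hu⟩⟩

theorem cases (x : EndPt h) : x = pt h ∨ ∃ u, x = inc h u := by
  rcases x with _ | u
  · exact Or.inl rfl
  · exact Or.inr ⟨u, rfl⟩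

theorem inc_ne_pt (u : U) : inc h u ≠ pt h := by
  intro e
  exact Option.some_ne_none u e

theorem inc_injective : Function.Injective (inc h) := by
  intro u v e
  exact Option.some_injective U e

/-- maps out of `EndPt h` -/
def desc {W : Type} (f : U → W) (w : W) : EndPt h → W
  | some u => f u
  | none => w

theorem desc_inc {W : Type} (f : U → W) (w : W) (u : U) : desc h f w (inc h u) = f u := rfl

theorem desc_pt {W : Type} (f : U → W) (w : W) : desc h f w (pt h) = w := rfl

/-- the part `h ≥ c` together with the end point -/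
def ge (c : ℝ) : Set (EndPt h) := {x | x = pt h ∨ ∃ u, x = inc h u ∧ c ≤ h u}

end EndPt

/-- a space with a proper height function and a shift -/
structure TelData {U : Type} [TopologicalSpace U] (h : U → ℝ) (S : U ≃ₜ U) : Prop where
  lcs : LCS U
  cont : Continuous h
  proper : ∀ a b : ℝ, IsCompact {u | a ≤ h u ∧ h u ≤ b}
  shift : ∀ u, h (S u) = h u + 1

end Pool.Agent.H18.AR
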