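import Pool.Agent.H18.AR.PO

set_option autoImplicit false

/-!
# Images under proper maps (chapter C2 of MP_5c3080_gt)

THEOREM (`lcs_of_proper`). `f : Z → W` proper and surjective, `Z` locally compact, Hausdorff,
second countable. Then so is `W`.

PROOF. `f` is a closed map (`IsProperMap.isClosedMap`) with compact fibres
(`IsProperMap.isCompact_preimage` for points needs nothing; or
`isProperMap_iff_isClosedMap_and_compact_fibers`). KEY: for `O ⊆ Z` open the set
`O' = {w | f ⁻¹' {w} ⊆ O} = (f '' Oᶜ)ᶜ` is open, and `f ⁻¹' O' ⊆ O`.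
Hausdorff: for `w ≠ w'` the fibres are disjoint compact sets; `SeparatedNhds` by
`IsCompact.separation_of_disjoint`-type lemma (`SeparatedNhds.of_isCompact_isCompact`): open
disjoint `O, P`; `O'`, `P'` are open, contain `w`, `w'`; they are disjoint because a common point
has a nonempty fibre (surjective) contained in `O ∩ P = ∅`.
Locally compact: it suffices that every point has a compact neighbourhood (Hausdorff:
`WeaklyLocallyCompactSpace` + `T2Space` give `LocallyCompactSpace`, instance). The fibre is
compact, so it has a compact neighbourhood `K` (`exists_compact_superset`: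
`f ⁻¹' {w} ⊆ interior K`); `w ∈ (interior K)'` open and `(interior K)' ⊆ f '' K` (surjective),
`f '' K` compact.
Second countable: let `b` be a countable basis of `Z` (`TopologicalSpace.countableBasis Z`).
The family of all `(⋃₀ s)'`, `s` a finite subset of `b`, is countable and a basis:
`isTopologicalBasis_of_isOpen_of_nhds`: for `w ∈ U` open, the fibre is compact and contained in
`f ⁻¹' U`, so it is covered by finitely many basic sets contained in `f ⁻¹' U`; for their union
`O` we get `w ∈ O'` and `O' ⊆ U` (if `w' ∈ O'`, take a point `z` in the fibre of `w'`: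
`z ∈ O ⊆ f ⁻¹' U`). Then `IsTopologicalBasis.secondCountableTopology`.

`metrizable_of_lcs`: Hausdorff and locally compact give `T3Space` (instances), and
`metrizableSpace_of_t3_secondCountable`.

`lcs_prod`, `lcs_sum`, `lcs_closed`, `lcs_open`, `lcs_discrete`: instances or
`IsClosed.locallyCompactSpace`, `IsOpen.locallyCompactSpace`; `D` countable discrete.
-/

namespace Pool.Agent.H18.AR

open Set TopologicalSpace Topology

/-- the points whose fibre is contained in `O` -/
private def kim {Z W : Type} (f : Z → W) (O : Set Z) : Set W := (f '' Oᶜ)ᶜ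

private theorem mem_kim {Z W : Type} {f : Z → W} {O : Set Z} {w : W} :
    w ∈ kim f O ↔ f ⁻¹' {w} ⊆ O := by
  unfold kim
  constructor
  · intro h z hz
    by_contra hzO
    exact h ⟨z, hzO, hz⟩
  · rintro h ⟨z, hzO, hz⟩
    exact hzO (h hz)

private theorem isOpen_kim {Z W : Type} [TopologicalSpace Z] [TopologicalSpace W] {f : Z → W}
    (hf : IsClosedMap f) {O : Set Z} (hO : IsOpen O) : IsOpen (kim f O) := by
  unfold kim
  exact (hf _ hO.isClosed_compl).isOpen_compl

theorem lcs_of_proper {Z W : Type} [TopologicalSpace Z] [TopologicalSpace W] (hZ : LCS Z)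
    (f : Z → W) (hf : IsProperMap f) (hs : Function.Surjective f) : LCS W := by
  obtain ⟨h1, h2, h3⟩ := hZ
  have hcl := hf.isClosedMap
  have hfib : ∀ w : W, IsCompact (f ⁻¹' {w}) := fun w => hf.isCompact_preimage isCompact_singleton
  have hT2 : T2Space W := by
    refine ⟨fun w w' hne => ?_⟩
    have hd : Disjoint (f ⁻¹' {w}) (f ⁻¹' {w'}) := by
      rw [Set.disjoint_left]
      intro z hz hz'
      exact hne (hz.symm.trans hz')
    obtain ⟨O, P, hO, hP, hwO, hwP, hOP⟩ := SeparatedNhds.of_isCompact_isCompact (hfib w)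
      (hfib w') hd
    refine ⟨kim f O, kim f P, isOpen_kim hcl hO, isOpen_kim hcl hP, mem_kim.2 hwO,
      mem_kim.2 hwP, ?_⟩
    rw [Set.disjoint_left] at hOP ⊢
    intro v hv hv'
    obtain ⟨z, rfl⟩ := hs v
    exact hOP (mem_kim.1 hv rfl) (mem_kim.1 hv' rfl)
  have hWL : WeaklyLocallyCompactSpace W := by
    refine ⟨fun w => ?_⟩
    obtain ⟨K, hK, hwK⟩ := exists_compact_superset (hfib w)
    refine ⟨f '' K, hK.image hf.continuous, ?_⟩
    refine Filter.mem_of_superset ((isOpen_kim hcl isOpen_interior).mem_nhds (mem_kim.2 hwK)) ?_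
    intro v hv
    obtain ⟨z, rfl⟩ := hs v
    exact ⟨z, interior_subset (mem_kim.1 hv rfl), rfl⟩
  have hLC : LocallyCompactSpace W := inferInstance
  refine ⟨hT2, hLC, ?_⟩
  have hb := isBasis_countableBasis Z
  have hbasis : IsTopologicalBasis
      ((fun s : Set (Set Z) => kim f (⋃₀ s)) '' {s | s.Finite ∧ s ⊆ countableBasis Z}) := by
    apply isTopologicalBasis_of_isOpen_of_nhds
    · rintro _ ⟨s, ⟨-, hs2⟩, rfl⟩
      exact isOpen_kim hcl (isOpen_sUnion fun t ht => hb.isOpen (hs2 ht))
    · intro w U hwU hU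
      obtain ⟨S, hS, hUS⟩ := hb.open_eq_sUnion (hU.preimage hf.continuous)
      have hcov : f ⁻¹' {w} ⊆ ⋃ i : S, (i : Set Z) := by
        intro z hz
        have hzU : z ∈ f ⁻¹' U := by
          have : f z = w := hz
          rw [Set.mem_preimage, this]
          exact hwU
        rw [hUS] at hzU
        obtain ⟨t, htS, hzt⟩ := hzU
        exact Set.mem_iUnion.2 ⟨⟨t, htS⟩, hzt⟩
      obtain ⟨t, ht⟩ := (hfib w).elim_finite_subcover (fun i : S => (i : Set Z))
        (fun i => hb.isOpen (hS i.2)) hcov
      refine ⟨kim f (⋃₀ (Subtype.val '' (t : Set S))), ⟨Subtype.val '' (t : Set S), ⟨?_, ?_⟩, rfl⟩,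
        ?_, ?_⟩
      · exact t.finite_toSet.image _
      · rintro _ ⟨i, -, rfl⟩
        exact hS i.2
      · rw [mem_kim]
        intro z hz
        obtain ⟨i, hi⟩ := Set.mem_iUnion.1 (ht hz)
        obtain ⟨hit, hzi⟩ := Set.mem_iUnion.1 hi
        exact ⟨(i : Set Z), ⟨i, hit, rfl⟩, hzi⟩
      · intro v hv
        obtain ⟨z, rfl⟩ := hs v
        obtain ⟨_, ⟨i, -, rfl⟩, hzi⟩ := mem_kim.1 hv (rfl : f z = f z)
        have hz : z ∈ f ⁻¹' U := by
          rw [hUS]
          exact ⟨(i : Set Z), i.2, hzi⟩
        exact hz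
  apply hbasis.secondCountableTopology
  exact (Set.countable_setOf_finite_subset (countable_countableBasis Z)).image _

theorem metrizable_of_lcs {X : Type} [TopologicalSpace X] (h : LCS X) : MetrizableSpace X := by
  obtain ⟨h1, h2, h3⟩ := h
  exact metrizableSpace_of_t3_secondCountable X

theorem lcs_prod {X Y : Type} [TopologicalSpace X] [TopologicalSpace Y] (hX : LCS X)
    (hY : LCS Y) : LCS (X × Y) := by
  obtain ⟨h1, h2, h3⟩ := hX
  obtain ⟨k1, k2, k3⟩ := hY
  exact ⟨inferInstance, inferInstance, inferInstance⟩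

theorem lcs_sum {X Y : Type} [TopologicalSpace X] [TopologicalSpace Y] (hX : LCS X)
    (hY : LCS Y) : LCS (X ⊕ Y) := by
  obtain ⟨h1, h2, h3⟩ := hX
  obtain ⟨k1, k2, k3⟩ := hY
  have hT : T2Space (X ⊕ Y) := inferInstance
  have hW : WeaklyLocallyCompactSpace (X ⊕ Y) := by
    refine ⟨fun x => ?_⟩
    rcases x with x | y
    · obtain ⟨K, hK, hx⟩ := exists_compact_mem_nhds x
      exact ⟨Sum.inl '' K, hK.image continuous_inl, isOpenMap_inl.image_mem_nhds hx⟩
    · obtain ⟨K, hK, hy⟩ := exists_compact_mem_nhds y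
      exact ⟨Sum.inr '' K, hK.image continuous_inr, isOpenMap_inr.image_mem_nhds hy⟩
  exact ⟨hT, inferInstance, inferInstance⟩

theorem lcs_closed {X : Type} [TopologicalSpace X] (hX : LCS X) (A : Set X) (hA : IsClosed A) :
    LCS A := by
  obtain ⟨h1, h2, h3⟩ := hX
  exact ⟨inferInstance, hA.locallyCompactSpace, inferInstance⟩

theorem lcs_open {X : Type} [TopologicalSpace X] (hX : LCS X) (A : Set X) (hA : IsOpen A) :
    LCS A := by
  obtain ⟨h1, h2, h3⟩ := hX
  exact ⟨inferInstance, hA.locallyCompactSpace, inferInstance⟩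

theorem lcs_discrete {D : Type} [TopologicalSpace D] [DiscreteTopology D] [Countable D] :
    LCS D :=
  ⟨inferInstance, inferInstance, inferInstance⟩

theorem lcs_compact {X : Type} [TopologicalSpace X] [CompactSpace X] [MetrizableSpace X] :
    LCS X := by
  letI := metrizableSpaceMetric X
  exact ⟨inferInstance, inferInstance, inferInstance⟩

theorem lcs_homeo {X Y : Type} [TopologicalSpace X] [TopologicalSpace Y] (e : X ≃ₜ Y)
    (hX : LCS X) : LCS Y := by
  obtain ⟨h1, h2, h3⟩ := hX
  exact ⟨e.symm.isEmbedding.t2Space, e.symm.isClosedEmbedding.locallyCompactSpace,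
    e.symm.isEmbedding.secondCountableTopology⟩

end Pool.Agent.H18.AR
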