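import Pool.Agent.H18.AR.EndD
import Pool.Agent.H18.AR.Prf

/-!
# Topology of `EndPt h` (chapter C2 of MP_5c3080_gt)

`U` in `LCS`, `h : U → ℝ` continuous, `{a ≤ h ≤ b}` compact for all `a b`.

`isOpen_iff`: the definition. `inc_openEmbedding`: `inc` is continuous (definition), injective and
open (`V ⊆ U` open: `inc '' V` is open: no `pt`). `Topology.IsOpenEmbedding.of_continuous_injective_isOpenMap`.

`nhds_pt`: `V ∈ 𝓝 pt ↔ ∃ N, pt ∈ V ∧ ∀ u, N < h u → inc u ∈ V`: `->` from the definition applied to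
an open subset; `<-`: `{pt} ∪ inc '' {N < h}` is open (`h` continuous) and contained in `V`.

`ge_isClosed`: the complement of `ge c` is `inc '' {h < c}`. `ge_isCompact`: let `ge c` be covered by
open sets; the one which contains `pt` contains `{h > N}`; the rest `inc '' {c ≤ h ≤ N}` is compact
(`isCompact_of_finite_subcover` or with ultrafilters / `IsCompact.union`-type argument:
for an open `V ∋ pt` we have `ge c ⊆ V ∪ inc '' {c ≤ h ≤ N}`).

`end_lcs`. Hausdorff: two points of `U`: `inc` is an open embedding and `U` is Hausdorff; `inc u`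
and `pt`: `inc '' {h < h u + 1}` and `{pt} ∪ inc '' {h > h u + 1}` are open and disjoint. Locally
compact: Hausdorff and every point has a compact neighbourhood: `ge (h u - 1)` for `inc u`,
`ge 0` for `pt`. Second countable: the images of a countable basis of `U` together with the sets
`{pt} ∪ inc '' {h > n}`, `n : ℕ`, form a countable basis
(`isTopologicalBasis_of_isOpen_of_nhds`).

`desc_continuous`: `f : U → W` continuous, and for every open `O ∋ w` there is `N` with
`f u ∈ O` whenever `h u > N`: then `desc h f w` is continuous (`continuous_def`, `isOpen_iff`).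

`continuousAt_pt`: the same at the point: `F : EndPt h → W`; `ContinuousAt F pt` iff for all
neighbourhoods `O` of `F pt` there is `N` with `F (inc u) ∈ O` whenever `h u > N` (from `nhds_pt`).
-/

set_option autoImplicit false

namespace Pool.Agent.H18.AR

open Set TopologicalSpace Topology

namespace EndPt

variable {U : Type} [TopologicalSpace U] {h : U → ℝ}

theorem isOpen_iff (V : Set (EndPt h)) :
    IsOpen V ↔ IsOpen (inc h ⁻¹' V) ∧ (pt h ∈ V → ∃ N : ℝ, ∀ u, N < h u → inc h u ∈ V) :=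
  Iff.rfl

theorem inc_openEmbedding : IsOpenEmbedding (inc h) := by
  refine IsOpenEmbedding.of_continuous_injective_isOpenMap ?_ (inc_injective h) ?_
  · exact continuous_def.2 fun V hV => ((isOpen_iff V).1 hV).1
  · intro V hV
    rw [isOpen_iff, preimage_image_eq V (inc_injective h)]
    refine ⟨hV, ?_⟩
    rintro ⟨u, -, hu⟩
    exact absurd hu (inc_ne_pt h u)

/-- the basic neighbourhoods of the end -/
private def nb (h : U → ℝ) (N : ℝ) : Set (EndPt h) := {x | x = pt h ∨ ∃ u, x = inc h u ∧ N < h u}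

omit [TopologicalSpace U] in
private theorem mem_nb {N : ℝ} {u : U} : inc h u ∈ nb h N ↔ N < h u := by
  constructor
  · rintro (h1 | ⟨v, hv, hN⟩)
    · exact absurd h1 (inc_ne_pt h u)
    · rwa [inc_injective h hv]
  · intro hN
    exact Or.inr ⟨u, rfl, hN⟩

omit [TopologicalSpace U] in
private theorem mem_ge {c : ℝ} {u : U} : inc h u ∈ ge h c ↔ c ≤ h u := by
  constructor
  · rintro (h1 | ⟨v, hv, hN⟩)
    · exact absurd h1 (inc_ne_pt h u)
    · rwa [inc_injective h hv]
  · intro hN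
    exact Or.inr ⟨u, rfl, hN⟩

omit [TopologicalSpace U] in
private theorem pt_mem_nb {N : ℝ} : pt h ∈ nb h N := Or.inl rfl

private theorem isOpen_nb (hh : Continuous h) (N : ℝ) : IsOpen (nb h N) := by
  rw [isOpen_iff]
  constructor
  · have h1 : inc h ⁻¹' (nb h N) = {u | N < h u} := by
      ext u
      exact mem_nb
    rw [h1]
    exact isOpen_lt continuous_const hh
  · intro _
    exact ⟨N, fun u hu => mem_nb.2 hu⟩

theorem nhds_pt (hh : Continuous h) (V : Set (EndPt h)) :
    V ∈ 𝓝 (pt h) ↔ pt h ∈ V ∧ ∃ N : ℝ, ∀ u, N < h u → inc h u ∈ V := by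
  constructor
  · intro hV
    obtain ⟨t, htV, ht, hpt⟩ := mem_nhds_iff.1 hV
    refine ⟨htV hpt, ?_⟩
    obtain ⟨N, hN⟩ := ((isOpen_iff t).1 ht).2 hpt
    exact ⟨N, fun u hu => htV (hN u hu)⟩
  · rintro ⟨hpt, N, hN⟩
    refine mem_nhds_iff.2 ⟨nb h N, ?_, isOpen_nb hh N, pt_mem_nb⟩
    rintro x (rfl | ⟨u, rfl, hu⟩)
    · exact hpt
    · exact hN u hu

theorem ge_isClosed (hh : Continuous h) (c : ℝ) : IsClosed (ge h c) := by
  rw [← isOpen_compl_iff]
  have h1 : (ge h c)ᶜ = inc h '' {u | h u < c} := by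
    ext x
    rcases cases h x with rfl | ⟨u, rfl⟩
    · constructor
      · intro h2
        exact absurd (Or.inl rfl) h2
      · rintro ⟨v, -, hv⟩
        exact absurd hv (inc_ne_pt h v)
    · rw [mem_compl_iff, mem_ge, not_le]
      constructor
      · intro h2
        exact ⟨u, h2, rfl⟩
      · rintro ⟨v, hv, hvu⟩
        rwa [← inc_injective h hvu]
  rw [h1]
  exact inc_openEmbedding.isOpenMap _ (isOpen_lt hh continuous_const)

theorem ge_isCompact (hp : ∀ a b : ℝ, IsCompact {u | a ≤ h u ∧ h u ≤ b}) (c : ℝ) :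
    IsCompact (ge h c) := by
  classical
  refine isCompact_of_finite_subcover fun {ι} V hVo hV => ?_
  have hpt : pt h ∈ ⋃ i, V i := hV (Or.inl rfl)
  obtain ⟨i0, hi0⟩ := mem_iUnion.1 hpt
  obtain ⟨N, hN⟩ := ((isOpen_iff (V i0)).1 (hVo i0)).2 hi0
  have hK : IsCompact (inc h '' {u | c ≤ h u ∧ h u ≤ N}) :=
    (hp c N).image inc_openEmbedding.continuous
  obtain ⟨t, ht⟩ := hK.elim_finite_subcover V hVo (by
    rintro _ ⟨u, hu, rfl⟩
    exact hV (mem_ge.2 hu.1))
  refine ⟨insert i0 t, ?_⟩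
  rintro x (rfl | ⟨u, rfl, hu⟩)
  · exact mem_biUnion (Finset.mem_insert_self i0 t) hi0
  · rcases lt_or_ge N (h u) with h1 | h1
    · exact mem_biUnion (Finset.mem_insert_self i0 t) (hN u h1)
    · have h2 := ht ⟨u, ⟨hu, h1⟩, rfl⟩
      obtain ⟨i, hi, hiu⟩ := mem_iUnion₂.1 h2
      exact mem_biUnion (Finset.mem_insert_of_mem hi) hiu

private theorem end_t2 (hU : T2Space U) (hh : Continuous h) : T2Space (EndPt h) := by
  have key : ∀ u : U, ∃ A B : Set (EndPt h), IsOpen A ∧ IsOpen B ∧ pt h ∈ A ∧ inc h u ∈ B ∧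
      Disjoint A B := by
    intro u
    refine ⟨nb h (h u + 1), inc h '' {v | h v < h u + 1}, isOpen_nb hh _,
      inc_openEmbedding.isOpenMap _ (isOpen_lt hh continuous_const), pt_mem_nb,
      ⟨u, by show h u < h u + 1; linarith, rfl⟩, ?_⟩
    rw [Set.disjoint_left]
    rintro x hx ⟨v, hv, rfl⟩
    have h1 := mem_nb.1 hx
    have h2 : h v < h u + 1 := hv
    linarith
  refine ⟨fun x y hne => ?_⟩
  rcases cases h x with rfl | ⟨u, rfl⟩
  · rcases cases h y with rfl | ⟨v, rfl⟩
    · exact absurd rfl hne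
    · exact key v
  · rcases cases h y with rfl | ⟨v, rfl⟩
    · obtain ⟨A, B, hA, hB, hx, hy, hd⟩ := key u
      exact ⟨B, A, hB, hA, hy, hx, hd.symm⟩
    · have huv : u ≠ v := fun h1 => hne (by rw [h1])
      obtain ⟨A, B, hA, hB, hx, hy, hd⟩ := t2_separation huv
      refine ⟨inc h '' A, inc h '' B, inc_openEmbedding.isOpenMap _ hA,
        inc_openEmbedding.isOpenMap _ hB, ⟨u, hx, rfl⟩, ⟨v, hy, rfl⟩, ?_⟩
      exact (disjoint_image_iff (inc_injective h)).2 hd

theorem end_lcs (hU : LCS U) (hh : Continuous h)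
    (hp : ∀ a b : ℝ, IsCompact {u | a ≤ h u ∧ h u ≤ b}) : LCS (EndPt h) := by
  obtain ⟨h1, h2, h3⟩ := hU
  have hT2 : T2Space (EndPt h) := end_t2 h1 hh
  have hW : WeaklyLocallyCompactSpace (EndPt h) := by
    refine ⟨fun x => ?_⟩
    rcases cases h x with rfl | ⟨u, rfl⟩
    · refine ⟨ge h 0, ge_isCompact hp 0, ?_⟩
      refine (nhds_pt hh _).2 ⟨Or.inl rfl, 0, fun u hu => mem_ge.2 hu.le⟩
    · refine ⟨ge h (h u - 1), ge_isCompact hp _, ?_⟩
      refine Filter.mem_of_superset (inc_openEmbedding.isOpenMap.image_mem_nhds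
        ((isOpen_lt continuous_const hh).mem_nhds (show h u - 1 < h u by linarith))) ?_
      rintro _ ⟨v, hv, rfl⟩
      exact mem_ge.2 (le_of_lt hv)
  have hL : LocallyCompactSpace (EndPt h) := inferInstance
  refine ⟨hT2, hL, ?_⟩
  have hb := isBasis_countableBasis U
  have hbasis : IsTopologicalBasis (((fun s : Set U => inc h '' s) '' countableBasis U) ∪
      range (fun n : ℕ => nb h (n : ℝ))) := by
    apply isTopologicalBasis_of_isOpen_of_nhds
    · rintro _ (⟨s, hs, rfl⟩ | ⟨n, rfl⟩)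
      · exact inc_openEmbedding.isOpenMap _ (hb.isOpen hs)
      · exact isOpen_nb hh _
    · intro x V hx hV
      rcases cases h x with rfl | ⟨u, rfl⟩
      · obtain ⟨N, hN⟩ := ((isOpen_iff V).1 hV).2 hx
        obtain ⟨n, hn⟩ := exists_nat_gt N
        refine ⟨nb h (n : ℝ), Or.inr ⟨n, rfl⟩, pt_mem_nb, ?_⟩
        rintro y (rfl | ⟨u, rfl, hu⟩)
        · exact hx
        · exact hN u (hn.trans hu)
      · obtain ⟨s, hs, hus, hsV⟩ := hb.exists_subset_of_mem_open (show u ∈ inc h ⁻¹' V from hx)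
          ((isOpen_iff V).1 hV).1
        refine ⟨inc h '' s, Or.inl ⟨s, hs, rfl⟩, ⟨u, hus, rfl⟩, ?_⟩
        rintro _ ⟨v, hv, rfl⟩
        exact hsV hv
  refine hbasis.secondCountableTopology ?_
  exact ((countable_countableBasis U).image _).union (countable_range _)

theorem desc_continuous {W : Type} [TopologicalSpace W] (f : U → W) (w : W) (hf : Continuous f)
    (hw : ∀ O ∈ 𝓝 w, ∃ N : ℝ, ∀ u, N < h u → f u ∈ O) : Continuous (desc h f w) := by
  refine continuous_def.2 fun O hO => ?_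
  rw [isOpen_iff]
  refine ⟨hO.preimage hf, fun hpt => ?_⟩
  exact hw O (hO.mem_nhds hpt)

theorem continuousAt_pt (hh : Continuous h) {W : Type} [TopologicalSpace W] (F : EndPt h → W)
    (hF : ∀ O ∈ 𝓝 (F (pt h)), ∃ N : ℝ, ∀ u, N < h u → F (inc h u) ∈ O) :
    ContinuousAt F (pt h) := by
  intro O hO
  show F ⁻¹' O ∈ 𝓝 (pt h)
  rw [nhds_pt hh]
  have h1 : F (pt h) ∈ O := mem_of_mem_nhds hO
  exact ⟨h1, hF O hO⟩

/-- every compact subset of `EndPt h` lies above some height -/
theorem compact_bound (hh : Continuous h) (K : Set (EndPt h)) (hK : IsCompact K) :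
    ∃ c : ℝ, K ⊆ ge h c := by
  obtain ⟨n, hn⟩ := hK.elim_directed_cover (fun n : ℕ => nb h (-(n : ℝ)))
    (fun n => isOpen_nb hh _) (fun x _ => by
      rcases cases h x with rfl | ⟨u, rfl⟩
      · exact mem_iUnion.2 ⟨0, pt_mem_nb⟩
      · obtain ⟨n, hn⟩ := exists_nat_gt (-(h u))
        exact mem_iUnion.2 ⟨n, mem_nb.2 (by linarith)⟩)
    (by
      refine Monotone.directed_le fun m n hmn => ?_
      rintro x (rfl | ⟨u, rfl, hu⟩)
      · exact pt_mem_nb
      · refine mem_nb.2 (lt_of_le_of_lt ?_ hu)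
        exact neg_le_neg (by exact_mod_cast hmn))
  refine ⟨-(n : ℝ), fun x hx => ?_⟩
  rcases hn hx with rfl | ⟨u, rfl, hu⟩
  · exact Or.inl rfl
  · exact mem_ge.2 hu.le

/-- every compact subset of `U` is bounded in height -/
theorem compact_bound' (hh : Continuous h) (K : Set U) (hK : IsCompact K) :
    ∃ c : ℝ, ∀ u ∈ K, -c ≤ h u ∧ h u ≤ c := by
  obtain ⟨a, ha⟩ := hK.bddBelow_image hh.continuousOn
  obtain ⟨b, hb⟩ := hK.bddAbove_image hh.continuousOn
  refine ⟨max (-a) b, fun u hu => ⟨?_, ?_⟩⟩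
  · have h1 := ha (mem_image_of_mem h hu)
    have h2 := le_max_left (-a) b
    linarith
  · exact (hb (mem_image_of_mem h hu)).trans (le_max_right _ _)

end EndPt

end Pool.Agent.H18.AR
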