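import Pool.Agent.H18.AR.ReE

set_option autoImplicit false

/-!
# Realisation of a precubical set, the action (MP_5c3080_gt)

`cub_countable`: finitely many orbits of the countable group `G`.

`cc_csm`: `z ↦ (g • z.1, z.2)` is continuous (`Cu` discrete). `cc_proper`: `K` compact in
`Cu N n × Cb m`, its projection `F` to `Cu N n` is finite; if `g • K` meets `K`, then
`g • c = c'` for some `c`, `c' ∈ F`; for fixed `c`, `c'` the set of these `g` is empty or a coset of the
finite stabilizer of `c`. `cc_cocpt`: `K = s × Cb m`, `s` the finite set of representatives.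

`act_all`, by induction on `n` with the actions `(act hN n).act`: `n = 0`: `Cu N 0` (the same arguments
as for `cc_*`; or without the factor `Cb m`). `n + 1`: the action is `PO.act (next_eqv hN _)`:
`PO.act_continuous`, `PO.act_proper` (`att_podata`, `good_stage`, `lcs_prod lcs_discrete lcs_compact`),
`PO.act_cocpt` with `B = Cu N (n + 1) × Cb (n + 1)`, `cc_csm`, `cc_proper`, `cc_cocpt`.
-/

namespace Pool.Agent.H18.AR

open Set TopologicalSpace Pool.H93.HU Pool.Agent.H59.FS

namespace Re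

variable {N : PreCub} {G : Type} [Group G] [∀ n, MulAction G (N.cub n)]

theorem cub_countable [Countable G] (hF : N.Fin' G) (n : ℕ) : Countable (N.cub n) := by
  obtain ⟨s, hs⟩ := hF.2 n
  have h : Function.Surjective fun p : G × s => p.1 • (p.2 : N.cub n) := by
    intro c
    obtain ⟨g, d, hd, h⟩ := hs c
    exact ⟨(g, ⟨d, hd⟩), h.symm⟩
  exact h.countable

private theorem reb_trans (hF : N.Fin' G) (n : ℕ) (c c' : Cu N n) :
    {g : G | g • c = c'}.Finite := by
  by_cases h : ∃ g₀ : G, g₀ • c = c'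
  · obtain ⟨g₀, hg₀⟩ := h
    have h1 : Finite (MulAction.stabilizer G c) := hF.1 n c
    have h2 : ((MulAction.stabilizer G c : Subgroup G) : Set G).Finite := Set.toFinite _
    refine (h2.image fun g => g₀ * g).subset ?_
    intro g hg
    have hg' : g • c = c' := hg
    refine ⟨g₀⁻¹ * g, ?_, by simp⟩
    show (g₀⁻¹ * g) • c = c
    rw [mul_smul, hg', ← hg₀, inv_smul_smul]
  · have h1 : {g : G | g • c = c'} = ∅ := by
      rw [Set.eq_empty_iff_forall_notMem]
      intro g hg
      exact h ⟨g, hg⟩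
    rw [h1]
    exact Set.finite_empty

private theorem reb_pairs (hF : N.Fin' G) (n : ℕ) (F : Set (Cu N n)) (hFF : F.Finite) :
    {g : G | ∃ c ∈ F, g • c ∈ F}.Finite := by
  have h1 : {g : G | ∃ c ∈ F, g • c ∈ F} ⊆ ⋃ c ∈ F, ⋃ c' ∈ F, {g : G | g • c = c'} := by
    rintro g ⟨c, hc, hgc⟩
    simp only [Set.mem_iUnion]
    exact ⟨c, hc, g • c, hgc, rfl⟩
  exact (hFF.biUnion fun c _ => hFF.biUnion fun c' _ => reb_trans hF n c c').subset h1

theorem cc_csm (n m : ℕ) : ContinuousConstSMul G (Cu N n × Cb m) := by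
  refine ⟨fun g => ?_⟩
  have h : (fun z : Cu N n × Cb m => g • z) = fun z => (g • z.1, z.2) := rfl
  rw [h]
  have h1 : Continuous fun c : Cu N n => g • c := continuous_of_discreteTopology
  exact (h1.comp continuous_fst).prodMk continuous_snd

theorem cc_proper (hF : N.Fin' G) (n m : ℕ) : ProperAct G (Cu N n × Cb m) := by
  intro K hK
  have h1 : (Prod.fst '' K).Finite := isCompact_iff_finite.1 (hK.image continuous_fst)
  refine (reb_pairs hF n _ h1).subset ?_
  rintro g ⟨z', ⟨z, hz, hgz⟩, hz'⟩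
  refine ⟨z.1, ⟨z, hz, rfl⟩, ⟨z', hz', ?_⟩⟩
  rw [← hgz]
  rfl

theorem cc_cocpt (hF : N.Fin' G) (n m : ℕ) : Cocpt G (Cu N n × Cb m) := by
  obtain ⟨s, hs⟩ := hF.2 n
  refine ⟨{z : Cu N n × Cb m | z.1 ∈ (s : Set (N.cub n))}, ?_, ?_⟩
  · have h1 : IsCompact ({c : Cu N n | c ∈ (s : Set (N.cub n))} ×ˢ (univ : Set (Cb m))) :=
      (Set.Finite.isCompact (X := Cu N n) s.finite_toSet).prod isCompact_univ
    have h2 : {z : Cu N n × Cb m | z.1 ∈ (s : Set (N.cub n))} =
        {c : Cu N n | c ∈ (s : Set (N.cub n))} ×ˢ (univ : Set (Cb m)) := by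
      ext z
      exact ⟨fun h => ⟨h, mem_univ _⟩, fun h => h.1⟩
    rw [h2]
    exact h1
  · rintro ⟨c, x⟩
    obtain ⟨g, d, hd, h⟩ := hs c
    refine ⟨g, (d, x), hd, ?_⟩
    rw [cc_smul]
    exact Prod.ext h rfl

private theorem cu_csm (n : ℕ) : ContinuousConstSMul G (Cu N n) :=
  ⟨fun _ => continuous_of_discreteTopology⟩

private theorem cu_proper (hF : N.Fin' G) (n : ℕ) : ProperAct G (Cu N n) := by
  intro K hK
  have h1 : K.Finite := isCompact_iff_finite.1 hK
  refine (reb_pairs hF n _ h1).subset ?_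
  rintro g ⟨z', ⟨z, hz, hgz⟩, hz'⟩
  refine ⟨z, hz, ?_⟩
  have h2 : g • z = z' := hgz
  rw [h2]
  exact hz'

private theorem cu_cocpt (hF : N.Fin' G) (n : ℕ) : Cocpt G (Cu N n) := by
  obtain ⟨s, hs⟩ := hF.2 n
  refine ⟨{c : Cu N n | c ∈ (s : Set (N.cub n))}, Set.Finite.isCompact s.finite_toSet, ?_⟩
  intro c
  obtain ⟨g, d, hd, h⟩ := hs c
  exact ⟨g, d, hd, h⟩

theorem act_all [Countable G] (hN : N.Act G) (hF : N.Fin' G) (hL : N.LocFin) (n : ℕ) :
    letI := (act hN n).act
    ContinuousConstSMul G (stage N n).X ∧ ProperAct G (stage N n).X ∧ Cocpt G (stage N n).X := by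
  induction n with
  | zero => exact ⟨cu_csm 0, cu_proper hF 0, cu_cocpt hF 0⟩
  | succ n ih =>
    let _ := (act hN n).act
    obtain ⟨i1, i2, i3⟩ := ih
    have : ContinuousConstSMul G (stage N n).X := i1
    have hcc := cc_csm (N := N) (G := G) (n + 1) (n + 1)
    have : Countable (Cu N (n + 1)) := cub_countable hF (n + 1)
    have hS : Good N (stage N n) := good_stage (fun k => cub_countable hF k) hL n
    have hD : POData (bdry N (n + 1)) (att N (stage N n)) := att_podata hS hL
    have hB : LCS (Cu N (n + 1) × Cb (n + 1)) := lcs_prod lcs_discrete lcs_compact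
    refine ⟨?_, ?_, ?_⟩
    · exact PO.act_continuous (next_eqv hN (act hN n))
    · exact PO.act_proper (next_eqv hN (act hN n)) hD hS.lcs hB i2 (cc_proper hF (n + 1) (n + 1))
    · exact PO.act_cocpt (next_eqv hN (act hN n)) i3 (cc_cocpt hF (n + 1) (n + 1))

end Re

end Pool.Agent.H18.AR
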