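import Pool.Agent.H18.AR.WdD
import Pool.Agent.H18.AR.Cub
import Pool.Agent.H18.AR.CelB

set_option autoImplicit false

/-!
# Equivariant wedges of spheres, topology (MP_5c3080_gt)

`R` finite group, `Sx R r` finite discrete.

`wdg_podata`: `podata_cells` with `Y = Unit` (`T2Space`), `D = Sx R r` finite (`Set.toFinite`).
`wdg_lcs`, `wdg_ane`, `wdg_cel`: `lcs_cells`, `ane_cells`, `cel_cells` (`Unit` is `LCS`: `lcs_discrete` or
`lcs_compact`; ANE: `ane_discrete`; Cel: `cel_discrete`).
`wdg_compact`: image of the compact space `Unit ⊕ Sx R r × Cb m` under the continuous surjection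
`PO.mk`. `wdg_metrizable`: `metrizable_of_lcs`.
`wdg_csm`: `PO.act_continuous` (the actions on `Unit` and on `Sx R r × Cb m` are continuous).
`weq_continuous`: `PO.desc_continuous`: `z ↦ z.1.gr • s z.1.ix z.2` is continuous because `Sx R r` is
discrete and for fixed `x = z.1` it is `y ↦ x.gr • s x.ix y`; compatible by `(s j).2` and `ht`.
`weq_smul`: `weq s (a • z) = a • weq s z`: cases on `z`: `pt`; `sph (g, j) y`:
`weq s (sph (Sx.of (a * g) j) y) = (a * g) • s j y` (every `x : Sx R r` is `Sx.of x.gr x.ix`).
-/

namespace Pool.Agent.H18.AR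

open Set TopologicalSpace Pool.H93.HU

namespace Wdg

variable {R : Type} [Group R] [Finite R] {r m : ℕ}

omit [Group R] in
theorem wdg_podata : POData (wbd R r m) (watt R r m) :=
  podata_cells (Y := Unit) (D := Sx R r) m (watt R r m) continuousOn_const
    (fun _ _ => Set.toFinite _)

omit [Group R] in
theorem wdg_lcs : LCS (Wdg R r m) :=
  lcs_cells (Y := Unit) (D := Sx R r) m wdg_podata lcs_discrete

omit [Group R] in
theorem wdg_ane : ANE (Wdg R r m) :=
  ane_cells (Y := Unit) (D := Sx R r) m wdg_podata lcs_discrete ane_discrete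

omit [Group R] in
theorem wdg_cel : Cel (Wdg R r m) :=
  cel_cells (Y := Unit) (D := Sx R r) m wdg_podata lcs_discrete cel_discrete

omit [Group R] in
theorem wdg_compact : CompactSpace (Wdg R r m) := by
  have h1 : Continuous (PO.mk (wbd R r m) (watt R r m)) := continuous_coinduced_rng
  have h2 := isCompact_range h1
  rw [PO.mk_surjective.range_eq] at h2
  exact ⟨h2⟩

omit [Group R] in
theorem wdg_metrizable : MetrizableSpace (Wdg R r m) :=
  metrizable_of_lcs wdg_lcs

omit [Finite R] in
theorem wdg_csm : ContinuousConstSMul R (Wdg R r m) := by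
  have h1 : ContinuousConstSMul R Unit := ⟨fun _ => continuous_of_discreteTopology⟩
  have h2 : ContinuousConstSMul R (Sx R r × Cb m) := by
    refine ⟨fun a => ?_⟩
    have h : (fun z : Sx R r × Cb m => a • z) = fun z => (a • z.1, z.2) := rfl
    rw [h]
    have h3 : Continuous fun c : Sx R r => a • c := continuous_of_discreteTopology
    exact (h3.comp continuous_fst).prodMk continuous_snd
  exact PO.act_continuous (wdg_eqv R r m)

omit [Finite R] in
theorem weq_continuous {T : Type} [TopologicalSpace T] [MulAction R T]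
    [ContinuousConstSMul R T] {t0 : T} (ht : ∀ a : R, a • t0 = t0)
    (s : Fin r → GenLoop (Fin m) T t0) : Continuous (weq s : Wdg R r m → T) := by
  refine PO.desc_continuous (fun _ => t0) (fun z : Sx R r × Cb m => z.1.gr • s z.1.ix z.2)
    continuous_const ?_ ?_
  · rw [continuous_prod_of_discrete_left]
    intro x
    exact (continuous_const_smul x.gr).comp (s x.ix).1.continuous
  · rintro ⟨x, z⟩ hz
    exact (congrArg (fun t => x.gr • t) ((s x.ix).2 z hz)).trans (ht _)

omit [Finite R] in
theorem weq_smul {T : Type} [TopologicalSpace T] [MulAction R T] {t0 : T}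
    (ht : ∀ a : R, a • t0 = t0) (s : Fin r → GenLoop (Fin m) T t0) (a : R) (z : Wdg R r m) :
    weq s (a • z) = a • weq s z := by
  rcases cases z with rfl | ⟨x, y, -, rfl⟩
  · rw [smul_pt, weq_pt, ht]
  · have hx : x = Sx.of x.gr x.ix := rfl
    rw [hx, smul_sph, Sx.smul_of, weq_sph ht, weq_sph ht, mul_smul]

end Wdg

end Pool.Agent.H18.AR
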