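import Pool.Agent.H18.AR.Main
import Pool.Agent.H18.AR.ReB
import Pool.Agent.H18.AR.WdT
import Pool.Agent.H59.FS.Defs

set_option autoImplicit false

/-!
# From a model to type `F*_AR` (MP_5c3080_gt, chapter C2)

`RY M`: the realisation of the precubical set of the model `M`, with the action of `M.G`;
`RP M = range ι`; `y0 M` the fixed vertex. `typeFAR_of`: if for pointed `3`-cubes `sp`, `sq` in the
wedge of spheres and `sφ` in `RY M` the telescope and the open model are weakly contractible, then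
`M.G` is of type `F*_AR`.
-/

namespace Pool.Agent.H18.AR

open Set TopologicalSpace Pool.H93.HU Pool.Agent.H59.FS

section

variable {P : Type} [Group P] [Fintype P] {r : ℕ} {e : Fin r → Fin r → P → ℤ}

/-- the realisation of the precubical set of a model -/
noncomputable def RY (M : Model P r e) : Type := (Re.stage M.N 4).X

noncomputable instance RY.instTop (M : Model P r e) : TopologicalSpace (RY M) :=
  inferInstanceAs (TopologicalSpace (Re.stage M.N 4).X)

noncomputable instance RY.instAct (M : Model P r e) : MulAction M.G (RY M) :=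
  (Re.act M.isAct 4).act

/-- the finite subgroup `P` of `G` -/
def RP (M : Model P r e) : Subgroup M.G := M.ι.range

instance RP.instFinite (M : Model P r e) : Finite (RP M) :=
  Finite.of_surjective M.ι.rangeRestrict M.ι.rangeRestrict_surjective

/-- the fixed vertex -/
noncomputable def y0 (M : Model P r e) : RY M := Re.vtx M.N 4 M.b

theorem ry_smul_y0 (M : Model P r e) (a : RP M) : (a : M.G) • y0 M = y0 M := by
  obtain ⟨p, hp⟩ := a.2
  have h := Re.vtx_smul M.isAct (a : M.G) M.b 4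
  have h2 : (a : M.G) • M.b = M.b := by
    rw [← hp]
    exact M.b_fix p
  exact h.symm.trans (congrArg (Re.vtx M.N 4) h2)

theorem ry_good (M : Model P r e) : Re.Good M.N (Re.stage M.N 4) :=
  Re.good_stage (Re.cub_countable M.fin) M.locFin 4

theorem ry_act (M : Model P r e) : ContinuousConstSMul M.G (RY M) ∧ ProperAct M.G (RY M) ∧
    Cocpt M.G (RY M) :=
  Re.act_all M.isAct M.fin M.locFin 4

theorem typeFAR_of (M : Model P r e)
    (sp sq : Fin r → GenLoop (Fin 3) (Wdg (RP M) r 3) Wdg.pt)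
    (sφ : Fin r → GenLoop (Fin 3) (RY M) (y0 M))
    (hU : WC (Tel (Wdg.weq sp) (Wdg.weq sq)))
    (hX : WC (Xc (RP M) (Wdg.weq sp) (Wdg.weq sq) (Wdg.weq sφ))) : TypeFAR M.G := by
  haveI := (ry_act M).1
  haveI : ContinuousConstSMul (RP M) (RY M) :=
    ⟨fun a => (ry_act M).1.continuous_const_smul (a : M.G)⟩
  have g1 : LCS (RY M) := (ry_good M).lcs
  have g2 : ANE (RY M) := (ry_good M).ane
  have g3 : Cel (RY M) := (ry_good M).cel
  haveI : CompactSpace (Wdg (RP M) r 3) := Wdg.wdg_compact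
  haveI : MetrizableSpace (Wdg (RP M) r 3) := Wdg.wdg_metrizable
  haveI : ContinuousConstSMul (RP M) (Wdg (RP M) r 3) := Wdg.wdg_csm
  haveI : Nonempty (RY M) := ⟨y0 M⟩
  have fix : ∀ a : RP M, a • (Wdg.pt : Wdg (RP M) r 3) = Wdg.pt := fun a => Wdg.smul_pt a
  have fixY : ∀ a : RP M, a • y0 M = y0 M := fun a => ry_smul_y0 M a
  haveI : EqMap (RP M) (Wdg.weq sp : Wdg (RP M) r 3 → Wdg (RP M) r 3) :=
    ⟨fun a z => Wdg.weq_smul fix sp a z⟩
  haveI : EqMap (RP M) (Wdg.weq sq : Wdg (RP M) r 3 → Wdg (RP M) r 3) :=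
    ⟨fun a z => Wdg.weq_smul fix sq a z⟩
  obtain ⟨X, tX, aX, h1, h2, h3, h4⟩ := ar_model' g1 g2 (ry_act M).2.1
    (ry_act M).2.2 (Wdg.wdg_ane (R := RP M) (r := r) (m := 3)) (Wdg.weq_continuous fix sp)
    (Wdg.weq_continuous fix sq) (Wdg.weq_continuous fixY sφ)
    (fun a z => Wdg.weq_smul fixY sφ a z) g3 Wdg.wdg_cel hU hX
  exact ⟨X, tX, aX, h2, ⟨fun g => h1.continuous_const_smul g, h3⟩, h4⟩

end

end Pool.Agent.H18.AR
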