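import Pool.Agent.H18.AR.EndD
import Pool.Agent.H18.AR.Prf

set_option autoImplicit false

/-!
# The flow on a telescope (chapter C2 of MP_5c3080_gt)

THEOREM (`exists_flow`). `TelData h S` and `AE U`. There is a continuous `H : U × I → U` with
`H (u, 0) = u`, `H (u, 1) = S u`, `H (S u, s) = S (H (u, s))`.

PROOF. `U` is metrizable (`metrizable_of_lcs`), so is `U × I`. Let `E k = {u | h u = k}`,
`D k = {u | k ≤ h u ≤ k + 1}`, closed.
(1) `AE U` with `Z = U × I` and the closed set `{t = 0} ∪ {t = 1}`, on which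
`f (u, t) = if t = 0 then u else S u` is continuous (two disjoint closed pieces): a continuous
`H0 : U × I → U` with `H0 (u, 0) = u`, `H0 (u, 1) = S u` for all `u`.
(2) `AE U` with `Z = U × I` and the closed set
`C = {t = 0} ∪ {t = 1} ∪ {h = 0} ∪ {h = 1}` and the function
`f (u, t) = S (H0 (S⁻¹ u, t))` if `h u = 1`, `f (u, t) = H0 (u, t)` otherwise. On `C` we have:
`f (u, 0) = u`, `f (u, 1) = S u` in both cases. `f` is continuous on `C`: `C` is the union of the
closed sets `C1 = {h = 1}` and `C2 = {t = 0} ∪ {t = 1} ∪ {h = 0}`; on `C1` `f` is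
`S (H0 (S⁻¹ u, t))`; on `C2` it equals `H0 (u, t)` (for `h u = 1`, `t ∈ {0, 1}` both formulas agree:
`S (H0 (S⁻¹ u, 0)) = u`, `S (H0 (S⁻¹ u, 1)) = S u`). Get `H1 : U × I → U` continuous
with `H1 = f` on `C`.
(3) `H (u, t) = S^k (H1 (S^(-k) u, t))` with `k = ⌊h u⌋` (`S^k` for `k : ℤ`: use
the group `U ≃ₜ U`, `(S ^ k) u`; `h (S^k u) = h u + k` by induction `Int.induction_on`).
Continuous: the sets `D k × I` form a locally finite closed cover of `U × I`
(`LocallyFinite.continuous`; locally finite because near `u0` the height lies in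
`(h u0 - 1, h u0 + 1)`), and on `D k × I` we have `H (u, t) = S^k (H1 (S^(-k) u, t))`: clear if
`h u < k + 1`; if `h u = k + 1` then `⌊h u⌋ = k + 1` and with `w = S^(-k-1) u`, `h w = 0`:
`H (u, t) = S^(k+1) (H1 (w, t)) = S^(k+1) (H0 (w, t))` and
`S^k (H1 (S w, t)) = S^k (S (H0 (w, t)))` (`h (S w) = 1`). Equal.
`H (u, 0) = S^k (S^(-k) u) = u`; `H (u, 1) = S^k (S (S^(-k) u)) = S u` (`H1 (w, 1) = S w`).
`H (S u, t)`: `⌊h u + 1⌋ = k + 1`, `S^(k+1) (H1 (S^(-k-1) (S u), t)) = S (S^k (H1 (S^(-k) u, t)))`.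

THEOREM (`flow_bound`). For such an `H` there is `C ≥ 0` with `|h (H (u, s)) - h u| ≤ C` for all
`u`, `s`. PROOF. The continuous function `h (H (u, s)) - h u` is bounded on the compact
`{0 ≤ h ≤ 1} × I` (`IsCompact.exists_bound_of_continuousOn`) and invariant under `u ↦ S^k u`.
-/

namespace Pool.Agent.H18.AR

open Set TopologicalSpace Topology

variable {U : Type} [TopologicalSpace U] {h : U → ℝ} {S : U ≃ₜ U}

private theorem h_zpow (hs : ∀ u, h (S u) = h u + 1) (k : ℤ) (u : U) :
    h ((S ^ k : U ≃ₜ U) u) = h u + k := by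
  have hinv : ∀ v, h ((S⁻¹ : U ≃ₜ U) v) = h v - 1 := by
    intro v
    have h1 := hs (S.symm v)
    rw [S.apply_symm_apply] at h1
    rw [Homeomorph.inv_apply]
    linarith
  induction k using Int.induction_on generalizing u with
  | zero => simp
  | succ k ih =>
    rw [zpow_add_one, Homeomorph.mul_apply, ih, hs]
    push_cast
    ring
  | pred k ih =>
    rw [zpow_sub_one, Homeomorph.mul_apply, ih, hinv]
    push_cast
    ring

private theorem zpow_neg_cancel (k : ℤ) (u : U) :
    (S ^ k : U ≃ₜ U) ((S ^ (-k) : U ≃ₜ U) u) = u := by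
  rw [← Homeomorph.mul_apply, ← zpow_add, add_neg_cancel, zpow_zero, Homeomorph.one_apply]

/-- step 1 -/
private theorem exists_H0 [MetrizableSpace U] (aU : AE U) (S : U ≃ₜ U) :
    ∃ H0 : U × unitInterval → U, Continuous H0 ∧ (∀ u, H0 (u, 0) = u) ∧
      ∀ u, H0 (u, 1) = S u := by
  classical
  have hc0 : IsClosed {x : U × unitInterval | x.2 = 0} :=
    isClosed_eq continuous_snd continuous_const
  have hc1 : IsClosed {x : U × unitInterval | x.2 = 1} :=
    isClosed_eq continuous_snd continuous_const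
  obtain ⟨F, hF, hFe⟩ := aU.2 (U × unitInterval)
    ({x : U × unitInterval | x.2 = 0} ∪ {x : U × unitInterval | x.2 = 1})
    (fun x => if x.2 = 0 then x.1 else S x.1) (hc0.union hc1) (by
      refine ContinuousOn.union_of_isClosed ?_ ?_ hc0 hc1
      · refine ContinuousOn.congr (f := fun x : U × unitInterval => x.1)
          continuous_fst.continuousOn ?_
        intro x hx
        exact if_pos hx
      · refine ContinuousOn.congr (f := fun x : U × unitInterval => S x.1)
          (S.continuous.comp continuous_fst).continuousOn ?_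
        intro x hx
        have hx' : x.2 = 1 := hx
        have h0 : ¬ x.2 = 0 := by
          rw [hx']
          exact one_ne_zero
        exact if_neg h0)
  refine ⟨F, hF, fun u => ?_, fun u => ?_⟩
  · rw [hFe (show (u, (0 : unitInterval)) ∈ _ from Or.inl rfl)]
    exact if_pos rfl
  · rw [hFe (show (u, (1 : unitInterval)) ∈ _ from Or.inr rfl)]
    exact if_neg one_ne_zero

/-- step 2 -/
private theorem exists_H1 [MetrizableSpace U] (aU : AE U) (hh : Continuous h)
    (hs : ∀ u, h (S u) = h u + 1)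
    (H0 : U × unitInterval → U) (hH0 : Continuous H0) (h00 : ∀ u, H0 (u, 0) = u)
    (h01 : ∀ u, H0 (u, 1) = S u) :
    ∃ H1 : U × unitInterval → U, Continuous H1 ∧ (∀ u, H1 (u, 0) = u) ∧
      (∀ u, H1 (u, 1) = S u) ∧ (∀ u t, h u = 0 → H1 (S u, t) = S (H1 (u, t))) := by
  classical
  have hc0 : IsClosed {x : U × unitInterval | x.2 = 0} :=
    isClosed_eq continuous_snd continuous_const
  have hc1 : IsClosed {x : U × unitInterval | x.2 = 1} :=
    isClosed_eq continuous_snd continuous_const
  have hc2 : IsClosed {x : U × unitInterval | h x.1 = 0} :=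
    isClosed_eq (hh.comp continuous_fst) continuous_const
  have hc3 : IsClosed {x : U × unitInterval | h x.1 = 1} :=
    isClosed_eq (hh.comp continuous_fst) continuous_const
  have hC2 : IsClosed (({x : U × unitInterval | x.2 = 0} ∪ {x : U × unitInterval | x.2 = 1}) ∪
      {x : U × unitInterval | h x.1 = 0}) := (hc0.union hc1).union hc2
  obtain ⟨F, hF, hFe⟩ := aU.2 (U × unitInterval)
    ({x : U × unitInterval | h x.1 = 1} ∪
      (({x : U × unitInterval | x.2 = 0} ∪ {x : U × unitInterval | x.2 = 1}) ∪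
      {x : U × unitInterval | h x.1 = 0}))
    (fun x => if h x.1 = 1 then S (H0 (S.symm x.1, x.2)) else H0 x) (hc3.union hC2) (by
      refine ContinuousOn.union_of_isClosed ?_ ?_ hc3 hC2
      · refine ContinuousOn.congr
          (f := fun x : U × unitInterval => S (H0 (S.symm x.1, x.2))) ?_ ?_
        · refine Continuous.continuousOn ?_
          exact S.continuous.comp (hH0.comp
            ((S.symm.continuous.comp continuous_fst).prodMk continuous_snd))
        · intro x hx
          exact if_pos hx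
      · refine ContinuousOn.congr (f := H0) hH0.continuousOn ?_
        rintro ⟨u, t⟩ hx
        by_cases hu : h u = 1
        · refine (if_pos hu).trans ?_
          rcases hx with (hx | hx) | hx
          · have hx' : t = 0 := hx
            subst hx'
            show S (H0 (S.symm u, 0)) = H0 (u, 0)
            rw [h00, h00, S.apply_symm_apply]
          · have hx' : t = 1 := hx
            subst hx'
            show S (H0 (S.symm u, 1)) = H0 (u, 1)
            rw [h01, h01, S.apply_symm_apply]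
          · have hx' : h u = 0 := hx
            rw [hx'] at hu
            exact absurd hu zero_ne_one
        · exact if_neg hu)
  refine ⟨F, hF, fun u => ?_, fun u => ?_, fun u t hu => ?_⟩
  · rw [hFe (show (u, (0 : unitInterval)) ∈ _ from Or.inr (Or.inl (Or.inl rfl)))]
    by_cases hu : h u = 1
    · refine (if_pos hu).trans ?_
      show S (H0 (S.symm u, 0)) = u
      rw [h00, S.apply_symm_apply]
    · exact (if_neg hu).trans (h00 u)
  · rw [hFe (show (u, (1 : unitInterval)) ∈ _ from Or.inr (Or.inl (Or.inr rfl)))]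
    by_cases hu : h u = 1
    · refine (if_pos hu).trans ?_
      show S (H0 (S.symm u, 1)) = S u
      rw [h01, S.apply_symm_apply]
    · exact (if_neg hu).trans (h01 u)
  · have hSu : h (S u) = 1 := by rw [hs, hu, zero_add]
    have hu1 : ¬ h u = 1 := by
      rw [hu]
      exact zero_ne_one
    rw [hFe (show (S u, t) ∈ _ from Or.inl hSu), hFe (show (u, t) ∈ _ from Or.inr (Or.inr hu))]
    refine (if_pos hSu).trans ?_
    show S (H0 (S.symm (S u), t)) = S (if h u = 1 then S (H0 (S.symm u, t)) else H0 (u, t))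
    rw [if_neg hu1, S.symm_apply_apply]

theorem exists_flow (hT : TelData h S) (aU : AE U) :
    ∃ H : U × unitInterval → U, Continuous H ∧ (∀ u, H (u, 0) = u) ∧ (∀ u, H (u, 1) = S u) ∧
      ∀ u s, H (S u, s) = S (H (u, s)) := by
  have : MetrizableSpace U := metrizable_of_lcs hT.lcs
  obtain ⟨H0, hH0, h00, h01⟩ := exists_H0 aU S
  obtain ⟨H1, hH1, h10, h11, h12⟩ := exists_H1 aU hT.cont hT.shift H0 hH0 h00 h01
  -- the pieces
  let G : ℤ → U × unitInterval → U :=
    fun k x => (S ^ k : U ≃ₜ U) (H1 ((S ^ (-k) : U ≃ₜ U) x.1, x.2))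
  have hGc : ∀ k, Continuous (G k) := fun k =>
    (S ^ k : U ≃ₜ U).continuous.comp (hH1.comp
      (((S ^ (-k) : U ≃ₜ U).continuous.comp continuous_fst).prodMk continuous_snd))
  have hGS : ∀ (k : ℤ) (u : U) (t : unitInterval), G (k + 1) (S u, t) = S (G k (u, t)) := by
    intro k u t
    show (S ^ (k + 1) : U ≃ₜ U) (H1 ((S ^ (-(k + 1)) : U ≃ₜ U) (S u), t)) =
      S ((S ^ k : U ≃ₜ U) (H1 ((S ^ (-k) : U ≃ₜ U) u, t)))
    have e1 : (S ^ (-(k + 1)) : U ≃ₜ U) (S u) = (S ^ (-k) : U ≃ₜ U) u := by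
      rw [← Homeomorph.mul_apply, ← zpow_add_one]
      congr 2
      ring
    rw [e1, ← Homeomorph.mul_apply S, ← zpow_one_add, add_comm 1 k]
  have hGe : ∀ (k : ℤ) (u : U) (t : unitInterval), h u = (k : ℝ) + 1 →
      G (k + 1) (u, t) = G k (u, t) := by
    intro k u t hu
    have hw0 : h ((S ^ (-(k + 1)) : U ≃ₜ U) u) = 0 := by
      rw [h_zpow hT.shift, hu]
      push_cast
      ring
    have e1 : (S ^ (-k) : U ≃ₜ U) u = S ((S ^ (-(k + 1)) : U ≃ₜ U) u) := by
      rw [← Homeomorph.mul_apply, ← zpow_one_add]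
      congr 2
      ring
    show (S ^ (k + 1) : U ≃ₜ U) (H1 ((S ^ (-(k + 1)) : U ≃ₜ U) u, t)) =
      (S ^ k : U ≃ₜ U) (H1 ((S ^ (-k) : U ≃ₜ U) u, t))
    rw [e1, h12 _ t hw0, zpow_add_one, Homeomorph.mul_apply]
  let H : U × unitInterval → U := fun x => G ⌊h x.1⌋ x
  have hHc : Continuous H := by
    have hlf : LocallyFinite (fun k : ℤ => {x : U × unitInterval | (k : ℝ) ≤ h x.1 ∧
        h x.1 ≤ (k : ℝ) + 1}) := by
      intro x0
      refine ⟨{x | |h x.1 - h x0.1| < 1}, ?_, ?_⟩
      · have hopen : IsOpen {x : U × unitInterval | |h x.1 - h x0.1| < 1} := by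
          refine isOpen_lt ?_ continuous_const
          exact (((hT.cont.comp continuous_fst).sub continuous_const).abs)
        refine hopen.mem_nhds ?_
        show |h x0.1 - h x0.1| < 1
        simp
      · refine (Set.finite_Icc (⌊h x0.1⌋ - 3) (⌊h x0.1⌋ + 3)).subset ?_
        rintro k ⟨x, ⟨hk1, hk2⟩, hx⟩
        have hx' := abs_lt.1 (show |h x.1 - h x0.1| < 1 from hx)
        have hf1 := Int.floor_le (h x0.1)
        have hf2 := Int.lt_floor_add_one (h x0.1)
        constructor
        · have : ((⌊h x0.1⌋ - 3 : ℤ) : ℝ) ≤ k := by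
            push_cast
            linarith
          exact_mod_cast this
        · have : (k : ℝ) ≤ ((⌊h x0.1⌋ + 3 : ℤ) : ℝ) := by
            push_cast
            linarith
          exact_mod_cast this
    refine hlf.continuous ?_ ?_ ?_
    · rw [Set.eq_univ_iff_forall]
      intro x
      rw [Set.mem_iUnion]
      exact ⟨⌊h x.1⌋, Int.floor_le _, (Int.lt_floor_add_one _).le⟩
    · intro k
      exact (isClosed_le continuous_const (hT.cont.comp continuous_fst)).inter
        (isClosed_le (hT.cont.comp continuous_fst) continuous_const)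
    · intro k
      refine (hGc k).continuousOn.congr ?_
      rintro ⟨u, t⟩ ⟨hk1, hk2⟩
      have hk1' : (k : ℝ) ≤ h u := hk1
      have hk2' : h u ≤ (k : ℝ) + 1 := hk2
      show G ⌊h u⌋ (u, t) = G k (u, t)
      rcases lt_or_eq_of_le hk2' with hlt | heq
      · have : ⌊h u⌋ = k := Int.floor_eq_iff.2 ⟨hk1', hlt⟩
        rw [this]
      · have : ⌊h u⌋ = k + 1 := by
          rw [heq]
          have : ((k : ℝ) + 1) = ((k + 1 : ℤ) : ℝ) := by push_cast; ring
          rw [this, Int.floor_intCast]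
        rw [this]
        exact hGe k u t heq
  refine ⟨H, hHc, fun u => ?_, fun u => ?_, fun u s => ?_⟩
  · show (S ^ ⌊h u⌋ : U ≃ₜ U) (H1 ((S ^ (-⌊h u⌋) : U ≃ₜ U) u, 0)) = u
    rw [h10, zpow_neg_cancel]
  · show (S ^ ⌊h u⌋ : U ≃ₜ U) (H1 ((S ^ (-⌊h u⌋) : U ≃ₜ U) u, 1)) = S u
    rw [h11, ← Homeomorph.mul_apply, ← Homeomorph.mul_apply, mul_assoc, ← zpow_one_add,
      ← zpow_add]
    have : ⌊h u⌋ + (1 + -⌊h u⌋) = 1 := by ring
    rw [this, zpow_one]
  · show G ⌊h (S u)⌋ (S u, s) = S (G ⌊h u⌋ (u, s))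
    rw [hT.shift, Int.floor_add_one]
    exact hGS _ u s

theorem flow_bound (hT : TelData h S) (H : U × unitInterval → U) (hH : Continuous H)
    (hS : ∀ u s, H (S u, s) = S (H (u, s))) :
    ∃ C : ℝ, 0 ≤ C ∧ ∀ u s, |h (H (u, s)) - h u| ≤ C := by
  have hSk : ∀ (k : ℤ) (u : U) (s : unitInterval), H ((S ^ k : U ≃ₜ U) u, s) =
      (S ^ k : U ≃ₜ U) (H (u, s)) := by
    have hinv : ∀ (u : U) (s : unitInterval), H ((S⁻¹ : U ≃ₜ U) u, s) =
        (S⁻¹ : U ≃ₜ U) (H (u, s)) := by
      intro u s
      have h1 := hS (S.symm u) s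
      rw [S.apply_symm_apply] at h1
      rw [Homeomorph.inv_apply, Homeomorph.inv_apply, h1, S.symm_apply_apply]
    intro k
    induction k using Int.induction_on with
    | zero => intro u s; simp
    | succ k ih =>
      intro u s
      rw [zpow_add_one, Homeomorph.mul_apply, ih, hS, Homeomorph.mul_apply]
    | pred k ih =>
      intro u s
      rw [zpow_sub_one, Homeomorph.mul_apply, ih, hinv, Homeomorph.mul_apply]
  have hK : IsCompact ({u : U | 0 ≤ h u ∧ h u ≤ 1} ×ˢ (univ : Set unitInterval)) :=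
    (hT.proper 0 1).prod isCompact_univ
  have hcont : Continuous (fun x : U × unitInterval => h (H x) - h x.1) :=
    (hT.cont.comp hH).sub (hT.cont.comp continuous_fst)
  obtain ⟨C, hC⟩ := hK.exists_bound_of_continuousOn hcont.continuousOn
  refine ⟨max C 0, le_max_right _ _, fun u s => ?_⟩
  set k : ℤ := ⌊h u⌋ with hk
  set v : U := (S ^ (-k) : U ≃ₜ U) u with hv
  have huv : u = (S ^ k : U ≃ₜ U) v := (zpow_neg_cancel k u).symm
  have hvh : h v = h u - k := by
    rw [hv, h_zpow hT.shift]
    push_cast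
    ring
  have hf1 := Int.floor_le (h u)
  have hf2 := Int.lt_floor_add_one (h u)
  have hmem : (v, s) ∈ ({u : U | 0 ≤ h u ∧ h u ≤ 1} ×ˢ (univ : Set unitInterval)) := by
    refine ⟨⟨?_, ?_⟩, mem_univ _⟩
    · show 0 ≤ h v
      rw [hvh, hk]
      linarith
    · show h v ≤ 1
      rw [hvh, hk]
      linarith
  have h1 := hC (v, s) hmem
  rw [Real.norm_eq_abs] at h1
  have h2 : h (H (u, s)) - h u = h (H (v, s)) - h v := by
    have e1 : h (H (u, s)) = h (H (v, s)) + k := by
      conv_lhs => rw [huv]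
      rw [hSk, h_zpow hT.shift]
    rw [e1, hvh]
    ring
  rw [h2]
  exact h1.trans (le_max_left _ _)

end Pool.Agent.H18.AR
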