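import Pool.Agent.H18.AR.Defs

set_option autoImplicit false

/-!
# Controlled extension (first half of Lemma G; chapter C2 of MP_5c3080_gt)

THEOREM. `X`, `Z` metrizable, `R ⊆ X` with `ANE R` (subspace), `A0 ⊆ A` closed in `Z`, `f : Z → X`
continuous on `A` with `f z ∈ R` for `z ∈ A \ A0`. Then there are an open `O ⊆ Z` disjoint from
`A0` and containing `A \ A0`, and `F : Z → X` continuous on `O ∪ A0`, equal to `f` on `A`, with
`F z ∈ R` for `z ∈ O`.

PROOF. If `A \ A0` is empty: `O = ∅`, `F = f`. Let `a1 ∈ A \ A0`.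
(1) Apply `ANE R` to the metrizable space `Z' = {z // z ∉ A0}` (instance:
`inferInstance` for subtypes), the closed set `A' = {z : Z' | z.1 ∈ A}` and
`f' : Z' → R`, `f' z = if h : f z ∈ R then ⟨f z, h⟩ else ⟨f a1, _⟩` (continuous on `A'`). Get
`V' ⊆ Z'` open, `F' : Z' → R` continuous on `V'`, equal to `f'` on `A'`.
`O1 = Subtype.val '' V'` is open in `Z` (`A0ᶜ` is open: `IsOpen.isOpenMap_subtype_val`), and
`F1 : Z → X`, `F1 z = if h : z ∉ A0 then F' ⟨z, h⟩ else f z` is continuous on `O1`, equals `f`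
on `A`, and `F1 z ∈ R` for `z ∈ O1` (for all `z ∉ A0`).
(2) If `A0 = ∅` take `O = O1`, `F = F1`. Let now `A0` be nonempty, fix metrics on `Z` and `X`
(`letI := metrizableSpaceMetric`), `δ z = infDist z A0`: continuous, positive off `A0`
(`IsClosed.notMem_iff_infDist_pos`), `δ z ≤ dist z b` for `b ∈ A0`
(`infDist_le_dist_of_mem`). Put
`O = {z ∈ O1 | ∃ a ∈ A \ A0, dist z a < δ z ∧ dist (F1 z) (f a) < δ z}`.
`O` is open: it is a union over `a` of sets `{z ∈ O1 | dist z a < δ z ∧ dist (F1 z) (f a) < δ z}`,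
which are open because `F1` is continuous on the open `O1`
(`ContinuousOn.isOpen_inter_preimage`). `A \ A0 ⊆ O`: take `a = z` (`F1 z = f z`, `δ z > 0`).
(3) `F1` is continuous on `O ∪ A0`: at points of `O` because `O ⊆ O1` is open and
`F1` is continuous on `O1`. At `b ∈ A0`: let `ε > 0`. `f` is continuous on `A` at `b`: there is
`η > 0` with `a ∈ A`, `dist a b < η` ==> `dist (f a) (f b) < ε / 2`. Let
`z ∈ O ∪ A0`, `dist z b < min (η / 2) (ε / 2)`. If `z ∈ A0`: `F1 z = f z` (`A0 ⊆ A`), fine. If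
`z ∈ O` with `a`: `dist a b ≤ dist a z + dist z b < δ z + dist z b ≤ 2 * dist z b < η`, so
`dist (f a) (f b) < ε / 2`, and `dist (F1 z) (f a) < δ z ≤ dist z b < ε / 2`; so
`dist (F1 z) (f b) < ε`. (`F1 b = f b`.)
-/

namespace Pool.Agent.H18.AR

open Set TopologicalSpace Metric

theorem controlled_ext {X Z : Type} [TopologicalSpace X] [MetrizableSpace X]
    [TopologicalSpace Z] [MetrizableSpace Z] (R : Set X) (hR : ANE R)
    (A A0 : Set Z) (hA : IsClosed A) (hA0 : IsClosed A0) (h0 : A0 ⊆ A) (f : Z → X)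
    (hf : ContinuousOn f A) (hfR : ∀ z ∈ A \ A0, f z ∈ R) :
    ∃ (O : Set Z) (F : Z → X), IsOpen O ∧ A \ A0 ⊆ O ∧ Disjoint O A0 ∧
      ContinuousOn F (O ∪ A0) ∧ EqOn F f A ∧ ∀ z ∈ O, F z ∈ R := by
  classical
  by_cases hne : (A \ A0).Nonempty
  swap
  · refine ⟨∅, f, isOpen_empty, ?_, disjoint_bot_left, ?_, fun _ _ => rfl, ?_⟩
    · rw [not_nonempty_iff_eq_empty.1 hne]
    · rw [empty_union]; exact hf.mono h0
    · intro z hz; exact absurd hz (by simp)
  obtain ⟨a1, ha1⟩ := hne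
  let f' : {z : Z // z ∉ A0} → R := fun z =>
    if h : f z.1 ∈ R then ⟨f z.1, h⟩ else ⟨f a1, hfR a1 ha1⟩
  have hf'v : ∀ z : {z : Z // z ∉ A0}, z.1 ∈ A → (f' z : X) = f z.1 := by
    intro z hz
    have h : f z.1 ∈ R := hfR z.1 ⟨hz, z.2⟩
    simp only [f', dif_pos h]
  have hA'c : IsClosed {z : {z : Z // z ∉ A0} | z.1 ∈ A} :=
    hA.preimage continuous_subtype_val
  have hf'c : ContinuousOn f' {z : {z : Z // z ∉ A0} | z.1 ∈ A} := by
    rw [Topology.IsInducing.subtypeVal.continuousOn_iff]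
    have h1 : ContinuousOn (fun z : {z : Z // z ∉ A0} => f z.1)
        {z : {z : Z // z ∉ A0} | z.1 ∈ A} :=
      hf.comp continuous_subtype_val.continuousOn (fun z hz => hz)
    exact h1.congr (fun z hz => hf'v z hz)
  have : MetrizableSpace {z : Z // z ∉ A0} := Topology.IsEmbedding.subtypeVal.metrizableSpace
  obtain ⟨V', F', hV', hAV', hF'c, hF'e⟩ := hR {z : Z // z ∉ A0} _ f' hA'c hf'c
  have hemb : Topology.IsOpenEmbedding (Subtype.val : {z : Z // z ∉ A0} → Z) :=
    hA0.isOpen_compl.isOpenEmbedding_subtypeVal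
  let O1 : Set Z := Subtype.val '' V'
  have hO1 : IsOpen O1 := hemb.isOpenMap V' hV'
  let F1 : Z → X := fun z => if h : z ∉ A0 then (F' ⟨z, h⟩ : X) else f z
  have hF1v : ∀ w : {z : Z // z ∉ A0}, F1 w.1 = (F' w : X) := by
    intro w
    have h : w.1 ∉ A0 := w.2
    simp only [F1, dif_pos h]
  have hF1R : ∀ z, z ∉ A0 → F1 z ∈ R := by
    intro z hz
    have := hF1v ⟨z, hz⟩
    rw [this]
    exact (F' ⟨z, hz⟩).2
  have hF1A : EqOn F1 f A := by
    intro z hz
    by_cases h : z ∈ A0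
    · simp only [F1]
      rw [dif_neg (not_not.2 h)]
    · have h1 := hF1v ⟨z, h⟩
      have h2 : F' ⟨z, h⟩ = f' ⟨z, h⟩ := hF'e (show (⟨z, h⟩ : {z : Z // z ∉ A0}).1 ∈ A from hz)
      rw [h1, h2]
      exact hf'v ⟨z, h⟩ hz
  have hF1c : ContinuousOn F1 O1 := by
    rintro z ⟨w, hw, rfl⟩
    apply ContinuousAt.continuousWithinAt
    rw [← hemb.continuousAt_iff]
    have e : F1 ∘ (Subtype.val : {z : Z // z ∉ A0} → Z) = fun w => (F' w : X) :=
      funext hF1v
    rw [e]
    exact continuous_subtype_val.continuousAt.comp (hF'c.continuousAt (hV'.mem_nhds hw))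
  have hAO1 : A \ A0 ⊆ O1 := by
    intro z hz
    exact ⟨⟨z, hz.2⟩, hAV' hz.1, rfl⟩
  have hO1A0 : ∀ z ∈ O1, z ∉ A0 := by
    rintro z ⟨w, hw, rfl⟩
    exact w.2
  by_cases hA0e : A0.Nonempty
  swap
  · have he := not_nonempty_iff_eq_empty.1 hA0e
    refine ⟨O1, F1, hO1, hAO1, ?_, ?_, hF1A, fun z hz => hF1R z (hO1A0 z hz)⟩
    · rw [he]; exact disjoint_bot_right
    · rw [he, union_empty]; exact hF1c
  let _ := metrizableSpaceMetric Z
  let _ := metrizableSpaceMetric X
  let O : Set Z := {z | z ∈ O1 ∧ ∃ a ∈ A \ A0, dist z a < infDist z A0 ∧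
    dist (F1 z) (f a) < infDist z A0}
  have hOo : IsOpen O := by
    have e : O = ⋃ a ∈ A \ A0, (O1 ∩ {z | dist z a < infDist z A0}) ∩
        (O1 ∩ (fun z => infDist z A0 - dist (F1 z) (f a)) ⁻¹' Ioi 0) := by
      ext z
      simp only [O, mem_ofPred_eq, mem_iUnion, mem_inter_iff, mem_preimage, mem_Ioi, sub_pos,
        exists_prop]
      constructor
      · rintro ⟨h1, a, ha, h2, h3⟩
        exact ⟨a, ha, ⟨h1, h2⟩, h1, h3⟩
      · rintro ⟨a, ha, ⟨h1, h2⟩, -, h3⟩
        exact ⟨h1, a, ha, h2, h3⟩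
    rw [e]
    refine isOpen_biUnion (fun a _ => ?_)
    refine (hO1.inter ?_).inter ?_
    · exact isOpen_lt (continuous_id.dist continuous_const) (continuous_infDist_pt A0)
    · refine ContinuousOn.isOpen_inter_preimage ?_ hO1 isOpen_Ioi
      exact (continuous_infDist_pt A0).continuousOn.sub (continuous_dist.comp_continuousOn (ContinuousOn.prodMk hF1c continuousOn_const))
  have hAO : A \ A0 ⊆ O := by
    intro z hz
    have hp : 0 < infDist z A0 := (hA0.notMem_iff_infDist_pos hA0e).1 hz.2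
    refine ⟨hAO1 hz, z, hz, ?_, ?_⟩
    · rw [dist_self]; exact hp
    · rw [hF1A hz.1, dist_self]; exact hp
  refine ⟨O, F1, hOo, hAO, ?_, ?_, hF1A, fun z hz => hF1R z (hO1A0 z hz.1)⟩
  · rw [Set.disjoint_left]
    intro z hz hz0
    exact hO1A0 z hz.1 hz0
  · rintro z (hz | hb)
    · exact (hF1c.continuousAt (hO1.mem_nhds hz.1)).continuousWithinAt
    · have hfb := hf z (h0 hb)
      rw [Metric.continuousWithinAt_iff] at hfb ⊢
      intro ε hε
      obtain ⟨η, hη, hη'⟩ := hfb (ε / 2) (by linarith)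
      refine ⟨min (η / 2) (ε / 2), lt_min (by linarith) (by linarith), ?_⟩
      intro w hw hwd
      rw [hF1A (h0 hb)]
      have hwd1 := lt_of_lt_of_le hwd (min_le_left _ _)
      have hwd2 := lt_of_lt_of_le hwd (min_le_right _ _)
      rcases hw with hw | hw
      · obtain ⟨-, a, ha, h2, h3⟩ := hw
        have h4 : infDist w A0 ≤ dist w z := infDist_le_dist_of_mem hb
        have h5 : dist a z ≤ dist w a + dist w z := by
          rw [dist_comm w a]; exact dist_triangle a w z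
        have h6 : dist (f a) (f z) < ε / 2 := hη' ha.1 (by linarith)
        have h7 : dist (F1 w) (f z) ≤ dist (F1 w) (f a) + dist (f a) (f z) :=
          dist_triangle _ _ _
        linarith
      · rw [hF1A (h0 hw)]
        have := hη' (h0 hw) (by linarith)
        linarith

end Pool.Agent.H18.AR
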