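import Pool.Agent.H18.AR.PoG

set_option autoImplicit false

/-!
# Homotopy coequalizers, definitions

`HC d0 d1` for `d0 d1 : E → V`: the double mapping cylinder, obtained from `V` by attaching
`E × [0,1]` along `E × {0,1}` by `d0` at `0` and `d1` at `1`.
`Tel p q`: the two sided telescope of `p q : L → L`: vertex spaces `{k} × L` (`k : ℤ`), the `k`-th
cylinder joins the vertex space `k - 1` (by `q`, at `0`) to the vertex space `k` (by `p`, at `1`).
-/

namespace Pool.Agent.H18.AR

open Set TopologicalSpace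

/-- both ends of the cylinder -/
def hcA (E : Type) : Set (E × unitInterval) := {x | x.2 = 0 ∨ x.2 = 1}

open Classical in
/-- the attaching map of the double mapping cylinder -/
noncomputable def hcφ {V E : Type} (d0 d1 : E → V) (x : E × unitInterval) : V :=
  if x.2 = 0 then d0 x.1 else d1 x.1

theorem hcφ_zero {V E : Type} (d0 d1 : E → V) (e : E) : hcφ d0 d1 (e, 0) = d0 e := by
  simp [hcφ]

theorem hcφ_one {V E : Type} (d0 d1 : E → V) (e : E) : hcφ d0 d1 (e, 1) = d1 e := by
  simp [hcφ]

/-- the homotopy coequalizer (double mapping cylinder) -/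
abbrev HC {V E : Type} (d0 d1 : E → V) : Type := PO (hcA E) (hcφ d0 d1)

namespace HC

variable {V E : Type} {d0 d1 : E → V}

/-- the inclusion of the vertex space -/
noncomputable def vt (v : V) : HC d0 d1 := PO.jY (hcA E) (hcφ d0 d1) v

/-- the characteristic map of the cylinder -/
noncomputable def ed (e : E) (t : unitInterval) : HC d0 d1 := PO.jB (hcA E) (hcφ d0 d1) (e, t)

theorem ed_zero (e : E) : (ed e 0 : HC d0 d1) = vt (d0 e) := by
  have h : ((e, 0) : E × unitInterval) ∈ hcA E := Or.inl rfl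
  simp only [ed, vt]
  rw [PO.jB_mem h, hcφ_zero]

theorem ed_one (e : E) : (ed e 1 : HC d0 d1) = vt (d1 e) := by
  have h : ((e, 1) : E × unitInterval) ∈ hcA E := Or.inr rfl
  simp only [ed, vt]
  rw [PO.jB_mem h, hcφ_one]

/-- the induced map out of the homotopy coequalizer -/
noncomputable def desc {W : Type} (f : V → W) (g : E → unitInterval → W) : HC d0 d1 → W :=
  PO.desc f (fun x => g x.1 x.2)

theorem desc_vt {W : Type} (f : V → W) (g : E → unitInterval → W) (v : V) :
    desc (d0 := d0) (d1 := d1) f g (vt v) = f v := rfl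

theorem desc_ed {W : Type} (f : V → W) (g : E → unitInterval → W)
    (h0 : ∀ e, g e 0 = f (d0 e)) (h1 : ∀ e, g e 1 = f (d1 e)) (e : E) (t : unitInterval) :
    desc (d0 := d0) (d1 := d1) f g (ed e t) = g e t := by
  refine PO.desc_jB f (fun x => g x.1 x.2) ?_ (e, t)
  rintro ⟨e, t⟩ ht
  rcases ht with ht | ht
  · have ht' : t = 0 := ht
    subst ht'
    change g e 0 = f (hcφ d0 d1 (e, 0))
    rw [hcφ_zero, h0]
  · have ht' : t = 1 := ht
    subst ht'
    change g e 1 = f (hcφ d0 d1 (e, 1))
    rw [hcφ_one, h1]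

theorem cases (x : HC d0 d1) : (∃ v, x = vt v) ∨ ∃ e t, x = ed e t := by
  rcases PO.cases_mk x with ⟨y, h⟩ | ⟨b, _, h⟩
  · exact Or.inl ⟨y, h⟩
  · exact Or.inr ⟨b.1, b.2, h⟩

end HC

section Tel

variable {L : Type} (p q : L → L)

/-- attaching map at `0` -/
def telD0 (x : ℤ × L) : ℤ × L := (x.1 - 1, q x.2)

/-- attaching map at `1` -/
def telD1 (x : ℤ × L) : ℤ × L := (x.1, p x.2)

/-- the two sided telescope -/
abbrev Tel : Type := HC (telD0 q) (telD1 p)

/-- the height function -/
noncomputable def telH : Tel p q → ℝ :=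
  HC.desc (fun x => (x.1 : ℝ)) (fun x t => (x.1 : ℝ) - 1 + (t : ℝ))

/-- the shift by `n` stages together with a map `α` of `L` (which should commute with `p`, `q`) -/
noncomputable def telMap (n : ℤ) (α : L → L) : Tel p q → Tel p q :=
  HC.desc (fun x => HC.vt (x.1 + n, α x.2)) (fun x t => HC.ed (x.1 + n, α x.2) t)

end Tel

end Pool.Agent.H18.AR
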