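import Pool.Agent.H18.AR.EndT
import Pool.Agent.H18.AR.Flo
import Pool.Agent.H18.AR.Ret
import Pool.Agent.H18.AR.Abs
import Pool.Agent.H18.AR.GLm
import Pool.Agent.H18.AR.Clp

set_option autoImplicit false

/-!
# The telescope with its end point is AE (chapter C2 of MP_5c3080_gt)

THEOREM (`exists_push`). `TelData h S`, `AE U`. There is a continuous
`d : EndPt h × I → EndPt h` with `d (x, 0) = x`, `d (x, 1) = pt`, `d (pt, t) = pt`.

PROOF. Take `H` and `C` from `exists_flow`, `flow_bound`.
(1) For real `τ ≥ 0` put `Φ (u, τ) = S^⌊τ⌋ (H (u, fract τ))` (`⌊τ⌋ = Nat.floor τ`, `S^[n]` or the power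
in the group `U ≃ₜ U`; `fract τ` as an element of `unitInterval`). `Φ` is continuous on
`U × [0, ∞)`: on the closed set `n ≤ τ ≤ n + 1` it equals `S^n (H (u, τ - n))`, because at
`τ = n + 1`: `S^(n+1) (H (u, 0)) = S^(n+1) u` and `S^n (H (u, 1)) = S^n (S u)`. These closed sets
(`n : ℕ`) are a locally finite cover of `U × [0, ∞)` (`LocallyFinite.continuous`; it may be more
convenient to define `Φ (u, τ)` for all real `τ` by `Int.floor` and powers `S^k`, `k : ℤ`; then it
is a continuous map on `U × ℝ`). `h (Φ (u, τ)) ≥ h u + τ - 1 - C` for `τ ≥ 0` (for all `τ`).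
(2) `d (inc u, t) = inc (Φ (u, t / (1 - t)))` for `t < 1`, `d (inc u, 1) = pt`, `d (pt, t) = pt`.
`d (inc u, 0) = inc (Φ (u, 0)) = inc u`.
Continuity at `(inc u, t)`, `t < 1`: there `d = inc ∘ Φ ∘ (u, t ↦ t / (1 - t))` on an open
neighbourhood (`inc` is an open embedding, `t < 1` open; `1 - t ≠ 0`). At a point
`(x, t)` with `x = pt` or `t = 1` the value is `pt`: given `N` we need a neighbourhood on which the
value is `pt` or has height `> N`. If `x = inc u`, `t = 1`: on
`inc '' {h > h u - 1} × {t' | t' / (1 - t') > N + 2 + C - h u or t' = 1}` (this second set contains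
`{t' | t' > T}` for some `T < 1`, e.g. `t' (M + 1) > M` with `M = max 0 (N + 2 + C - h u)`), the
height is `≥ h u - 1 + τ - 1 - C > N`. If `x = pt`: on
`({pt} ∪ inc '' {h > N + 1 + C}) × I` the height is `> N + 1 + C + τ - 1 - C ≥ N`.
(Use `EndPt.nhds_pt`; `ContinuousAt` via `Filter.tendsto_def` or `Filter.HasBasis`.)

THEOREM (`ae_end`): `AE (EndPt h)`. PROOF. `EndPt h` is metrizable (`end_lcs`,
`metrizable_of_lcs`). `lemmaG` with `B = {pt}` (closed; ANE: one point, e.g. `ane_discrete`-type
or directly: every map to a one point space is continuous), complement homeomorphic to `U`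
(`ane_homeo` or `ane_retract` with the homeomorphism of `U` onto the range of the open embedding
`inc`), `N = univ`, and `d` from `exists_push`: `ANE (EndPt h)`. It is contractible by the same `d`
(`Contr` with `b = pt`). So `ae_of_contr`.
-/

namespace Pool.Agent.H18.AR

open Set TopologicalSpace Topology

variable {U : Type} [TopologicalSpace U] {h : U → ℝ} {S : U ≃ₜ U}

private theorem height_zpow (hS : ∀ u, h (S u) = h u + 1) (k : ℤ) (u : U) :
    h ((S ^ k) u) = h u + k := by
  have hinv : ∀ u, h (S⁻¹ u) = h u - 1 := by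
    intro u
    have h1 : S (S⁻¹ u) = u := by
      rw [← Homeomorph.mul_apply, mul_inv_cancel]
      rfl
    have h2 := hS (S⁻¹ u)
    rw [h1] at h2
    linarith
  induction k using Int.induction_on generalizing u with
  | zero =>
    simp
  | succ n ih =>
    rw [zpow_add_one, Homeomorph.mul_apply, ih, hS]
    push_cast
    ring
  | pred n ih =>
    rw [zpow_sub_one, Homeomorph.mul_apply, ih, hinv]
    push_cast
    ring

/-- the flow for all times -/
private noncomputable def Phi (S : U ≃ₜ U) (H : U × unitInterval → U) (p : U × ℝ) : U :=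
  (S ^ ⌊p.2⌋) (H (p.1, Set.projIcc 0 1 zero_le_one (Int.fract p.2)))

private theorem lf_Icc : LocallyFinite fun n : ℤ => Icc (n : ℝ) (n + 1) := by
  intro x
  refine ⟨Ioo (x - 1) (x + 1), Ioo_mem_nhds (by linarith) (by linarith), ?_⟩
  refine (Set.finite_Icc ⌊x - 2⌋ ⌈x + 1⌉).subset ?_
  rintro n ⟨y, ⟨h1, h2⟩, h3, h4⟩
  refine ⟨?_, ?_⟩
  · rw [← Int.cast_le (R := ℝ)]
    exact (Int.floor_le _).trans (by linarith)
  · rw [← Int.cast_le (R := ℝ)]
    exact (by linarith : (n : ℝ) ≤ x + 1).trans (Int.le_ceil _)

private theorem phi_cont (H : U × unitInterval → U) (hH : Continuous H)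
    (hH0 : ∀ u, H (u, 0) = u) (hH1 : ∀ u, H (u, 1) = S u) : Continuous (Phi S H) := by
  have hlf : LocallyFinite fun n : ℤ => (Prod.snd : U × ℝ → ℝ) ⁻¹' Icc (n : ℝ) (n + 1) :=
    lf_Icc.preimage_continuous continuous_snd
  refine hlf.continuous ?_ (fun n => isClosed_Icc.preimage continuous_snd) ?_
  · rw [eq_univ_iff_forall]
    intro p
    rw [mem_iUnion]
    exact ⟨⌊p.2⌋, Int.floor_le _, (Int.lt_floor_add_one _).le⟩
  · intro n
    have h1 : ContinuousOn (fun p : U × ℝ => (S ^ n) (H (p.1, Set.projIcc 0 1 zero_le_one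
        (p.2 - n)))) ((Prod.snd : U × ℝ → ℝ) ⁻¹' Icc (n : ℝ) (n + 1)) := by
      apply Continuous.continuousOn
      refine (S ^ n).continuous.comp (hH.comp (continuous_fst.prodMk ?_))
      exact continuous_projIcc.comp (by fun_prop)
    refine h1.congr ?_
    rintro ⟨u, t⟩ ⟨h2, h3⟩
    change (n : ℝ) ≤ t at h2
    change t ≤ (n : ℝ) + 1 at h3
    change (S ^ ⌊t⌋) (H (u, Set.projIcc 0 1 zero_le_one (Int.fract t))) =
      (S ^ n) (H (u, Set.projIcc 0 1 zero_le_one (t - n)))
    rcases h3.lt_or_eq with h4 | h4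
    · have h5 : ⌊t⌋ = n := Int.floor_eq_iff.2 ⟨h2, h4⟩
      rw [Int.fract, h5]
    · have h5 : t = ((n + 1 : ℤ) : ℝ) := by
        rw [h4]
        push_cast
        rfl
      have h6 : ⌊t⌋ = n + 1 := by
        rw [h5]
        exact Int.floor_intCast _
      have h7 : Int.fract t = 0 := by
        rw [h5]
        exact Int.fract_intCast _
      have h8 : t - n = 1 := by
        rw [h4]
        ring
      rw [h6, h7, h8]
      have h9 : Set.projIcc (0 : ℝ) 1 zero_le_one 0 = 0 := Set.projIcc_left _
      have h10 : Set.projIcc (0 : ℝ) 1 zero_le_one 1 = 1 := Set.projIcc_right _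
      rw [h9, h10, hH0, hH1, zpow_add_one, Homeomorph.mul_apply]

private theorem phi_zero (H : U × unitInterval → U) (hH0 : ∀ u, H (u, 0) = u) (u : U) :
    Phi S H (u, 0) = u := by
  change (S ^ ⌊(0 : ℝ)⌋) (H (u, Set.projIcc 0 1 zero_le_one (Int.fract 0))) = u
  rw [Int.floor_zero, Int.fract_zero]
  have h9 : Set.projIcc (0 : ℝ) 1 zero_le_one 0 = 0 := Set.projIcc_left _
  rw [h9, hH0]
  simp

private theorem phi_height (hS : ∀ u, h (S u) = h u + 1) (H : U × unitInterval → U) {C : ℝ}
    (hC : ∀ u s, |h (H (u, s)) - h u| ≤ C) (u : U) (t : ℝ) :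
    h u + t - 1 - C ≤ h (Phi S H (u, t)) := by
  change h u + t - 1 - C ≤ h ((S ^ ⌊t⌋) (H (u, Set.projIcc 0 1 zero_le_one (Int.fract t))))
  rw [height_zpow hS]
  have h1 := hC u (Set.projIcc 0 1 zero_le_one (Int.fract t))
  rw [abs_le] at h1
  have h2 := Int.lt_floor_add_one t
  linarith [h1.1]

/-- the push -/
private noncomputable def dd (S : U ≃ₜ U) (H : U × unitInterval → U) (h : U → ℝ)
    (p : EndPt h × unitInterval) : EndPt h :=
  open Classical in
  if p.2 = 1 then EndPt.pt h else
    EndPt.desc h (fun u => EndPt.inc h (Phi S H (u, (p.2 : ℝ) / (1 - (p.2 : ℝ))))) (EndPt.pt h) p.1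

private theorem dd_inc (H : U × unitInterval → U) (u : U) (t : unitInterval) (ht : t ≠ 1) :
    dd S H h (EndPt.inc h u, t) = EndPt.inc h (Phi S H (u, (t : ℝ) / (1 - (t : ℝ)))) := by
  unfold dd
  simp only
  rw [if_neg ht]
  rfl

private theorem dd_one (H : U × unitInterval → U) (x : EndPt h) :
    dd S H h (x, 1) = EndPt.pt h := by
  unfold dd
  simp

private theorem dd_pt (H : U × unitInterval → U) (t : unitInterval) :
    dd S H h (EndPt.pt h, t) = EndPt.pt h := by
  unfold dd
  split_ifs
  · rfl
  · rfl

private theorem lt_one_of {t : unitInterval} (ht : t ≠ 1) : (t : ℝ) < 1 := by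
  refine lt_of_le_of_ne t.2.2 fun h => ht ?_
  exact Subtype.ext h

theorem exists_push (hT : TelData h S) (aU : AE U) :
    ∃ d : EndPt h × unitInterval → EndPt h, Continuous d ∧ (∀ x, d (x, 0) = x) ∧
      (∀ x, d (x, 1) = EndPt.pt h) ∧ ∀ t, d (EndPt.pt h, t) = EndPt.pt h := by
  obtain ⟨H, hH, hH0, hH1, hHS⟩ := exists_flow hT aU
  obtain ⟨C, hC0, hC⟩ := flow_bound hT H hH hHS
  have hinc := EndPt.inc_openEmbedding (h := h)
  have hPhi := phi_cont H hH hH0 hH1
  refine ⟨dd S H h, ?_, ?_, dd_one H, dd_pt H⟩
  · rw [continuous_iff_continuousAt]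
    rintro ⟨x, t⟩
    by_cases hc : x = EndPt.pt h ∨ t = 1
    · -- the value is the end point
      have hval : dd S H h (x, t) = EndPt.pt h := by
        rcases hc with rfl | rfl
        · exact dd_pt H t
        · exact dd_one H x
      unfold ContinuousAt
      rw [hval, Filter.tendsto_def]
      intro V hV
      obtain ⟨hpV, N, hN⟩ := (EndPt.nhds_pt hT.cont V).1 hV
      -- it is enough to have a large height
      have key : ∀ (u : U) (s : unitInterval),
          (s ≠ 1 → N < h u + (s : ℝ) / (1 - (s : ℝ)) - 1 - C) →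
            dd S H h (EndPt.inc h u, s) ∈ V := by
        intro u s hs
        by_cases h1 : s = 1
        · rw [h1, dd_one]
          exact hpV
        · rw [dd_inc H u s h1]
          exact hN _ (lt_of_lt_of_le (hs h1) (phi_height hT.shift H hC u _))
      rcases hc with rfl | rfl
      · have hA : {y : EndPt h | y = EndPt.pt h ∨ ∃ u, y = EndPt.inc h u ∧ N + 1 + C < h u} ∈
            𝓝 (EndPt.pt h) := by
          rw [EndPt.nhds_pt hT.cont]
          exact ⟨Or.inl rfl, N + 1 + C, fun u hu => Or.inr ⟨u, rfl, hu⟩⟩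
        refine Filter.mem_of_superset (prod_mem_nhds hA Filter.univ_mem) ?_
        rintro ⟨y, s⟩ ⟨hy, -⟩
        rcases hy with hy | ⟨u, hy, hu⟩
        · change y = EndPt.pt h at hy
          change dd S H h (y, s) ∈ V
          rw [hy, dd_pt]
          exact hpV
        · change y = EndPt.inc h u at hy
          change dd S H h (y, s) ∈ V
          rw [hy]
          refine key u s fun hs => ?_
          have h2 : 0 ≤ (s : ℝ) / (1 - (s : ℝ)) :=
            div_nonneg s.2.1 (by linarith [lt_one_of hs])
          linarith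
      · rcases EndPt.cases h x with rfl | ⟨u0, rfl⟩
        · have hA : {y : EndPt h | y = EndPt.pt h ∨ ∃ u, y = EndPt.inc h u ∧ N + 1 + C < h u} ∈
              𝓝 (EndPt.pt h) := by
            rw [EndPt.nhds_pt hT.cont]
            exact ⟨Or.inl rfl, N + 1 + C, fun u hu => Or.inr ⟨u, rfl, hu⟩⟩
          refine Filter.mem_of_superset (prod_mem_nhds hA Filter.univ_mem) ?_
          rintro ⟨y, s⟩ ⟨hy, -⟩
          rcases hy with hy | ⟨u, hy, hu⟩
          · change y = EndPt.pt h at hy
            change dd S H h (y, s) ∈ V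
            rw [hy, dd_pt]
            exact hpV
          · change y = EndPt.inc h u at hy
            change dd S H h (y, s) ∈ V
            rw [hy]
            refine key u s fun hs => ?_
            have h2 : 0 ≤ (s : ℝ) / (1 - (s : ℝ)) :=
              div_nonneg s.2.1 (by linarith [lt_one_of hs])
            linarith
        · set M : ℝ := max 0 (N + 2 + C - h u0) with hM
          have hM0 : 0 ≤ M := le_max_left _ _
          have hM1 : N + 2 + C - h u0 ≤ M := le_max_right _ _
          have hA : EndPt.inc h '' {u | h u0 - 1 < h u} ∈ 𝓝 (EndPt.inc h u0) := by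
            refine hinc.isOpenMap.image_mem_nhds ?_
            exact (isOpen_lt continuous_const hT.cont).mem_nhds (by
              change h u0 - 1 < h u0
              linarith)
          have hB : {s : unitInterval | M < (s : ℝ) * (M + 1)} ∈ 𝓝 (1 : unitInterval) := by
            have hop : IsOpen {s : unitInterval | M < (s : ℝ) * (M + 1)} :=
              isOpen_lt continuous_const (continuous_subtype_val.mul continuous_const)
            refine hop.mem_nhds ?_
            change M < ((1 : unitInterval) : ℝ) * (M + 1)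
            rw [Set.Icc.coe_one]
            linarith
          refine Filter.mem_of_superset (prod_mem_nhds hA hB) ?_
          rintro ⟨y, s⟩ ⟨⟨u, hu, hy⟩, hs⟩
          change EndPt.inc h u = y at hy
          change M < (s : ℝ) * (M + 1) at hs
          change h u0 - 1 < h u at hu
          change dd S H h (y, s) ∈ V
          rw [← hy]
          refine key u s fun h1 => ?_
          have h2 := lt_one_of h1
          have h3 : M < (s : ℝ) / (1 - (s : ℝ)) := by
            rw [lt_div_iff₀ (by linarith)]
            linarith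
          linarith
    · push Not at hc
      obtain ⟨hx, ht⟩ := hc
      obtain ⟨u, rfl⟩ := (EndPt.cases h x).resolve_left hx
      have hoe : IsOpenEmbedding (Prod.map (EndPt.inc h) (id : unitInterval → unitInterval)) :=
        hinc.prodMap IsOpenEmbedding.id
      have h1 : (EndPt.inc h u, t) = Prod.map (EndPt.inc h) id (u, t) := rfl
      rw [h1, ← hoe.continuousAt_iff]
      have h2 : ContinuousAt (fun p : U × unitInterval =>
          EndPt.inc h (Phi S H (p.1, (p.2 : ℝ) / (1 - (p.2 : ℝ))))) (u, t) := by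
        refine hinc.continuous.continuousAt.comp (hPhi.continuousAt.comp ?_)
        refine continuousAt_fst.prodMk ?_
        refine ContinuousAt.div ?_ ?_ ?_
        · exact (continuous_subtype_val.comp continuous_snd).continuousAt
        · exact (continuous_const.sub (continuous_subtype_val.comp continuous_snd)).continuousAt
        · have := lt_one_of ht
          simp only
          linarith
      refine h2.congr ?_
      have h3 : {p : U × unitInterval | p.2 ≠ 1} ∈ 𝓝 (u, t) := by
        have : IsOpen {p : U × unitInterval | p.2 ≠ 1} :=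
          isOpen_ne.preimage continuous_snd
        exact this.mem_nhds ht
      filter_upwards [h3] with p hp
      exact (dd_inc H p.1 p.2 hp).symm
  · intro x
    rcases EndPt.cases h x with rfl | ⟨u, rfl⟩
    · exact dd_pt H 0
    · rw [dd_inc H u 0 (by norm_num)]
      simp [phi_zero H hH0]

theorem ae_end (hT : TelData h S) (aU : AE U) : AE (EndPt h) := by
  obtain ⟨d, hd, hd0, hd1, hdp⟩ := exists_push hT aU
  have hlcs : LCS (EndPt h) := EndPt.end_lcs hT.lcs hT.cont hT.proper
  have hmet : MetrizableSpace (EndPt h) := metrizable_of_lcs hlcs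
  have hinc := EndPt.inc_openEmbedding (h := h)
  have hcompl : (({EndPt.pt h} : Set (EndPt h))ᶜ) = range (EndPt.inc h) := by
    ext x
    simp only [mem_compl_iff, mem_singleton_iff, mem_range]
    constructor
    · intro hx
      obtain ⟨u, hu⟩ := (EndPt.cases h x).resolve_left hx
      exact ⟨u, hu.symm⟩
    · rintro ⟨u, rfl⟩
      exact EndPt.inc_ne_pt h u
  have hB : ANE (({EndPt.pt h} : Set (EndPt h))) := by
    intro Z _ _ A f hA hf
    have hsub : ∀ x y : (({EndPt.pt h} : Set (EndPt h))), x = y := fun x y =>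
      Subtype.ext (x.2.trans y.2.symm)
    exact ⟨univ, f, isOpen_univ, subset_univ _,
      (continuous_of_const fun x y => hsub (f x) (f y)).continuousOn, fun a _ => rfl⟩
  have hB' : ANE ((({EndPt.pt h} : Set (EndPt h))ᶜ : Set (EndPt h))) := by
    rw [hcompl]
    exact ane_homeo hinc.isEmbedding.toHomeomorph (ane_of_ae aU)
  have hANE : ANE (EndPt h) := by
    refine lemmaG ({EndPt.pt h} : Set (EndPt h)) univ ?_ isOpen_univ (subset_univ _) hB hB' d
      hd.continuousOn (fun x _ => hd0 x) (fun x _ => hd1 x) ?_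
    · rw [← isOpen_compl_iff, hcompl]
      exact hinc.isOpen_range
    · intro b hb t
      rw [mem_singleton_iff.1 hb]
      exact hdp t
  exact ae_of_contr hANE ⟨EndPt.pt h, d, hd, hd0, hd1⟩

end Pool.Agent.H18.AR
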