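import Pool.Agent.H18.AR.XhD
import Pool.Agent.H18.AR.PoN
import Pool.Agent.H18.AR.Inf

set_option autoImplicit false

/-!
# The spaces `XO`, `XH`: topology (chapter C2 of MP_5c3080_gt)

`zc_lcs`, `zh_lcs`: closed subspaces of `U`, of `EndPt h` (`EndPt.end_lcs`, `EndPt.ge_isClosed`,
`lcs_closed`). `zh_compact`: `EndPt.ge_isCompact`.
`xo_podata`, `xh_podata`: `twm_podata`. For `XO`: `A = {z : Zc h | h z.1 = 0}` is compact (closed
subset homeomorphic to the compact `{0 ≤ h ≤ 0}`; e.g. `Subtype` preimage of a compact set under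
the closed embedding `Subtype.val`), `z ↦ φ z.1` continuous on it. For `XH`: `A = Zh.zero h` is
closed in the compact space `Zh h` (complement: preimage of the open set
`{pt} ∪ inc '' {h > 0}`), `z ↦ desc h φ y0 z.1` is continuous on it: near such a point `inc` is an
open embedding, and `φ` is continuous on `{h = 0}`.
The set in `PO` is `{x | h x.2.1 = 0}` resp. `{x | x.2 ∈ Zh.zero h}`: the preimages of `A` under
the second projection (definitionally).
`xh_lcs`, `xo_lcs`: `PO.po_lcs`, `tw_lcs`.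

`xh_ane`: `PO.ane_po` with
(1) `ANE {b : Tw P (Zh h) // b ∉ A}`: homeomorphic to `Cst P × V` where
`V = {x : EndPt h | x = pt ∨ ∃ u, x = inc u ∧ 0 < h u}` is open in `EndPt h`, which is ANE by `ae_end`;
`ane_open`, `ane_discrete_prod`, and `ane_retract` or `ane_homeo` with the obvious maps.
(2) collar: `N`, `d` from `EndData.col`; `NB = {b | ∃ u ∈ N, b.2.1 = inc u}`, open (`inc` open
embedding, preimage under a continuous map); `dB ((w, z), t) = (w, z')` with
`z' = ⟨inc (d (u, t)), _⟩` if `z.1 = inc u`, `u ∈ N` (then `0 ≤ h u`, and `0 ≤ h (d (u, t))`), and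
`z' = z` otherwise. (Write the function as `if h : ... then ... else ...` with
`EndPt.desc`, or first a function `EndPt h × I → EndPt h`, and then the subtype.) It is continuous
on `NB ×ˢ univ` since `inc` is an open embedding and `d` is continuous on `(N ∩ {0 ≤ h}) ×ˢ univ`.
-/

namespace Pool.Agent.H18.AR

open Set TopologicalSpace Topology

section

variable {G : Type} [Group G] {P : Subgroup G} {Y U : Type} [TopologicalSpace Y]
  [TopologicalSpace U] [MulAction G Y] [MulAction P U] {h : U → ℝ} {S : U ≃ₜ U} {φ : U → Y}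

/-- the trivial action -/
@[instance_reducible] private def trivAct (P : Type) [Monoid P] (Z : Type) : MulAction P Z where
  smul _ z := z
  one_smul _ := rfl
  mul_smul _ _ _ := rfl

private theorem cont_image {X X' W : Type} [TopologicalSpace X] [TopologicalSpace X']
    [TopologicalSpace W] {e : X → X'} (he : IsInducing e) {f : X' → W} {s : Set X}
    (hf : ContinuousOn (fun x => f (e x)) s) : ContinuousOn f (e '' s) := by
  rintro _ ⟨x, hx, rfl⟩
  unfold ContinuousWithinAt
  rw [← he.map_nhdsWithin_eq, Filter.tendsto_map'_iff]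
  exact hf x hx

theorem zc_lcs (hT : TelData h S) : LCS (Zc h) := by
  have hcl : IsClosed {u : U | 0 ≤ h u} := isClosed_le continuous_const hT.cont
  exact lcs_closed hT.lcs {u : U | 0 ≤ h u} hcl

theorem zh_lcs (hT : TelData h S) : LCS (Zh h) :=
  lcs_closed (EndPt.end_lcs hT.lcs hT.cont hT.proper) (EndPt.ge h 0)
    (EndPt.ge_isClosed hT.cont 0)

theorem zh_compact (hT : TelData h S) : CompactSpace (Zh h) :=
  isCompact_iff_compactSpace.1 (EndPt.ge_isCompact (h := h) hT.proper 0)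

private theorem zero_compact (hT : TelData h S) : IsCompact {u : U | h u = 0} := by
  have h1 : {u : U | h u = 0} = {u | 0 ≤ h u ∧ h u ≤ 0} := by
    ext u
    exact ⟨fun hu => ⟨(show h u = 0 from hu).ge, (show h u = 0 from hu).le⟩,
      fun hu => le_antisymm hu.2 hu.1⟩
  rw [h1]
  exact hT.proper 0 0

theorem xo_podata [ContinuousConstSMul G Y] (hY : LCS Y) (pY : ProperAct G Y)
    (hE : EndData P h S φ) :
    POData {x : Tw P (Zc h) | h x.2.1 = 0} (twm (P := P) (fun z : Zc h => φ z.1)) := by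
  have hT2 : T2Space Y := hY.1
  letI : MulAction P (Zc h) := trivAct P (Zc h)
  have hTZ : T2Space (Zc h) := (zc_lcs hE.tel).1
  have hcl : IsClosed {u : U | 0 ≤ h u} := isClosed_le continuous_const hE.tel.cont
  have hval : IsClosedEmbedding (fun z : Zc h => z.1) := hcl.isClosedEmbedding_subtypeVal
  have hA : IsCompact {z : Zc h | h z.1 = 0} := hval.isCompact_preimage (zero_compact hE.tel)
  exact twm_podata pY {z : Zc h | h z.1 = 0} hA (fun z : Zc h => φ z.1)
    (hE.cont.comp hval.continuous.continuousOn fun z hz => hz)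

private theorem zh_val (hT : TelData h S) : IsClosedEmbedding (fun z : Zh h => z.1) :=
  (EndPt.ge_isClosed hT.cont 0).isClosedEmbedding_subtypeVal

theorem xh_podata [ContinuousConstSMul G Y] (hY : LCS Y) (pY : ProperAct G Y)
    (hE : EndData P h S φ) (y0 : Y) :
    POData {x : Tw P (Zh h) | x.2 ∈ Zh.zero h}
      (twm (P := P) (fun z : Zh h => EndPt.desc h φ y0 z.1)) := by
  have hT2 : T2Space Y := hY.1
  letI : MulAction P (Zh h) := trivAct P (Zh h)
  have hTZ : T2Space (Zh h) := (zh_lcs hE.tel).1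
  have hTE : T2Space (EndPt h) := (EndPt.end_lcs hE.tel.lcs hE.tel.cont hE.tel.proper).1
  have hval := zh_val hE.tel
  have hK : IsCompact (EndPt.inc h '' {u : U | h u = 0}) :=
    (zero_compact hE.tel).image EndPt.inc_openEmbedding.continuous
  have hZ : Zh.zero h = (fun z : Zh h => z.1) ⁻¹' (EndPt.inc h '' {u : U | h u = 0}) := by
    ext z
    constructor
    · rintro ⟨u, hu, hu0⟩
      exact ⟨u, hu0, hu.symm⟩
    · rintro ⟨u, hu0, hu⟩
      exact ⟨u, hu.symm, hu0⟩
  have hA : IsCompact (Zh.zero h) := by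
    rw [hZ]
    exact hval.isCompact_preimage hK
  refine twm_podata pY (Zh.zero h) hA (fun z : Zh h => EndPt.desc h φ y0 z.1) ?_
  have h1 : ContinuousOn (EndPt.desc h φ y0) (EndPt.inc h '' {u : U | h u = 0}) :=
    cont_image EndPt.inc_openEmbedding.isInducing hE.cont
  refine h1.comp hval.continuous.continuousOn fun z hz => ?_
  rw [hZ] at hz
  exact hz

theorem xo_lcs [ContinuousConstSMul G Y] [Countable G] (hY : LCS Y) (pY : ProperAct G Y)
    (hE : EndData P h S φ) : LCS (XO P h φ) := by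
  letI : MulAction P (Zc h) := trivAct P (Zc h)
  exact PO.po_lcs (xo_podata hY pY hE) hY (tw_lcs (zc_lcs hE.tel))

theorem xh_lcs [ContinuousConstSMul G Y] [Countable G] (hY : LCS Y) (pY : ProperAct G Y)
    (hE : EndData P h S φ) (y0 : Y) : LCS (XH P h φ y0) := by
  letI : MulAction P (Zh h) := trivAct P (Zh h)
  exact PO.po_lcs (xh_podata hY pY hE y0) hY (tw_lcs (zh_lcs hE.tel))

private theorem ane_compl (hT : TelData h S) (aU : AE U) :
    ANE {b : Tw P (Zh h) // b ∉ {x : Tw P (Zh h) | x.2 ∈ Zh.zero h}} := by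
  have h1 : ANE (Cst P × EndPt h) := ane_discrete_prod (ane_of_ae (ae_end hT aU))
  have hval := zh_val hT
  have hemb : IsEmbedding (fun b : {b : Tw P (Zh h) // b ∉ {x : Tw P (Zh h) | x.2 ∈ Zh.zero h}} =>
      ((b.1.1, b.1.2.1) : Cst P × EndPt h)) := by
    have e1 : IsEmbedding (Prod.map (id : Cst P → Cst P) (fun z : Zh h => z.1)) :=
      IsEmbedding.id.prodMap hval.isEmbedding
    exact e1.comp IsEmbedding.subtypeVal
  refine ane_openEmbedding _ ⟨hemb, ?_⟩ h1
  have hr : range (fun b : {b : Tw P (Zh h) // b ∉ {x : Tw P (Zh h) | x.2 ∈ Zh.zero h}} =>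
      ((b.1.1, b.1.2.1) : Cst P × EndPt h)) =
      Prod.snd ⁻¹' {x : EndPt h | x = EndPt.pt h ∨ ∃ u, x = EndPt.inc h u ∧ 0 < h u} := by
    ext q
    obtain ⟨w, x⟩ := q
    constructor
    · rintro ⟨⟨b, hb⟩, hbq⟩
      have hx : b.2.1 = x := congrArg Prod.snd hbq
      rcases b.2.2 with h2 | ⟨u, h2, h3⟩
      · exact Or.inl (hx.symm.trans h2)
      · refine Or.inr ⟨u, hx.symm.trans h2, lt_of_le_of_ne h3 fun h4 => hb ?_⟩
        exact ⟨u, h2, h4.symm⟩
    · rintro (h2 | ⟨u, h2, h3⟩)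
      · change x = EndPt.pt h at h2
        refine ⟨⟨((w, ⟨x, Or.inl h2⟩) : Cst P × Zh h), ?_⟩, rfl⟩
        rintro ⟨u, hu, -⟩
        change x = EndPt.inc h u at hu
        rw [h2] at hu
        exact EndPt.inc_ne_pt h u hu.symm
      · change x = EndPt.inc h u at h2
        refine ⟨⟨((w, ⟨x, Or.inr ⟨u, h2, h3.le⟩⟩) : Cst P × Zh h), ?_⟩, rfl⟩
        rintro ⟨v, hv, hv0⟩
        change x = EndPt.inc h v at hv
        rw [h2] at hv
        have h4 := EndPt.inc_injective h hv
        rw [h4, hv0] at h3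
        exact lt_irrefl _ h3
  rw [hr]
  refine IsOpen.preimage continuous_snd ?_
  rw [EndPt.isOpen_iff]
  constructor
  · have h5 : EndPt.inc h ⁻¹' {x : EndPt h | x = EndPt.pt h ∨ ∃ u, x = EndPt.inc h u ∧ 0 < h u} =
        {u | 0 < h u} := by
      ext u
      constructor
      · rintro (h6 | ⟨v, hv, h6⟩)
        · exact absurd h6 (EndPt.inc_ne_pt h u)
        · rwa [← EndPt.inc_injective h hv] at h6
      · intro h6
        exact Or.inr ⟨u, rfl, h6⟩
    rw [h5]
    exact isOpen_lt continuous_const hT.cont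
  · intro _
    exact ⟨0, fun u hu => Or.inr ⟨u, rfl, hu⟩⟩

open Classical in
/-- the collar on `EndPt h` -/
private noncomputable def dE (h : U → ℝ) (N : Set U) (d : U × unitInterval → U)
    (q : EndPt h × unitInterval) : EndPt h :=
  EndPt.desc h (fun u => if u ∈ N then EndPt.inc h (d (u, q.2)) else EndPt.inc h u)
    (EndPt.pt h) q.1

omit [TopologicalSpace U] in
private theorem dE_inc {N : Set U} {d : U × unitInterval → U} {u : U} (hu : u ∈ N)
    (t : unitInterval) : dE h N d (EndPt.inc h u, t) = EndPt.inc h (d (u, t)) := by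
  classical
  change (if u ∈ N then EndPt.inc h (d (u, t)) else EndPt.inc h u) = _
  rw [if_pos hu]

omit [TopologicalSpace U] in
private theorem dE_ge {N : Set U} {d : U × unitInterval → U}
    (hd : ∀ u ∈ N, 0 ≤ h u → ∀ t, 0 ≤ h (d (u, t))) (x : EndPt h) (hx : x ∈ EndPt.ge h 0)
    (t : unitInterval) : dE h N d (x, t) ∈ EndPt.ge h 0 := by
  classical
  rcases hx with rfl | ⟨u, rfl, hu⟩
  · exact Or.inl rfl
  · by_cases hN : u ∈ N
    · rw [dE_inc hN]
      exact Or.inr ⟨_, rfl, hd u hN hu t⟩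
    · refine Or.inr ⟨u, ?_, hu⟩
      change (if u ∈ N then EndPt.inc h (d (u, t)) else EndPt.inc h u) = _
      rw [if_neg hN]

theorem xh_ane [ContinuousConstSMul G Y] [Countable G] (hY : LCS Y) (aY : ANE Y)
    (pY : ProperAct G Y) (hE : EndData P h S φ) (y0 : Y) : ANE (XH P h φ y0) := by
  obtain ⟨N, d, hNo, hN0, hdc, hd1, hd2⟩ := hE.col
  letI : MulAction P (Zh h) := trivAct P (Zh h)
  have hval := zh_val hE.tel
  have hge : ∀ u ∈ N, 0 ≤ h u → ∀ t, 0 ≤ h (d (u, t)) := fun u hu h0 => (hd1 u hu h0).2.2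
  have hsnd : Continuous (fun x : Tw P (Zh h) => x.2) :=
    (continuous_snd : Continuous (Prod.snd : Cst P × Zh h → Zh h))
  have hfst : Continuous (fun x : Tw P (Zh h) => x.1) :=
    (continuous_fst : Continuous (Prod.fst : Cst P × Zh h → Cst P))
  have hev : Continuous (fun x : Tw P (Zh h) => x.2.1) := hval.continuous.comp hsnd
  let dB : Tw P (Zh h) × unitInterval → Tw P (Zh h) := fun q =>
    ((q.1.1, ⟨dE h N d (q.1.2.1, q.2), dE_ge hge q.1.2.1 q.1.2.2 q.2⟩) : Cst P × Zh h)
  have dB1 : ∀ q, (dB q).1 = q.1.1 := fun q => rfl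
  have dB2 : ∀ q, (dB q).2.1 = dE h N d (q.1.2.1, q.2) := fun q => rfl
  have hext : ∀ x y : Tw P (Zh h), x.1 = y.1 → x.2.1 = y.2.1 → x = y := by
    intro x y h1 h2
    exact Prod.ext h1 (Subtype.ext h2)
  have hpos : ∀ (b : Tw P (Zh h)) (u : U), b.2.1 = EndPt.inc h u → 0 ≤ h u := by
    intro b u hb
    rcases b.2.2 with h2 | ⟨v, h2, h3⟩
    · rw [hb] at h2
      exact absurd h2 (EndPt.inc_ne_pt h u)
    · rw [hb] at h2
      rw [EndPt.inc_injective h h2]
      exact h3
  refine PO.ane_po (xh_podata hY pY hE y0) hY (tw_lcs (zh_lcs hE.tel)) aY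
    (ane_compl hE.tel hE.ae) {b : Tw P (Zh h) | ∃ u ∈ N, b.2.1 = EndPt.inc h u} ?_ ?_ dB ?_ ?_ ?_ ?_
  · have h1 : {b : Tw P (Zh h) | ∃ u ∈ N, b.2.1 = EndPt.inc h u} =
        (fun x : Tw P (Zh h) => x.2.1) ⁻¹' (EndPt.inc h '' N) := by
      ext b
      constructor
      · rintro ⟨u, hu, hb⟩
        exact ⟨u, hu, hb.symm⟩
      · rintro ⟨u, hu, hb⟩
        exact ⟨u, hu, hb.symm⟩
    rw [h1]
    exact (EndPt.inc_openEmbedding.isOpenMap _ hNo).preimage hev
  · rintro b ⟨u, hu, hu0⟩
    exact ⟨u, hN0 hu0, hu⟩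
  · -- continuity
    have hE2 : ContinuousOn (dE h N d)
        (Prod.map (EndPt.inc h) (id : unitInterval → unitInterval) ''
          ((N ∩ {u | 0 ≤ h u}) ×ˢ univ)) := by
      refine cont_image (EndPt.inc_openEmbedding.isInducing.prodMap IsInducing.id) ?_
      refine (EndPt.inc_openEmbedding.continuous.comp_continuousOn hdc).congr ?_
      rintro ⟨u, t⟩ ⟨⟨hu, -⟩, -⟩
      exact dE_inc hu t
    have h2 : ContinuousOn (fun q : Tw P (Zh h) × unitInterval => dE h N d (q.1.2.1, q.2))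
        ({b : Tw P (Zh h) | ∃ u ∈ N, b.2.1 = EndPt.inc h u} ×ˢ univ) := by
      refine hE2.comp (((hev.comp continuous_fst).prodMk continuous_snd).continuousOn) ?_
      rintro ⟨b, t⟩ ⟨⟨u, hu, hb⟩, -⟩
      refine ⟨(u, t), ⟨⟨hu, hpos b u hb⟩, mem_univ _⟩, ?_⟩
      exact Prod.ext hb.symm rfl
    have h3 : ContinuousOn (fun q : Tw P (Zh h) × unitInterval => (dB q).2)
        ({b : Tw P (Zh h) | ∃ u ∈ N, b.2.1 = EndPt.inc h u} ×ˢ univ) :=
      hval.isInducing.continuousOn_iff.2 h2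
    have h4 : ContinuousOn (fun q : Tw P (Zh h) × unitInterval => (dB q).1)
        ({b : Tw P (Zh h) | ∃ u ∈ N, b.2.1 = EndPt.inc h u} ×ˢ univ) :=
      (hfst.comp continuous_fst).continuousOn
    exact h4.prodMk h3
  · rintro b ⟨u, hu, hb⟩
    refine hext _ _ rfl ?_
    rw [dB2]
    change dE h N d (b.2.1, 0) = b.2.1
    rw [hb, dE_inc hu, (hd1 u hu (hpos b u hb)).1]
  · rintro b ⟨u, hu, hb⟩
    refine ⟨d (u, 1), ?_, (hd1 u hu (hpos b u hb)).2.1⟩
    rw [dB2]
    change dE h N d (b.2.1, 1) = _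
    rw [hb, dE_inc hu]
  · rintro b ⟨u, hb, hu0⟩ t
    refine hext _ _ rfl ?_
    rw [dB2]
    change dE h N d (b.2.1, t) = b.2.1
    change b.2.1 = EndPt.inc h u at hb
    rw [hb, dE_inc (hN0 hu0), hd2 u hu0 t]

end

end Pool.Agent.H18.AR
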