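import Pool.Agent.H18.AR.TelE
import Pool.Agent.H18.AR.XhA

set_option autoImplicit false

/-!
# The two forms of the open model (chapter C2 of MP_5c3080_gt)

`contr_xo`: `Contr (Xc P p q φ₀)` implies `Contr (XO P (telH p q) (telφ p q φ₀))`, by `contr_retract`
with `i : XO → Xc`, `r : Xc → XO`, `r (i x) = x`.
(1) `ι : Cst P → Tel p q → Xc`,
`ι w = HC.desc (fun x => if x.1 ≤ 0 then vt (inl (rep w • φ₀ x.2)) else vt (inr (w, (x.1 - 1).toNat, x.2)))`
`(fun x t => if x.1 ≤ 0 then (if t = 0 then vt (inl (rep w • φ₀ (q x.2))) else`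
`vt (inl (rep w • φ₀ (p x.2)))) else ed (w, (x.1 - 1).toNat, x.2) t)`. The two functions are
compatible (for `x.1 = 1`, `t = 0`: `ed (w, 0, c) 0 = vt (xcD0 (w, 0, c)) = vt (inl (rep w • φ₀ (q c)))`,
which is the value at `vt (0, q c)`; for `x.1 ≥ 2`: `(x.1 - 1).toNat = (x.1 - 2).toNat + 1`; the case
`x.1 ≤ 0`, `t = 1` uses `1 ≠ 0`), so `HC.desc_ed` computes `ι w (ed x t)`.
`ι w` is continuous on the closed set `{0 ≤ telH}`: for `C ⊆ Xc` closed the set
`{u | 0 ≤ telH u ∧ ι w u ∈ C}` is closed in `Tel p q` by `PO.isClosed_iff`: its preimage under `vt` is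
`{(k, c) | 0 ≤ k ∧ ι w (vt (k, c)) ∈ C}` (`k` discrete, continuous in `c`), its preimage under `ed`
is the union of `{k ≥ 1, ed (w, (k - 1).toNat, c) t ∈ C}` and
`{k = 0, t = 1, vt (inl (rep w • φ₀ (p c))) ∈ C}`, both closed.
So `i = PO.desc (fun y => vt (inl y)) (fun b => ι b.1 b.2.1)` is continuous (compatible: for
`telH u = 0`, `u = vt (0, c)`: `ι w u = vt (inl (rep w • φ₀ c))` and `telφ u = φ₀ c`; `Tw` is discrete
times `Zc`).
(2) `r = HC.desc (Sum.elim (fun y => jY y) (fun x => jB (x.1, ⟨vt (x.2.1 + 1, x.2.2), _⟩)))`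
`(fun x t => jB (x.1, ⟨ed (x.2.1 + 1, x.2.2) t, _⟩))`; compatible: at `t = 0`, `x = (w, 0, c)`:
`ed (1, c) 0 = vt (0, q c)` has height `0`, so `jB (w, vt (0, q c)) = jY (rep w • φ₀ (q c))`;
`x = (w, k + 1, c)`: `ed (k + 2, c) 0 = vt (k + 1, q c)`; at `t = 1`: `ed (k + 1, c) 1 =
vt (k + 1, p c)`. Continuous by `HC.desc_continuous` (only needs continuity of the two functions).
(3) `r (i (jY y)) = jY y`. For `b = (w, u)`, `telH u > 0`: `u = vt (k, c)`, `k ≥ 1`, or
`u = ed (k, c) t` with `k - 1 + t > 0`, so `k ≥ 1`; `(k - 1).toNat + 1 = k`. So `r (i (jB b)) = jB b`.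
-/

namespace Pool.Agent.H18.AR

open Set TopologicalSpace

section

variable {G : Type} [Group G] {P : Subgroup G} {Y L : Type} [TopologicalSpace Y] [MulAction G Y]
  [ContinuousConstSMul G Y] [TopologicalSpace L] [CompactSpace L] [MetrizableSpace L]
  {p q : L → L} {φ₀ : L → Y}

open Classical in
private noncomputable def iotaV (P : Subgroup G) (p q : L → L) (φ₀ : L → Y) (w : Cst P)
    (x : ℤ × L) : Xc P p q φ₀ :=
  if x.1 ≤ 0 then HC.vt (Sum.inl (w.rep • φ₀ x.2)) else HC.vt (Sum.inr (w, (x.1 - 1).toNat, x.2))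

open Classical in
private noncomputable def iotaE (P : Subgroup G) (p q : L → L) (φ₀ : L → Y) (w : Cst P)
    (x : ℤ × L) (t : unitInterval) : Xc P p q φ₀ :=
  if x.1 ≤ 0 then
    (if t = 0 then HC.vt (Sum.inl (w.rep • φ₀ (q x.2))) else HC.vt (Sum.inl (w.rep • φ₀ (p x.2))))
  else HC.ed (w, (x.1 - 1).toNat, x.2) t

omit [TopologicalSpace Y] [ContinuousConstSMul G Y] [TopologicalSpace L] [CompactSpace L]
  [MetrizableSpace L] in
private theorem iotaV_nonpos (w : Cst P) (k : ℤ) (c : L) (h : k ≤ 0) :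
    iotaV P p q φ₀ w (k, c) = HC.vt (Sum.inl (w.rep • φ₀ c)) := by
  unfold iotaV
  exact if_pos h

omit [TopologicalSpace Y] [ContinuousConstSMul G Y] [TopologicalSpace L] [CompactSpace L]
  [MetrizableSpace L] in
private theorem iotaV_pos (w : Cst P) (k : ℤ) (c : L) (h : ¬ k ≤ 0) :
    iotaV P p q φ₀ w (k, c) = HC.vt (Sum.inr (w, (k - 1).toNat, c)) := by
  unfold iotaV
  exact if_neg h

omit [TopologicalSpace Y] [ContinuousConstSMul G Y] [TopologicalSpace L] [CompactSpace L]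
  [MetrizableSpace L] in
private theorem iotaE_zero (w : Cst P) (k : ℤ) (c : L) (h : k ≤ 0) :
    iotaE P p q φ₀ w (k, c) 0 = HC.vt (Sum.inl (w.rep • φ₀ (q c))) := by
  unfold iotaE
  rw [if_pos h, if_pos rfl]

omit [TopologicalSpace Y] [ContinuousConstSMul G Y] [TopologicalSpace L] [CompactSpace L]
  [MetrizableSpace L] in
private theorem iotaE_one (w : Cst P) (k : ℤ) (c : L) (h : k ≤ 0) :
    iotaE P p q φ₀ w (k, c) 1 = HC.vt (Sum.inl (w.rep • φ₀ (p c))) := by
  unfold iotaE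
  rw [if_pos h, if_neg one_ne_zero]

omit [TopologicalSpace Y] [ContinuousConstSMul G Y] [TopologicalSpace L] [CompactSpace L]
  [MetrizableSpace L] in
private theorem iotaE_pos (w : Cst P) (k : ℤ) (c : L) (t : unitInterval) (h : ¬ k ≤ 0) :
    iotaE P p q φ₀ w (k, c) t = HC.ed (w, (k - 1).toNat, c) t := by
  unfold iotaE
  exact if_neg h

omit [TopologicalSpace Y] [ContinuousConstSMul G Y] [TopologicalSpace L] [CompactSpace L]
  [MetrizableSpace L] in
private theorem iota0 (w : Cst P) (e : ℤ × L) :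
    iotaE P p q φ₀ w e 0 = iotaV P p q φ₀ w (telD0 q e) := by
  obtain ⟨k, c⟩ := e
  change iotaE P p q φ₀ w (k, c) 0 = iotaV P p q φ₀ w (k - 1, q c)
  by_cases h : k ≤ 0
  · rw [iotaE_zero w k c h, iotaV_nonpos w (k - 1) (q c) (by omega)]
  · rw [iotaE_pos w k c 0 h, HC.ed_zero]
    by_cases h2 : k ≤ 1
    · have hk : k = 1 := by omega
      subst hk
      rw [iotaV_nonpos w (1 - 1) (q c) (by norm_num)]
      rfl
    · obtain ⟨n, hn⟩ : ∃ n : ℕ, k = (n : ℤ) + 2 := ⟨(k - 2).toNat, by omega⟩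
      subst hn
      have e1 : ((n : ℤ) + 2 - 1).toNat = n + 1 := by omega
      have e2 : ((n : ℤ) + 2 - 1 - 1).toNat = n := by omega
      rw [iotaV_pos w _ (q c) (by omega), e1, e2]
      rfl

omit [TopologicalSpace Y] [ContinuousConstSMul G Y] [TopologicalSpace L] [CompactSpace L]
  [MetrizableSpace L] in
private theorem iota1 (w : Cst P) (e : ℤ × L) :
    iotaE P p q φ₀ w e 1 = iotaV P p q φ₀ w (telD1 p e) := by
  obtain ⟨k, c⟩ := e
  change iotaE P p q φ₀ w (k, c) 1 = iotaV P p q φ₀ w (k, p c)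
  by_cases h : k ≤ 0
  · rw [iotaE_one w k c h, iotaV_nonpos w k (p c) h]
  · rw [iotaE_pos w k c 1 h, HC.ed_one, iotaV_pos w k (p c) h]
    rfl

private noncomputable def iota (P : Subgroup G) (p q : L → L) (φ₀ : L → Y) (w : Cst P) :
    Tel p q → Xc P p q φ₀ :=
  HC.desc (iotaV P p q φ₀ w) (iotaE P p q φ₀ w)

omit [TopologicalSpace Y] [ContinuousConstSMul G Y] [TopologicalSpace L] [CompactSpace L]
  [MetrizableSpace L] in
private theorem iota_vt (w : Cst P) (x : ℤ × L) :
    iota P p q φ₀ w (HC.vt x) = iotaV P p q φ₀ w x := rfl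

omit [TopologicalSpace Y] [ContinuousConstSMul G Y] [TopologicalSpace L] [CompactSpace L]
  [MetrizableSpace L] in
private theorem iota_ed (w : Cst P) (x : ℤ × L) (t : unitInterval) :
    iota P p q φ₀ w (HC.ed x t) = iotaE P p q φ₀ w x t :=
  HC.desc_ed _ _ (iota0 w) (iota1 w) x t

omit [CompactSpace L] [MetrizableSpace L] in
private theorem iotaV_cont (hφ : Continuous φ₀) (w : Cst P) :
    Continuous (iotaV P p q φ₀ w) := by
  rw [continuous_prod_of_discrete_left]
  intro k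
  by_cases h : k ≤ 0
  · have e : (fun c : L => iotaV P p q φ₀ w (k, c)) =
        fun c => HC.vt (Sum.inl (w.rep • φ₀ c)) := by
      funext c
      exact iotaV_nonpos w k c h
    rw [e]
    exact HC.vt_continuous.comp (continuous_inl.comp (hφ.const_smul w.rep))
  · have e : (fun c : L => iotaV P p q φ₀ w (k, c)) =
        fun c => HC.vt (Sum.inr (w, (k - 1).toNat, c)) := by
      funext c
      exact iotaV_pos w k c h
    rw [e]
    exact HC.vt_continuous.comp (continuous_inr.comp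
      (continuous_const.prodMk (continuous_const.prodMk continuous_id)))

private theorem iota_closed (hp : Continuous p) (hφ : Continuous φ₀) (w : Cst P)
    (C : Set (Xc P p q φ₀)) (hC : IsClosed C) :
    IsClosed {u : Tel p q | 0 ≤ telH p q u ∧ iota P p q φ₀ w u ∈ C} := by
  rw [PO.isClosed_iff]
  constructor
  · have h1 : IsClosed {x : ℤ × L | 0 ≤ x.1} :=
      (isClosed_discrete {k : ℤ | 0 ≤ k}).preimage continuous_fst
    have h2 : IsClosed (iotaV P p q φ₀ w ⁻¹' C) := hC.preimage (iotaV_cont hφ w)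
    have e : PO.jY (hcA (ℤ × L)) (hcφ (telD0 q) (telD1 p)) ⁻¹'
        {u : Tel p q | 0 ≤ telH p q u ∧ iota P p q φ₀ w u ∈ C} =
        {x : ℤ × L | 0 ≤ x.1} ∩ iotaV P p q φ₀ w ⁻¹' C := by
      ext ⟨k, c⟩
      change (0 ≤ telH p q (HC.vt (k, c)) ∧ iota P p q φ₀ w (HC.vt (k, c)) ∈ C) ↔
        (0 ≤ k ∧ iotaV P p q φ₀ w (k, c) ∈ C)
      rw [iota_vt, telH_vt, Int.cast_nonneg_iff]
    rw [e]
    exact h1.inter h2
  · have hk : Continuous (fun x : (ℤ × L) × unitInterval => x.1.1) :=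
      continuous_fst.comp continuous_fst
    have hc : Continuous (fun x : (ℤ × L) × unitInterval => x.1.2) :=
      continuous_snd.comp continuous_fst
    have hn : Continuous (fun x : (ℤ × L) × unitInterval => (x.1.1 - 1).toNat) :=
      (continuous_of_discreteTopology (f := fun k : ℤ => (k - 1).toNat)).comp hk
    have h1 : IsClosed {x : (ℤ × L) × unitInterval | 1 ≤ x.1.1} :=
      (isClosed_discrete {k : ℤ | 1 ≤ k}).preimage hk
    have h2 : IsClosed {x : (ℤ × L) × unitInterval | x.1.1 = 0} :=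
      (isClosed_discrete {k : ℤ | k = 0}).preimage hk
    have h3 : IsClosed {x : (ℤ × L) × unitInterval | x.2 = 1} :=
      isClosed_singleton.preimage continuous_snd
    have h4 : IsClosed {x : (ℤ × L) × unitInterval |
        (HC.ed (w, (x.1.1 - 1).toNat, x.1.2) x.2 : Xc P p q φ₀) ∈ C} := by
      have hm : Continuous (fun x : (ℤ × L) × unitInterval =>
          (((w, (x.1.1 - 1).toNat, x.1.2) : Cst P × ℕ × L), x.2)) :=
        (continuous_const.prodMk (hn.prodMk hc)).prodMk continuous_snd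
      exact hC.preimage (HC.ed_continuous.comp hm)
    have h5 : IsClosed {x : (ℤ × L) × unitInterval |
        (HC.vt (Sum.inl (w.rep • φ₀ (p x.1.2))) : Xc P p q φ₀) ∈ C} := by
      have hm : Continuous (fun x : (ℤ × L) × unitInterval => w.rep • φ₀ (p x.1.2)) :=
        (hφ.comp (hp.comp hc)).const_smul w.rep
      exact hC.preimage (HC.vt_continuous.comp (continuous_inl.comp hm))
    have e : PO.jB (hcA (ℤ × L)) (hcφ (telD0 q) (telD1 p)) ⁻¹'
        {u : Tel p q | 0 ≤ telH p q u ∧ iota P p q φ₀ w u ∈ C} =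
        ({x : (ℤ × L) × unitInterval | 1 ≤ x.1.1} ∩ {x : (ℤ × L) × unitInterval |
          (HC.ed (w, (x.1.1 - 1).toNat, x.1.2) x.2 : Xc P p q φ₀) ∈ C}) ∪
        (({x : (ℤ × L) × unitInterval | x.1.1 = 0} ∩
          {x : (ℤ × L) × unitInterval | x.2 = 1}) ∩ {x : (ℤ × L) × unitInterval |
            (HC.vt (Sum.inl (w.rep • φ₀ (p x.1.2))) : Xc P p q φ₀) ∈ C}) := by
      ext ⟨⟨k, c⟩, t⟩
      change (0 ≤ telH p q (HC.ed (k, c) t) ∧ iota P p q φ₀ w (HC.ed (k, c) t) ∈ C) ↔
        (1 ≤ k ∧ (HC.ed (w, (k - 1).toNat, c) t : Xc P p q φ₀) ∈ C) ∨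
        ((k = 0 ∧ t = 1) ∧ (HC.vt (Sum.inl (w.rep • φ₀ (p c))) : Xc P p q φ₀) ∈ C)
      rw [iota_ed, telH_ed]
      have ht0 : (0 : ℝ) ≤ t := t.2.1
      have ht1 : (t : ℝ) ≤ 1 := t.2.2
      by_cases h : k ≤ 0
      · by_cases h0 : k = 0
        · subst h0
          constructor
          · rintro ⟨ha, hb⟩
            have ht : t = 1 := by
              apply Subtype.ext
              change (t : ℝ) = 1
              push_cast at ha
              linarith
            subst ht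
            rw [iotaE_one w 0 c le_rfl] at hb
            exact Or.inr ⟨⟨rfl, rfl⟩, hb⟩
          · rintro (⟨ha, -⟩ | ⟨⟨-, ht⟩, hb⟩)
            · exact absurd ha (by norm_num)
            · subst ht
              rw [iotaE_one w 0 c le_rfl]
              refine ⟨?_, hb⟩
              push_cast
              norm_num
        · have hk1 : k ≤ -1 := by omega
          have hk2 : (k : ℝ) ≤ -1 := by exact_mod_cast hk1
          constructor
          · rintro ⟨ha, -⟩
            exfalso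
            linarith
          · rintro (⟨ha, -⟩ | ⟨⟨ha, -⟩, -⟩)
            · exfalso
              omega
            · exact absurd ha h0
      · have hk1 : 1 ≤ k := by omega
        have hk2 : (1 : ℝ) ≤ k := by exact_mod_cast hk1
        rw [iotaE_pos w k c t h]
        constructor
        · rintro ⟨-, hb⟩
          exact Or.inl ⟨hk1, hb⟩
        · rintro (⟨-, hb⟩ | ⟨⟨ha, -⟩, -⟩)
          · exact ⟨by linarith, hb⟩
          · exfalso
            omega
    rw [e]
    exact (h1.inter h4).union ((h2.inter h3).inter h5)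

private theorem iota_cont (hp : Continuous p) (hφ : Continuous φ₀) (w : Cst P) :
    Continuous (fun z : Zc (telH p q) => iota P p q φ₀ w z.1) := by
  rw [continuous_iff_isClosed]
  intro C hC
  have hv : Continuous (fun z : Zc (telH p q) => z.1) :=
    (continuous_subtype_val : Continuous
      (Subtype.val : {u : Tel p q // 0 ≤ telH p q u} → Tel p q))
  have h := (iota_closed hp hφ w C hC).preimage hv
  have e : (fun z : Zc (telH p q) => iota P p q φ₀ w z.1) ⁻¹' C =
      (fun z : Zc (telH p q) => z.1) ⁻¹'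
        {u : Tel p q | 0 ≤ telH p q u ∧ iota P p q φ₀ w u ∈ C} := by
    ext z
    exact ⟨fun h => ⟨z.2, h⟩, fun h => h.2⟩
  rw [e]
  exact h

private def zmk (u : Tel p q) (h : 0 ≤ telH p q u) : Zc (telH p q) := ⟨u, h⟩

private theorem zmk_congr {u u' : Tel p q} (h : 0 ≤ telH p q u) (h' : 0 ≤ telH p q u')
    (e : u = u') : zmk u h = zmk u' h' := by
  subst e
  rfl

private theorem nn_vt (k : ℕ) (c : L) :
    0 ≤ telH p q (HC.vt ((k : ℤ) + 1, c)) := by
  rw [telH_vt]
  push_cast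
  positivity

private theorem nn_ed (k : ℕ) (c : L) (t : unitInterval) :
    0 ≤ telH p q (HC.ed ((k : ℤ) + 1, c) t) := by
  rw [telH_ed]
  have ht0 : (0 : ℝ) ≤ t := t.2.1
  have hk : (0 : ℝ) ≤ k := Nat.cast_nonneg k
  push_cast
  linarith

private noncomputable def twk (w : Cst P) (z : Zc (telH p q)) : Tw P (Zc (telH p q)) :=
  ((w, z) : Cst P × Zc (telH p q))

private noncomputable def rV (P : Subgroup G) (p q : L → L) (φ₀ : L → Y) :
    Y ⊕ (Cst P × ℕ × L) → XO P (telH p q) (telφ p q φ₀) :=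
  Sum.elim (fun y => PO.jY _ _ y)
    (fun x => PO.jB _ _ (twk x.1 (zmk (HC.vt ((x.2.1 : ℤ) + 1, x.2.2)) (nn_vt x.2.1 x.2.2))))

private noncomputable def rE (P : Subgroup G) (p q : L → L) (φ₀ : L → Y)
    (x : Cst P × ℕ × L) (t : unitInterval) : XO P (telH p q) (telφ p q φ₀) :=
  PO.jB _ _ (twk x.1 (zmk (HC.ed ((x.2.1 : ℤ) + 1, x.2.2) t) (nn_ed x.2.1 x.2.2 t)))

private theorem r0 (e : Cst P × ℕ × L) :
    rE P p q φ₀ e 0 = rV P p q φ₀ (xcD0 P q φ₀ e) := by
  obtain ⟨w, k, c⟩ := e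
  rcases k with _ | k
  · change PO.jB _ _ (twk w (zmk (HC.ed (((0 : ℕ) : ℤ) + 1, c) 0) (nn_ed 0 c 0))) =
      PO.jY _ _ (w.rep • φ₀ (q c))
    have hu : (HC.ed (((0 : ℕ) : ℤ) + 1, c) 0 : Tel p q) = HC.vt (0, q c) := by
      rw [HC.ed_zero]
      rfl
    have hm : twk w (zmk (HC.ed (((0 : ℕ) : ℤ) + 1, c) 0) (nn_ed 0 c 0)) ∈
        {x : Tw P (Zc (telH p q)) | telH p q x.2.1 = 0} := by
      change telH p q (HC.ed (((0 : ℕ) : ℤ) + 1, c) 0) = 0
      rw [hu, telH_vt]
      exact Int.cast_zero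
    rw [PO.jB_mem hm]
    change PO.jY _ _ (w.rep • telφ p q φ₀ (HC.ed (((0 : ℕ) : ℤ) + 1, c) 0)) = _
    rw [hu, telφ_vt]
  · change PO.jB _ _ (twk w (zmk (HC.ed (((k + 1 : ℕ) : ℤ) + 1, c) 0) (nn_ed (k + 1) c 0))) =
      PO.jB _ _ (twk w (zmk (HC.vt ((k : ℤ) + 1, q c)) (nn_vt k (q c))))
    have hu : (HC.ed (((k + 1 : ℕ) : ℤ) + 1, c) 0 : Tel p q) = HC.vt ((k : ℤ) + 1, q c) := by
      rw [HC.ed_zero]
      unfold telD0
      have : ((k + 1 : ℕ) : ℤ) + 1 - 1 = (k : ℤ) + 1 := by push_cast; ring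
      change (HC.vt (((k + 1 : ℕ) : ℤ) + 1 - 1, q c) : Tel p q) = _
      rw [this]
      rfl
    rw [zmk_congr (nn_ed (k + 1) c 0) (nn_vt k (q c)) hu]

private theorem r1 (e : Cst P × ℕ × L) :
    rE P p q φ₀ e 1 = rV P p q φ₀ (xcD1 P p e) := by
  obtain ⟨w, k, c⟩ := e
  change PO.jB _ _ (twk w (zmk (HC.ed ((k : ℤ) + 1, c) 1) (nn_ed k c 1))) =
    PO.jB _ _ (twk w (zmk (HC.vt ((k : ℤ) + 1, p c)) (nn_vt k (p c))))
  have hu : (HC.ed ((k : ℤ) + 1, c) 1 : Tel p q) = HC.vt ((k : ℤ) + 1, p c) := by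
    rw [HC.ed_one]
    rfl
  rw [zmk_congr (nn_ed k c 1) (nn_vt k (p c)) hu]

private theorem twk_cont {T : Type} [TopologicalSpace T] (f : T → Cst P) (g : T → Tel p q)
    (hg0 : ∀ x, 0 ≤ telH p q (g x)) (hf : Continuous f) (hg : Continuous g) :
    Continuous (fun x => twk (f x) (zmk (g x) (hg0 x))) := by
  have h : Continuous (fun x => (zmk (g x) (hg0 x) : Zc (telH p q))) :=
    Continuous.subtype_mk hg hg0
  exact hf.prodMk h

private theorem r_cont : Continuous (HC.desc (d0 := xcD0 P q φ₀) (d1 := xcD1 P p)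
    (rV P p q φ₀) (rE P p q φ₀)) := by
  refine HC.desc_continuous _ _ ?_ ?_ r0 r1
  · refine Continuous.sumElim PO.jY_continuous (PO.jB_continuous.comp ?_)
    refine twk_cont (fun x : Cst P × ℕ × L => x.1)
      (fun x : Cst P × ℕ × L => HC.vt ((x.2.1 : ℤ) + 1, x.2.2)) (fun x => nn_vt x.2.1 x.2.2)
      continuous_fst (HC.vt_continuous.comp ?_)
    have h1 : Continuous (fun x : Cst P × ℕ × L => (x.2.1 : ℤ) + 1) :=
      (continuous_of_discreteTopology (f := fun k : ℕ => (k : ℤ) + 1)).comp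
        (continuous_fst.comp continuous_snd)
    exact h1.prodMk (continuous_snd.comp continuous_snd)
  · refine PO.jB_continuous.comp ?_
    refine twk_cont (fun x : (Cst P × ℕ × L) × unitInterval => x.1.1)
      (fun x : (Cst P × ℕ × L) × unitInterval => HC.ed ((x.1.2.1 : ℤ) + 1, x.1.2.2) x.2)
      (fun x => nn_ed x.1.2.1 x.1.2.2 x.2)
      (continuous_fst.comp continuous_fst) ?_
    have h1 : Continuous (fun x : (Cst P × ℕ × L) × unitInterval => (x.1.2.1 : ℤ) + 1) :=
      (continuous_of_discreteTopology (f := fun k : ℕ => (k : ℤ) + 1)).comp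
        (continuous_fst.comp (continuous_snd.comp continuous_fst))
    have h2 : Continuous (fun x : (Cst P × ℕ × L) × unitInterval =>
        (((x.1.2.1 : ℤ) + 1, x.1.2.2), x.2)) :=
      (h1.prodMk (continuous_snd.comp (continuous_snd.comp continuous_fst))).prodMk
        continuous_snd
    exact HC.ed_continuous.comp h2

private theorem icomp (a : Tw P (Zc (telH p q)))
    (ha : a ∈ {x : Tw P (Zc (telH p q)) | telH p q x.2.1 = 0}) :
    iota P p q φ₀ a.1 a.2.1 =
      HC.vt (Sum.inl (twm (P := P) (fun z : Zc (telH p q) => telφ p q φ₀ z.1) a)) := by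
  obtain ⟨c, hc⟩ := (tel_height_zero a.2.1).1 ha
  change iota P p q φ₀ a.1 a.2.1 = HC.vt (Sum.inl (a.1.rep • telφ p q φ₀ a.2.1))
  rw [hc, iota_vt, telφ_vt, iotaV_nonpos a.1 0 c le_rfl]

theorem contr_xo (hY : LCS Y) (hp : Continuous p) (hq : Continuous q) (hφ : Continuous φ₀)
    (hX : Contr (Xc P p q φ₀)) : Contr (XO P (telH p q) (telφ p q φ₀)) := by
  let g : Tw P (Zc (telH p q)) → Xc P p q φ₀ := fun b => iota P p q φ₀ b.1 b.2.1
  have hg : Continuous g := by
    change Continuous (fun b : Cst P × Zc (telH p q) => iota P p q φ₀ b.1 b.2.1)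
    rw [continuous_prod_of_discrete_left]
    intro w
    exact iota_cont hp hφ w
  refine contr_retract
    (PO.desc (fun y => HC.vt (Sum.inl y)) g)
    (HC.desc (rV P p q φ₀) (rE P p q φ₀)) ?_ r_cont ?_ hX
  · exact PO.desc_continuous _ _ (HC.vt_continuous.comp continuous_inl) hg icomp
  · intro x
    rcases PO.cases_mk x with ⟨y, rfl⟩ | ⟨b, hb, rfl⟩
    · rfl
    · have hd : PO.desc (fun y => (HC.vt (Sum.inl y) : Xc P p q φ₀)) g
          (PO.jB {x : Tw P (Zc (telH p q)) | telH p q x.2.1 = 0}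
            (twm (P := P) (fun z : Zc (telH p q) => telφ p q φ₀ z.1)) b) = g b :=
        PO.desc_jB (fun y => (HC.vt (Sum.inl y) : Xc P p q φ₀)) g icomp b
      rw [hd]
      obtain ⟨w, u, hu⟩ := b
      change HC.desc (rV P p q φ₀) (rE P p q φ₀) (iota P p q φ₀ w u) =
        PO.jB _ _ (twk w (zmk u hu))
      have hu0 : telH p q u ≠ 0 := hb
      rcases HC.cases u with ⟨⟨k, c⟩, rfl⟩ | ⟨⟨k, c⟩, t, rfl⟩
      · have hk : ¬ k ≤ 0 := by
          intro h
          rw [telH_vt] at hu hu0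
          have h1 : 0 ≤ k := by exact_mod_cast hu
          have h2 : k = 0 := le_antisymm h h1
          subst h2
          exact hu0 Int.cast_zero
        rw [iota_vt, iotaV_pos w k c hk]
        change PO.jB _ _ (twk w (zmk (HC.vt (((k - 1).toNat : ℤ) + 1, c)) (nn_vt _ c))) = _
        have e : (HC.vt (((k - 1).toNat : ℤ) + 1, c) : Tel p q) = HC.vt (k, c) := by
          have : (((k - 1).toNat : ℤ)) + 1 = k := by omega
          rw [this]
        rw [zmk_congr (nn_vt _ c) hu e]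
      · have hk : ¬ k ≤ 0 := by
          intro h
          rw [telH_ed] at hu hu0
          have ht1 : (t : ℝ) ≤ 1 := t.2.2
          have h1 : (k : ℝ) ≤ 0 := by exact_mod_cast h
          exact hu0 (le_antisymm (by linarith) hu)
        rw [iota_ed, iotaE_pos w k c t hk, HC.desc_ed _ _ r0 r1]
        change PO.jB _ _ (twk w (zmk (HC.ed (((k - 1).toNat : ℤ) + 1, c) t) (nn_ed _ c t))) = _
        have e : (HC.ed (((k - 1).toNat : ℤ) + 1, c) t : Tel p q) = HC.ed (k, c) t := by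
          have : (((k - 1).toNat : ℤ)) + 1 = k := by omega
          rw [this]
        rw [zmk_congr (nn_ed _ c t) hu e]

end

end Pool.Agent.H18.AR
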