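import Pool.Agent.H18.AR.Inf

set_option autoImplicit false

/-!
# Pushing the end point into the telescope (chapter C2 of MP_5c3080_gt)

THEOREM (`exists_rho`). `TelData h S`, `AE U`. There are `ρ : EndPt h → U` and
`Θ : EndPt h × I → EndPt h`, continuous on `ge 0` resp. `ge 0 ×ˢ univ`, such that
`h (ρ x) ≥ 0` and `Θ (x, t) ∈ ge 0` for `x ∈ ge 0`, `ρ (inc u) = u` and
`Θ (inc u, t) = inc u` for `h u = 0`, `Θ (x, 0) = x` and `Θ (x, 1) = inc (ρ x)` for `x ∈ ge 0`.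

PROOF. `Z = EndPt h` and `Z × I` are metrizable (`end_lcs`, `metrizable_of_lcs`). Let
`E0 = inc '' {h = 0}`, closed in `Z` (it is `ge 0` minus the open set `{pt} ∪ inc '' {h > 0}`).
(1) `AE U`, closed set `E0`, `f = EndPt.desc h id u0` (continuous on `E0` as `inc` is an open
embedding): a continuous `η : Z → U` with `η (inc u) = u` for `h u = 0`.
(2) `AE Z` (`ae_end`), closed set `C = {t = 0} ∪ {t = 1} ∪ E0 × I` of `Z × I`, function
`f (x, t) = inc (η x)` if `t = 1`, `x` otherwise. Continuous on `C`: on the closed set `{t = 1}` it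
is `inc (η x)`; on the closed set `{t = 0} ∪ E0 × I` it is `x` (at the common points `x ∈ E0`,
`t = 1` we have `inc (η x) = x`). Get `Θ0 : Z × I → Z` continuous with `Θ0 (x, 0) = x`,
`Θ0 (x, 1) = inc (η x)`, `Θ0 (x, t) = x` for `x ∈ E0`.
(3) `ge 0` is compact; `η '' ge 0` and `Θ0 '' (ge 0 ×ˢ univ)` are compact: by
`EndPt.compact_bound'`, `EndPt.compact_bound` there is `M : ℕ` with `h (η x) ≥ -M` and
`Θ0 (x, t) ∈ ge (-M)` for `x ∈ ge 0`.
(4) Let `σ = desc h (fun u => inc (S^M u)) pt : Z → Z`, a homeomorphism with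
inverse `σ' = desc h (fun u => inc (S^(-M) u)) pt` (`EndPt.desc_continuous`; `h (S^k u) = h u + k`).
Define, for `x ∈ ge M`: `ρ x = S^M (η (σ' x))`, `Θ (x, t) = σ (Θ0 (σ' x, t))`; and for
`x = inc u`, `h u < M` (also for `h u < 0`): `ρ x = u`, `Θ (x, t) = x`. On `h u = M`:
`σ' (inc u) ∈ E0`, so `ρ (inc u) = S^M (S^(-M) u) = u`, `Θ (inc u, t) = inc u`. So both are
continuous on the union of the closed sets `ge M` and `inc '' {0 ≤ h ≤ M}` (which is compact, so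
closed), which is `ge 0` (`ContinuousOn.union_of_isClosed` or `ContinuousOn.union_continuousAt`; both
pieces closed). Heights: for `x ∈ ge M`, `σ' x ∈ ge 0`, so `h (ρ x) ≥ M - M = 0` and
`Θ (x, t) ∈ ge 0`. `Θ (x, 0) = σ (σ' x) = x`, `Θ (x, 1) = σ (inc (η (σ' x))) = inc (ρ x)`.
If `M = 0` the case `h u = 0` is covered too (then `x ∈ ge M`, and `σ' = id`, `x ∈ E0`).
-/

namespace Pool.Agent.H18.AR

open Set TopologicalSpace Topology

variable {U : Type} [TopologicalSpace U] {h : U → ℝ} {S : U ≃ₜ U}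

private theorem inc_ge {c : ℝ} {u : U} : EndPt.inc h u ∈ EndPt.ge h c ↔ c ≤ h u := by
  constructor
  · rintro (h1 | ⟨v, hv, hc⟩)
    · exact absurd h1 (EndPt.inc_ne_pt h u)
    · rwa [EndPt.inc_injective h hv]
  · exact fun h1 => Or.inr ⟨u, rfl, h1⟩

private theorem pt_ge {c : ℝ} : EndPt.pt h ∈ EndPt.ge h c := Or.inl rfl

private theorem desc_at {W : Type} [TopologicalSpace W] {f : U → W} (w : W) (hf : Continuous f)
    (u : U) : ContinuousAt (EndPt.desc h f w) (EndPt.inc h u) := by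
  rw [← (EndPt.inc_openEmbedding (h := h)).continuousAt_iff]
  exact hf.continuousAt

/-- the map of `EndPt h` given by a map of `U` which changes the height by a constant -/
private theorem shift_cont (hh : Continuous h) {f : U → U} (hf : Continuous f) {c : ℝ}
    (hc : ∀ u, h (f u) = h u + c) :
    Continuous (EndPt.desc h (fun u => EndPt.inc h (f u)) (EndPt.pt h)) := by
  refine EndPt.desc_continuous _ _ ((EndPt.inc_openEmbedding (h := h)).continuous.comp hf) ?_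
  intro O hO
  obtain ⟨-, N, hN⟩ := (EndPt.nhds_pt hh O).1 hO
  refine ⟨N - c, fun u hu => hN _ ?_⟩
  rw [hc]
  linarith

private theorem iter_h {f : U → U} {c : ℝ} (hc : ∀ u, h (f u) = h u + c) (M : ℕ) (u : U) :
    h (f^[M] u) = h u + M * c := by
  induction M with
  | zero => simp
  | succ M ih =>
    rw [Function.iterate_succ_apply', hc, ih]
    push_cast
    ring

theorem exists_rho (hT : TelData h S) (aU : AE U) :
    ∃ (ρ : EndPt h → U) (Θ : EndPt h × unitInterval → EndPt h),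
      ContinuousOn ρ (EndPt.ge h 0) ∧ ContinuousOn Θ (EndPt.ge h 0 ×ˢ univ) ∧
      (∀ x ∈ EndPt.ge h 0, 0 ≤ h (ρ x)) ∧ (∀ x ∈ EndPt.ge h 0, ∀ t, Θ (x, t) ∈ EndPt.ge h 0) ∧
      (∀ u, h u = 0 → ρ (EndPt.inc h u) = u) ∧
      (∀ u, h u = 0 → ∀ t, Θ (EndPt.inc h u, t) = EndPt.inc h u) ∧
      (∀ x ∈ EndPt.ge h 0, Θ (x, 0) = x) ∧
      (∀ x ∈ EndPt.ge h 0, Θ (x, 1) = EndPt.inc h (ρ x)) := by
  classical
  have hh := hT.cont
  have hZ : LCS (EndPt h) := EndPt.end_lcs hT.lcs hh hT.proper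
  have hT2 : T2Space (EndPt h) := hZ.1
  have hM : MetrizableSpace (EndPt h) := metrizable_of_lcs hZ
  have hinc : Continuous (EndPt.inc h) := (EndPt.inc_openEmbedding (h := h)).continuous
  obtain ⟨u0⟩ := aU.1
  have h01 : (0 : unitInterval) ≠ 1 := zero_ne_one
  -- compact slabs
  have hslab : ∀ a b : ℝ, IsClosed (EndPt.inc h '' {u | a ≤ h u ∧ h u ≤ b}) := fun a b =>
    ((hT.proper a b).image hinc).isClosed
  obtain ⟨E0, hE0⟩ : ∃ E0, E0 = EndPt.inc h '' {u | 0 ≤ h u ∧ h u ≤ 0} := ⟨_, rfl⟩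
  have hE0c : IsClosed E0 := by rw [hE0]; exact hslab 0 0
  have hE0m : ∀ u, h u = 0 → EndPt.inc h u ∈ E0 := by
    intro u hu
    rw [hE0]
    exact ⟨u, ⟨hu.ge, hu.le⟩, rfl⟩
  -- (1) the map η
  obtain ⟨η, hη, hηE⟩ := aU.2 (EndPt h) E0 (EndPt.desc h id u0) hE0c (by
    rw [hE0]
    rintro _ ⟨u, -, rfl⟩
    exact (desc_at u0 continuous_id u).continuousWithinAt)
  have hη0 : ∀ u, h u = 0 → η (EndPt.inc h u) = u := fun u hu => hηE (hE0m u hu)
  have hηx : ∀ x ∈ E0, EndPt.inc h (η x) = x := by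
    intro x hx
    rw [hE0] at hx
    obtain ⟨u, hu, rfl⟩ := hx
    rw [hη0 u (le_antisymm hu.2 hu.1)]
  -- (2) the homotopy Θ0
  obtain ⟨f, hf⟩ : ∃ f : EndPt h × unitInterval → EndPt h,
      f = fun z => if z.2 = 1 then EndPt.inc h (η z.1) else z.1 := ⟨_, rfl⟩
  obtain ⟨C1, hC1⟩ : ∃ C1 : Set (EndPt h × unitInterval), C1 = {z | z.2 = 1} := ⟨_, rfl⟩
  obtain ⟨C2, hC2⟩ : ∃ C2 : Set (EndPt h × unitInterval), C2 = {z | z.2 = 0 ∨ z.1 ∈ E0} :=
    ⟨_, rfl⟩
  have hC1c : IsClosed C1 := by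
    rw [hC1]
    exact isClosed_singleton.preimage continuous_snd
  have hC2c : IsClosed C2 := by
    rw [hC2]
    exact (isClosed_singleton.preimage continuous_snd).union (hE0c.preimage continuous_fst)
  have hf1 : ContinuousOn f C1 := by
    refine ContinuousOn.congr (f := fun z : EndPt h × unitInterval => EndPt.inc h (η z.1))
      (hinc.comp (hη.comp continuous_fst)).continuousOn ?_
    intro z hz
    rw [hC1] at hz
    rw [hf]
    exact if_pos hz
  have hf2' : ∀ z ∈ C2, f z = z.1 := by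
    intro z hz
    rw [hC2] at hz
    rw [hf]
    show (if z.2 = 1 then EndPt.inc h (η z.1) else z.1) = z.1
    split_ifs with h1
    · rcases hz with h2 | h2
      · rw [h1] at h2
        exact absurd h2.symm h01
      · exact hηx _ h2
    · rfl
  have hf2 : ContinuousOn f C2 :=
    ContinuousOn.congr (f := fun z : EndPt h × unitInterval => z.1) continuous_fst.continuousOn hf2'
  obtain ⟨Θ0, hΘ0, hΘE⟩ := (ae_end hT aU).2 (EndPt h × unitInterval) (C1 ∪ C2) f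
    (hC1c.union hC2c) (hf1.union_of_isClosed hf2 hC1c hC2c)
  have hΘ00 : ∀ x, Θ0 (x, 0) = x := by
    intro x
    have h1 : ((x, 0) : EndPt h × unitInterval) ∈ C2 := by rw [hC2]; exact Or.inl rfl
    rw [hΘE (Or.inr h1), hf2' _ h1]
  have hΘ01 : ∀ x, Θ0 (x, 1) = EndPt.inc h (η x) := by
    intro x
    have h1 : ((x, 1) : EndPt h × unitInterval) ∈ C1 := by rw [hC1]; rfl
    rw [hΘE (Or.inl h1), hf]
    exact if_pos rfl
  have hΘ0E : ∀ x ∈ E0, ∀ t, Θ0 (x, t) = x := by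
    intro x hx t
    have h1 : ((x, t) : EndPt h × unitInterval) ∈ C2 := by rw [hC2]; exact Or.inr hx
    rw [hΘE (Or.inr h1), hf2' _ h1]
  -- (3) the bound M
  have hge := EndPt.ge_isCompact hT.proper (0 : ℝ)
  obtain ⟨c1, hc1⟩ := EndPt.compact_bound' hh (η '' EndPt.ge h 0) (hge.image hη)
  obtain ⟨c2, hc2⟩ := EndPt.compact_bound hh (Θ0 '' (EndPt.ge h 0 ×ˢ univ))
    ((hge.prod isCompact_univ).image hΘ0)
  obtain ⟨M, hMb⟩ := exists_nat_ge (max c1 (-c2))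
  have hM1 : c1 ≤ M := (le_max_left _ _).trans hMb
  have hM2 : -c2 ≤ M := (le_max_right _ _).trans hMb
  have hηM : ∀ x ∈ EndPt.ge h 0, -(M : ℝ) ≤ h (η x) := fun x hx => by
    have := (hc1 _ (mem_image_of_mem η hx)).1
    linarith
  have hΘM : ∀ x ∈ EndPt.ge h 0, ∀ t, Θ0 (x, t) ∈ EndPt.ge h (-(M : ℝ)) := by
    intro x hx t
    have h1 := hc2 (mem_image_of_mem Θ0 (show (x, t) ∈ EndPt.ge h 0 ×ˢ univ from ⟨hx, mem_univ t⟩))
    rcases h1 with h2 | ⟨u, h2, h3⟩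
    · exact Or.inl h2
    · exact Or.inr ⟨u, h2, by linarith⟩
  -- (4) the shift by `M`
  obtain ⟨F, hF⟩ : ∃ F : U → U, F = (S : U → U)^[M] := ⟨_, rfl⟩
  obtain ⟨B, hB⟩ : ∃ B : U → U, B = (S.symm : U → U)^[M] := ⟨_, rfl⟩
  have hFc : Continuous F := by rw [hF]; exact S.continuous.iterate M
  have hBc : Continuous B := by rw [hB]; exact S.symm.continuous.iterate M
  have hFh : ∀ u, h (F u) = h u + M := by
    intro u
    rw [hF, iter_h (c := 1) hT.shift M u, mul_one]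
  have hBh : ∀ u, h (B u) = h u + -(M : ℝ) := by
    intro u
    have h1 : ∀ v, h (S.symm v) = h v + -1 := by
      intro v
      have h2 := hT.shift (S.symm v)
      rw [S.apply_symm_apply] at h2
      linarith
    rw [hB, iter_h (c := -1) h1 M u]
    ring
  have hFB : ∀ u, F (B u) = u := by
    intro u
    rw [hF, hB]
    exact (Function.LeftInverse.iterate (fun v => S.apply_symm_apply v) M) u
  obtain ⟨σ, hσ⟩ : ∃ σ : EndPt h → EndPt h,
    σ = EndPt.desc h (fun u => EndPt.inc h (F u)) (EndPt.pt h) := ⟨_, rfl⟩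
  obtain ⟨σ', hσ'⟩ : ∃ σ' : EndPt h → EndPt h,
    σ' = EndPt.desc h (fun u => EndPt.inc h (B u)) (EndPt.pt h) := ⟨_, rfl⟩
  have hσc : Continuous σ := by rw [hσ]; exact shift_cont hh hFc hFh
  have hσ'c : Continuous σ' := by rw [hσ']; exact shift_cont hh hBc hBh
  have hσi : ∀ u, σ (EndPt.inc h u) = EndPt.inc h (F u) := fun u => by rw [hσ]; rfl
  have hσp : σ (EndPt.pt h) = EndPt.pt h := by rw [hσ]; rfl
  have hσ'i : ∀ u, σ' (EndPt.inc h u) = EndPt.inc h (B u) := fun u => by rw [hσ']; rfl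
  have hσ'p : σ' (EndPt.pt h) = EndPt.pt h := by rw [hσ']; rfl
  have hσσ : ∀ x, σ (σ' x) = x := by
    intro x
    rcases EndPt.cases h x with rfl | ⟨u, rfl⟩
    · rw [hσ'p, hσp]
    · rw [hσ'i, hσi, hFB]
  have hσ'0 : ∀ x ∈ EndPt.ge h (M : ℝ), σ' x ∈ EndPt.ge h 0 := by
    rintro x (rfl | ⟨u, rfl, hu⟩)
    · rw [hσ'p]
      exact pt_ge
    · rw [hσ'i, inc_ge, hBh]
      linarith
  have hσ0 : ∀ x ∈ EndPt.ge h (-(M : ℝ)), σ x ∈ EndPt.ge h 0 := by
    rintro x (rfl | ⟨u, rfl, hu⟩)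
    · rw [hσp]
      exact pt_ge
    · rw [hσi, inc_ge, hFh]
      linarith
  -- the common points
  have hcomρ : ∀ u, h u = M → F (η (σ' (EndPt.inc h u))) = u := by
    intro u hu
    have h1 : h (B u) = 0 := by
      rw [hBh, hu]
      ring
    rw [hσ'i, hη0 _ h1, hFB]
  have hcomΘ : ∀ u, h u = M → ∀ t, σ (Θ0 (σ' (EndPt.inc h u), t)) = EndPt.inc h u := by
    intro u hu t
    have h1 : h (B u) = 0 := by
      rw [hBh, hu]
      ring
    rw [hσ'i, hΘ0E _ (hE0m _ h1), hσi, hFB]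
  obtain ⟨ρ, hρ⟩ : ∃ ρ : EndPt h → U,
    ρ = fun x => if x ∈ EndPt.ge h (M : ℝ) then F (η (σ' x)) else EndPt.desc h id u0 x := ⟨_, rfl⟩
  obtain ⟨Θ, hΘ⟩ : ∃ Θ : EndPt h × unitInterval → EndPt h,
    Θ = fun z => if z.1 ∈ EndPt.ge h (M : ℝ) then σ (Θ0 (σ' z.1, z.2)) else z.1 := ⟨_, rfl⟩
  have hρ1 : ∀ x ∈ EndPt.ge h (M : ℝ), ρ x = F (η (σ' x)) := fun x hx => by
    rw [hρ]
    exact if_pos hx
  have hΘ1 : ∀ x ∈ EndPt.ge h (M : ℝ), ∀ t, Θ (x, t) = σ (Θ0 (σ' x, t)) := fun x hx t => by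
    rw [hΘ]
    exact if_pos hx
  have hρ2 : ∀ u, h u ≤ M → ρ (EndPt.inc h u) = u := by
    intro u hu
    by_cases h1 : EndPt.inc h u ∈ EndPt.ge h (M : ℝ)
    · rw [hρ1 _ h1]
      exact hcomρ u (le_antisymm hu (inc_ge.1 h1))
    · rw [hρ]
      exact if_neg h1
  have hΘ2 : ∀ u, h u ≤ M → ∀ t, Θ (EndPt.inc h u, t) = EndPt.inc h u := by
    intro u hu t
    by_cases h1 : EndPt.inc h u ∈ EndPt.ge h (M : ℝ)
    · rw [hΘ1 _ h1]
      exact hcomΘ u (le_antisymm hu (inc_ge.1 h1)) t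
    · rw [hΘ]
      exact if_neg h1
  -- the two closed pieces
  have hsplit : EndPt.ge h 0 ⊆ EndPt.ge h (M : ℝ) ∪ EndPt.inc h '' {u | 0 ≤ h u ∧ h u ≤ M} := by
    rintro x (rfl | ⟨u, rfl, hu⟩)
    · exact Or.inl pt_ge
    · rcases le_total (M : ℝ) (h u) with h1 | h1
      · exact Or.inl (inc_ge.2 h1)
      · exact Or.inr ⟨u, ⟨hu, h1⟩, rfl⟩
  have hgeM := EndPt.ge_isClosed hh (M : ℝ)
  have hcases : ∀ x ∈ EndPt.ge h 0, x ∈ EndPt.ge h (M : ℝ) ∨ ∃ u, x = EndPt.inc h u ∧ 0 ≤ h u ∧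
      h u ≤ M := by
    intro x hx
    rcases hsplit hx with h1 | ⟨u, hu, rfl⟩
    · exact Or.inl h1
    · exact Or.inr ⟨u, rfl, hu⟩
  refine ⟨ρ, Θ, ?_, ?_, ?_, ?_, ?_, ?_, ?_, ?_⟩
  · refine ContinuousOn.mono ?_ hsplit
    refine ContinuousOn.union_of_isClosed ?_ ?_ hgeM (hslab 0 M)
    · exact ContinuousOn.congr (f := fun x => F (η (σ' x)))
        (hFc.comp (hη.comp hσ'c)).continuousOn hρ1
    · refine ContinuousOn.congr (f := EndPt.desc h id u0) ?_ ?_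
      · rintro _ ⟨u, -, rfl⟩
        exact (desc_at u0 continuous_id u).continuousWithinAt
      · rintro _ ⟨u, hu, rfl⟩
        exact hρ2 u hu.2
  · refine ContinuousOn.mono (s := (EndPt.ge h (M : ℝ) ×ˢ univ) ∪
      ((EndPt.inc h '' {u | 0 ≤ h u ∧ h u ≤ M}) ×ˢ univ)) ?_ ?_
    · refine ContinuousOn.union_of_isClosed ?_ ?_ (hgeM.prod isClosed_univ)
        ((hslab 0 M).prod isClosed_univ)
      · refine ContinuousOn.congr
          (f := fun z : EndPt h × unitInterval => σ (Θ0 (σ' z.1, z.2))) ?_ ?_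
        · exact (hσc.comp (hΘ0.comp
            ((hσ'c.comp continuous_fst).prodMk continuous_snd))).continuousOn
        · rintro ⟨x, t⟩ ⟨hx, -⟩
          exact hΘ1 x hx t
      · refine ContinuousOn.congr (f := fun z : EndPt h × unitInterval => z.1)
          continuous_fst.continuousOn ?_
        rintro ⟨x, t⟩ ⟨⟨u, hu, rfl⟩, -⟩
        exact hΘ2 u hu.2 t
    · rintro ⟨x, t⟩ ⟨hx, -⟩
      rcases hsplit hx with h1 | h1
      · exact Or.inl ⟨h1, mem_univ t⟩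
      · exact Or.inr ⟨h1, mem_univ t⟩
  · intro x hx
    rcases hcases x hx with h1 | ⟨u, rfl, hu0, hu1⟩
    · rw [hρ1 x h1, hFh]
      have := hηM _ (hσ'0 x h1)
      linarith
    · rw [hρ2 u hu1]
      exact hu0
  · intro x hx t
    rcases hcases x hx with h1 | ⟨u, rfl, hu0, hu1⟩
    · rw [hΘ1 x h1]
      exact hσ0 _ (hΘM _ (hσ'0 x h1) t)
    · rw [hΘ2 u hu1]
      exact hx
  · intro u hu
    exact hρ2 u (by rw [hu]; exact Nat.cast_nonneg M)
  · intro u hu t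
    exact hΘ2 u (by rw [hu]; exact Nat.cast_nonneg M) t
  · intro x hx
    rcases hcases x hx with h1 | ⟨u, rfl, hu0, hu1⟩
    · rw [hΘ1 x h1, hΘ00, hσσ]
    · rw [hΘ2 u hu1]
  · intro x hx
    rcases hcases x hx with h1 | ⟨u, rfl, hu0, hu1⟩
    · rw [hΘ1 x h1, hΘ01, hσi, hρ1 x h1]
    · rw [hΘ2 u hu1, hρ2 u hu1]

end Pool.Agent.H18.AR
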