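import Pool.Agent.H18.AR.XhA
import Pool.Agent.H18.AR.Rho
import Pool.Agent.H18.AR.Dom

set_option autoImplicit false

/-!
# Contractibility of the space with compactified ends (chapter C2 of MP_5c3080_gt)

THEOREM (`xh_contr`). If `XO` is contractible then so is `XH`.

PROOF. Take `ρ`, `Θ` from `exists_rho`. Let
`i = PO.desc (fun y => jY y) (fun b => jB (b.1, ⟨inc b.2.1, _⟩)) : XO → XH`: for
`b = (w, z)` with `h z.1 = 0` we have `jB (w, inc z) = jY (φ' (w, inc z)) = jY (rep w • φ z.1)`,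
so the two functions are compatible and `i` is continuous (`PO.desc_continuous`), with
`i (jY y) = jY y`, `i (jB b) = jB (b.1, inc b.2)` for all `b` (`PO.desc_jB`).
Let `r = PO.desc (fun y => jY y) (fun b => jB (b.1, ⟨ρ b.2.1, _⟩)) : XH → XO` (`0 ≤ h (ρ x)` for
`x ∈ ge 0`): if `b.2.1 = inc u`, `h u = 0`: `ρ (inc u) = u`, so `jB (w, u) = jY (rep w • φ u)`,
compatible.
Let `K1 (x, t) = PO.desc (fun y => jY y) (fun b => jB (b.1, ⟨Θ (b.2.1, t), _⟩)) x : XH × I → XH`: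
compatible because `Θ (inc u, t) = inc u` for `h u = 0`; continuous by `PO.continuous_param`
(`Θ` is continuous on `ge 0 ×ˢ univ`). `K1 (x, 0) = x`; `K1 (x, 1) = i (r x)` since
`Θ (x, 1) = inc (ρ x)`. `contr_dom`.
-/

namespace Pool.Agent.H18.AR

open Set TopologicalSpace Topology

section

variable {G : Type} [Group G] {P : Subgroup G} {Y U : Type} [TopologicalSpace Y]
  [TopologicalSpace U] [MulAction G Y] [MulAction P U] {h : U → ℝ} {S : U ≃ₜ U} {φ : U → Y}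

/-- the map of twisted products induced by the inclusion -/
private def xhbI (P : Subgroup G) (h : U → ℝ) (b : Tw P (Zc h)) : Tw P (Zh h) :=
  ((b.1, ⟨EndPt.inc h b.2.1, Or.inr ⟨b.2.1, rfl, b.2.2⟩⟩) : Cst P × Zh h)

private theorem xhbI_cont : Continuous (xhbI P h) := by
  have hinc : Continuous (EndPt.inc h) := (EndPt.inc_openEmbedding (h := h)).continuous
  have h1 : Continuous (fun b : Cst P × {u : U // 0 ≤ h u} =>
      ((b.1, ⟨EndPt.inc h b.2.1, Or.inr ⟨b.2.1, rfl, b.2.2⟩⟩) :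
        Cst P × {x : EndPt h // x ∈ EndPt.ge h 0})) :=
    continuous_fst.prodMk
      (Continuous.subtype_mk (hinc.comp (continuous_subtype_val.comp continuous_snd)) _)
  exact h1

/-- the map of twisted products induced by a map of the half spaces -/
private def xhbR (P : Subgroup G) {h : U → ℝ} (ρ : EndPt h → U)
    (hρ : ∀ x ∈ EndPt.ge h 0, 0 ≤ h (ρ x)) (b : Tw P (Zh h)) : Tw P (Zc h) :=
  ((b.1, ⟨ρ b.2.1, hρ _ b.2.2⟩) : Cst P × Zc h)

private theorem xhbR_cont {ρ : EndPt h → U} (hρ : ∀ x ∈ EndPt.ge h 0, 0 ≤ h (ρ x))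
    (hc : ContinuousOn ρ (EndPt.ge h 0)) : Continuous (xhbR P ρ hρ) := by
  have h1 : Continuous (fun b : Cst P × {x : EndPt h // x ∈ EndPt.ge h 0} =>
      ((b.1, ⟨ρ b.2.1, hρ _ b.2.2⟩) : Cst P × {u : U // 0 ≤ h u})) := by
    refine continuous_fst.prodMk (Continuous.subtype_mk ?_ _)
    exact hc.comp_continuous (continuous_subtype_val.comp continuous_snd) (fun b => b.2.2)
  exact h1

/-- the homotopy on twisted products -/
private def xhbT (P : Subgroup G) {h : U → ℝ} (Θ : EndPt h × unitInterval → EndPt h)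
    (hΘ : ∀ x ∈ EndPt.ge h 0, ∀ t, Θ (x, t) ∈ EndPt.ge h 0) (b : Tw P (Zh h))
    (t : unitInterval) : Tw P (Zh h) :=
  ((b.1, ⟨Θ (b.2.1, t), hΘ _ b.2.2 t⟩) : Cst P × Zh h)

private theorem xhbT_cont {Θ : EndPt h × unitInterval → EndPt h}
    (hΘ : ∀ x ∈ EndPt.ge h 0, ∀ t, Θ (x, t) ∈ EndPt.ge h 0)
    (hc : ContinuousOn Θ (EndPt.ge h 0 ×ˢ univ)) :
    Continuous (fun z : Tw P (Zh h) × unitInterval => xhbT P Θ hΘ z.1 z.2) := by
  have h1 : Continuous (fun z : (Cst P × {x : EndPt h // x ∈ EndPt.ge h 0}) × unitInterval =>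
      ((z.1.1, ⟨Θ (z.1.2.1, z.2), hΘ _ z.1.2.2 z.2⟩) :
        Cst P × {x : EndPt h // x ∈ EndPt.ge h 0})) := by
    refine (continuous_fst.comp continuous_fst).prodMk (Continuous.subtype_mk ?_ _)
    exact hc.comp_continuous
      ((continuous_subtype_val.comp (continuous_snd.comp continuous_fst)).prodMk continuous_snd)
      (fun z => ⟨z.1.2.2, mem_univ _⟩)
  exact h1

end

theorem xh_contr {G : Type} [Group G] {P : Subgroup G} {Y U : Type} [TopologicalSpace Y]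
    [TopologicalSpace U] [MulAction G Y] [MulAction P U] {h : U → ℝ} {S : U ≃ₜ U} {φ : U → Y}
    [ContinuousConstSMul G Y] [Countable G] (hY : LCS Y) (pY : ProperAct G Y)
    (hE : EndData P h S φ) (y0 : Y) (hc : Contr (XO P h φ)) : Contr (XH P h φ y0) := by
  obtain ⟨ρ, Θ, hρc, hΘc, hρ0, hΘ0, hρz, hΘz, hΘi, hΘe⟩ := exists_rho hE.tel hE.ae
  have hD := xh_podata hY pY hE y0
  have hB' : LCS (Cst P × Zh h) := lcs_prod lcs_discrete (zh_lcs hE.tel)
  have hB : LCS (Tw P (Zh h)) := hB'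
  obtain ⟨AO, hAO⟩ : ∃ AO : Set (Tw P (Zc h)), AO = {x : Tw P (Zc h) | h x.2.1 = 0} := ⟨_, rfl⟩
  obtain ⟨AH, hAH⟩ : ∃ AH : Set (Tw P (Zh h)), AH = {x : Tw P (Zh h) | x.2 ∈ Zh.zero h} :=
    ⟨_, rfl⟩
  obtain ⟨φO, hφO⟩ : ∃ φO : Tw P (Zc h) → Y, φO = twm (P := P) (fun z : Zc h => φ z.1) := ⟨_, rfl⟩
  obtain ⟨φH, hφH⟩ : ∃ φH : Tw P (Zh h) → Y,
    φH = twm (P := P) (fun z : Zh h => EndPt.desc h φ y0 z.1) := ⟨_, rfl⟩
  change Contr (PO {x : Tw P (Zc h) | h x.2.1 = 0} (twm (P := P) (fun z : Zc h => φ z.1))) at hc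
  change Contr (PO {x : Tw P (Zh h) | x.2 ∈ Zh.zero h}
    (twm (P := P) (fun z : Zh h => EndPt.desc h φ y0 z.1)))
  rw [← hAO, ← hφO] at hc
  rw [← hAH, ← hφH] at hD ⊢
  -- the compatibilities
  have ci : ∀ a ∈ AO, PO.jB AH φH (xhbI P h a) = PO.jY AH φH (φO a) := by
    intro a ha
    rw [hAO] at ha
    have h1 : xhbI P h a ∈ AH := by
      rw [hAH]
      exact ⟨a.2.1, rfl, ha⟩
    rw [PO.jB_mem h1, hφH, hφO]
    rfl
  have key : ∀ a ∈ AH, ∃ u, a.2.1 = EndPt.inc h u ∧ h u = 0 := by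
    intro a ha
    rw [hAH] at ha
    exact ha
  have cr : ∀ a ∈ AH, PO.jB AO φO (xhbR P ρ hρ0 a) = PO.jY AO φO (φH a) := by
    intro a ha
    obtain ⟨u, hu, hu0⟩ := key a ha
    have h0 : ρ a.2.1 = u := by rw [hu, hρz u hu0]
    have h1 : xhbR P ρ hρ0 a ∈ AO := by
      rw [hAO]
      change h (ρ a.2.1) = 0
      rw [h0, hu0]
    rw [PO.jB_mem h1, hφH, hφO]
    change PO.jY AO _ (a.1.rep • φ (ρ a.2.1)) = PO.jY AO _ (a.1.rep • EndPt.desc h φ y0 a.2.1)
    rw [h0, hu]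
    rfl
  have ck : ∀ t : unitInterval, ∀ a ∈ AH,
      PO.jB AH φH (xhbT P Θ hΘ0 a t) = PO.jY AH φH (φH a) := by
    intro t a ha
    obtain ⟨u, hu, hu0⟩ := key a ha
    have h1 : xhbT P Θ hΘ0 a t = a := by
      have h2 : Θ (a.2.1, t) = a.2.1 := by rw [hu, hΘz u hu0 t]
      exact Prod.ext rfl (Subtype.ext h2)
    rw [h1, PO.jB_mem ha]
  obtain ⟨i, hi⟩ : ∃ i : PO AO φO → PO AH φH,
    i = PO.desc (fun y => PO.jY AH φH y) (fun b => PO.jB AH φH (xhbI P h b)) := ⟨_, rfl⟩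
  obtain ⟨r, hr⟩ : ∃ r : PO AH φH → PO AO φO,
    r = PO.desc (fun y => PO.jY AO φO y) (fun b => PO.jB AO φO (xhbR P ρ hρ0 b)) := ⟨_, rfl⟩
  obtain ⟨K, hK⟩ : ∃ K : PO AH φH × unitInterval → PO AH φH,
    K = fun z => PO.desc (fun y => PO.jY AH φH y)
      (fun b => PO.jB AH φH (xhbT P Θ hΘ0 b z.2)) z.1 := ⟨_, rfl⟩
  have iY : ∀ y, i (PO.jY AO φO y) = PO.jY AH φH y := fun y => by rw [hi]; rfl
  have iB : ∀ b, i (PO.jB AO φO b) = PO.jB AH φH (xhbI P h b) := fun b => by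
    rw [hi]
    exact PO.desc_jB _ _ ci b
  have rY : ∀ y, r (PO.jY AH φH y) = PO.jY AO φO y := fun y => by rw [hr]; rfl
  have rB : ∀ b, r (PO.jB AH φH b) = PO.jB AO φO (xhbR P ρ hρ0 b) := fun b => by
    rw [hr]
    exact PO.desc_jB _ _ cr b
  have kY : ∀ y t, K (PO.jY AH φH y, t) = PO.jY AH φH y := fun y t => by rw [hK]; rfl
  have kB : ∀ b t, K (PO.jB AH φH b, t) = PO.jB AH φH (xhbT P Θ hΘ0 b t) := fun b t => by
    rw [hK]
    exact PO.desc_jB _ _ (ck t) b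
  have hic : Continuous i := by
    rw [hi]
    exact PO.desc_continuous _ _ PO.jY_continuous (PO.jB_continuous.comp xhbI_cont) ci
  have hrc : Continuous r := by
    rw [hr]
    exact PO.desc_continuous _ _ PO.jY_continuous
      (PO.jB_continuous.comp (xhbR_cont hρ0 hρc)) cr
  have hKc : Continuous K := by
    refine PO.continuous_param hD hY hB K ?_ ?_
    · have h1 : (fun z : Y × unitInterval => K (PO.jY AH φH z.1, z.2)) =
          fun z => PO.jY AH φH z.1 := funext fun z => kY z.1 z.2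
      rw [h1]
      exact PO.jY_continuous.comp continuous_fst
    · have h1 : (fun z : Tw P (Zh h) × unitInterval => K (PO.jB AH φH z.1, z.2)) =
          fun z => PO.jB AH φH (xhbT P Θ hΘ0 z.1 z.2) := funext fun z => kB z.1 z.2
      rw [h1]
      exact PO.jB_continuous.comp (xhbT_cont hΘ0 hΘc)
  refine contr_dom i r hic hrc K hKc ?_ ?_ hc
  · intro x
    rcases PO.cases_mk x with ⟨y, rfl⟩ | ⟨b, -, rfl⟩
    · exact kY y 0
    · rw [kB]
      congr 1
      exact Prod.ext rfl (Subtype.ext (hΘi _ b.2.2))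
  · intro x
    rcases PO.cases_mk x with ⟨y, rfl⟩ | ⟨b, -, rfl⟩
    · rw [kY, rY, iY]
    · rw [kB, rB, iB]
      congr 1
      exact Prod.ext rfl (Subtype.ext (hΘe _ b.2.2))

end Pool.Agent.H18.AR
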