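import Pool.Agent.H18.AR.XhA
import Pool.Agent.H18.AR.XhB

set_option autoImplicit false

/-!
# The AR with a proper cocompact action: abstract form (chapter C2 of MP_5c3080_gt)

`xh_eqv`: `EqvData G A φ'` for `XH`: `A` is invariant: `(g • x).2 = coc g x.1 • x.2`, and `Zh.zero h` is
`P`-invariant by `HInv`. `φ' (g • x) = g • φ' x` on `A` by `twm_eqv` (for `z.1 = inc u`,
`h u = 0`: `desc h φ y0 (a • inc u) = φ (a • u) = a • φ u`).
`zh_csm`: `ContinuousConstSMul P (Zh h)`: the map `x ↦ a • x` of `EndPt h` is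
`desc h (fun u => inc (a • u)) pt`, continuous by `EndPt.desc_continuous` (heights are preserved:
for a neighbourhood `O` of `pt`, `EndPt.nhds_pt`).
`ar_abstract`: `Y` is nonempty: if `Y` is empty, then the compact set of `Cocpt`... simply: `EndData`
gives `U` nonempty (`AE U`), so there is `u` with height `0` or not; therefore take `y0` from the
hypothesis `Nonempty Y`. `X = XH P h φ y0` with `PO.act`; `IsAR`: `metrizable_of_lcs xh_lcs`,
`isAR_of_ae (ae_of_contr xh_ane xh_contr)`; `PO.act_continuous` (with `tw_continuous`), `PO.act_proper`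
(with `tw_proper`), `PO.act_cocpt` (with `tw_cocpt`, `zh_compact`).
-/

namespace Pool.Agent.H18.AR

open Set TopologicalSpace Topology

section

variable {G : Type} [Group G] {P : Subgroup G} {Y U : Type} [TopologicalSpace Y]
  [TopologicalSpace U] [MulAction G Y] [MulAction P U] {h : U → ℝ} {S : U ≃ₜ U} {φ : U → Y}

theorem xh_eqv [HInv P h] (hE : EndData P h S φ) (y0 : Y) :
    EqvData G {x : Tw P (Zh h) | x.2 ∈ Zh.zero h}
      (twm (P := P) (fun z : Zh h => EndPt.desc h φ y0 z.1)) := by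
  have key : ∀ (a : P) (z : Zh h), z ∈ Zh.zero h →
      ∃ u, z.1 = EndPt.inc h u ∧ h u = 0 ∧ (a • z).1 = EndPt.inc h (a • u) ∧ h (a • u) = 0 := by
    rintro a z ⟨u, hu, h0⟩
    refine ⟨u, hu, h0, ?_, by rw [HInv.inv (h := h) a u, h0]⟩
    rw [Zh.smul_val, hu, EndPt.smul_inc]
  refine ⟨?_, ?_⟩
  · intro g b hb
    obtain ⟨u, -, -, h1, h2⟩ := key (Cst.coc g b.1) b.2 hb
    exact ⟨_, h1, h2⟩
  · intro g b hb
    refine twm_eqv (fun z : Zh h => EndPt.desc h φ y0 z.1) (Zh.zero h) ?_ g b hb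
    intro a z hz
    obtain ⟨u, hu, h0, h1, -⟩ := key a z hz
    change EndPt.desc h φ y0 (a • z).1 = (a : G) • EndPt.desc h φ y0 z.1
    rw [h1, hu, EndPt.desc_inc, EndPt.desc_inc, hE.eqv a u h0]

theorem zh_csm [HInv P h] [ContinuousConstSMul P U] (hE : EndData P h S φ) :
    ContinuousConstSMul P (Zh h) := by
  have hh := hE.tel.cont
  refine ⟨fun a => ?_⟩
  have h1 : Continuous (EndPt.desc h (fun u => EndPt.inc h (a • u)) (EndPt.pt h)) := by
    refine EndPt.desc_continuous _ _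
      ((EndPt.inc_openEmbedding (h := h)).continuous.comp (continuous_const_smul a)) ?_
    intro O hO
    obtain ⟨-, N, hN⟩ := (EndPt.nhds_pt hh O).1 hO
    refine ⟨N, fun u hu => hN _ ?_⟩
    rw [HInv.inv (h := h) a u]
    exact hu
  have h2 : Continuous (fun z : {x : EndPt h // x ∈ EndPt.ge h 0} =>
      (⟨EndPt.desc h (fun u => EndPt.inc h (a • u)) (EndPt.pt h) z.1,
        EndPt.ge_smul h a z.1 z.2⟩ : {x : EndPt h // x ∈ EndPt.ge h 0})) :=
    Continuous.subtype_mk (h1.comp continuous_subtype_val) _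
  exact h2

theorem ar_abstract [Countable G] [Finite P] [ContinuousConstSMul G Y] [HInv P h]
    [ContinuousConstSMul P U] [Nonempty Y] (hY : LCS Y) (aY : ANE Y) (pY : ProperAct G Y)
    (cY : Cocpt G Y) (hE : EndData P h S φ) (hc : Contr (XO P h φ)) :
    ∃ (X : Type) (_ : TopologicalSpace X) (_ : MulAction G X),
      ContinuousConstSMul G X ∧ IsAR X ∧ ProperAct G X ∧ Cocpt G X := by
  obtain ⟨y0⟩ := ‹Nonempty Y›
  have hD := xh_podata hY pY hE y0
  have hEq := xh_eqv (P := P) hE y0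
  have hZ := zh_lcs hE.tel
  have hB : LCS (Tw P (Zh h)) := tw_lcs hZ
  have i1 : ContinuousConstSMul P (Zh h) := zh_csm hE
  have i2 : CompactSpace (Zh h) := zh_compact hE.tel
  have i3 : ContinuousConstSMul G (Tw P (Zh h)) := tw_continuous
  have hM : MetrizableSpace (XH P h φ y0) := metrizable_of_lcs (xh_lcs hY pY hE y0)
  refine ⟨XH P h φ y0, inferInstance, PO.act hEq, ?_, ?_, ?_, ?_⟩
  · exact PO.act_continuous hEq
  · exact isAR_of_ae (ae_of_contr (xh_ane hY aY pY hE y0) (xh_contr hY pY hE y0 hc))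
  · exact PO.act_proper hEq hD hY hB pY tw_proper
  · exact PO.act_cocpt hEq cY tw_cocpt

end

end Pool.Agent.H18.AR
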