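import Pool.Agent.H18.AR.XcP
import Pool.Agent.H18.AR.XcR
import Pool.Agent.H18.AR.XhC

set_option autoImplicit false

/-!
# Main theorem of chapter C2 of MP_5c3080_gt

`G` countable, `P ≤ G` finite; `Y` locally compact Hausdorff second countable, ANE, with a proper
cocompact `G`-action; `L` a compact metrizable ANE with `P`-action, `p q : L → L` and `φ₀ : L → Y`
continuous `P`-maps, such that the telescope `Tel p q` and the space `Xc P p q φ₀` are
contractible. Then there is an AR with a proper cocompact `G`-action.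
-/

namespace Pool.Agent.H18.AR

open Set TopologicalSpace Pool.H93.HU

section

variable {G : Type} [Group G] {P : Subgroup G} {Y L : Type} [TopologicalSpace Y] [MulAction G Y]
  [ContinuousConstSMul G Y] [TopologicalSpace L] [CompactSpace L] [MetrizableSpace L]
  [MulAction P L] [ContinuousConstSMul P L] {p q : L → L} {φ₀ : L → Y}

theorem ar_model [Countable G] [Finite P] [Nonempty Y] [EqMap P p] [EqMap P q] (hY : LCS Y)
    (aY : ANE Y) (pY : ProperAct G Y) (cY : Cocpt G Y) (aL : ANE L) (hp : Continuous p)
    (hq : Continuous q) (hφ : Continuous φ₀)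
    (hφe : ∀ (a : P) (c : L), φ₀ (a • c) = (a : G) • φ₀ c) (hU : Contr (Tel p q))
    (hX : Contr (Xc P p q φ₀)) :
    ∃ (X : Type) (_ : TopologicalSpace X) (_ : MulAction G X),
      ContinuousConstSMul G X ∧ IsAR X ∧ ProperAct G X ∧ Cocpt G X := by
  haveI : HInv P (telH p q) := tel_hinv
  haveI : ContinuousConstSMul P (Tel p q) := tel_csm
  exact ar_abstract hY aY pY cY (tel_endData aL hp hq φ₀ hφ hφe hU) (contr_xo hY hp hq hφ hX)

/-- the same with weak contractibility and the cellular extension property -/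
theorem ar_model' [Countable G] [Finite P] [Nonempty Y] [EqMap P p] [EqMap P q] (hY : LCS Y)
    (aY : ANE Y) (pY : ProperAct G Y) (cY : Cocpt G Y) (aL : ANE L) (hp : Continuous p)
    (hq : Continuous q) (hφ : Continuous φ₀)
    (hφe : ∀ (a : P) (c : L), φ₀ (a • c) = (a : G) • φ₀ c) (celY : Cel Y) (celL : Cel L)
    (hU : WC (Tel p q)) (hX : WC (Xc P p q φ₀)) :
    ∃ (X : Type) (_ : TopologicalSpace X) (_ : MulAction G X),
      ContinuousConstSMul G X ∧ IsAR X ∧ ProperAct G X ∧ Cocpt G X :=
  ar_model hY aY pY cY aL hp hq hφ hφe (contr_of_cel (tel_cel hp hq celL) hU)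
    (contr_of_cel (xc_cel hY pY hp hq hφ celY celL) hX)

end

end Pool.Agent.H18.AR
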