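import Pool.Agent.H18.AR.Defs

set_option autoImplicit false

/-!
# Pushouts (adjunction spaces)

`PO A φ = Y ∪_φ B` for `A ⊆ B` and `φ : B → Y` (only the values on `A` matter). The underlying
set is `Y ⊕ {b // b ∉ A}`; the topology is the quotient topology for `PO.mk : Y ⊕ B → PO A φ`.
-/

namespace Pool.Agent.H18.AR

open Set TopologicalSpace

/-- the adjunction space `Y ∪_φ B` (as a set: `Y` plus the complement of `A`) -/
def PO {Y B : Type} (A : Set B) (_φ : B → Y) : Type := Y ⊕ {b : B // b ∉ A}

namespace PO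

variable {Y B : Type} (A : Set B) (φ : B → Y)

open Classical in
/-- the quotient map -/
noncomputable def mk : Y ⊕ B → PO A φ
  | Sum.inl y => (Sum.inl y : Y ⊕ {b : B // b ∉ A})
  | Sum.inr b => if h : b ∈ A then (Sum.inl (φ b) : Y ⊕ {b : B // b ∉ A})
      else (Sum.inr ⟨b, h⟩ : Y ⊕ {b : B // b ∉ A})

noncomputable instance instTop [TopologicalSpace Y] [TopologicalSpace B] : TopologicalSpace (PO A φ) :=
  TopologicalSpace.coinduced (mk A φ) inferInstance

/-- the inclusion of `Y` -/
noncomputable def jY (y : Y) : PO A φ := mk A φ (Sum.inl y)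

/-- the characteristic map of `B` -/
noncomputable def jB (b : B) : PO A φ := mk A φ (Sum.inr b)

variable {A φ}

theorem jB_mem {b : B} (h : b ∈ A) : jB A φ b = jY A φ (φ b) := by
  simp only [jB, jY, mk]
  rw [dif_pos h]

theorem jB_notMem {b : B} (h : b ∉ A) :
    jB A φ b = (Sum.inr ⟨b, h⟩ : Y ⊕ {b : B // b ∉ A}) := by
  simp only [jB, mk]
  rw [dif_neg h]

theorem jY_eq (y : Y) : jY A φ y = (Sum.inl y : Y ⊕ {b : B // b ∉ A}) := rfl

theorem jY_injective : Function.Injective (jY A φ) := by
  intro y y' h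
  rw [jY_eq, jY_eq] at h
  exact Sum.inl_injective h

theorem jB_inj {b b' : B} (h : b ∉ A) (h' : b' ∉ A) (e : jB A φ b = jB A φ b') : b = b' := by
  rw [jB_notMem h, jB_notMem h'] at e
  exact congrArg Subtype.val (Sum.inr_injective e)

theorem jB_ne_jY {b : B} (h : b ∉ A) (y : Y) : jB A φ b ≠ jY A φ y := by
  rw [jB_notMem h, jY_eq]
  exact Sum.inr_ne_inl

theorem mk_surjective : Function.Surjective (mk A φ) := by
  intro x
  rcases x with y | b
  · exact ⟨Sum.inl y, rfl⟩
  · exact ⟨Sum.inr b.1, by simp only [mk]; rw [dif_neg b.2]⟩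

theorem cases_mk (x : PO A φ) : (∃ y, x = jY A φ y) ∨ ∃ b, b ∉ A ∧ x = jB A φ b := by
  rcases x with y | b
  · exact Or.inl ⟨y, rfl⟩
  · exact Or.inr ⟨b.1, b.2, (jB_notMem b.2).symm⟩

/-- the induced map out of the pushout (as a function; continuous if `f`, `g` are and
`g = f ∘ φ` on `A`) -/
def desc {W : Type} (f : Y → W) (g : B → W) : PO A φ → W
  | Sum.inl y => f y
  | Sum.inr b => g b.1

theorem desc_jY {W : Type} (f : Y → W) (g : B → W) (y : Y) :
    desc (A := A) (φ := φ) f g (jY A φ y) = f y := rfl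

theorem desc_jB {W : Type} (f : Y → W) (g : B → W) (h : ∀ a ∈ A, g a = f (φ a)) (b : B) :
    desc (A := A) (φ := φ) f g (jB A φ b) = g b := by
  by_cases hb : b ∈ A
  · rw [jB_mem hb, desc_jY, h b hb]
  · rw [jB_notMem hb]
    rfl

end PO

/-- hypotheses under which the pushout is well behaved -/
structure POData {Y B : Type} [TopologicalSpace Y] [TopologicalSpace B] (A : Set B) (φ : B → Y) :
    Prop where
  closed : IsClosed A
  cont : ContinuousOn φ A
  proper : ∀ K : Set Y, IsCompact K → IsCompact (A ∩ φ ⁻¹' K)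

/-- a locally compact Hausdorff second countable space -/
def LCS (X : Type) [TopologicalSpace X] : Prop :=
  T2Space X ∧ LocallyCompactSpace X ∧ SecondCountableTopology X

/-- the action is proper: for every compact set only finitely many translates meet it -/
def ProperAct (G X : Type) [Group G] [TopologicalSpace X] [MulAction G X] : Prop :=
  ∀ K : Set X, IsCompact K → {g : G | ((g • ·) '' K ∩ K).Nonempty}.Finite

/-- the action is cocompact: the translates of some compact set cover the space -/
def Cocpt (G X : Type) [Group G] [TopologicalSpace X] [MulAction G X] : Prop :=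
  ∃ K : Set X, IsCompact K ∧ ∀ x, ∃ g : G, ∃ y ∈ K, x = g • y

end Pool.Agent.H18.AR
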