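import Pool.Agent.H18.AR.PoT

/-!
# Group actions on pushouts (chapter C2 of MP_5c3080_gt)

`act hE : MulAction G (PO A φ)` (to be used with `letI`), with `g • jY y = jY (g • y)` and
`g • jB b = jB (g • b)`.

PROOFS of the sorried theorems (in all of them `letI := act hE`; use `smul_jY`, `smul_jB`).

`act_continuous`: `fun x => g • x` is `desc (fun y => jY (g • y)) (fun b => jB (g • b))`, use
`desc_continuous`.

`act_proper`: let `K ⊆ PO A φ` be compact. `K1 = jY ⁻¹' K` and `K2 = jB ⁻¹' K` are compact (closed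
embedding; `jB_proper`, `IsProperMap.isCompact_preimage`). If `g • K` meets `K`: there is `x ∈ K`
with `g • x ∈ K`. If `x = jY y`: `y ∈ K1`, `g • y ∈ K1`. If `x = jB b`: `b ∈ K2`,
`g • b ∈ K2`. So the set of these `g` is contained in the union of two finite sets.

`act_cocpt`: `Y` covered by the translates of `K1`, `B` by those of `K2`: `jY '' K1 ∪ jB '' K2` is
compact and its translates cover.
-/

set_option autoImplicit false

namespace Pool.Agent.H18.AR

open Set TopologicalSpace

/-- `A` is invariant and `φ` is equivariant on `A` -/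
structure EqvData (G : Type) {Y B : Type} [Group G] [MulAction G Y] [MulAction G B] (A : Set B)
    (φ : B → Y) : Prop where
  inv : ∀ (g : G) (b : B), b ∈ A → g • b ∈ A
  map : ∀ (g : G) (b : B), b ∈ A → φ (g • b) = g • φ b

namespace PO

variable {G : Type} [Group G] {Y B : Type} [MulAction G Y] [MulAction G B] {A : Set B} {φ : B → Y}

theorem act_aux (hE : EqvData G A φ) (g : G) (b : B) :
    desc (A := A) (φ := φ) (fun y => jY A φ (g • y)) (fun b => jB A φ (g • b)) (jB A φ b) =
      jB A φ (g • b) :=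
  desc_jB _ _ (fun a ha => by rw [jB_mem (hE.inv g a ha), hE.map g a ha]) b

/-- the action on the pushout -/
@[instance_reducible] noncomputable def act (hE : EqvData G A φ) : MulAction G (PO A φ) where
  smul g x := desc (fun y => jY A φ (g • y)) (fun b => jB A φ (g • b)) x
  one_smul x := by
    change desc (fun y => jY A φ ((1 : G) • y)) (fun b => jB A φ ((1 : G) • b)) x = x
    rcases cases_mk x with ⟨y, rfl⟩ | ⟨b, _, rfl⟩
    · rw [desc_jY, one_smul]
    · rw [act_aux hE, one_smul]
  mul_smul g g' x := by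
    change desc (fun y => jY A φ ((g * g') • y)) (fun b => jB A φ ((g * g') • b)) x =
      desc (fun y => jY A φ (g • y)) (fun b => jB A φ (g • b))
        (desc (fun y => jY A φ (g' • y)) (fun b => jB A φ (g' • b)) x)
    rcases cases_mk x with ⟨y, rfl⟩ | ⟨b, _, rfl⟩
    · rw [desc_jY, desc_jY, desc_jY, mul_smul]
    · rw [act_aux hE, act_aux hE, act_aux hE, mul_smul]

theorem smul_jY (hE : EqvData G A φ) (g : G) (y : Y) :
    (act hE).smul g (jY A φ y) = jY A φ (g • y) := rfl

theorem smul_jB (hE : EqvData G A φ) (g : G) (b : B) :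
    (act hE).smul g (jB A φ b) = jB A φ (g • b) := act_aux hE g b

variable [TopologicalSpace Y] [TopologicalSpace B]

theorem act_continuous [ContinuousConstSMul G Y] [ContinuousConstSMul G B]
    (hE : EqvData G A φ) : letI := act hE; ContinuousConstSMul G (PO A φ) := by
  letI := act hE
  refine ⟨fun g => ?_⟩
  have h1 : (fun x : PO A φ => g • x) =
      desc (fun y => jY A φ (g • y)) (fun b => jB A φ (g • b)) := rfl
  rw [h1]
  exact desc_continuous _ _ (jY_continuous.comp (continuous_const_smul g))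
    (jB_continuous.comp (continuous_const_smul g))
    (fun a ha => by rw [jB_mem (hE.inv g a ha), hE.map g a ha])

theorem act_proper (hE : EqvData G A φ) (hD : POData A φ) (hY : LCS Y) (hB : LCS B)
    (pY : ProperAct G Y) (pB : ProperAct G B) :
    letI := act hE; ProperAct G (PO A φ) := by
  letI := act hE
  intro K hK
  have h1 : IsCompact (jY A φ ⁻¹' K) := (jY_closedEmbedding hD hY hB).isCompact_preimage hK
  have h2 : IsCompact (jB A φ ⁻¹' K) := (jB_proper hD hY hB).isCompact_preimage hK
  refine ((pY _ h1).union (pB _ h2)).subset ?_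
  rintro g ⟨x', ⟨x, hx, hgx⟩, hx'⟩
  rcases cases_mk x with ⟨y, rfl⟩ | ⟨b, -, rfl⟩
  · have h3 : g • jY A φ y = jY A φ (g • y) := smul_jY hE g y
    left
    refine ⟨g • y, ⟨y, hx, rfl⟩, ?_⟩
    show jY A φ (g • y) ∈ K
    rw [← h3]
    have h4 : g • jY A φ y = x' := hgx
    rw [h4]
    exact hx'
  · have h3 : g • jB A φ b = jB A φ (g • b) := smul_jB hE g b
    right
    refine ⟨g • b, ⟨b, hx, rfl⟩, ?_⟩
    show jB A φ (g • b) ∈ K
    rw [← h3]
    have h4 : g • jB A φ b = x' := hgx
    rw [h4]
    exact hx'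

theorem act_cocpt (hE : EqvData G A φ) (cY : Cocpt G Y) (cB : Cocpt G B) :
    letI := act hE; Cocpt G (PO A φ) := by
  letI := act hE
  obtain ⟨K1, hK1, h1⟩ := cY
  obtain ⟨K2, hK2, h2⟩ := cB
  refine ⟨jY A φ '' K1 ∪ jB A φ '' K2, (hK1.image jY_continuous).union (hK2.image jB_continuous),
    fun x => ?_⟩
  rcases cases_mk x with ⟨y, rfl⟩ | ⟨b, -, rfl⟩
  · obtain ⟨g, y', hy', rfl⟩ := h1 y
    exact ⟨g, jY A φ y', Or.inl ⟨y', hy', rfl⟩, (smul_jY hE g y').symm⟩
  · obtain ⟨g, b', hb', rfl⟩ := h2 b
    exact ⟨g, jB A φ b', Or.inr ⟨b', hb', rfl⟩, (smul_jB hE g b').symm⟩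

end PO

end Pool.Agent.H18.AR
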