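import Pool.Agent.H18.AR.Prf

set_option autoImplicit false

/-!
# Topology of the pushout (chapter C2 of MP_5c3080_gt)

Let `POData A φ` (`A` closed, `φ` continuous on `A`, `A ∩ φ ⁻¹' K` compact for compact `K`),
`Y`, `B` in `LCS`.

`mk_proper`: `PO.mk A φ : Y ⊕ B → PO A φ` is a proper map.
PROOF. By `isProperMap_iff_isClosedMap_and_compact_fibers`: continuous
(`continuous_coinduced_rng`). Closed map: let `C ⊆ Y ⊕ B` be closed, `CY`, `CB` its traces. A subset
of `PO A φ` is closed iff its preimage under `mk` is closed (`isClosed_coinduced`). The trace on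
`Y` of `mk ⁻¹' (mk '' C)` is `CY ∪ φ '' (A ∩ CB)`; the trace on `B` is
`CB ∪ (A ∩ φ ⁻¹' (CY ∪ φ '' (A ∩ CB)))`. The restriction `A → Y` of `φ` is a proper map
(`isProperMap_iff_isCompact_preimage`: `Y` is Hausdorff and locally compact), so it is closed:
`φ '' (A ∩ CB)` is closed; and `A ∩ φ ⁻¹' F` is closed for closed `F`
(`ContinuousOn.preimage_isClosed_of_isClosed`). Fibres: over `jY y` the fibre is
`{inl y} ∪ inr '' (A ∩ φ ⁻¹' {y})`, compact; over `jB b`, `b ∉ A`, it is `{inr b}`.

`po_lcs`: from `lcs_of_proper`, `lcs_sum`, `mk_proper`, `PO.mk_surjective`.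

`jY_closedEmbedding`: `jY` is continuous, injective, closed (`mk` is closed and so is `inl`).
`jB_continuous`. `jB_proper`: `jB = mk ∘ inr` is proper (composition of proper maps; `inr` is a
closed embedding).
`range_jY`: the complement of `range jY` is `jB '' Aᶜ`.
`compl_openEmbedding`: `fun b : {b // b ∉ A} => jB b` is an open embedding: it is continuous,
injective, and open: for `O ⊆ {b // b ∉ A}` open the preimage under `mk` of the image is
`inr '' (val '' O)` (no point of `Y`, no point of `A`), which is open. Its range is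
`(range jY)ᶜ`.
`desc_continuous`: `f`, `g` continuous, `g = f ∘ φ` on `A` ==> `desc f g` continuous:
`continuous_coinduced_dom`, and `desc f g ∘ mk = Sum.elim f g`.
`isOpen_iff`, `isClosed_iff`: `U` is open iff `jY ⁻¹' U` and `jB ⁻¹' U` are (coinduced, sum).
-/

namespace Pool.Agent.H18.AR

open Set TopologicalSpace Topology

namespace PO

variable {Y B : Type} [TopologicalSpace Y] [TopologicalSpace B] {A : Set B} {φ : B → Y}

theorem isOpen_iff (U : Set (PO A φ)) :
    IsOpen U ↔ IsOpen (jY A φ ⁻¹' U) ∧ IsOpen (jB A φ ⁻¹' U) := by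
  have h : IsOpen U ↔ IsOpen (mk A φ ⁻¹' U) := isOpen_coinduced
  rw [h, isOpen_sum_iff]
  rfl

theorem isClosed_iff (U : Set (PO A φ)) :
    IsClosed U ↔ IsClosed (jY A φ ⁻¹' U) ∧ IsClosed (jB A φ ⁻¹' U) := by
  rw [← isOpen_compl_iff, isOpen_iff, Set.preimage_compl, Set.preimage_compl, isOpen_compl_iff,
    isOpen_compl_iff]

theorem mk_continuous : Continuous (mk A φ) := continuous_coinduced_rng

theorem jY_continuous : Continuous (jY A φ) := mk_continuous.comp continuous_inl

theorem jB_continuous : Continuous (jB A φ) := mk_continuous.comp continuous_inr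

theorem desc_continuous {W : Type} [TopologicalSpace W] (f : Y → W) (g : B → W)
    (hf : Continuous f) (hg : Continuous g) (h : ∀ a ∈ A, g a = f (φ a)) :
    Continuous (desc (A := A) (φ := φ) f g) := by
  apply continuous_coinduced_dom.2
  have he : (desc (A := A) (φ := φ) f g) ∘ (mk A φ) = Sum.elim f g := by
    funext x
    rcases x with y | b
    · exact desc_jY f g y
    · exact desc_jB f g h b
  rw [he]
  exact Continuous.sumElim hf hg

private theorem jY_mem_image {C : Set (Y ⊕ B)} (y : Y) :
    jY A φ y ∈ mk A φ '' C ↔ y ∈ (Sum.inl ⁻¹' C) ∪ φ '' (A ∩ Sum.inr ⁻¹' C) := by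
  constructor
  · rintro ⟨c, hc, h⟩
    rcases c with y' | b
    · left
      have : y' = y := jY_injective h
      rw [← this]
      exact hc
    · right
      by_cases hb : b ∈ A
      · have h' : jB A φ b = jY A φ y := h
        rw [jB_mem hb] at h'
        exact ⟨b, ⟨hb, hc⟩, jY_injective h'⟩
      · exact absurd h (jB_ne_jY hb y)
  · rintro (h | ⟨b, ⟨hb, hc⟩, rfl⟩)
    · exact ⟨Sum.inl y, h, rfl⟩
    · exact ⟨Sum.inr b, hc, jB_mem hb⟩

private theorem jB_mem_image {C : Set (Y ⊕ B)} (b : B) :
    jB A φ b ∈ mk A φ '' C ↔ b ∈ (Sum.inr ⁻¹' C) ∪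
      (A ∩ φ ⁻¹' ((Sum.inl ⁻¹' C) ∪ φ '' (A ∩ Sum.inr ⁻¹' C))) := by
  by_cases hb : b ∈ A
  · constructor
    · intro h
      rw [jB_mem hb, jY_mem_image] at h
      exact Or.inr ⟨hb, h⟩
    · rintro (h | ⟨-, h⟩)
      · exact ⟨Sum.inr b, h, rfl⟩
      · rw [jB_mem hb, jY_mem_image]
        exact h
  · constructor
    · rintro ⟨c, hc, h⟩
      left
      rcases c with y | b'
      · exact absurd h.symm (jB_ne_jY hb y)
      · by_cases hb' : b' ∈ A
        · have h' : jB A φ b' = jB A φ b := h
          rw [jB_mem hb'] at h'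
          exact absurd h'.symm (jB_ne_jY hb _)
        · have : b' = b := jB_inj hb' hb h
          rw [← this]
          exact hc
    · rintro (h | ⟨h, -⟩)
      · exact ⟨Sum.inr b, h, rfl⟩
      · exact absurd h hb

private theorem restrict_proper (hD : POData A φ) (hY : LCS Y) : IsProperMap (A.restrict φ) := by
  obtain ⟨h1, h2, h3⟩ := hY
  rw [isProperMap_iff_isCompact_preimage]
  refine ⟨continuousOn_iff_continuous_restrict.1 hD.cont, fun K hK => ?_⟩
  rw [Subtype.isCompact_iff]
  have h := hD.proper K hK
  have he : (Subtype.val '' (A.restrict φ ⁻¹' K) : Set B) = A ∩ φ ⁻¹' K := by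
    ext b
    constructor
    · rintro ⟨⟨b', hb'⟩, h, rfl⟩
      exact ⟨hb', h⟩
    · rintro ⟨h, h'⟩
      exact ⟨⟨b, h⟩, h', rfl⟩
  rw [he]
  exact h

theorem mk_proper (hD : POData A φ) (hY : LCS Y) (hB : LCS B) : IsProperMap (mk A φ) := by
  obtain ⟨k1, k2, k3⟩ := hB
  obtain ⟨h1, h2, h3⟩ := id hY
  rw [isProperMap_iff_isClosedMap_and_compact_fibers]
  refine ⟨mk_continuous, ?_, ?_⟩
  · intro C hC
    have hCY : IsClosed (Sum.inl ⁻¹' C) := hC.preimage continuous_inl
    have hCB : IsClosed (Sum.inr ⁻¹' C) := hC.preimage continuous_inr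
    have hphi : IsClosed (φ '' (A ∩ Sum.inr ⁻¹' C)) := by
      have h := (restrict_proper hD hY).isClosedMap _ (hCB.preimage continuous_subtype_val)
      have he : (A.restrict φ '' (Subtype.val ⁻¹' (Sum.inr ⁻¹' C))) =
          φ '' (A ∩ Sum.inr ⁻¹' C) := by
        ext y
        constructor
        · rintro ⟨⟨b, hb⟩, h, rfl⟩
          exact ⟨b, ⟨hb, h⟩, rfl⟩
        · rintro ⟨b, ⟨hb, h⟩, rfl⟩
          exact ⟨⟨b, hb⟩, h, rfl⟩
      rw [he] at h
      exact h
    have hF := hCY.union hphi
    rw [isClosed_iff]
    constructor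
    · have he : jY A φ ⁻¹' (mk A φ '' C) = (Sum.inl ⁻¹' C) ∪ φ '' (A ∩ Sum.inr ⁻¹' C) := by
        ext y
        exact jY_mem_image y
      rw [he]
      exact hF
    · have he : jB A φ ⁻¹' (mk A φ '' C) = (Sum.inr ⁻¹' C) ∪
          (A ∩ φ ⁻¹' ((Sum.inl ⁻¹' C) ∪ φ '' (A ∩ Sum.inr ⁻¹' C))) := by
        ext b
        exact jB_mem_image b
      rw [he]
      exact hCB.union (hD.cont.preimage_isClosed_of_isClosed hD.closed hF)
  · intro x
    rcases cases_mk x with ⟨y, rfl⟩ | ⟨b, hb, rfl⟩
    · have he : mk A φ ⁻¹' {jY A φ y} = {Sum.inl y} ∪ Sum.inr '' (A ∩ φ ⁻¹' {y}) := by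
        ext c
        rcases c with y' | b
        · constructor
          · intro h
            left
            have : y' = y := jY_injective h
            rw [this]
            rfl
          · rintro (h | ⟨b, -, h⟩)
            · have : y' = y := Sum.inl_injective h
              rw [this]
              rfl
            · exact absurd h Sum.inr_ne_inl
        · constructor
          · intro h
            right
            have h' : jB A φ b = jY A φ y := h
            by_cases hb : b ∈ A
            · rw [jB_mem hb] at h'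
              exact ⟨b, ⟨hb, jY_injective h'⟩, rfl⟩
            · exact absurd h' (jB_ne_jY hb y)
          · rintro (h | ⟨b', ⟨hb', hy⟩, h⟩)
            · exact absurd h Sum.inr_ne_inl
            · have hbb : b' = b := Sum.inr_injective h
              rw [hbb] at hb' hy
              have hy' : φ b = y := hy
              show jB A φ b = jY A φ y
              rw [jB_mem hb', hy']
      rw [he]
      exact isCompact_singleton.union ((hD.proper {y} isCompact_singleton).image continuous_inr)
    · have he : mk A φ ⁻¹' {jB A φ b} = {Sum.inr b} := by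
        ext c
        rcases c with y' | b'
        · constructor
          · intro h
            exact absurd (Eq.symm h) (jB_ne_jY hb y')
          · intro h
            exact absurd h Sum.inl_ne_inr
        · constructor
          · intro h
            have h' : jB A φ b' = jB A φ b := h
            by_cases hb' : b' ∈ A
            · rw [jB_mem hb'] at h'
              exact absurd h'.symm (jB_ne_jY hb _)
            · have : b' = b := jB_inj hb' hb h'
              rw [this]
              rfl
          · intro h
            have : b' = b := Sum.inr_injective h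
            rw [this]
            rfl
      rw [he]
      exact isCompact_singleton

theorem po_lcs (hD : POData A φ) (hY : LCS Y) (hB : LCS B) : LCS (PO A φ) :=
  lcs_of_proper (lcs_sum hY hB) (mk A φ) (mk_proper hD hY hB) mk_surjective

theorem jY_closedEmbedding (hD : POData A φ) (hY : LCS Y) (hB : LCS B) :
    Topology.IsClosedEmbedding (jY A φ) := by
  refine IsClosedEmbedding.of_continuous_injective_isClosedMap jY_continuous jY_injective ?_
  exact (mk_proper hD hY hB).isClosedMap.comp isClosedMap_inl

theorem jB_proper (hD : POData A φ) (hY : LCS Y) (hB : LCS B) : IsProperMap (jB A φ) :=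
  (mk_proper hD hY hB).comp IsClosedEmbedding.inr.isProperMap

theorem compl_openEmbedding (hD : POData A φ) (hY : LCS Y) (hB : LCS B) :
    Topology.IsOpenEmbedding (fun b : {b : B // b ∉ A} => jB A φ b.1) := by
  refine IsOpenEmbedding.of_continuous_injective_isOpenMap
    (jB_continuous.comp continuous_subtype_val) ?_ ?_
  · intro b b' h
    exact Subtype.ext (jB_inj b.2 b'.2 h)
  · intro O hO
    rw [isOpen_iff]
    constructor
    · have he : jY A φ ⁻¹' ((fun b : {b : B // b ∉ A} => jB A φ b.1) '' O) = ∅ := by
        ext y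
        constructor
        · rintro ⟨b, -, h⟩
          exact absurd h (jB_ne_jY b.2 y)
        · intro h
          exact absurd h (Set.notMem_empty y)
      rw [he]
      exact isOpen_empty
    · have he : jB A φ ⁻¹' ((fun b : {b : B // b ∉ A} => jB A φ b.1) '' O) =
          Subtype.val '' O := by
        ext b
        constructor
        · rintro ⟨b', hb', h⟩
          have h' : jB A φ b'.1 = jB A φ b := h
          by_cases hb : b ∈ A
          · rw [jB_mem hb] at h'
            exact absurd h' (jB_ne_jY b'.2 _)
          · have : b'.1 = b := jB_inj b'.2 hb h'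
            exact ⟨b', hb', this⟩
        · rintro ⟨b', hb', rfl⟩
          exact ⟨b', hb', rfl⟩
      rw [he]
      exact hD.closed.isOpen_compl.isOpenMap_subtype_val O hO

theorem range_compl : range (fun b : {b : B // b ∉ A} => jB A φ b.1) = (range (jY A φ))ᶜ := by
  ext x
  constructor
  · rintro ⟨b, rfl⟩ ⟨y, hy⟩
    exact jB_ne_jY b.2 y hy.symm
  · intro h
    rcases cases_mk x with ⟨y, rfl⟩ | ⟨b, hb, rfl⟩
    · exact absurd ⟨y, rfl⟩ h
    · exact ⟨⟨b, hb⟩, rfl⟩

end PO

end Pool.Agent.H18.AR
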