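import Pool.Agent.H18.AR.ReD
import Pool.Agent.H18.AR.Cub
import Pool.Agent.H18.AR.CelB

set_option autoImplicit false

/-!
# Realisation of a precubical set, topology (MP_5c3080_gt)

`ep_inj`: `ep true = 1`, `ep false = 0`, `0 ≠ 1` in `unitInterval`.

`att_eq`: if `x i = ep e` then `att N S (c, x) = S.ch (N.fa n i e c) (pr i x)`. The condition
`∃ i, x i = 0 ∨ x i = 1` holds; with `j = h.choose` and `f = decide (x j = 1)` we have
`x j = ep f`, and the two values agree by `Good.comp`.

`att_contOn`: the boundary is the union of the finitely many closed sets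
`{z | z.2 i = ep e}` (`i : Fin (n + 1)`, `e : Bool`); on each of them `att` equals
`z ↦ S.ch (N.fa n i e z.1) (pr i z.2)`, which is continuous (`Good.ch_cont`, `Cu` is discrete,
`pr i` is continuous). Finite closed cover: `LocallyFinite.continuousOn`-type lemma or
`ContinuousOn.union_of_isClosed` with `Finset` induction, or closed preimages.

`att_podata`: closed: preimage of the closed set `Bd (n + 1)` (finite union of closed sets).
Use `podata_cells`: for compact `K` the set `{c | ∃ x ∈ Bd (n + 1), att (c, x) ∈ K}` is finite: some face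
`N.fa n i e c` lies in the finite set of `Good.fin`, and each cube is a face of finitely many
(`LocFin`).
-/

namespace Pool.Agent.H18.AR

open Set TopologicalSpace Pool.H93.HU Pool.Agent.H59.FS

namespace Re

variable {N : PreCub} {n : ℕ} {S : Stage N n}

private theorem rea_ep {n : ℕ} (x : Cb (n + 1)) (i : Fin (n + 1)) (e : Bool) (h : x i = ep e) :
    x i = 0 ∨ x i = 1 := by
  cases e
  · exact Or.inl h
  · exact Or.inr h

theorem att_eq (hS : Good N S) (c : N.cub (n + 1)) (x : Cb (n + 1)) (i : Fin (n + 1)) (e : Bool)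
    (h : x i = ep e) : att N S (c, x) = S.ch (N.fa n i e c) (pr i x) := by
  classical
  have hex : ∃ i, x i = 0 ∨ x i = 1 := ⟨i, rea_ep x i e h⟩
  have h1 : ∀ j : Fin (n + 1), (x j = 0 ∨ x j = 1) → ∀ b : Bool, (b = true ↔ x j = 1) →
      x j = ep b := by
    intro j hj b hb
    cases b
    · rcases hj with h2 | h2
      · exact h2
      · exact absurd (hb.2 h2) Bool.false_ne_true
    · exact hb.1 rfl
  have h3 : ∃ b : Bool, (b = true ↔ x hex.choose = 1) ∧
      att N S (c, x) = S.ch (N.fa n hex.choose b c) (pr hex.choose x) := by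
    unfold att
    dsimp only
    rw [dif_pos hex]
    exact ⟨_, decide_eq_true_iff, rfl⟩
  obtain ⟨b, hb, h4⟩ := h3
  rw [h4]
  exact hS.comp c x hex.choose i b e (h1 _ hex.choose_spec b hb) h

private theorem rea_bdry (N : PreCub) (n : ℕ) :
    (bdry N (n + 1) : Set (Cu N (n + 1) × Cb (n + 1))) =
      ⋃ p : Fin (n + 1) × Bool, {z | z.2 p.1 = ep p.2} := by
  ext z
  rw [mem_iUnion]
  constructor
  · rintro ⟨i, hi | hi⟩
    · exact ⟨(i, false), hi⟩
    · exact ⟨(i, true), hi⟩
  · rintro ⟨⟨i, b⟩, hi⟩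
    exact ⟨i, rea_ep z.2 i b hi⟩

theorem att_contOn (hS : Good N S) : ContinuousOn (att N S) (bdry N (n + 1)) := by
  rw [rea_bdry]
  refine (locallyFinite_of_finite _).continuousOn_iUnion (fun p => ?_) (fun p => ?_)
  · exact isClosed_eq ((continuous_apply p.1).comp continuous_snd) continuous_const
  · obtain ⟨q, hq⟩ : ∃ q : Cu N (n + 1) → Cu N n, q = fun c => N.fa n p.1 p.2 c := ⟨_, rfl⟩
    have hqc : Continuous q := continuous_of_discreteTopology
    have hc : Continuous fun z : Cu N (n + 1) × Cb (n + 1) =>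
        (fun z : Cu N n × Cb n => S.ch z.1 z.2) (q z.1, pr p.1 z.2) :=
      hS.ch_cont.comp ((hqc.comp continuous_fst).prodMk
        ((pr p.1).continuous.comp continuous_snd))
    refine hc.continuousOn.congr ?_
    rintro ⟨c, x⟩ hz
    rw [att_eq hS c x p.1 p.2 hz, hq]

theorem att_podata (hS : Good N S) (hL : N.LocFin) : POData (bdry N (n + 1)) (att N S) := by
  have : T2Space S.X := hS.lcs.1
  refine podata_cells (n + 1) (att N S) (att_contOn hS) fun K hK => ?_
  have h1 : (⋃ c ∈ {c : Cu N n | ∃ x, S.ch c x ∈ K},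
      {d : Cu N (n + 1) | ∃ (i : Fin (n + 1)) (e : Bool), N.fa n i e d = c}).Finite :=
    (hS.fin K hK).biUnion fun c _ => hL n c
  refine h1.subset ?_
  rintro d ⟨x, ⟨i, hi⟩, hxK⟩
  obtain ⟨e, he⟩ : ∃ e : Bool, x i = ep e := by
    rcases hi with hi | hi
    · exact ⟨false, hi⟩
    · exact ⟨true, hi⟩
  rw [att_eq hS d x i e he] at hxK
  exact mem_biUnion (x := N.fa n i e d) ⟨_, hxK⟩ ⟨i, e, rfl⟩

end Re

end Pool.Agent.H18.AR
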