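import Pool.Agent.H59.FS.PC
import Pool.Agent.H93.HU.Defs
import Pool.Agent.H18.AR.PoG
import Pool.Agent.H18.AR.CelD

set_option autoImplicit false

/-!
# Realisation of a precubical set, definitions

`Re.stage N n`: the `n`-skeleton of the realisation of `N`, with the characteristic maps
`ch : N.cub n → Cb n → X` of the `n`-cubes; `stage N 0` is the discrete space `N.cub 0` and
`stage N (n + 1)` is obtained from `stage N n` by attaching `N.cub (n + 1) × Cb (n + 1)` along the
boundary. `Re.act`: the action of `G` on the stages.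
-/

namespace Pool.Agent.H18.AR

open Set TopologicalSpace Pool.H93.HU Pool.Agent.H59.FS

namespace Re

/-- the discrete space of `n`-cubes -/
def Cu (N : PreCub) (n : ℕ) : Type := N.cub n

instance Cu.instTop (N : PreCub) (n : ℕ) : TopologicalSpace (Cu N n) := ⊥

instance Cu.instDisc (N : PreCub) (n : ℕ) : DiscreteTopology (Cu N n) := ⟨rfl⟩

instance Cu.instAct (N : PreCub) (n : ℕ) {G : Type} [Group G] [h : ∀ n, MulAction G (N.cub n)] :
    MulAction G (Cu N n) := h n

/-- the action on cells times cubes: on the cells only -/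
instance ccAct (N : PreCub) (n m : ℕ) {G : Type} [Group G] [∀ n, MulAction G (N.cub n)] :
    MulAction G (Cu N n × Cb m) where
  smul g z := (g • z.1, z.2)
  one_smul z := Prod.ext (one_smul G z.1) rfl
  mul_smul g g' z := Prod.ext (mul_smul g g' z.1) rfl

theorem cc_smul (N : PreCub) (n m : ℕ) {G : Type} [Group G] [∀ n, MulAction G (N.cub n)] (g : G)
    (z : Cu N n × Cb m) : g • z = (g • z.1, z.2) := rfl

/-- a stage of the realisation: a space with characteristic maps of the `n`-cubes -/
structure Stage (N : PreCub) (n : ℕ) where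
  X : Type
  top : TopologicalSpace X
  ch : Cu N n → Cb n → X

attribute [instance] Stage.top

open Classical in
/-- the attaching map of the `(n + 1)`-cubes (on the boundary) -/
noncomputable def att (N : PreCub) {n : ℕ} (S : Stage N n) (z : Cu N (n + 1) × Cb (n + 1)) :
    S.X :=
  if h : ∃ i, z.2 i = 0 ∨ z.2 i = 1 then
    S.ch (N.fa n h.choose (decide (z.2 h.choose = 1)) z.1) (pr h.choose z.2)
  else S.ch (N.fa n 0 true z.1) (pr 0 z.2)

/-- the boundary part of the cells -/
abbrev bdry (N : PreCub) (n : ℕ) : Set (Cu N n × Cb n) := {z | z.2 ∈ Bd n}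

/-- the next stage -/
noncomputable def next (N : PreCub) {n : ℕ} (S : Stage N n) : Stage N (n + 1) where
  X := PO (bdry N (n + 1)) (att N S)
  top := inferInstance
  ch c x := PO.jB (bdry N (n + 1)) (att N S) (c, x)

/-- the `n`-skeleton of the realisation -/
noncomputable def stage (N : PreCub) : (n : ℕ) → Stage N n
  | 0 => ⟨Cu N 0, inferInstance, fun c _ => c⟩
  | n + 1 => next N (stage N n)

/-- the properties of a stage -/
structure Good (N : PreCub) {n : ℕ} (S : Stage N n) : Prop where
  lcs : LCS S.X
  ane : ANE S.X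
  cel : Cel S.X
  ch_cont : Continuous (fun z : Cu N n × Cb n => S.ch z.1 z.2)
  comp : ∀ (c : N.cub (n + 1)) (x : Cb (n + 1)) (i j : Fin (n + 1)) (e f : Bool),
    x i = ep e → x j = ep f →
      S.ch (N.fa n i e c) (pr i x) = S.ch (N.fa n j f c) (pr j x)
  fin : ∀ K : Set S.X, IsCompact K → {c : Cu N n | ∃ x, S.ch c x ∈ K}.Finite

/-- an action on a stage compatible with the characteristic maps -/
structure SAct (G : Type) [Group G] (N : PreCub) [∀ n, MulAction G (N.cub n)] {n : ℕ}
    (S : Stage N n) where
  act : MulAction G S.X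
  eq : ∀ (g : G) (c : Cu N n) (x : Cb n), S.ch (g • c) x = g • S.ch c x

theorem att_smul {G : Type} [Group G] {N : PreCub} [∀ n, MulAction G (N.cub n)] (hN : N.Act G)
    {n : ℕ} {S : Stage N n} (a : SAct G N S) (g : G) (z : Cu N (n + 1) × Cb (n + 1)) :
    att N S (g • z) = a.act.smul g (att N S z) := by
  have key : ∀ (i : Fin (n + 1)) (e : Bool) (y : Cb n),
      S.ch (N.fa n i e (g • z).1) y = a.act.smul g (S.ch (N.fa n i e z.1) y) := by
    intro i e y
    have h1 : N.fa n i e (g • z).1 = g • N.fa n i e z.1 := hN n i e g z.1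
    rw [h1]
    exact a.eq g _ y
  have h2 : (g • z).2 = z.2 := rfl
  unfold att
  by_cases h : ∃ i, z.2 i = 0 ∨ z.2 i = 1
  · rw [dif_pos h]
    have h' : ∃ i, (g • z).2 i = 0 ∨ (g • z).2 i = 1 := h
    rw [dif_pos h']
    exact key _ _ _
  · rw [dif_neg h]
    have h' : ¬ ∃ i, (g • z).2 i = 0 ∨ (g • z).2 i = 1 := h
    rw [dif_neg h']
    exact key _ _ _

theorem next_eqv {G : Type} [Group G] {N : PreCub} [∀ n, MulAction G (N.cub n)] (hN : N.Act G)
    {n : ℕ} {S : Stage N n} (a : SAct G N S) :
    letI := a.act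
    EqvData G (bdry N (n + 1)) (att N S) := by
  letI := a.act
  exact ⟨fun g b hb => hb, fun g b _ => att_smul hN a g b⟩

/-- the action on the next stage -/
noncomputable def nextAct {G : Type} [Group G] {N : PreCub} [∀ n, MulAction G (N.cub n)]
    (hN : N.Act G) {n : ℕ} {S : Stage N n} (a : SAct G N S) : SAct G N (next N S) where
  act :=
    letI := a.act
    PO.act (next_eqv hN a)
  eq g c x := by
    letI := a.act
    exact (PO.smul_jB (next_eqv hN a) g (c, x)).symm

/-- the action on the stages -/
noncomputable def act {G : Type} [Group G] {N : PreCub} [∀ n, MulAction G (N.cub n)]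
    (hN : N.Act G) : (n : ℕ) → SAct G N (stage N n)
  | 0 => ⟨inferInstanceAs (MulAction G (Cu N 0)), fun _ _ _ => rfl⟩
  | n + 1 => nextAct hN (act hN n)

/-- the inclusion of the vertices -/
noncomputable def vtx (N : PreCub) : (n : ℕ) → Cu N 0 → (stage N n).X
  | 0 => fun c => c
  | n + 1 => fun c => PO.jY (bdry N (n + 1)) (att N (stage N n)) (vtx N n c)

theorem vtx_smul {G : Type} [Group G] {N : PreCub} [∀ n, MulAction G (N.cub n)] (hN : N.Act G)
    (g : G) (c : Cu N 0) (n : ℕ) : vtx N n (g • c) = (act hN n).act.smul g (vtx N n c) := by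
  induction n with
  | zero => rfl
  | succ n ih =>
    change PO.jY (bdry N (n + 1)) (att N (stage N n)) (vtx N n (g • c)) = _
    rw [ih]
    rfl

end Re

end Pool.Agent.H18.AR
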