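import Pool.Agent.H18.AR.ReA

set_option autoImplicit false

/-!
# Realisation of a precubical set, the inductive step (MP_5c3080_gt)

`good_zero`: `X = Cu N 0` discrete countable: `lcs_discrete`, `ane_discrete`, `cel_discrete`; `ch` is the
first projection; `comp`: `Fin 1` has one element and `ep` is injective; `fin`: compact subsets
of discrete spaces are finite (`IsCompact.finite`), `Cb 0` is a point.

`good_next`: `lcs_cells`, `ane_cells`, `cel_cells` with `D = Cu N (n + 1)`, `att_podata`.
`ch_cont`: `PO.jB_continuous`. `fin`: `PO.jB_proper`: the preimage of `K` under `jB` is compact, and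
its image in the discrete space `Cu N (n + 1)` is finite.
`comp` for the next stage: let `c : N.cub (n + 2)`, `x i = ep e`, `x j = ep f`. If `i = j`, then
`e = f`. Let `i < j` (the other case is symmetric), `i = i'.castSucc`, `j = j'.succ`,
`i' ≤ j'` in `Fin (n + 1)`. `pr i x` has `j'`-coordinate `x (i.succAbove j') = x j = ep f`, so it is
in the boundary, `jB (fa i e c, pr i x) = jY (att (fa i e c, pr i x)) =
jY (S.ch (fa n j' f (fa (n + 1) i e c)) (pr j' (pr i x)))` (`PO.jB_mem`, `att_eq`). In the same way,
`pr j x` has `i'`-coordinate `x (j.succAbove i') = x i = ep e`, so the other side is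
`jY (S.ch (fa n i' e (fa (n + 1) j f c)) (pr i' (pr j x)))`. Equal by `N.fa_fa` and
`pr j' (pr i x) = pr i' (pr j x)` (`Fin.succAbove` identities, `Fin.succAbove_succAbove`-like; by cases
on coordinates).
-/

namespace Pool.Agent.H18.AR

open Set TopologicalSpace Pool.H93.HU Pool.Agent.H59.FS

namespace Re

variable {N : PreCub} {n : ℕ} {S : Stage N n}

private theorem ep_inj' {e f : Bool} (h : ep e = ep f) : e = f := by
  cases e <;> cases f <;> simp_all [ep]

private theorem mem_Bd' {m : ℕ} {y : Cb m} (i : Fin m) {e : Bool} (h : y i = ep e) : y ∈ Bd m := by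
  refine ⟨i, ?_⟩
  rw [h]
  cases e
  · exact Or.inl rfl
  · exact Or.inr rfl

private theorem sa_sa' {n : ℕ} (i j : Fin (n + 1)) (h : i ≤ j) (r : Fin n) :
    i.castSucc.succAbove (j.succAbove r) = j.succ.succAbove (i.succAbove r) := by
  have h' : (i : ℕ) ≤ j := h
  apply Fin.ext
  simp only [Fin.succAbove, Fin.lt_def]
  split_ifs <;> simp_all <;> omega

theorem good_zero [Countable (N.cub 0)] : Good N (stage N 0) := by
  have hc : Countable (Cu N 0) := inferInstanceAs (Countable (N.cub 0))
  refine ⟨?_, ?_, ?_, ?_, ?_, ?_⟩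
  · exact lcs_discrete (D := Cu N 0)
  · exact ane_discrete (D := Cu N 0)
  · exact cel_discrete (D := Cu N 0)
  · exact continuous_fst
  · intro c x i j e f hi hj
    have hij : i = j := Fin.ext (by omega)
    subst hij
    have hef : e = f := ep_inj' (hi.symm.trans hj)
    subst hef
    rfl
  · intro K hK
    have hfin : (show Set (Cu N 0) from K).Finite := IsCompact.finite_of_discrete (X := Cu N 0) hK
    refine hfin.subset ?_
    rintro c ⟨x, hx⟩
    exact hx

private theorem comp_lt (hS : Good N S) (c : N.cub (n + 2)) (x : Cb (n + 2)) (i j : Fin (n + 1))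
    (hij : i ≤ j) (e f : Bool) (hi : x i.castSucc = ep e) (hj : x j.succ = ep f) :
    PO.jB (bdry N (n + 1)) (att N S) (N.fa (n + 1) i.castSucc e c, pr i.castSucc x) =
      PO.jB (bdry N (n + 1)) (att N S) (N.fa (n + 1) j.succ f c, pr j.succ x) := by
  have h1 : (pr i.castSucc x : Cb (n + 1)) j = ep f := by
    change x (i.castSucc.succAbove j) = ep f
    rw [Fin.succAbove_of_le_castSucc _ _ (Fin.castSucc_le_castSucc_iff.2 hij)]
    exact hj
  have h2 : (pr j.succ x : Cb (n + 1)) i = ep e := by
    change x (j.succ.succAbove i) = ep e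
    rw [Fin.succAbove_of_castSucc_lt _ _ (Fin.castSucc_lt_succ_iff.2 hij)]
    exact hi
  have m1 : ((N.fa (n + 1) i.castSucc e c, pr i.castSucc x) : Cu N (n + 1) × Cb (n + 1)) ∈
      bdry N (n + 1) := mem_Bd' j h1
  have m2 : ((N.fa (n + 1) j.succ f c, pr j.succ x) : Cu N (n + 1) × Cb (n + 1)) ∈
      bdry N (n + 1) := mem_Bd' i h2
  rw [PO.jB_mem m1, PO.jB_mem m2, att_eq hS _ _ j f h1, att_eq hS _ _ i e h2,
    N.fa_fa n i j e f c hij]
  congr 2
  funext r
  change x (i.castSucc.succAbove (j.succAbove r)) = x (j.succ.succAbove (i.succAbove r))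
  rw [sa_sa' i j hij r]

theorem good_next [Countable (N.cub (n + 1))] (hL : N.LocFin) (hS : Good N S) :
    Good N (next N S) := by
  have hc : Countable (Cu N (n + 1)) := inferInstanceAs (Countable (N.cub (n + 1)))
  have hD := att_podata hS hL
  have hB : LCS (Cu N (n + 1) × Cb (n + 1)) := lcs_prod lcs_discrete lcs_compact
  refine ⟨?_, ?_, ?_, ?_, ?_, ?_⟩
  · exact lcs_cells (n + 1) hD hS.lcs
  · exact ane_cells (n + 1) hD hS.lcs hS.ane
  · exact cel_cells (n + 1) hD hS.lcs hS.cel
  · exact PO.jB_continuous
  · intro c x i j e f hi hj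
    rcases lt_trichotomy i j with h | h | h
    · have hi0 : (i : ℕ) < n + 1 := by
        have := j.2
        have h' : (i : ℕ) < j := h
        omega
      have hj0 : (j : ℕ) ≠ 0 := by
        have h' : (i : ℕ) < j := h
        omega
      have ei : i = (⟨(i : ℕ), hi0⟩ : Fin (n + 1)).castSucc := rfl
      have ej : j = (⟨(j : ℕ) - 1, by have := j.2; omega⟩ : Fin (n + 1)).succ := by
        apply Fin.ext
        simp only [Fin.val_succ]
        omega
      have hle : (⟨(i : ℕ), hi0⟩ : Fin (n + 1)) ≤ ⟨(j : ℕ) - 1, by have := j.2; omega⟩ := by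
        rw [Fin.le_def]
        have h' : (i : ℕ) < j := h
        simp only
        omega
      have hi' := hi
      have hj' := hj
      rw [ei] at hi'
      rw [ej] at hj'
      have key := comp_lt hS c x _ _ hle e f hi' hj'
      rw [← ei, ← ej] at key
      exact key
    · subst h
      have hef : e = f := ep_inj' (hi.symm.trans hj)
      subst hef
      rfl
    · have hj0 : (j : ℕ) < n + 1 := by
        have := i.2
        have h' : (j : ℕ) < i := h
        omega
      have ej : j = (⟨(j : ℕ), hj0⟩ : Fin (n + 1)).castSucc := rfl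
      have ei : i = (⟨(i : ℕ) - 1, by have := i.2; omega⟩ : Fin (n + 1)).succ := by
        apply Fin.ext
        have h' : (j : ℕ) < i := h
        simp only [Fin.val_succ]
        omega
      have hle : (⟨(j : ℕ), hj0⟩ : Fin (n + 1)) ≤ ⟨(i : ℕ) - 1, by have := i.2; omega⟩ := by
        rw [Fin.le_def]
        have h' : (j : ℕ) < i := h
        simp only
        omega
      have hi' := hi
      have hj' := hj
      rw [ei] at hi'
      rw [ej] at hj'
      have key := comp_lt hS c x _ _ hle f e hj' hi'
      rw [← ei, ← ej] at key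
      exact key.symm
  · intro K hK
    have h1 : IsCompact (PO.jB (bdry N (n + 1)) (att N S) ⁻¹' K) :=
      (PO.jB_proper hD hS.lcs hB).isCompact_preimage hK
    have h2 := (h1.image continuous_fst).finite_of_discrete
    refine h2.subset ?_
    rintro c ⟨x, hx⟩
    exact ⟨(c, x), hx, rfl⟩

theorem good_stage (hC : ∀ n, Countable (N.cub n)) (hL : N.LocFin) (n : ℕ) :
    Good N (stage N n) := by
  induction n with
  | zero =>
    haveI := hC 0
    exact good_zero
  | succ n ih =>
    haveI := hC (n + 1)
    exact good_next hL ih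

end Re

end Pool.Agent.H18.AR
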