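import Pool.Agent.H18.AR.XcD
import Pool.Agent.H18.AR.Abs

set_option autoImplicit false

/-!
# The telescope is an end (chapter C2 of MP_5c3080_gt)

`tel_telData`: `tel_lcs`, `telH_continuous`, `telH_proper`, `telH_map` (`telS u = telMap 1 id u`).

`tel_hinv`, `tel_csm`: the action is `telMap 0 (a • ·)`: `telH_map` with `n = 0`,
`telMap_continuous` (`ContinuousConstSMul P L`).

`telφ_vt : telφ p q φ₀ (vt (k, c)) = φ₀ c` (rfl-like), `telφ_ed` (`HC.desc_ed`; the function is compatible:
at `t = 0` it is `φ₀ (q c)`, at `t = 1` (`1 ≠ 0`) it is `φ₀ (p c)`).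

`tel_height_zero`: `telH u = 0 ↔ ∃ c, u = vt (0, c)`: for `u = vt (k, c)` clear; for `u = ed (k, c) t`,
`k - 1 + t = 0`: `k = 1`, `t = 0` (`ed_zero`: `vt (0, q c)`) or `k = 0`, `t = 1` (`ed_one`:
`vt (0, p c)`).

`tel_col`: `N = {u | telH u < 1}`, and `d (u, s) = HC.desc (fun x => vt x) (g s) u` with
`g s x t = ed x t` if `x.1 ≠ 1`; for `x.1 = 1`: `vt (x.1, p x.2)` if `t = 1` and `ed x (t * symm s)`
otherwise. It is compatible for every `s` (at `t = 0`: `ed x 0 = vt (d0 x)`, `0 * _ = 0`; at `t = 1`: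
`ed x 1 = vt (d1 x)`), so `d (ed x t, s) = g s x t`, `d (vt x, s) = vt x`. Continuity on
`N ×ˢ univ` by `PO.continuousOn_param` (with `HC.hc_data`, `HC.vt`, `HC.ed` are
`PO.jY`, `PO.jB`): on `vt ⁻¹' N` it is `vt`; on `ed ⁻¹' N = {((k, c), t) | k - 1 + t < 1}`: the sets
`k ≠ 1` and `k = 1` are clopen; for `k = 1` we have `t < 1` in `N`, so it is `ed x (t * symm s)`.
For `u ∈ N`, `0 ≤ telH u`: `u = vt (0, c)`, or `u = ed (k, c) t` with `k = 1`, `t < 1`, or `k = 0`,
`t = 1`. Check `d (u, 0) = u` (`t * symm 0 = t`), `telH (d (u, 1)) = 0` (`symm 1 = 0`),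
`0 ≤ telH (d (u, s)) = t * (1 - s)`. For `telH u = 0`: `u = vt (0, c)`, `d (u, s) = u`.
(A `ContinuousOn` on `N ×ˢ univ` gives it on the smaller set.)

`tel_endData`: assembly; `ae`: `ae_of_contr (tel_ane ..)`; `cont`: `telφ` is continuous on
`{telH = 0} = vt '' ({0} × L)`: `vt` is a closed embedding and `telφ (vt (0, c)) = φ₀ c` (use
`Topology.IsEmbedding` / `ContinuousOn` on an image: for an embedding `vt` and a set `s`,
`ContinuousOn F (vt '' s) ↔ ContinuousOn (F ∘ vt) s`; or a closed set argument).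
-/

namespace Pool.Agent.H18.AR

open Set TopologicalSpace

set_option linter.unusedSectionVars false

section

variable {L : Type} [TopologicalSpace L] [CompactSpace L] [MetrizableSpace L] {p q : L → L}

theorem tel_telData (hp : Continuous p) (hq : Continuous q) :
    TelData (telH p q) (telS (p := p) (q := q)) := by
  refine ⟨tel_lcs hp hq, telH_continuous, telH_proper hp hq, fun u => ?_⟩
  have h := telH_map (p := p) (q := q) 1 id (fun _ => rfl) (fun _ => rfl) u
  rw [Int.cast_one] at h
  exact h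

theorem tel_hinv {M : Type} [Monoid M] [MulAction M L] [EqMap M p] [EqMap M q] :
    HInv M (telH p q) := by
  refine ⟨fun a u => ?_⟩
  have h := telH_map (p := p) (q := q) 0 (fun c : L => a • c)
    (fun c => (EqMap.eqv (f := p) a c).symm) (fun c => (EqMap.eqv (f := q) a c).symm) u
  rw [Int.cast_zero, add_zero] at h
  exact h

theorem tel_csm {M : Type} [Monoid M] [MulAction M L] [EqMap M p] [EqMap M q]
    [ContinuousConstSMul M L] : ContinuousConstSMul M (Tel p q) := by
  refine ⟨fun a => ?_⟩
  exact telMap_continuous (p := p) (q := q) 0 (fun c : L => a • c) (continuous_const_smul a)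
    (fun c => (EqMap.eqv (f := p) a c).symm) (fun c => (EqMap.eqv (f := q) a c).symm)

theorem telφ_vt {Y : Type} (φ₀ : L → Y) (k : ℤ) (c : L) :
    telφ p q φ₀ (HC.vt (k, c)) = φ₀ c := rfl

open Classical in
theorem telφ_ed {Y : Type} (φ₀ : L → Y) (k : ℤ) (c : L) (t : unitInterval) :
    telφ p q φ₀ (HC.ed (k, c) t) = if t = 0 then φ₀ (q c) else φ₀ (p c) := by
  refine HC.desc_ed (d0 := telD0 q) (d1 := telD1 p) (fun x : ℤ × L => φ₀ x.2)
    (fun x t => if t = 0 then φ₀ (q x.2) else φ₀ (p x.2)) ?_ ?_ (k, c) t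
  · intro e
    rw [if_pos rfl]
    rfl
  · intro e
    rw [if_neg one_ne_zero]
    rfl

theorem tel_height_zero (u : Tel p q) : telH p q u = 0 ↔ ∃ c, u = HC.vt (0, c) := by
  constructor
  · intro h
    rcases HC.cases u with ⟨⟨k, c⟩, rfl⟩ | ⟨⟨k, c⟩, t, rfl⟩
    · rw [telH_vt] at h
      have hk : k = 0 := by exact_mod_cast h
      exact ⟨c, by rw [hk]⟩
    · rw [telH_ed] at h
      have ht0 : (0 : ℝ) ≤ t := t.2.1
      have ht1 : (t : ℝ) ≤ 1 := t.2.2
      have hk1 : k ≤ 1 := by
        have : (k : ℝ) ≤ (1 : ℤ) := by push_cast; linarith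
        exact_mod_cast this
      have hk0 : 0 ≤ k := by
        have : ((0 : ℤ) : ℝ) ≤ k := by push_cast; linarith
        exact_mod_cast this
      have hk : k = 0 ∨ k = 1 := by omega
      rcases hk with rfl | rfl
      · push_cast at h
        have ht : t = 1 := Subtype.ext (by show (t : ℝ) = 1; linarith)
        rw [ht, HC.ed_one]
        exact ⟨p c, rfl⟩
      · push_cast at h
        have ht : t = 0 := Subtype.ext (by show (t : ℝ) = 0; linarith)
        rw [ht, HC.ed_zero]
        exact ⟨q c, rfl⟩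
  · rintro ⟨c, rfl⟩
    rw [telH_vt]
    norm_num

open Classical in
/-- the collar on the cylinders -/
private noncomputable def cg (p q : L → L) (s : unitInterval) (x : ℤ × L) (t : unitInterval) :
    Tel p q :=
  if x.1 = 1 then (if t = 1 then HC.vt (telD1 p x) else HC.ed x (t * unitInterval.symm s))
  else HC.ed x t

private theorem cg_zero (s : unitInterval) (x : ℤ × L) :
    cg p q s x 0 = HC.vt (telD0 q x) := by
  unfold cg
  split_ifs with h1 h2
  · exact absurd h2 zero_ne_one
  · rw [zero_mul, HC.ed_zero]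
  · rw [HC.ed_zero]

private theorem cg_one (s : unitInterval) (x : ℤ × L) :
    cg p q s x 1 = HC.vt (telD1 p x) := by
  unfold cg
  by_cases h1 : x.1 = 1
  · rw [if_pos h1, if_pos rfl]
  · rw [if_neg h1, HC.ed_one]

private theorem cg_lt (s : unitInterval) (x : ℤ × L) (t : unitInterval) (h : x.1 = 1)
    (ht : t ≠ 1) : cg p q s x t = HC.ed x (t * unitInterval.symm s) := by
  unfold cg
  rw [if_pos h, if_neg ht]

private theorem cg_ne (s : unitInterval) (x : ℤ × L) (t : unitInterval) (h : x.1 ≠ 1) :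
    cg p q s x t = HC.ed x t := by
  unfold cg
  rw [if_neg h]

private noncomputable def cd (p q : L → L) (z : Tel p q × unitInterval) : Tel p q :=
  HC.desc (fun x => HC.vt x) (cg p q z.2) z.1

private theorem cd_vt (x : ℤ × L) (s : unitInterval) :
    cd p q (HC.vt x, s) = HC.vt x := rfl

private theorem cd_ed (x : ℤ × L) (t s : unitInterval) :
    cd p q (HC.ed x t, s) = cg p q s x t :=
  HC.desc_ed (d0 := telD0 q) (d1 := telD1 p) (fun x => HC.vt x) (cg p q s)
    (fun e => cg_zero s e) (fun e => cg_one s e) x t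

private theorem cd_cont (hp : Continuous p) (hq : Continuous q) :
    ContinuousOn (cd p q) ({u | telH p q u < 1} ×ˢ univ) := by
  have hV : LCS (ℤ × L) := lcs_prod lcs_discrete lcs_compact
  refine PO.continuousOn_param (HC.hc_data hV hV (telD0_proper hq) (telD1_proper hp)) hV
    (lcs_prod hV lcs_compact) {u | telH p q u < 1} (isOpen_lt telH_continuous continuous_const)
    (cd p q) ?_ ?_
  · exact (HC.vt_continuous.comp continuous_fst).continuousOn
  · rintro ⟨⟨⟨k, c⟩, t⟩, s⟩ ⟨hN, -⟩
    have hN' : telH p q (HC.ed (k, c) t) < 1 := hN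
    rw [telH_ed] at hN'
    apply ContinuousAt.continuousWithinAt
    have e0 : (fun z : ((ℤ × L) × unitInterval) × unitInterval =>
        cd p q (PO.jB (hcA (ℤ × L)) (hcφ (telD0 q) (telD1 p)) z.1, z.2)) =
        fun z => cg p q z.2 z.1.1 z.1.2 := by
      funext z
      exact cd_ed z.1.1 z.1.2 z.2
    rw [e0]
    have ck : Continuous (fun z : ((ℤ × L) × unitInterval) × unitInterval => z.1.1.1) := by
      fun_prop
    by_cases hk : k = 1
    · subst hk
      have ht : (t : ℝ) < 1 := by
        push_cast at hN'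
        linarith
      have hO1 : IsOpen {z : ((ℤ × L) × unitInterval) × unitInterval | z.1.1.1 = 1} :=
        (isOpen_discrete ({1} : Set ℤ)).preimage ck
      have hO2 : IsOpen {z : ((ℤ × L) × unitInterval) × unitInterval |
          ((z.1.2 : unitInterval) : ℝ) < 1} :=
        isOpen_lt (continuous_subtype_val.comp (continuous_snd.comp continuous_fst))
          continuous_const
      have hc : Continuous (fun z : ((ℤ × L) × unitInterval) × unitInterval =>
          (HC.ed z.1.1 (z.1.2 * unitInterval.symm z.2) : Tel p q)) := by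
        have h2 : Continuous (fun z : ((ℤ × L) × unitInterval) × unitInterval =>
            (z.1.1, z.1.2 * unitInterval.symm z.2)) := by fun_prop
        exact HC.ed_continuous.comp h2
      refine hc.continuousAt.congr ?_
      filter_upwards [hO1.mem_nhds (show _ from rfl), hO2.mem_nhds (show _ from ht)] with z hz1 hz2
      refine (cg_lt z.2 z.1.1 z.1.2 hz1 ?_).symm
      intro h
      have hz2' : ((z.1.2 : unitInterval) : ℝ) < 1 := hz2
      rw [h] at hz2'
      exact lt_irrefl _ hz2'
    · have hO1 : IsOpen {z : ((ℤ × L) × unitInterval) × unitInterval | z.1.1.1 ≠ 1} :=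
        (isOpen_discrete ({1}ᶜ : Set ℤ)).preimage ck
      have hc : Continuous (fun z : ((ℤ × L) × unitInterval) × unitInterval =>
          (HC.ed z.1.1 z.1.2 : Tel p q)) := HC.ed_continuous.comp continuous_fst
      refine hc.continuousAt.congr ?_
      filter_upwards [hO1.mem_nhds (show _ from hk)] with z hz1
      exact (cg_ne z.2 z.1.1 z.1.2 hz1).symm

theorem tel_col (hp : Continuous p) (hq : Continuous q) :
    ∃ (N : Set (Tel p q)) (d : Tel p q × unitInterval → Tel p q), IsOpen N ∧
      {u | telH p q u = 0} ⊆ N ∧ ContinuousOn d ((N ∩ {u | 0 ≤ telH p q u}) ×ˢ univ) ∧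
      (∀ u ∈ N, 0 ≤ telH p q u →
        d (u, 0) = u ∧ telH p q (d (u, 1)) = 0 ∧ ∀ t, 0 ≤ telH p q (d (u, t))) ∧
      ∀ u, telH p q u = 0 → ∀ t, d (u, t) = u := by
  refine ⟨{u | telH p q u < 1}, cd p q, isOpen_lt telH_continuous continuous_const, ?_, ?_, ?_, ?_⟩
  · intro u hu
    have hu' : telH p q u = 0 := hu
    change telH p q u < 1
    rw [hu']
    exact one_pos
  · exact (cd_cont hp hq).mono (prod_mono inter_subset_left (subset_refl _))
  · intro u hN h0
    have hN' : telH p q u < 1 := hN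
    rcases HC.cases u with ⟨⟨k, c⟩, rfl⟩ | ⟨⟨k, c⟩, t, rfl⟩
    · rw [telH_vt] at hN' h0
      have hk : k = 0 := by
        have h1 : (k : ℝ) < (1 : ℤ) := by push_cast; exact hN'
        have h2 : ((0 : ℤ) : ℝ) ≤ k := by push_cast; exact h0
        have h3 : k < 1 := by exact_mod_cast h1
        have h4 : 0 ≤ k := by exact_mod_cast h2
        omega
      refine ⟨cd_vt _ _, ?_, fun s => ?_⟩
      · rw [cd_vt, telH_vt, hk, Int.cast_zero]
      · rw [cd_vt, telH_vt, hk, Int.cast_zero]
    · rw [telH_ed] at hN' h0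
      have ht0 : (0 : ℝ) ≤ t := t.2.1
      have ht1 : (t : ℝ) ≤ 1 := t.2.2
      by_cases hk : k = 1
      · subst hk
        push_cast at hN' h0
        have ht : t ≠ 1 := by
          intro h
          rw [h] at hN'
          norm_num at hN'
        refine ⟨?_, ?_, fun s => ?_⟩
        · rw [cd_ed, cg_lt _ _ _ rfl ht, unitInterval.symm_zero, mul_one]
        · rw [cd_ed, cg_lt _ _ _ rfl ht, unitInterval.symm_one, mul_zero, telH_ed]
          norm_num
        · rw [cd_ed, cg_lt _ _ _ rfl ht, telH_ed]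
          have h3 : (0 : ℝ) ≤ ((t * unitInterval.symm s : unitInterval) : ℝ) :=
            (t * unitInterval.symm s).2.1
          rw [Int.cast_one]
          linarith
      · have hk0 : k = 0 := by
          have h1 : (k : ℝ) < (2 : ℤ) := by push_cast; linarith
          have h2 : ((0 : ℤ) : ℝ) ≤ k := by push_cast; linarith
          have h3 : k < 2 := by exact_mod_cast h1
          have h4 : 0 ≤ k := by exact_mod_cast h2
          omega
        subst hk0
        push_cast at hN' h0
        have hz : (0 : ℝ) - 1 + (t : ℝ) = 0 := by linarith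
        refine ⟨?_, ?_, fun s => ?_⟩
        · rw [cd_ed, cg_ne _ _ _ hk]
        · rw [cd_ed, cg_ne _ _ _ hk, telH_ed]
          push_cast
          exact hz
        · rw [cd_ed, cg_ne _ _ _ hk, telH_ed]
          push_cast
          exact hz.ge
  · intro u hu s
    rcases HC.cases u with ⟨⟨k, c⟩, rfl⟩ | ⟨⟨k, c⟩, t, rfl⟩
    · exact cd_vt _ _
    · rw [telH_ed] at hu
      rw [cd_ed]
      by_cases hk : k = 1
      · subst hk
        push_cast at hu
        have ht : t = 0 := Subtype.ext (by show (t : ℝ) = 0; linarith)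
        rw [ht, cg_lt _ _ _ rfl zero_ne_one, zero_mul]
      · rw [cg_ne _ _ _ hk]

theorem tel_endData {G : Type} [Group G] {P : Subgroup G} {Y : Type} [TopologicalSpace Y]
    [MulAction G Y] [MulAction P L] [EqMap P p] [EqMap P q] (aL : ANE L) (hp : Continuous p)
    (hq : Continuous q) (φ₀ : L → Y) (hφ : Continuous φ₀)
    (hφe : ∀ (a : P) (c : L), φ₀ (a • c) = (a : G) • φ₀ c) (hU : Contr (Tel p q)) :
    EndData P (telH p q) (telS (p := p) (q := q)) (telφ p q φ₀) := by
  have hV : LCS (ℤ × L) := lcs_prod lcs_discrete lcs_compact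
  refine ⟨tel_telData hp hq, ae_of_contr (tel_ane aL hp hq) hU, ?_, ?_, tel_col hp hq⟩
  · have hj1 : Topology.IsClosedEmbedding (fun x : ℤ × L => (HC.vt x : Tel p q)) :=
      HC.vt_closedEmbedding hV hV (telD0_proper hq) (telD1_proper hp)
    have hj2 : Topology.IsEmbedding (fun c : L => ((0 : ℤ), c)) := isEmbedding_prodMkRight (0 : ℤ)
    have hj : Topology.IsEmbedding (fun c : L => (HC.vt ((0 : ℤ), c) : Tel p q)) :=
      hj1.isEmbedding.comp hj2
    have hr : {u : Tel p q | telH p q u = 0} = range (fun c : L => (HC.vt ((0 : ℤ), c) : Tel p q)) := by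
      ext u
      constructor
      · intro hu
        obtain ⟨c, hc⟩ := (tel_height_zero u).1 hu
        exact ⟨c, hc.symm⟩
      · rintro ⟨c, rfl⟩
        exact (tel_height_zero _).2 ⟨c, rfl⟩
    rw [hr, continuousOn_iff_continuous_domRestrict]
    have e : (range (fun c : L => (HC.vt ((0 : ℤ), c) : Tel p q))).domRestrict (telφ p q φ₀) =
        φ₀ ∘ hj.toHomeomorph.symm := by
      funext z
      obtain ⟨c, rfl⟩ := hj.toHomeomorph.surjective z
      rw [Function.comp_apply, Homeomorph.symm_apply_apply]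
      rfl
    rw [e]
    exact hφ.comp hj.toHomeomorph.symm.continuous
  · intro a u hu
    obtain ⟨c, rfl⟩ := (tel_height_zero u).1 hu
    rw [Tel.smul_def, telMap_vt, telφ_vt, telφ_vt, hφe]

end

end Pool.Agent.H18.AR
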