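import Pool.Agent.H18.AR.HcT
import Pool.Agent.H18.AR.Clp

set_option autoImplicit false
set_option linter.unusedSectionVars false

/-!
# The two sided telescope, topology (chapter C2 of MP_5c3080_gt)

`L` compact metrizable ANE, `p q : L → L` continuous.

`telD0_proper`, `telD1_proper`: `fun x : ℤ × L => (x.1 - 1, q x.2)` is proper: product of the
homeomorphism `k ↦ k - 1` of `ℤ` and of `q`, which is proper as a continuous map from a compact
space to a Hausdorff space (`Continuous.isProperMap`; `IsProperMap.prodMap`).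

`tel_lcs`, `tel_ane`: `HC.hc_lcs`, `HC.hc_ane` with `V = E = ℤ × L`
(`lcs_prod lcs_discrete lcs_compact`, `ane_discrete_prod`).

`telH_vt`, `telH_ed`: by `HC.desc_vt`, `HC.desc_ed` (compatibility: at `t = 0`: `k - 1 + 0` is the
height of `(k - 1, q c)`; at `t = 1`: `k - 1 + 1 = k`).
`telH_continuous`: `HC.desc_continuous`.
`telH_proper`: `{u | a ≤ h u ∧ h u ≤ b}` is closed and contained in the compact image under
`PO.mk` of `{(k, l) | |k| ≤ N + 1} ⊕ {((k, c), t) | |k| ≤ N + 2}` where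
`N = ⌈max |a| |b|⌉` (compact: finite sets of `ℤ` times compact spaces).

`telMap_vt`, `telMap_ed`: for `α` with `α (p c) = p (α c)`, `α (q c) = q (α c)`.
`telMap_continuous`: `HC.desc_continuous`. `telMap_comp`:
`telMap n α (telMap m β u) = telMap (m + n) (α ∘ β) u` for `α`, `β` commuting with `p`, `q`.
`telMap_zero`: `telMap 0 id u = u`. `telH_map`: `telH (telMap n α u) = telH u + n`.
All by `HC.cases`.

`telS`: the shift homeomorphism `telMap 1 id`, inverse `telMap (-1) id`.
-/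

namespace Pool.Agent.H18.AR

open Set TopologicalSpace

section

variable {L : Type} [TopologicalSpace L] [CompactSpace L] [MetrizableSpace L] {p q : L → L}

theorem telD0_proper (hq : Continuous q) : IsProperMap (telD0 q) := by
  have h1 : IsProperMap (fun k : ℤ => k - 1) := (Homeomorph.subRight (1 : ℤ)).isProperMap
  exact h1.prodMap hq.isProperMap

theorem telD1_proper (hp : Continuous p) : IsProperMap (telD1 p) := by
  have h1 : IsProperMap (fun k : ℤ => k) := (Homeomorph.refl ℤ).isProperMap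
  exact h1.prodMap hp.isProperMap

theorem tel_lcs (hp : Continuous p) (hq : Continuous q) : LCS (Tel p q) :=
  HC.hc_lcs (lcs_prod lcs_discrete lcs_compact) (lcs_prod lcs_discrete lcs_compact)
    (telD0_proper hq) (telD1_proper hp)

theorem tel_ane (hL : ANE L) (hp : Continuous p) (hq : Continuous q) : ANE (Tel p q) :=
  HC.hc_ane (lcs_prod lcs_discrete lcs_compact) (lcs_prod lcs_discrete lcs_compact)
    (telD0_proper hq) (telD1_proper hp) (ane_discrete_prod hL) (ane_discrete_prod hL)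

private theorem h0_aux (e : ℤ × L) :
    (e.1 : ℝ) - 1 + (((0 : unitInterval) : ℝ)) = ((telD0 q e).1 : ℝ) := by
  unfold telD0
  push_cast
  ring

private theorem h1_aux (e : ℤ × L) :
    (e.1 : ℝ) - 1 + (((1 : unitInterval) : ℝ)) = ((telD1 p e).1 : ℝ) := by
  unfold telD1
  push_cast
  ring

theorem telH_vt (k : ℤ) (c : L) : telH p q (HC.vt (k, c)) = k := rfl

theorem telH_ed (k : ℤ) (c : L) (t : unitInterval) :
    telH p q (HC.ed (k, c) t) = (k : ℝ) - 1 + (t : ℝ) :=
  HC.desc_ed (d0 := telD0 q) (d1 := telD1 p) (fun x : ℤ × L => (x.1 : ℝ))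
    (fun x t => (x.1 : ℝ) - 1 + (t : ℝ)) h0_aux h1_aux (k, c) t

theorem telH_continuous : Continuous (telH p q) := by
  unfold telH
  refine HC.desc_continuous _ _ ?_ ?_ h0_aux h1_aux
  · exact continuous_of_discreteTopology.comp continuous_fst
  · have h1 : Continuous (fun x : (ℤ × L) × unitInterval => (x.1.1 : ℝ)) :=
      continuous_of_discreteTopology.comp (continuous_fst.comp continuous_fst)
    have h2 : Continuous (fun x : (ℤ × L) × unitInterval => (x.2 : ℝ)) :=
      continuous_subtype_val.comp continuous_snd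
    exact (h1.sub continuous_const).add h2

theorem telH_proper (hp : Continuous p) (hq : Continuous q) (a b : ℝ) :
    IsCompact {u : Tel p q | a ≤ telH p q u ∧ telH p q u ≤ b} := by
  have hS : IsCompact (Set.Icc ⌊a⌋ (⌈b⌉ + 1)) := (Set.finite_Icc _ _).isCompact
  have hS2 : IsCompact ((Set.Icc ⌊a⌋ (⌈b⌉ + 1)) ×ˢ (univ : Set L)) := hS.prod isCompact_univ
  have h1 : IsCompact ((HC.vt : ℤ × L → Tel p q) '' ((Set.Icc ⌊a⌋ (⌈b⌉ + 1)) ×ˢ (univ : Set L))) :=
    hS2.image HC.vt_continuous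
  have h2 : IsCompact ((fun x : (ℤ × L) × unitInterval => (HC.ed x.1 x.2 : Tel p q)) ''
      (((Set.Icc ⌊a⌋ (⌈b⌉ + 1)) ×ˢ (univ : Set L)) ×ˢ (univ : Set unitInterval))) :=
    (hS2.prod isCompact_univ).image HC.ed_continuous
  refine (h1.union h2).of_isClosed_subset ?_ ?_
  · exact (isClosed_le continuous_const telH_continuous).inter
      (isClosed_le telH_continuous continuous_const)
  · intro u hu
    obtain ⟨hu1, hu2⟩ := hu
    rcases HC.cases u with ⟨⟨k, c⟩, rfl⟩ | ⟨⟨k, c⟩, t, rfl⟩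
    · left
      rw [telH_vt] at hu1 hu2
      refine ⟨(k, c), ⟨⟨?_, ?_⟩, mem_univ _⟩, rfl⟩
      · have h3 : (⌊a⌋ : ℝ) ≤ k := (Int.floor_le a).trans hu1
        exact_mod_cast h3
      · have h3 : (k : ℝ) ≤ ⌈b⌉ := hu2.trans (Int.le_ceil b)
        have h4 : k ≤ ⌈b⌉ := by exact_mod_cast h3
        show k ≤ ⌈b⌉ + 1
        omega
    · right
      rw [telH_ed] at hu1 hu2
      have ht0 : (0 : ℝ) ≤ t := t.2.1
      have ht1 : (t : ℝ) ≤ 1 := t.2.2
      refine ⟨((k, c), t), ⟨⟨⟨?_, ?_⟩, mem_univ _⟩, mem_univ _⟩, rfl⟩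
      · have h3 : (⌊a⌋ : ℝ) ≤ k := by
          have := Int.floor_le a
          linarith
        exact_mod_cast h3
      · have h3 : (k : ℝ) ≤ (⌈b⌉ + 1 : ℤ) := by
          have := Int.le_ceil b
          push_cast
          linarith
        exact_mod_cast h3

theorem telMap_vt (n : ℤ) (α : L → L) (k : ℤ) (c : L) :
    telMap p q n α (HC.vt (k, c)) = HC.vt (k + n, α c) := rfl

private theorem m0_aux (n : ℤ) (α : L → L) (hαq : ∀ c, α (q c) = q (α c)) (e : ℤ × L) :
    (HC.ed (e.1 + n, α e.2) 0 : Tel p q) =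
      HC.vt ((telD0 q e).1 + n, α (telD0 q e).2) := by
  rw [HC.ed_zero]
  unfold telD0
  rw [← hαq]
  congr 2
  show e.1 + n - 1 = e.1 - 1 + n
  ring

private theorem m1_aux (n : ℤ) (α : L → L) (hαp : ∀ c, α (p c) = p (α c)) (e : ℤ × L) :
    (HC.ed (e.1 + n, α e.2) 1 : Tel p q) =
      HC.vt ((telD1 p e).1 + n, α (telD1 p e).2) := by
  rw [HC.ed_one]
  unfold telD1
  rw [← hαp]

theorem telMap_ed (n : ℤ) (α : L → L) (hαp : ∀ c, α (p c) = p (α c))
    (hαq : ∀ c, α (q c) = q (α c)) (k : ℤ) (c : L) (t : unitInterval) :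
    telMap p q n α (HC.ed (k, c) t) = HC.ed (k + n, α c) t :=
  HC.desc_ed (d0 := telD0 q) (d1 := telD1 p)
    (fun x : ℤ × L => (HC.vt (x.1 + n, α x.2) : Tel p q))
    (fun x t => HC.ed (x.1 + n, α x.2) t) (m0_aux n α hαq) (m1_aux n α hαp) (k, c) t

theorem telMap_continuous (n : ℤ) (α : L → L) (hα : Continuous α)
    (hαp : ∀ c, α (p c) = p (α c)) (hαq : ∀ c, α (q c) = q (α c)) :
    Continuous (telMap p q n α) := by
  have h1 : Continuous (fun x : ℤ × L => (x.1 + n, α x.2)) :=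
    (continuous_fst.add continuous_const).prodMk (hα.comp continuous_snd)
  unfold telMap
  refine HC.desc_continuous _ _ ?_ ?_ (m0_aux n α hαq) (m1_aux n α hαp)
  · exact HC.vt_continuous.comp h1
  · have h2 : Continuous (fun x : (ℤ × L) × unitInterval => ((x.1.1 + n, α x.1.2), x.2)) :=
      (h1.comp continuous_fst).prodMk continuous_snd
    exact HC.ed_continuous.comp h2

theorem telMap_comp (n m : ℤ) (α β : L → L) (hαp : ∀ c, α (p c) = p (α c))
    (hαq : ∀ c, α (q c) = q (α c)) (hβp : ∀ c, β (p c) = p (β c))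
    (hβq : ∀ c, β (q c) = q (β c)) (u : Tel p q) :
    telMap p q n α (telMap p q m β u) = telMap p q (m + n) (α ∘ β) u := by
  rcases HC.cases u with ⟨⟨k, c⟩, rfl⟩ | ⟨⟨k, c⟩, t, rfl⟩
  · rw [telMap_vt, telMap_vt, telMap_vt, add_assoc]
    rfl
  · rw [telMap_ed m β hβp hβq, telMap_ed n α hαp hαq,
      telMap_ed (m + n) (α ∘ β) (fun c => by rw [Function.comp_apply, hβp, hαp]; rfl)
        (fun c => by rw [Function.comp_apply, hβq, hαq]; rfl), add_assoc]
    rfl

theorem telMap_zero (u : Tel p q) : telMap p q 0 id u = u := by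
  rcases HC.cases u with ⟨⟨k, c⟩, rfl⟩ | ⟨⟨k, c⟩, t, rfl⟩
  · rw [telMap_vt, add_zero]
    rfl
  · rw [telMap_ed (p := p) (q := q) 0 id (fun _ => rfl) (fun _ => rfl), add_zero]
    rfl

theorem telH_map (n : ℤ) (α : L → L) (hαp : ∀ c, α (p c) = p (α c))
    (hαq : ∀ c, α (q c) = q (α c)) (u : Tel p q) :
    telH p q (telMap p q n α u) = telH p q u + n := by
  rcases HC.cases u with ⟨⟨k, c⟩, rfl⟩ | ⟨⟨k, c⟩, t, rfl⟩
  · rw [telMap_vt, telH_vt, telH_vt]
    push_cast
    rfl
  · rw [telMap_ed n α hαp hαq, telH_ed, telH_ed]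
    push_cast
    ring

end

end Pool.Agent.H18.AR
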