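import Pool.Agent.H18.AR.PO

set_option autoImplicit false

/-!
# Twisted products `G ×_P Z`

`Cst P`: the discrete set of cosets `G ⧸ P`, with representatives `rep`. `Tw P Z = Cst P × Z` with the
action `g • (w, z) = (g • w, (rep (g • w))⁻¹ * g * rep w • z)`, which is `G ×_P Z`.
-/

namespace Pool.Agent.H18.AR

open Set TopologicalSpace

section

variable {G : Type} [Group G]

/-- the discrete set of cosets -/
def Cst (P : Subgroup G) : Type := G ⧸ P

instance Cst.instTop (P : Subgroup G) : TopologicalSpace (Cst P) := ⊥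

instance Cst.instDisc (P : Subgroup G) : DiscreteTopology (Cst P) := ⟨rfl⟩

instance Cst.instAct (P : Subgroup G) : MulAction G (Cst P) :=
  inferInstanceAs (MulAction G (G ⧸ P))

instance Cst.instCountable (P : Subgroup G) [Countable G] : Countable (Cst P) :=
  inferInstanceAs (Countable (Quotient _))

variable {P : Subgroup G}

/-- the representative of a coset -/
noncomputable def Cst.rep (w : Cst P) : G := Quotient.out (s := QuotientGroup.leftRel P) w

/-- the coset of an element -/
def Cst.of (P : Subgroup G) (g : G) : Cst P := (QuotientGroup.mk g : G ⧸ P)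

theorem Cst.of_rep (w : Cst P) : Cst.of P w.rep = w := QuotientGroup.out_eq' (s := P) w

theorem Cst.smul_of (g g' : G) : g • Cst.of P g' = Cst.of P (g * g') := rfl

theorem Cst.of_eq {g g' : G} : Cst.of P g = Cst.of P g' ↔ g⁻¹ * g' ∈ P := QuotientGroup.eq

theorem Cst.rep_injective : Function.Injective (Cst.rep : Cst P → G) := by
  intro w w' h
  rw [← Cst.of_rep w, ← Cst.of_rep w', h]

/-- the cocycle of the twisted product -/
noncomputable def Cst.coc (g : G) (w : Cst P) : P :=
  ⟨(g • w).rep⁻¹ * g * w.rep, by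
    have h : Cst.of P (g • w).rep = Cst.of P (g * w.rep) := by
      rw [Cst.of_rep, ← Cst.smul_of, Cst.of_rep]
    have := Cst.of_eq.1 h
    rwa [← mul_assoc] at this⟩

theorem Cst.coc_one (w : Cst P) : Cst.coc (1 : G) w = 1 := by
  apply Subtype.ext
  change ((1 : G) • w).rep⁻¹ * 1 * w.rep = 1
  rw [one_smul, mul_one, inv_mul_cancel]

theorem Cst.coc_mul (g g' : G) (w : Cst P) :
    Cst.coc (g * g') w = Cst.coc g (g' • w) * Cst.coc g' w := by
  apply Subtype.ext
  change ((g * g') • w).rep⁻¹ * (g * g') * w.rep =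
    ((g • g' • w).rep⁻¹ * g * (g' • w).rep) * ((g' • w).rep⁻¹ * g' * w.rep)
  rw [mul_smul]
  group

/-- `rep (g • w) * coc g w = g * rep w` -/
theorem Cst.rep_mul_coc (g : G) (w : Cst P) : (g • w).rep * (Cst.coc g w : G) = g * w.rep := by
  change (g • w).rep * ((g • w).rep⁻¹ * g * w.rep) = g * w.rep
  group

/-- the twisted product `G ×_P Z` -/
def Tw (P : Subgroup G) (Z : Type) : Type := Cst P × Z

instance Tw.instTop (Z : Type) [TopologicalSpace Z] : TopologicalSpace (Tw P Z) :=
  inferInstanceAs (TopologicalSpace (Cst P × Z))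

noncomputable instance Tw.instAct (Z : Type) [MulAction P Z] : MulAction G (Tw P Z) where
  smul g x := ((g • x.1, Cst.coc g x.1 • x.2) : Cst P × Z)
  one_smul x := by
    change (((1 : G) • x.1, Cst.coc (1 : G) x.1 • x.2) : Cst P × Z) = x
    rw [one_smul, Cst.coc_one, one_smul]
    rfl
  mul_smul g g' x := by
    change (((g * g') • x.1, Cst.coc (g * g') x.1 • x.2) : Cst P × Z) =
      ((g • g' • x.1, Cst.coc g (g' • x.1) • Cst.coc g' x.1 • x.2) : Cst P × Z)
    rw [mul_smul, Cst.coc_mul, mul_smul]

theorem Tw.smul_def {Z : Type} [MulAction P Z] (g : G) (x : Tw P Z) :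
    g • x = ((g • x.1, Cst.coc g x.1 • x.2) : Cst P × Z) := rfl

end

end Pool.Agent.H18.AR
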