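import Pool.Agent.H18.AR.TwD
import Pool.Agent.H18.AR.Prf

set_option autoImplicit false

/-!
# Twisted products, topology of the action (chapter C2 of MP_5c3080_gt)

`tw_continuous`: for fixed `g` the map `(w, z) ↦ (g • w, coc g w • z)` is continuous, because `Cst P` is
discrete and for fixed `w` it is `z ↦ (g • w, coc g w • z)`
(`continuous_prod_of_discrete_left` or similar).

`tw_proper` (`P` finite, `Z` arbitrary topological space): let `K ⊆ Cst P × Z` be compact, `F` the
image of `K` in `Cst P`, finite (`IsCompact.image`, `isCompact_iff_finite`). If `g • K` meets `K`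
then `g • w = w'` for some `w`, `w' ∈ F`. For fixed `w`, `w'` the set `{g | g • w = w'}` is finite:
`g ↦ coc g w` is injective on it (`g = rep w' * coc g w * (rep w)⁻¹`) and `P` is finite.

`tw_cocpt` (`Z` compact): `K = {of P 1} × Z`. For `(w, z)` let `g = rep w * (rep (of P 1))⁻¹`...
simpler: `g := w.rep`; `g • of P 1 = of P (g * 1) = w`; with `z' = (coc g (of P 1))⁻¹ • z` we have
`g • (of P 1, z') = (w, z)`.

`tw_map_eqv`: `ψ : Z → Y` (`Y` with `G`-action) with `ψ (a • z) = (a : G) • ψ z` for `a ∈ P` and `z` in an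
invariant set `A`: then `twm ψ (w, z) = rep w • ψ z` is `G`-equivariant on `A`:
`rep (g • w) • ψ (coc g w • z) = (rep (g • w) * coc g w) • ψ z = (g * rep w) • ψ z`.

`tw_finite`: `G` acts properly on `Y` (Hausdorff not needed), `C ⊆ Y` and `K ⊆ Y` compact, `Cst.rep`
injective: the set of `w : Cst P` with `(rep w • C) ∩ K ≠ ∅` is finite: apply `ProperAct` to `C ∪ K`.

`twm_podata`: closed: `A` is compact in a Hausdorff space, so closed, and `{x | x.2 ∈ A}` is its
preimage under the continuous second projection. Continuous: `Cst P` is discrete and for fixed `w`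
the map `z ↦ rep w • φ z` is continuous on `A`. Proper: for `K` compact (so closed),
`{x | x.2 ∈ A} ∩ twm φ ⁻¹' K` is closed (`ContinuousOn.preimage_isClosed_of_isClosed`) and contained in
`F ×ˢ A`, `F` the finite set of `tw_finite` for `C = φ '' A`; `F ×ˢ A` is compact.

`Tw P Z` is by definition `Cst P × Z` with the product topology (`Cst P` discrete): use `change`, or
`inferInstanceAs`, or state auxiliary lemmas for `Cst P × Z`.
-/

namespace Pool.Agent.H18.AR

open Set TopologicalSpace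

variable {G : Type} [Group G] {P : Subgroup G} {Z : Type} [TopologicalSpace Z] [MulAction P Z]

theorem tw_continuous [ContinuousConstSMul P Z] : ContinuousConstSMul G (Tw P Z) := by
  refine ⟨fun g => ?_⟩
  change Continuous (fun x : Cst P × Z => ((g • x.1, Cst.coc g x.1 • x.2) : Cst P × Z))
  rw [continuous_prod_of_discrete_left]
  intro w
  have h : Continuous fun z : Z => Cst.coc g w • z := continuous_const_smul (Cst.coc g w)
  exact (continuous_const : Continuous fun _ : Z => g • w).prodMk h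

theorem tw_proper [Finite P] : ProperAct G (Tw P Z) := by
  intro K hK
  have hF : (Prod.fst '' (K : Set (Cst P × Z))).Finite :=
    isCompact_iff_finite.1 (IsCompact.image (f := (Prod.fst : Cst P × Z → Cst P)) hK
      continuous_fst)
  have hfin : ∀ w w' : Cst P, {g : G | g • w = w'}.Finite := by
    intro w w'
    refine Set.Finite.of_finite_image (f := fun g => Cst.coc g w) (Set.toFinite _) ?_
    intro g hg g' hg' h
    have hg1 : g • w = w' := hg
    have hg2 : g' • w = w' := hg'
    have h' : Cst.coc g w = Cst.coc g' w := h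
    have e1 := Cst.rep_mul_coc g w
    have e2 := Cst.rep_mul_coc g' w
    rw [hg1] at e1
    rw [hg2, ← h', e1] at e2
    exact mul_right_cancel e2
  have hU : (⋃ w ∈ Prod.fst '' (K : Set (Cst P × Z)), ⋃ w' ∈ Prod.fst '' (K : Set (Cst P × Z)),
      {g : G | g • w = w'}).Finite :=
    hF.biUnion fun w _ => hF.biUnion fun w' _ => hfin w w'
  refine hU.subset ?_
  rintro g ⟨x, ⟨y, hy, hxy⟩, hx⟩
  have hxy' : g • y = x := hxy
  simp only [Set.mem_iUnion]
  refine ⟨y.1, ⟨y, hy, rfl⟩, x.1, ⟨x, hx, rfl⟩, ?_⟩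
  rw [← hxy']
  rfl

theorem tw_cocpt [CompactSpace Z] : Cocpt G (Tw P Z) := by
  refine ⟨({Cst.of P 1} ×ˢ univ : Set (Cst P × Z)), isCompact_singleton.prod isCompact_univ, ?_⟩
  intro x
  refine ⟨x.1.rep, (((Cst.of P 1, (Cst.coc x.1.rep (Cst.of P 1))⁻¹ • x.2) : Cst P × Z) : Tw P Z),
    ⟨rfl, mem_univ _⟩, ?_⟩
  rw [Tw.smul_def]
  change x = ((x.1.rep • Cst.of P 1, Cst.coc x.1.rep (Cst.of P 1) •
    ((Cst.coc x.1.rep (Cst.of P 1))⁻¹ • x.2)) : Cst P × Z)
  rw [smul_inv_smul, Cst.smul_of, mul_one, Cst.of_rep]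
  rfl

theorem tw_lcs [Countable G] (hZ : LCS Z) : LCS (Tw P Z) := by
  have h : LCS (Cst P × Z) := lcs_prod lcs_discrete hZ
  exact h

/-- the map of twisted products induced by `ψ` -/
noncomputable def twm {G : Type} [Group G] {P : Subgroup G} {Z Y : Type} [MulAction G Y]
    (ψ : Z → Y) (x : Tw P Z) : Y := x.1.rep • ψ x.2

theorem twm_eqv {Y : Type} [MulAction G Y] (ψ : Z → Y) (A : Set Z)
    (hψ : ∀ (a : P) (z : Z), z ∈ A → ψ (a • z) = (a : G) • ψ z) (g : G) (x : Tw P Z)
    (hx : x.2 ∈ A) : twm ψ (g • x) = g • twm ψ x := by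
  change (g • x.1).rep • ψ (Cst.coc g x.1 • x.2) = g • x.1.rep • ψ x.2
  rw [hψ _ _ hx, ← mul_smul, Cst.rep_mul_coc, mul_smul]

theorem tw_finite {Y : Type} [TopologicalSpace Y] [MulAction G Y] (hY : ProperAct G Y)
    (C K : Set Y) (hC : IsCompact C) (hK : IsCompact K) :
    {w : Cst P | ∃ y ∈ C, w.rep • y ∈ K}.Finite := by
  have h := hY (C ∪ K) (hC.union hK)
  refine Set.Finite.of_finite_image (f := Cst.rep) (h.subset ?_) Cst.rep_injective.injOn
  rintro _ ⟨w, ⟨y, hy, hyK⟩, rfl⟩
  exact ⟨w.rep • y, ⟨y, Or.inl hy, rfl⟩, Or.inr hyK⟩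

/-- the attaching data of a twisted product are good (`A ⊆ Z` compact, `φ` continuous on `A`) -/
theorem twm_podata {Y : Type} [TopologicalSpace Y] [T2Space Y] [T2Space Z] [MulAction G Y]
    [ContinuousConstSMul G Y] (hY : ProperAct G Y) (A : Set Z) (hA : IsCompact A) (φ : Z → Y)
    (hφ : ContinuousOn φ A) : POData {x : Tw P Z | x.2 ∈ A} (twm φ) := by
  have hsnd : Continuous (fun x : Tw P Z => x.2) :=
    (continuous_snd : Continuous (Prod.snd : Cst P × Z → Z))
  have hfst : Continuous (fun x : Tw P Z => x.1) :=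
    (continuous_fst : Continuous (Prod.fst : Cst P × Z → Cst P))
  have hcl : IsClosed {x : Tw P Z | x.2 ∈ A} := hA.isClosed.preimage hsnd
  have hcont : ContinuousOn (twm φ) {x : Tw P Z | x.2 ∈ A} := by
    apply continuousOn_of_locally_continuousOn
    intro x hx
    refine ⟨{y : Tw P Z | y.1 = x.1}, ?_, rfl, ?_⟩
    · exact (isOpen_discrete ({x.1} : Set (Cst P))).preimage hfst
    · have h1 : ContinuousOn (fun y : Tw P Z => x.1.rep • φ y.2)
          ({x : Tw P Z | x.2 ∈ A} ∩ {y : Tw P Z | y.1 = x.1}) :=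
        (continuous_const_smul x.1.rep).comp_continuousOn
          (hφ.comp hsnd.continuousOn fun y hy => hy.1)
      refine h1.congr fun y hy => ?_
      have : y.1 = x.1 := hy.2
      change y.1.rep • φ y.2 = x.1.rep • φ y.2
      rw [this]
  refine ⟨hcl, hcont, fun K hK => ?_⟩
  have hF := tw_finite (P := P) hY (φ '' A) K (hA.image_of_continuousOn hφ) hK
  have hc : IsCompact (({w : Cst P | ∃ y ∈ φ '' A, w.rep • y ∈ K} ×ˢ A : Set (Cst P × Z))) :=
    hF.isCompact.prod hA
  refine IsCompact.of_isClosed_subset (s := ({w : Cst P | ∃ y ∈ φ '' A, w.rep • y ∈ K} ×ˢ A :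
    Set (Cst P × Z))) hc (hcont.preimage_isClosed_of_isClosed hcl hK.isClosed) ?_
  rintro x ⟨hx, hxK⟩
  exact ⟨⟨φ x.2, ⟨x.2, hx, rfl⟩, hxK⟩, hx⟩

end Pool.Agent.H18.AR
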