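import Pool.Agent.H18.AR.EndD
import Pool.Agent.H18.AR.TwT
import Pool.Agent.H18.AR.PoG

set_option autoImplicit false

/-!
# The space with compactified ends, definitions

`U` with height `h` and `P`-action; `Zc h` the half `h ≥ 0`, `Zh h` the same half with the end
point. `XO P h φ`: the open space, `Y` with `G ×_P Zc h` attached along `h = 0` by `φ`.
`XH P h φ y0`: the space with compactified ends, `Y` with `G ×_P Zh h` attached.
-/

namespace Pool.Agent.H18.AR

open Set TopologicalSpace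

/-- the action on `EndPt h` which fixes the end point -/
instance EndPt.instAct {M U : Type} [Monoid M] [MulAction M U] (h : U → ℝ) :
    MulAction M (EndPt h) where
  smul g x := EndPt.desc h (fun u => EndPt.inc h (g • u)) (EndPt.pt h) x
  one_smul x := by
    change EndPt.desc h (fun u => EndPt.inc h ((1 : M) • u)) (EndPt.pt h) x = x
    rcases EndPt.cases h x with rfl | ⟨u, rfl⟩
    · rfl
    · rw [EndPt.desc_inc, one_smul]
  mul_smul g g' x := by
    change EndPt.desc h (fun u => EndPt.inc h ((g * g') • u)) (EndPt.pt h) x =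
      EndPt.desc h (fun u => EndPt.inc h (g • u)) (EndPt.pt h)
        (EndPt.desc h (fun u => EndPt.inc h (g' • u)) (EndPt.pt h) x)
    rcases EndPt.cases h x with rfl | ⟨u, rfl⟩
    · rfl
    · rw [EndPt.desc_inc, EndPt.desc_inc, EndPt.desc_inc, mul_smul]

theorem EndPt.smul_inc {M U : Type} [Monoid M] [MulAction M U] (h : U → ℝ) (g : M) (u : U) :
    g • EndPt.inc h u = EndPt.inc h (g • u) := rfl

theorem EndPt.smul_pt {M U : Type} [Monoid M] [MulAction M U] (h : U → ℝ) (g : M) :
    g • EndPt.pt h = EndPt.pt h := rfl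

/-- the height is invariant -/
class HInv (M : Type) {U : Type} [Monoid M] [MulAction M U] (h : U → ℝ) : Prop where
  inv : ∀ (a : M) (u : U), h (a • u) = h u

/-- the half `h ≥ 0` -/
def Zc {U : Type} (h : U → ℝ) : Type := {u : U // 0 ≤ h u}

instance Zc.instTop {U : Type} [TopologicalSpace U] (h : U → ℝ) : TopologicalSpace (Zc h) :=
  inferInstanceAs (TopologicalSpace {u : U // 0 ≤ h u})

/-- the half `h ≥ 0` with the end point -/
def Zh {U : Type} (h : U → ℝ) : Type := {x : EndPt h // x ∈ EndPt.ge h 0}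

instance Zh.instTop {U : Type} [TopologicalSpace U] (h : U → ℝ) : TopologicalSpace (Zh h) :=
  inferInstanceAs (TopologicalSpace {x : EndPt h // x ∈ EndPt.ge h 0})

theorem EndPt.ge_smul {M U : Type} [Monoid M] [MulAction M U] (h : U → ℝ) [HInv M h] (g : M)
    (x : EndPt h) (hx : x ∈ EndPt.ge h 0) : g • x ∈ EndPt.ge h 0 := by
  rcases hx with rfl | ⟨u, rfl, hu⟩
  · exact Or.inl rfl
  · exact Or.inr ⟨g • u, rfl, by rw [HInv.inv (h := h) g u]; exact hu⟩

instance Zh.instAct {M U : Type} [Monoid M] [MulAction M U] (h : U → ℝ) [HInv M h] :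
    MulAction M (Zh h) where
  smul g x := ⟨g • x.1, EndPt.ge_smul h g x.1 x.2⟩
  one_smul x := Subtype.ext (one_smul M x.1)
  mul_smul g g' x := Subtype.ext (mul_smul g g' x.1)

theorem Zh.smul_val {M U : Type} [Monoid M] [MulAction M U] (h : U → ℝ) [HInv M h] (g : M)
    (x : Zh h) : (g • x).1 = g • x.1 := rfl

/-- the part `h = 0` of `Zh h` -/
def Zh.zero {U : Type} (h : U → ℝ) : Set (Zh h) := {z | ∃ u, z.1 = EndPt.inc h u ∧ h u = 0}

section

variable {G : Type} [Group G] (P : Subgroup G) {Y U : Type} [MulAction G Y] (h : U → ℝ)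

/-- the open space `Y ∪ G ×_P Zc h` -/
abbrev XO (φ : U → Y) : Type :=
  PO {x : Tw P (Zc h) | h x.2.1 = 0} (twm (P := P) (fun z : Zc h => φ z.1))

/-- the space with compactified ends `Y ∪ G ×_P Zh h` -/
abbrev XH (φ : U → Y) (y0 : Y) : Type :=
  PO {x : Tw P (Zh h) | x.2 ∈ Zh.zero h} (twm (P := P) (fun z : Zh h => EndPt.desc h φ y0 z.1))

end

/-- the hypotheses on the end -/
structure EndData {G : Type} [Group G] (P : Subgroup G) {Y U : Type} [TopologicalSpace Y]
    [TopologicalSpace U] [MulAction G Y] [MulAction P U] (h : U → ℝ) (S : U ≃ₜ U) (φ : U → Y) :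
    Prop where
  tel : TelData h S
  ae : AE U
  cont : ContinuousOn φ {u | h u = 0}
  eqv : ∀ (a : P) (u : U), h u = 0 → φ (a • u) = (a : G) • φ u
  col : ∃ (N : Set U) (d : U × unitInterval → U), IsOpen N ∧ {u | h u = 0} ⊆ N ∧
    ContinuousOn d ((N ∩ {u | 0 ≤ h u}) ×ˢ univ) ∧
    (∀ u ∈ N, 0 ≤ h u → d (u, 0) = u ∧ h (d (u, 1)) = 0 ∧ ∀ t, 0 ≤ h (d (u, t))) ∧
    ∀ u, h u = 0 → ∀ t, d (u, t) = u

end Pool.Agent.H18.AR
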