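import Pool.Agent.H18.AR.TelT
import Pool.Agent.H18.AR.XhD

set_option autoImplicit false

/-!
# The open model as one homotopy coequalizer, definitions

`Tel p q` with the action of a monoid `M` when `p`, `q` are `M`-maps; `telS` the shift; `telφ` the
attaching map on height `0`. `Xc P p q φ₀`: `Y` with the rays of the telescope attached at all cosets:
vertex spaces `Y` and `(w, k) × L` (stage `k + 1` of the ray of the coset `w`), cylinders
`(w, k) × L × [0,1]`; at `1`: `p` into the stage `k + 1`; at `0`: `q` into the stage `k`, for `k = 0`
followed by `rep w • φ₀` into `Y`.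
-/

namespace Pool.Agent.H18.AR

open Set TopologicalSpace

/-- `f` commutes with the action of `M` -/
class EqMap (M : Type) {L : Type} [SMul M L] (f : L → L) : Prop where
  eqv : ∀ (a : M) (c : L), f (a • c) = a • f c

section

variable {L : Type} [TopologicalSpace L] [CompactSpace L] [MetrizableSpace L] {p q : L → L}

/-- the shift of the telescope -/
noncomputable def telS : Tel p q ≃ₜ Tel p q where
  toFun := telMap p q 1 id
  invFun := telMap p q (-1) id
  left_inv u := by
    rw [telMap_comp (p := p) (q := q) (-1) 1 id id (fun _ => rfl) (fun _ => rfl) (fun _ => rfl) (fun _ => rfl)]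
    exact telMap_zero u
  right_inv u := by
    rw [telMap_comp (p := p) (q := q) 1 (-1) id id (fun _ => rfl) (fun _ => rfl) (fun _ => rfl) (fun _ => rfl)]
    exact telMap_zero u
  continuous_toFun := telMap_continuous 1 id continuous_id (fun _ => rfl) (fun _ => rfl)
  continuous_invFun := telMap_continuous (-1) id continuous_id (fun _ => rfl) (fun _ => rfl)

noncomputable instance Tel.instAct {M : Type} [Monoid M] [MulAction M L] [EqMap M p]
    [EqMap M q] : MulAction M (Tel p q) where
  smul a u := telMap p q 0 (fun c => a • c) u
  one_smul u := by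
    change telMap p q 0 (fun c => (1 : M) • c) u = u
    have : (fun c : L => (1 : M) • c) = id := by funext c; exact one_smul M c
    rw [this]
    exact telMap_zero u
  mul_smul a b u := by
    change telMap p q 0 (fun c => (a * b) • c) u =
      telMap p q 0 (fun c => a • c) (telMap p q 0 (fun c => b • c) u)
    rw [telMap_comp 0 0 _ _ (fun c => (EqMap.eqv (f := p) a c).symm)
      (fun c => (EqMap.eqv (f := q) a c).symm) (fun c => (EqMap.eqv (f := p) b c).symm)
      (fun c => (EqMap.eqv (f := q) b c).symm)]
    have : (fun c : L => (a * b) • c) = (fun c => a • c) ∘ (fun c => b • c) := by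
      funext c; exact mul_smul a b c
    rw [this]
    rfl

theorem Tel.smul_def {M : Type} [Monoid M] [MulAction M L] [EqMap M p] [EqMap M q] (a : M)
    (u : Tel p q) : a • u = telMap p q 0 (fun c => a • c) u := rfl

end

section

variable {L : Type} (p q : L → L)

open Classical in
/-- the attaching map on the height `0` part of the telescope -/
noncomputable def telφ {Y : Type} (φ₀ : L → Y) : Tel p q → Y :=
  HC.desc (fun x => φ₀ x.2) (fun x t => if t = 0 then φ₀ (q x.2) else φ₀ (p x.2))

end

section

variable {G : Type} [Group G] (P : Subgroup G) {Y L : Type} [MulAction G Y] (p q : L → L)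
  (φ₀ : L → Y)

/-- attaching map at `0` -/
noncomputable def xcD0 (x : Cst P × ℕ × L) : Y ⊕ (Cst P × ℕ × L) :=
  match x with
  | (w, 0, c) => Sum.inl (w.rep • φ₀ (q c))
  | (w, k + 1, c) => Sum.inr (w, k, q c)

/-- attaching map at `1` -/
def xcD1 (x : Cst P × ℕ × L) : Y ⊕ (Cst P × ℕ × L) := Sum.inr (x.1, x.2.1, p x.2.2)

/-- the open model: `Y` with the rays of the telescope attached -/
abbrev Xc : Type := HC (xcD0 P q φ₀) (xcD1 (Y := Y) P p)

end

end Pool.Agent.H18.AR
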