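import Pool.Agent.H93.HU.Defs
import Pool.Agent.H18.AR.PoG
import Pool.Agent.H18.AR.XcD

set_option autoImplicit false

/-!
# Equivariant wedges of spheres, definitions

`Wdg R r m`: the wedge of the `m`-spheres `Cb m / Bd m` indexed by `R × Fin r`, with the action of the
group `R`; `pt` is the base point, `sph x` the characteristic map of the sphere `x`.
`weq s : Wdg R r m → T` is the `R`-map with value `g • s j` on the sphere `(g, j)`, for pointed cubes
`s j` at a fixed point of `T`.
-/

namespace Pool.Agent.H18.AR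

open Set TopologicalSpace Pool.H93.HU

/-- the discrete index set of the spheres -/
def Sx (R : Type) (r : ℕ) : Type := R × Fin r

/-- the group component -/
def Sx.gr {R : Type} {r : ℕ} (x : Sx R r) : R := Prod.fst x

/-- the index component -/
def Sx.ix {R : Type} {r : ℕ} (x : Sx R r) : Fin r := Prod.snd x

/-- the sphere `(g, j)` -/
def Sx.of {R : Type} {r : ℕ} (g : R) (j : Fin r) : Sx R r := (g, j)

instance Sx.instTop (R : Type) (r : ℕ) : TopologicalSpace (Sx R r) := ⊥

instance Sx.instDisc (R : Type) (r : ℕ) : DiscreteTopology (Sx R r) := ⟨rfl⟩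

instance Sx.instFinite (R : Type) [Finite R] (r : ℕ) : Finite (Sx R r) :=
  inferInstanceAs (Finite (R × Fin r))

instance Sx.instAct (R : Type) [Group R] (r : ℕ) : MulAction R (Sx R r) where
  smul a x := (a * x.1, x.2)
  one_smul x := Prod.ext (one_mul x.1) rfl
  mul_smul a b x := Prod.ext (mul_assoc a b x.1) rfl

theorem Sx.smul_of {R : Type} [Group R] {r : ℕ} (a g : R) (j : Fin r) :
    a • Sx.of g j = Sx.of (a * g) j := rfl

/-- the action on spheres times cubes -/
instance Sx.instAct' (R : Type) [Group R] (r m : ℕ) : MulAction R (Sx R r × Cb m) where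
  smul a z := (a • z.1, z.2)
  one_smul z := Prod.ext (one_smul R z.1) rfl
  mul_smul a b z := Prod.ext (mul_smul a b z.1) rfl

/-- the boundary part -/
abbrev wbd (R : Type) (r m : ℕ) : Set (Sx R r × Cb m) := {z | z.2 ∈ Bd m}

/-- the constant attaching map -/
def watt (R : Type) (r m : ℕ) : Sx R r × Cb m → Unit := fun _ => ()

/-- the wedge of spheres -/
abbrev Wdg (R : Type) (r m : ℕ) : Type := PO (wbd R r m) (watt R r m)

/-- the trivial action on the point -/
instance unitAct (R : Type) [Group R] : MulAction R Unit where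
  smul _ x := x
  one_smul _ := rfl
  mul_smul _ _ _ := rfl

theorem wdg_eqv (R : Type) [Group R] (r m : ℕ) : EqvData R (wbd R r m) (watt R r m) :=
  ⟨fun _ _ h => h, fun _ _ _ => rfl⟩

/-- the action on the wedge of spheres -/
noncomputable instance wdgAct (R : Type) [Group R] (r m : ℕ) : MulAction R (Wdg R r m) :=
  PO.act (wdg_eqv R r m)

namespace Wdg

variable {R : Type} {r m : ℕ}

/-- the base point -/
noncomputable def pt : Wdg R r m := PO.jY (wbd R r m) (watt R r m) ()

/-- the characteristic maps of the spheres -/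
noncomputable def sph (x : Sx R r) (y : Cb m) : Wdg R r m := PO.jB (wbd R r m) (watt R r m) (x, y)

theorem sph_bd (x : Sx R r) (y : Cb m) (h : y ∈ Bd m) : (sph x y : Wdg R r m) = pt :=
  PO.jB_mem (A := wbd R r m) (φ := watt R r m) (b := (x, y)) h

theorem smul_pt [Group R] (a : R) : a • (pt : Wdg R r m) = pt := rfl

theorem smul_sph [Group R] (a : R) (x : Sx R r) (y : Cb m) :
    a • (sph x y : Wdg R r m) = sph (a • x) y := PO.smul_jB (wdg_eqv R r m) a (x, y)

theorem cases (z : Wdg R r m) : z = pt ∨ ∃ x y, y ∉ Bd m ∧ z = sph x y := by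
  rcases PO.cases_mk z with ⟨u, h⟩ | ⟨b, hb, h⟩
  · exact Or.inl h
  · exact Or.inr ⟨b.1, b.2, hb, h⟩

/-- the equivariant map with value `g • s j` on the sphere `(g, j)` -/
noncomputable def weq {T : Type} [TopologicalSpace T] [Group R] [MulAction R T] {t0 : T}
    (s : Fin r → GenLoop (Fin m) T t0) : Wdg R r m → T :=
  PO.desc (fun _ => t0) (fun z => z.1.gr • s z.1.ix z.2)

theorem weq_pt {T : Type} [TopologicalSpace T] [Group R] [MulAction R T] {t0 : T}
    (s : Fin r → GenLoop (Fin m) T t0) : weq s (pt : Wdg R r m) = t0 := rfl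

theorem weq_sph {T : Type} [TopologicalSpace T] [Group R] [MulAction R T] {t0 : T}
    (ht : ∀ a : R, a • t0 = t0) (s : Fin r → GenLoop (Fin m) T t0) (g : R) (j : Fin r)
    (y : Cb m) : weq s (sph (Sx.of g j) y : Wdg R r m) = g • s j y := by
  refine PO.desc_jB (A := wbd R r m) (φ := watt R r m) (fun _ => t0)
    (fun z => z.1.gr • s z.1.ix z.2) ?_ (Sx.of g j, y)
  rintro ⟨x, z⟩ hz
  exact (congrArg (fun t => x.gr • t) ((s x.ix).2 z hz)).trans (ht _)

end Wdg

end Pool.Agent.H18.AR
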