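import Pool.Agent.H18.AR.TelE
import Pool.Agent.H18.AR.TwT
import Pool.Agent.H18.AR.CelB

set_option autoImplicit false

/-!
# The open model: proper attaching maps, cellularity (chapter C2 of MP_5c3080_gt)

`xcD1_proper`, `xcD0_proper`: `IsProperMap` by `isProperMap_iff_isCompact_preimage` (target
Hausdorff, locally compact: `lcs_sum`, `lcs_prod`): continuous (pieces `k = 0` and `k = j + 1`, `w` are
clopen since `Cst P` and `ℕ` are discrete; `L` carries everything continuous). Preimage of a compact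
`K`: it is closed; for `xcD1` it is contained in `F ×ˢ F' ×ˢ univ` with the finite projections of the
compact `Sum.inr ⁻¹' K`; for `xcD0` it is contained in the union of
`{w | rep w • φ₀ (q L) meets Sum.inl ⁻¹' K} × {0} × L` (`tw_finite` with the compact sets
`range (φ₀ ∘ q)` and `Sum.inl ⁻¹' K`) and `F × (F' + 1) × L`.
`xc_lcs`: `HC.hc_lcs`. `xc_cel`: `cel_hc`, `cel_sum`, `cel_discrete_prod` (twice; `Cst P × ℕ × L`),
from `Cel Y`, `Cel L`. `tel_cel`: `cel_hc`, `cel_discrete_prod`.
-/

namespace Pool.Agent.H18.AR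

open Set TopologicalSpace Pool.H93.HU

section

variable {G : Type} [Group G] {P : Subgroup G} {Y L : Type} [TopologicalSpace Y] [MulAction G Y]
  [ContinuousConstSMul G Y] [TopologicalSpace L] [CompactSpace L] [MetrizableSpace L]
  {p q : L → L} {φ₀ : L → Y}

private theorem xcE_lcs [Countable G] : LCS (Cst P × ℕ × L) :=
  lcs_prod lcs_discrete (lcs_prod lcs_discrete lcs_compact)

private theorem xcD0_cont (hq : Continuous q) (hφ : Continuous φ₀) :
    Continuous (xcD0 P q φ₀) := by
  rw [continuous_prod_of_discrete_left]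
  intro w
  rw [continuous_prod_of_discrete_left]
  intro k
  cases k with
  | zero =>
    have h : Continuous fun c : L => w.rep • φ₀ (q c) :=
      (continuous_const_smul w.rep).comp (hφ.comp hq)
    exact continuous_inl.comp h
  | succ k =>
    have h : Continuous fun c : L => ((w, k, q c) : Cst P × ℕ × L) :=
      continuous_const.prodMk (continuous_const.prodMk hq)
    exact continuous_inr.comp h

theorem xcD0_proper [Countable G] (hY : LCS Y) (pY : ProperAct G Y) (hq : Continuous q)
    (hφ : Continuous φ₀) : IsProperMap (xcD0 P q φ₀) := by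
  have hV : LCS (Y ⊕ (Cst P × ℕ × L)) := lcs_sum hY xcE_lcs
  obtain ⟨v1, v2, v3⟩ := hV
  have hcont := xcD0_cont (P := P) hq hφ
  rw [isProperMap_iff_isCompact_preimage]
  refine ⟨hcont, fun K hK => ?_⟩
  have hKl : IsCompact (Sum.inl ⁻¹' K : Set Y) :=
    Topology.IsClosedEmbedding.inl.isCompact_preimage hK
  have hKr : IsCompact (Sum.inr ⁻¹' K : Set (Cst P × ℕ × L)) :=
    Topology.IsClosedEmbedding.inr.isCompact_preimage hK
  have hF1 := tw_finite (P := P) pY (Set.range (φ₀ ∘ q)) (Sum.inl ⁻¹' K)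
    (isCompact_range (hφ.comp hq)) hKl
  have hF2 : (Prod.fst '' (Sum.inr ⁻¹' K : Set (Cst P × ℕ × L))).Finite :=
    isCompact_iff_finite.1 (hKr.image continuous_fst)
  have hF3 : ((fun x : Cst P × ℕ × L => x.2.1 + 1) '' (Sum.inr ⁻¹' K)).Finite := by
    refine isCompact_iff_finite.1 (hKr.image ?_)
    exact (continuous_of_discreteTopology (f := fun n : ℕ => n + 1)).comp
      (continuous_fst.comp continuous_snd)
  have hc := (hF1.isCompact.prod ((isCompact_singleton (x := (0 : ℕ))).prod
    (isCompact_univ (X := L)))).union (hF2.isCompact.prod (hF3.isCompact.prod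
    (isCompact_univ (X := L))))
  refine hc.of_isClosed_subset (hK.isClosed.preimage hcont) ?_
  rintro ⟨w, k, c⟩ hx
  cases k with
  | zero =>
    left
    exact ⟨⟨φ₀ (q c), ⟨c, rfl⟩, hx⟩, rfl, mem_univ _⟩
  | succ k =>
    right
    exact ⟨⟨(w, k, q c), hx, rfl⟩, ⟨(w, k, q c), hx, rfl⟩, mem_univ _⟩

theorem xcD1_proper [Countable G] (hY : LCS Y) (hp : Continuous p) :
    IsProperMap (xcD1 (Y := Y) P p) := by
  have h1 : IsProperMap (fun w : Cst P => w) := (Homeomorph.refl (Cst P)).isProperMap
  have h2 : IsProperMap (fun k : ℕ => k) := (Homeomorph.refl ℕ).isProperMap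
  have h3 := h1.prodMap (h2.prodMap hp.isProperMap)
  exact (Topology.IsClosedEmbedding.inr (X := Y) (Y := Cst P × ℕ × L)).isProperMap.comp h3

theorem xc_lcs [Countable G] (hY : LCS Y) (pY : ProperAct G Y) (hp : Continuous p)
    (hq : Continuous q) (hφ : Continuous φ₀) : LCS (Xc P p q φ₀) :=
  HC.hc_lcs (lcs_sum hY xcE_lcs) xcE_lcs (xcD0_proper hY pY hq hφ) (xcD1_proper hY hp)

theorem xc_cel [Countable G] (hY : LCS Y) (pY : ProperAct G Y) (hp : Continuous p)
    (hq : Continuous q) (hφ : Continuous φ₀) (cY : Cel Y) (cL : Cel L) :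
    Cel (Xc P p q φ₀) :=
  cel_hc (lcs_sum hY xcE_lcs) xcE_lcs (xcD0_proper hY pY hq hφ) (xcD1_proper hY hp)
    (cel_sum cY (cel_discrete_prod (cel_discrete_prod cL)))
    (cel_discrete_prod (cel_discrete_prod cL))

theorem tel_cel (hp : Continuous p) (hq : Continuous q) (cL : Cel L) : Cel (Tel p q) :=
  cel_hc (lcs_prod lcs_discrete lcs_compact) (lcs_prod lcs_discrete lcs_compact)
    (telD0_proper hq) (telD1_proper hp) (cel_discrete_prod cL) (cel_discrete_prod cL)

end

end Pool.Agent.H18.AR
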